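import Pool.Agent.Lib_MP_ec220f_lc.Stage

/-!
Consistency and locality of the acceptance process.
-/

namespace MPec220f

open Finset Function

open scoped Classical in
section

variable {V : Type} {𝓕 : Set TG} {Γ : SimpleGraph V} {m : ℕ} {lam0 lam : V → ℕ}

/-- Accepted patterns with key at most `κ`. -/
def lev (𝓕 : Set TG) (Γ : SimpleGraph V) (m : ℕ) (lam0 lam : V → ℕ) (κ : ℕ ×ₗ ℕ) :
    Set (Pat (V ⊕ V)) := {P | key m lam0 lam P ≤ κ ∧ Accp 𝓕 Γ m lam0 lam P}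

theorem hf_below (hΓ : HF 𝓕 Γ) {κ : ℕ ×ₗ ℕ}
    (h : ∀ κ' < κ, HF 𝓕 (attach (dbl Γ) (lev 𝓕 Γ m lam0 lam κ'))) :
    HF 𝓕 (attach (dbl Γ) (below 𝓕 Γ m lam0 lam κ)) := by
  refine hf_finite fun T hT => ?_
  rcases T.eq_empty_or_nonempty with rfl | hne
  · rw [Finset.coe_empty]
    exact hf_attach_empty hΓ
  · obtain ⟨P, hP, hmax⟩ := Finset.exists_max_image T (key m lam0 lam) hne
    refine (h (key m lam0 lam P) (hT hP).1).of_hom id (attach_mono ?_)
    intro Q hQ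
    exact ⟨hmax Q hQ, (hT hQ).2⟩

/-- Consistency at every level. -/
theorem hf_lev (hHC : HC 𝓕) (hbd : ∀ F ∈ 𝓕, F.n ≤ m) (hΓ : HF 𝓕 Γ) (hEC : EC 𝓕 Γ)
    (h0 : Injective lam0) (h1 : Injective lam) (κ : ℕ ×ₗ ℕ) :
    HF 𝓕 (attach (dbl Γ) (lev 𝓕 Γ m lam0 lam κ)) := by
  induction κ using WellFoundedLT.induction with
  | ind κ ih =>
  have hb := hf_below hΓ ih
  by_contra hno
  have hex : ∃ n : ℕ, ∃ T : Finset (Pat (V ⊕ V)), T.card = n ∧
      (∀ P ∈ T, key m lam0 lam P = κ ∧ Accp 𝓕 Γ m lam0 lam P) ∧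
      ¬ HF 𝓕 (attach (dbl Γ) (below 𝓕 Γ m lam0 lam κ ∪ (T : Set (Pat (V ⊕ V))))) := by
    by_contra hno2
    apply hno
    refine hf_finite fun T hT => ?_
    have h2 : HF 𝓕 (attach (dbl Γ) (below 𝓕 Γ m lam0 lam κ ∪
        ((T.filter fun P => key m lam0 lam P = κ : Finset _) : Set (Pat (V ⊕ V))))) := by
      by_contra h3
      exact hno2 ⟨_, _, rfl, fun P hP => ⟨(Finset.mem_filter.mp hP).2,
        (hT (Finset.mem_filter.mp hP).1).2⟩, h3⟩
    refine h2.of_hom id (attach_mono ?_)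
    intro P hP
    rcases lt_or_eq_of_le (hT hP).1 with h3 | h3
    · exact Or.inl ⟨h3, (hT hP).2⟩
    · exact Or.inr (Finset.mem_coe.mpr (Finset.mem_filter.mpr ⟨hP, h3⟩))
  obtain ⟨T, hcard, hT, hinc⟩ := Nat.find_spec hex
  have hmin : ∀ T' : Finset (Pat (V ⊕ V)), T' ⊆ T → T'.card < T.card →
      HF 𝓕 (attach (dbl Γ) (below 𝓕 Γ m lam0 lam κ ∪ (T' : Set (Pat (V ⊕ V))))) := by
    intro T' hT' hlt
    by_contra h3
    exact Nat.find_min hex (m := T'.card) (by omega) ⟨T', rfl, fun P hP => hT P (hT' hP), h3⟩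
  -- all root sets agree
  have hroots : ∀ P ∈ T, ∀ P' ∈ T, P'.roots ⊆ P.roots := by
    intro P hP
    by_contra hne
    push Not at hne
    obtain ⟨P', hP', hP'r⟩ := hne
    have hf1 := hmin (T.filter fun R => R.roots ⊆ P.roots) (Finset.filter_subset _ _)
      (Finset.card_lt_card (Finset.filter_ssubset.mpr ⟨P', hP', hP'r⟩))
    have hf2 := hmin (T.erase P) (Finset.erase_subset _ _) (Finset.card_erase_lt_of_mem hP)
    obtain ⟨F, hF, f, hf, hinj⟩ := hHC _ _ hinc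
    set S : Set (Pat (V ⊕ V)) := below 𝓕 Γ m lam0 lam κ ∪ ((T.erase P : Finset _) : Set _) with hS
    have hPS : P ∉ S := by
      rintro (h2 | h2)
      · exact absurd (hT P hP).1 h2.1.ne
      · simp at h2
    have hins : insert P S = below 𝓕 Γ m lam0 lam κ ∪ (T : Set (Pat (V ⊕ V))) := by
      ext R
      simp only [hS, Set.mem_insert_iff, Set.mem_union, Finset.coe_erase, Set.mem_sdiff,
        Finset.mem_coe, Set.mem_singleton_iff]
      constructor
      · rintro (rfl | h2 | h2)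
        · exact Or.inr hP
        · exact Or.inl h2
        · exact Or.inr h2.1
      · rintro (h2 | h2)
        · exact Or.inr (Or.inl h2)
        · by_cases h3 : R = P
          · exact Or.inl h3
          · exact Or.inr (Or.inr ⟨h2, h3⟩)
    rw [← hins] at hf
    have hacc := accp_iff.mp (hT P hP).2
    obtain ⟨⟨i, v, hv⟩, -⟩ := hacc.1.2
    obtain ⟨f', hf'⟩ := cut_lemma (hbd F hF) hPS hf hinj (Sum.inl v)
      (H := attach (dbl Γ) (below 𝓕 Γ m lam0 lam κ ∪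
        ((T.filter fun R => R.roots ⊆ P.roots : Finset _) : Set (Pat (V ⊕ V)))))
      Sum.inl (fun _ _ _ _ h => h)
      (holds_attach (Or.inr (Finset.mem_coe.mpr (Finset.mem_filter.mpr ⟨hP, subset_refl _⟩)))) (by
        rintro Q hQ hQr ⟨φ, hφ⟩
        by_cases hTwo : Q.Two
        · have hφ' : InjHolds (attach (dbl Γ) S) Q.roots Q φ :=
            ⟨hφ.1, hφ.2.1, hφ.2.2.1, fun i hi u hu => hφ.2.2.2 i hi u (hQr hu)⟩
          rcases key_cases (m := m) (lam0 := lam0) (lam := lam) (κ := κ) hf2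
            (Set.subset_union_left) (by
              rintro s (h2 | h2)
              · exact h2.1.le
              · exact (hT s (Finset.mem_of_mem_erase h2)).1.le) hQ hTwo hφ' with h2 | ⟨s, hs, hsr, hh⟩
          · exact holds_attach (Or.inl h2)
          · refine hh _ _ _ (holds_attach ?_)
            rcases hs with hs | hs
            · exact Or.inl hs
            · exact Or.inr (Finset.mem_coe.mpr (Finset.mem_filter.mpr
                ⟨Finset.mem_of_mem_erase hs, hsr ▸ hQr⟩))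
        · exact holds_attach_base (one_sided hEC hf2 hTwo ⟨φ, hφ.1, hφ.2.1⟩))
    exact hf1 F hF f' hf'
  have heq : ∀ P ∈ T, ∀ P' ∈ T, P = P' := by
    intro P hP P' hP'
    exact key_eq h0 h1 (subset_antisymm (hroots P' hP' P hP) (hroots P hP P' hP'))
      ((hT P hP).1.trans (hT P' hP').1.symm)
  rcases T.eq_empty_or_nonempty with rfl | ⟨P, hP⟩
  · apply hinc
    rw [Finset.coe_empty, Set.union_empty]
    exact hb
  · apply hinc
    have h2 := (accp_iff.mp (hT P hP).2).2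
    rw [(hT P hP).1] at h2
    refine h2.of_hom id (attach_mono ?_)
    rintro R (h3 | h3)
    · exact Or.inr h3
    · exact Or.inl (heq R h3 P hP)

/-- The set of all accepted patterns is consistent. -/
theorem hf_accp (hHC : HC 𝓕) (hbd : ∀ F ∈ 𝓕, F.n ≤ m) (hΓ : HF 𝓕 Γ) (hEC : EC 𝓕 Γ)
    (h0 : Injective lam0) (h1 : Injective lam) :
    HF 𝓕 (attach (dbl Γ) {P | Accp 𝓕 Γ m lam0 lam P}) := by
  refine hf_finite fun T hT => ?_
  rcases T.eq_empty_or_nonempty with rfl | hne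
  · rw [Finset.coe_empty]
    exact hf_attach_empty hΓ
  · obtain ⟨P, hP, hmax⟩ := Finset.exists_max_image T (key m lam0 lam) hne
    refine (hf_lev hHC hbd hΓ hEC h0 h1 (key m lam0 lam P)).of_hom id (attach_mono ?_)
    intro Q hQ
    exact ⟨hmax Q hQ, hT hQ⟩

theorem dm_hom {g : V → V} (hg : ∀ a b, Γ.Adj a b → Γ.Adj (g a) (g b)) :
    ∀ u v, (dbl Γ).Adj u v → (dbl Γ).Adj (dm g u) (dm g v) := by
  rintro (a | a) (b | b) h
  · exact h
  · exact h
  · exact h
  · exact hg _ _ h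

/-- Locality of the acceptance process, one direction. -/
theorem accp_map_aux (hHC : HC 𝓕) (hbd : ∀ F ∈ 𝓕, F.n ≤ m) (hΓ : HF 𝓕 Γ) (hEC : EC 𝓕 Γ)
    (h0 : Injective lam0) (κ : ℕ ×ₗ ℕ) : ∀ (lam lam' : V → ℕ), Injective lam → Injective lam' →
    ∀ g : Equiv.Perm V, (∀ a b, Γ.Adj (g a) (g b) ↔ Γ.Adj a b) → ∀ P : Pat (V ⊕ V),
    (∀ u ∈ P.roots, ∀ v ∈ P.roots, LT2 lam0 lam u v ↔ LT2 lam0 lam' (dm g u) (dm g v)) →
    key m lam0 lam P = κ → Accp 𝓕 Γ m lam0 lam P → Accp 𝓕 Γ m lam0 lam' (P.map (dm g)) := by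
  induction κ using WellFoundedLT.induction with
  | ind κ ih =>
  intro lam lam' h1 h1' g hg P hord hκ hacc
  have hkey : key m lam0 lam' (P.map (dm g)) = κ := by rw [key_map g.injective hord, hκ]
  obtain ⟨⟨hgood, htwo⟩, hHF⟩ := accp_iff.mp hacc
  rw [hκ] at hHF
  rw [accp_iff]
  refine ⟨⟨hgood.map _, Two_map.mpr htwo⟩, ?_⟩
  rw [hkey]
  by_contra hno
  obtain ⟨F, hF, f, hf, hinj⟩ := hHC _ _ hno
  have hPS : P.map (dm g) ∉ below 𝓕 Γ m lam0 lam' κ := fun h2 => absurd hkey h2.1.ne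
  have hsub : HF 𝓕 (attach (dbl Γ) (below 𝓕 Γ m lam0 lam' κ)) :=
    (hf_lev hHC hbd hΓ hEC h0 h1' κ).of_hom id (attach_mono fun R hR => ⟨hR.1.le, hR.2⟩)
  have hgs : ∀ a b, Γ.Adj a b → Γ.Adj (g.symm a) (g.symm b) := by
    intro a b hab
    rw [← hg]
    simpa using hab
  have hdd : ∀ u, dm g.symm (dm g u) = u := by
    rintro (a | a) <;> simp [dm]
  have hback : ∀ R : Pat (V ⊕ V), R.roots ⊆ (P.map (dm g)).roots → R ∈ below 𝓕 Γ m lam0 lam' κ →
      Holds (attach (dbl Γ) (insert P (below 𝓕 Γ m lam0 lam κ)))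
        (fun u => Sum.inl (dm g.symm u)) R := by
    intro R hR hRb
    have hord' : ∀ u ∈ R.roots, ∀ v ∈ R.roots,
        LT2 lam0 lam' u v ↔ LT2 lam0 lam (dm g.symm u) (dm g.symm v) := by
      intro u hu v hv
      obtain ⟨u', hu1, rfl⟩ := mem_roots_map.mp (hR hu)
      obtain ⟨v', hv1, rfl⟩ := mem_roots_map.mp (hR hv)
      rw [hdd, hdd]
      exact (hord u' hu1 v' hv1).symm
    have hk : key m lam0 lam (R.map (dm g.symm)) = key m lam0 lam' R :=
      key_map g.symm.injective hord'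
    have h2 := ih (key m lam0 lam' R) hRb.1 lam' lam h1' h1 g.symm (fun a b => by
      rw [← hg]; simp) R hord' rfl hRb.2
    have h3 : Holds (attach (dbl Γ) (insert P (below 𝓕 Γ m lam0 lam κ))) Sum.inl
        (R.map (dm g.symm)) := holds_attach (Or.inr ⟨by rw [hk]; exact hRb.1, h2⟩)
    exact holds_map.mp h3
  obtain ⟨⟨i, v, hv⟩, -⟩ := htwo
  obtain ⟨f', hf'⟩ := cut_lemma (hbd F hF) hPS hf hinj (Sum.inl v)
    (H := attach (dbl Γ) (insert P (below 𝓕 Γ m lam0 lam κ)))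
    (fun u => Sum.inl (dm g.symm u)) (fun u _ v _ h => dm_hom hgs u v h)
    (by
      rw [holds_map]
      simp only [hdd]
      exact holds_attach (Or.inl rfl)) (by
      rintro Q hQ hQr ⟨φ, hφ⟩
      by_cases hTwo : Q.Two
      · have hφ' : InjHolds (attach (dbl Γ) (below 𝓕 Γ m lam0 lam' κ)) Q.roots Q φ :=
          ⟨hφ.1, hφ.2.1, hφ.2.2.1, fun i hi u hu => hφ.2.2.2 i hi u (hQr hu)⟩
        rcases key_cases (m := m) (lam0 := lam0) (lam := lam') (κ := κ) hsub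
          (subset_refl _) (fun s hs => hs.1.le) hQ hTwo hφ' with h2 | ⟨s, hs, hsr, hh⟩
        · exact hback Q hQr h2
        · exact hh _ _ _ (hback s (hsr ▸ hQr) hs)
      · have h2 := one_sided hEC hsub hTwo ⟨φ, hφ.1, hφ.2.1⟩
        have h3 := h2.hom (dm g.symm) (dm_hom hgs)
        exact h3.hom Sum.inl (H' := attach (dbl Γ) (insert P (below 𝓕 Γ m lam0 lam κ)))
          (fun _ _ h => h))
  exact hHF F hF f' hf'

/-- Locality of the acceptance process. -/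
theorem accp_map (hHC : HC 𝓕) (hbd : ∀ F ∈ 𝓕, F.n ≤ m) (hΓ : HF 𝓕 Γ) (hEC : EC 𝓕 Γ)
    (h0 : Injective lam0) {lam lam' : V → ℕ} (h1 : Injective lam) (h1' : Injective lam')
    {g : Equiv.Perm V} (hg : ∀ a b, Γ.Adj (g a) (g b) ↔ Γ.Adj a b) {P : Pat (V ⊕ V)}
    (hord : ∀ u ∈ P.roots, ∀ v ∈ P.roots, LT2 lam0 lam u v ↔ LT2 lam0 lam' (dm g u) (dm g v)) :
    Accp 𝓕 Γ m lam0 lam' (P.map (dm g)) ↔ Accp 𝓕 Γ m lam0 lam P := by
  constructor
  · intro h
    have hdd : ∀ u, dm g.symm (dm g u) = u := by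
      rintro (a | a) <;> simp [dm]
    have h2 := accp_map_aux hHC hbd hΓ hEC h0 _ lam' lam h1' h1 g.symm (fun a b => by
      rw [← hg]; simp) (P.map (dm g)) (by
        intro u hu v hv
        obtain ⟨u', hu1, rfl⟩ := mem_roots_map.mp hu
        obtain ⟨v', hv1, rfl⟩ := mem_roots_map.mp hv
        rw [hdd, hdd]
        exact (hord u' hu1 v' hv1).symm) rfl h
    rw [Pat.map_map] at h2
    simp only [hdd] at h2
    rwa [Pat.map_id] at h2
  · exact accp_map_aux hHC hbd hΓ hEC h0 _ lam lam' h1 h1' g hg P hord rfl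

end

end MPec220f
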