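import Mathlib

/-!
MP_ec220f_lc, algebra part 3: averages over all orders of a finite set; restrictions of a
uniformly random order to disjoint sets are independent.
-/

namespace Pool.Agent.MPec220f

variable {Ω : Type*} [DecidableEq Ω]

/-- all orders of the finite set `C`, as lists without repetition -/
def ords (C : Finset Ω) : Finset (List Ω) := ⟨Multiset.lists C.val, Multiset.lists_nodup_finset C⟩

theorem mem_ords_iff' (C : Finset Ω) (l : List Ω) : l ∈ ords C ↔ C.val = (l : Multiset Ω) := by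
  show l ∈ Multiset.lists C.val ↔ _
  rw [Multiset.mem_lists_iff]
  rfl

theorem mem_ords_iff (C : Finset Ω) (l : List Ω) :
    l ∈ ords C ↔ l.Nodup ∧ ∀ x, x ∈ l ↔ x ∈ C := by
  rw [mem_ords_iff']
  constructor
  · intro h
    constructor
    · have := C.nodup
      rw [h] at this
      exact this
    · intro x
      rw [← Finset.mem_val, h, Multiset.mem_coe]
  · rintro ⟨h1, h2⟩
    rw [Multiset.Nodup.ext C.nodup (by simpa using h1)]
    intro x
    rw [Finset.mem_val, Multiset.mem_coe, h2]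

theorem ords_nonempty (C : Finset Ω) : (ords C).Nonempty :=
  ⟨C.toList, by rw [mem_ords_iff']; simp⟩

theorem filter_mem_ords {C C1 : Finset Ω} (h : C1 ⊆ C) {l : List Ω} (hl : l ∈ ords C) :
    l.filter (· ∈ C1) ∈ ords C1 := by
  rw [mem_ords_iff] at *
  refine ⟨hl.1.filter _, fun x => ?_⟩
  rw [List.mem_filter, hl.2]
  constructor
  · rintro ⟨_, h2⟩; simpa using h2
  · intro h2; exact ⟨h h2, by simpa using h2⟩

theorem map_mem_ords {C : Finset Ω} {g : Ω → Ω} (hg : Function.Injective g) {l : List Ω}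
    (hl : l ∈ ords C) : l.map g ∈ ords (C.image g) := by
  rw [mem_ords_iff] at *
  refine ⟨hl.1.map hg, fun x => ?_⟩
  simp [hl.2]

theorem exists_perm_map {l l' : List Ω} (h : l.Perm l') (hn : l.Nodup) :
    ∃ π : Equiv.Perm Ω, l.map π = l' ∧ ∀ x, x ∉ l → π x = x := by
  induction h with
  | nil => exact ⟨1, by simp, by simp⟩
  | cons x h ih =>
    rw [List.nodup_cons] at hn
    obtain ⟨π, h1, h2⟩ := ih hn.2
    refine ⟨π, ?_, ?_⟩
    · rw [List.map_cons, h1, h2 x hn.1]
    · intro y hy
      apply h2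
      intro h; exact hy (List.mem_cons_of_mem _ h)
  | swap x y l =>
    refine ⟨Equiv.swap x y, ?_, ?_⟩
    · simp only [List.nodup_cons, List.mem_cons, not_or] at hn
      rw [List.map_cons, List.map_cons, Equiv.swap_apply_right, Equiv.swap_apply_left]
      congr 2
      conv_rhs => rw [← List.map_id l]
      apply List.map_congr_left
      intro a ha
      rw [Equiv.swap_apply_of_ne_of_ne]
      · rfl
      · rintro rfl; exact hn.2.1 ha
      · rintro rfl; exact hn.1.2 ha
    · intro z hz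
      simp only [List.mem_cons, not_or] at hz
      exact Equiv.swap_apply_of_ne_of_ne hz.2.1 hz.1
  | trans h12 h23 ih1 ih2 =>
    obtain ⟨π1, h1, h2⟩ := ih1 hn
    obtain ⟨π2, h3, h4⟩ := ih2 (h12.nodup_iff.mp hn)
    refine ⟨π2 * π1, ?_, ?_⟩
    · rw [← h3, ← h1, List.map_map]
      rfl
    · intro x hx
      rw [Equiv.Perm.mul_apply, h2 x hx, h4]
      intro h; exact hx (h12.mem_iff.mpr h)

theorem exists_perm_ords {C : Finset Ω} {l l' : List Ω} (h : l ∈ ords C) (h' : l' ∈ ords C) :
    ∃ π : Equiv.Perm Ω, l.map π = l' ∧ ∀ x, x ∉ C → π x = x := by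
  have hp : l.Perm l' := by
    rw [← Multiset.coe_eq_coe, ← (mem_ords_iff' C l).mp h, ← (mem_ords_iff' C l').mp h']
  obtain ⟨π, h1, h2⟩ := exists_perm_map hp ((mem_ords_iff C l).mp h).1
  refine ⟨π, h1, fun x hx => h2 x ?_⟩
  rwa [((mem_ords_iff C l).mp h).2]

/-- number of orders of `C` with given restrictions to `C1` and `C2` -/
theorem fiber_card_le {C C1 C2 : Finset Ω} (h1 : C1 ⊆ C) (h2 : C2 ⊆ C) (hd : Disjoint C1 C2)
    {l1 l1' l2 l2' : List Ω} (hl1 : l1 ∈ ords C1) (hl1' : l1' ∈ ords C1) (hl2 : l2 ∈ ords C2)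
    (hl2' : l2' ∈ ords C2) :
    ((ords C).filter (fun l => l.filter (· ∈ C1) = l1 ∧ l.filter (· ∈ C2) = l2)).card ≤
    ((ords C).filter (fun l => l.filter (· ∈ C1) = l1' ∧ l.filter (· ∈ C2) = l2')).card := by
  obtain ⟨π1, e1, f1⟩ := exists_perm_ords hl1 hl1'
  obtain ⟨π2, e2, f2⟩ := exists_perm_ords hl2 hl2'
  -- `π1` preserves `C1`, `π2` preserves `C2`
  have g1 : ∀ x, π1 x ∈ C1 ↔ x ∈ C1 := by
    intro x
    have a1 := ((mem_ords_iff C1 l1).mp hl1).2
    have a2 := ((mem_ords_iff C1 l1').mp hl1').2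
    constructor
    · intro hx
      by_contra hx'
      rw [f1 x hx'] at hx
      exact hx' hx
    · intro hx
      rw [← a2, ← e1]
      exact List.mem_map_of_mem ((a1 x).mpr hx)
  have g2 : ∀ x, π2 x ∈ C2 ↔ x ∈ C2 := by
    intro x
    have a1 := ((mem_ords_iff C2 l2).mp hl2).2
    have a2 := ((mem_ords_iff C2 l2').mp hl2').2
    constructor
    · intro hx
      by_contra hx'
      rw [f2 x hx'] at hx
      exact hx' hx
    · intro hx
      rw [← a2, ← e2]
      exact List.mem_map_of_mem ((a1 x).mpr hx)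
  have d1 : ∀ x, x ∈ C1 → x ∉ C2 := fun x h h' => (Finset.disjoint_left.mp hd) h h'
  let π : Equiv.Perm Ω := π1 * π2
  have p1 : ∀ x, x ∈ C1 → π x = π1 x := by
    intro x hx
    show π1 (π2 x) = π1 x
    rw [f2 x (d1 x hx)]
  have p2 : ∀ x, x ∈ C2 → π x = π2 x := by
    intro x hx
    show π1 (π2 x) = π2 x
    rw [f1]
    intro h
    exact d1 _ h ((g2 x).mpr hx)
  have q1 : ∀ x, π x ∈ C1 ↔ x ∈ C1 := by
    intro x
    show π1 (π2 x) ∈ C1 ↔ _
    rw [g1]
    by_cases hx : x ∈ C2
    · constructor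
      · intro h; exact absurd ((g2 x).mpr hx) (d1 _ h)
      · intro h; exact absurd hx (d1 _ h)
    · rw [f2 x hx]
  have q2 : ∀ x, π x ∈ C2 ↔ x ∈ C2 := by
    intro x
    show π1 (π2 x) ∈ C2 ↔ _
    rw [← g2 x]
    by_cases hx : π2 x ∈ C1
    · constructor
      · intro h; exact absurd h (d1 _ ((g1 _).mpr hx))
      · intro h; exact absurd h (d1 _ hx)
    · rw [f1 _ hx]
  have q : ∀ x, π x ∈ C ↔ x ∈ C := by
    intro x
    by_cases hx1 : x ∈ C1
    · exact ⟨fun _ => h1 hx1, fun _ => h1 ((q1 x).mpr hx1)⟩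
    by_cases hx2 : x ∈ C2
    · exact ⟨fun _ => h2 hx2, fun _ => h2 ((q2 x).mpr hx2)⟩
    show π1 (π2 x) ∈ C ↔ _
    rw [f2 x hx2, f1 x hx1]
  have qf : ∀ (l : List Ω) (D : Finset Ω), (∀ x, π x ∈ D ↔ x ∈ D) →
      (l.map π).filter (· ∈ D) = (l.filter (· ∈ D)).map π := by
    intro l D hD
    rw [List.filter_map]
    congr 1
    apply List.filter_congr
    intro x _
    simp [hD]
  apply Finset.card_le_card_of_injOn (fun l => l.map π)
  · intro l hl
    rw [Finset.mem_coe, Finset.mem_filter] at hl ⊢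
    obtain ⟨ha, hb, hc⟩ := hl
    refine ⟨?_, ?_, ?_⟩
    · rw [mem_ords_iff] at *
      refine ⟨ha.1.map π.injective, fun x => ?_⟩
      rw [List.mem_map]
      constructor
      · rintro ⟨a, h3, rfl⟩
        rw [q, ← ha.2]; exact h3
      · intro hx
        refine ⟨π.symm x, ?_, by simp⟩
        rw [ha.2, ← q]; simpa using hx
    · rw [qf l C1 q1, hb, ← e1]
      apply List.map_congr_left
      intro x hx
      exact p1 x (((mem_ords_iff C1 l1).mp hl1).2 x |>.mp hx)
    · rw [qf l C2 q2, hc, ← e2]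
      apply List.map_congr_left
      intro x hx
      exact p2 x (((mem_ords_iff C2 l2).mp hl2).2 x |>.mp hx)
  · intro l _ l' _ h
    exact (List.map_injective_iff.mpr π.injective) h

/-- average over all orders of `C` -/
def avg (C : Finset Ω) (F : List Ω → ℚ) : ℚ := (∑ l ∈ ords C, F l) / (ords C).card

theorem avg_const (C : Finset Ω) (c : ℚ) : avg C (fun _ => c) = c := by
  rw [avg, Finset.sum_const, nsmul_eq_mul]
  have : ((ords C).card : ℚ) ≠ 0 := by
    have := (ords_nonempty C).card_pos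
    positivity
  field_simp

theorem avg_congr (C : Finset Ω) {F H : List Ω → ℚ} (h : ∀ l ∈ ords C, F l = H l) :
    avg C F = avg C H := by
  rw [avg, avg, Finset.sum_congr rfl h]

theorem avg_image (C : Finset Ω) {g : Ω → Ω} (hg : Function.Injective g) (F : List Ω → ℚ) :
    avg (C.image g) F = avg C (fun l => F (l.map g)) := by
  have h1 : ords (C.image g) = (ords C).image (fun l => l.map g) := by
    ext l
    constructor
    · intro hl
      rw [mem_ords_iff] at hl
      rw [Finset.mem_image]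
      have hl2 : ∀ x ∈ l, ∃ a ∈ C, g a = x := by
        intro x hx
        have := (hl.2 x).mp hx
        rwa [Finset.mem_image] at this
      -- build the preimage list
      have : ∃ m : List Ω, m.map g = l := by
        have : ∀ l : List Ω, (∀ x ∈ l, ∃ a ∈ C, g a = x) → ∃ m : List Ω, m.map g = l := by
          intro l
          induction l with
          | nil => intro _; exact ⟨[], rfl⟩
          | cons x l ih =>
            intro h
            obtain ⟨m, hm⟩ := ih (fun y hy => h y (List.mem_cons_of_mem _ hy))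
            obtain ⟨a, _, ha⟩ := h x (List.mem_cons_self)
            exact ⟨a :: m, by simp [hm, ha]⟩
        exact this l hl2
      obtain ⟨m, rfl⟩ := this
      refine ⟨m, ?_, rfl⟩
      rw [mem_ords_iff]
      refine ⟨hl.1.of_map g, fun x => ?_⟩
      have := hl.2 (g x)
      rw [List.mem_map_of_injective hg, Finset.mem_image] at this
      rw [this]
      constructor
      · rintro ⟨a, ha, hab⟩; rw [← hg hab]; exact ha
      · intro hx; exact ⟨x, hx, rfl⟩
    · intro hl
      rw [Finset.mem_image] at hl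
      obtain ⟨m, hm, rfl⟩ := hl
      exact map_mem_ords hg hm
  have hinj : Function.Injective (fun l : List Ω => l.map g) := List.map_injective_iff.mpr hg
  rw [avg, avg, h1, Finset.sum_image (fun a _ b _ h => hinj h),
    Finset.card_image_of_injective _ hinj]

theorem avg_indep {C C1 C2 : Finset Ω} (h1 : C1 ⊆ C) (h2 : C2 ⊆ C) (hd : Disjoint C1 C2)
    (F H : List Ω → ℚ) :
    avg C (fun l => F (l.filter (· ∈ C1)) * H (l.filter (· ∈ C2))) = avg C1 F * avg C2 H := by
  obtain ⟨l10, hl10⟩ := ords_nonempty C1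
  obtain ⟨l20, hl20⟩ := ords_nonempty C2
  set N : ℕ := ((ords C).filter (fun l => l.filter (· ∈ C1) = l10 ∧
    l.filter (· ∈ C2) = l20)).card with hN
  have hNc : ∀ l1 ∈ ords C1, ∀ l2 ∈ ords C2, ((ords C).filter (fun l => l.filter (· ∈ C1) = l1 ∧
    l.filter (· ∈ C2) = l2)).card = N := fun l1 hl1 l2 hl2 =>
    le_antisymm (fiber_card_le h1 h2 hd hl1 hl10 hl2 hl20)
      (fiber_card_le h1 h2 hd hl10 hl1 hl20 hl2)
  have key : ∀ F H : List Ω → ℚ, ∑ l ∈ ords C, F (l.filter (· ∈ C1)) * H (l.filter (· ∈ C2)) =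
      N * ((∑ l ∈ ords C1, F l) * ∑ l ∈ ords C2, H l) := by
    intro F H
    rw [← Finset.sum_fiberwise_of_maps_to (s := ords C) (t := (ords C1) ×ˢ (ords C2))
      (g := fun l => (l.filter (· ∈ C1), l.filter (· ∈ C2)))
      (fun l hl => Finset.mem_product.mpr ⟨filter_mem_ords h1 hl, filter_mem_ords h2 hl⟩)]
    rw [Finset.sum_mul_sum, Finset.mul_sum, Finset.sum_product]
    apply Finset.sum_congr rfl
    intro l1 hl1
    rw [Finset.mul_sum]
    apply Finset.sum_congr rfl
    intro l2 hl2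
    rw [← hNc l1 hl1 l2 hl2]
    have : ∀ l ∈ (ords C).filter (fun l => (l.filter (· ∈ C1), l.filter (· ∈ C2)) = (l1, l2)),
        F (l.filter (· ∈ C1)) * H (l.filter (· ∈ C2)) = F l1 * H l2 := by
      intro l hl
      rw [Finset.mem_filter, Prod.mk.injEq] at hl
      rw [hl.2.1, hl.2.2]
    rw [Finset.sum_congr rfl this, Finset.sum_const, nsmul_eq_mul]
    congr 2
    congr 1
    ext l
    simp
  have hcard : ((ords C).card : ℚ) = N * ((ords C1).card * (ords C2).card) := by
    have := key (fun _ => 1) (fun _ => 1)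
    simpa using this
  have c0 : ((ords C).card : ℚ) ≠ 0 := by
    have := (ords_nonempty C).card_pos; positivity
  have c1 : ((ords C1).card : ℚ) ≠ 0 := by
    have := (ords_nonempty C1).card_pos; positivity
  have c2 : ((ords C2).card : ℚ) ≠ 0 := by
    have := (ords_nonempty C2).card_pos; positivity
  have cN : (N : ℚ) ≠ 0 := by
    intro h; rw [hcard, h, zero_mul] at c0; exact c0 rfl
  rw [avg, avg, avg, key, hcard]
  field_simp

end Pool.Agent.MPec220f
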