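import Mathlib

/-!
MP_ec220f_lc, algebra part 1: a connected graded commutative `ℚ`-algebra with enough derivations
is a polynomial algebra.
-/

namespace Pool.Agent.MPec220f

open MvPolynomial

universe u v t

theorem pderiv_ne_zero {I : Type*} (P : MvPolynomial I ℚ) (j : I) (hj : j ∈ P.vars) :
    pderiv j P ≠ 0 := by
  classical
  intro h0
  rw [mem_vars_iff_mem_support] at hj
  obtain ⟨s, hs, hsj⟩ := hj
  have hsj' : s j ≠ 0 := by simpa using hsj
  have hle : (Finsupp.single j 1 : I →₀ ℕ) ≤ s := by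
    rw [Finsupp.single_le_iff]; omega
  have h1 := coeff_pderiv (i := j) P (s - Finsupp.single j 1)
  rw [h0, tsub_add_cancel_of_le hle] at h1
  simp only [coeff_zero] at h1
  have h2 : coeff s P ≠ 0 := by simpa [mem_support_iff] using hs
  have h3 : ((((s - (Finsupp.single j 1 : I →₀ ℕ)) j : ℕ) : ℚ) + 1) ≠ 0 := by positivity
  rcases mul_eq_zero.mp h1.symm with h | h
  · exact h2 h
  · exact h3 h

theorem totalDegree_pderiv_le' {I : Type*} (P : MvPolynomial I ℚ) (j : I) (d : ℕ)
    (hd : P.totalDegree ≤ d + 1) : (pderiv j P).totalDegree ≤ d := by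
  classical
  rw [totalDegree]
  apply Finset.sup_le
  intro s hs
  have h1 := coeff_pderiv (i := j) P s
  have h2 : coeff (s + Finsupp.single j 1) P ≠ 0 := by
    intro h
    rw [h, zero_mul] at h1
    rw [mem_support_iff] at hs
    exact hs h1
  have h3 : (s + Finsupp.single j 1).sum (fun _ e => e) ≤ P.totalDegree :=
    le_totalDegree (by rwa [mem_support_iff])
  rw [Finsupp.sum_add_index' (by simp) (by simp)] at h3
  rw [Finsupp.sum_single_index (by simp)] at h3
  omega

/-- decomposable elements of degree `n` -/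
def decomp {B : Type*} [CommRing B] [Algebra ℚ B] (𝒜 : ℕ → Submodule ℚ B) (n : ℕ) :
    Submodule ℚ B :=
  Submodule.span ℚ {c | ∃ i j a b, 1 ≤ i ∧ 1 ≤ j ∧ i + j = n ∧ a ∈ 𝒜 i ∧ b ∈ 𝒜 j ∧ c = a * b}

/-- the basic step: algebraic independence -/
theorem eval_injective {B : Type u} {I : Type t} [CommRing B] [Nontrivial B] [Algebra ℚ B]
    (x : I → B) (w : I → ℕ)
    (hder : ∀ j : I, ∃ (S : Type v) (_ : CommRing S) (_ : Algebra ℚ S) (ι : B →ₐ[ℚ] S)
      (D : B →ₗ[ℚ] S), Function.Injective ι ∧ (∀ a b, D (a * b) = D a * ι b + ι a * D b) ∧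
      (∀ i, w i < w j → D (x i) = 0) ∧ (∀ i, w i = w j → i ≠ j → D (x i) = 0) ∧ D (x j) = 1) :
    ∀ P : MvPolynomial I ℚ, aeval x P = 0 → P = 0 := by
  classical
  suffices H : ∀ d : ℕ, ∀ P : MvPolynomial I ℚ, P.totalDegree ≤ d → aeval x P = 0 → P = 0 from
    fun P hP => H _ P le_rfl hP
  intro d
  induction d with
  | zero =>
    intro P hP hx
    have hP0 : P.totalDegree = 0 := by omega
    rw [totalDegree_eq_zero_iff_eq_C] at hP0
    rw [hP0] at hx ⊢
    rw [aeval_C] at hx
    have : coeff 0 P = 0 := by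
      have := (algebraMap ℚ B).injective
      exact this (by rw [hx, map_zero])
    rw [this, map_zero]
  | succ d ih =>
    intro P hP hx
    by_cases hv : P.vars = ∅
    · have hP0 : P.totalDegree = 0 := by
        rw [totalDegree]
        apply le_antisymm _ (Nat.zero_le _)
        apply Finset.sup_le
        intro s hs
        have hs0 : s = 0 := by
          ext i
          by_contra hi
          have : i ∈ P.vars := by
            rw [mem_vars_iff_mem_support]
            exact ⟨s, hs, by simpa using hi⟩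
          rw [hv] at this
          simp at this
        rw [hs0, Finsupp.sum_zero_index]
      rw [totalDegree_eq_zero_iff_eq_C] at hP0
      rw [hP0] at hx ⊢
      rw [aeval_C] at hx
      have : coeff 0 P = 0 := by
        have := (algebraMap ℚ B).injective
        exact this (by rw [hx, map_zero])
      rw [this, map_zero]
    · obtain ⟨j, hj, hmax⟩ := Finset.exists_max_image P.vars w (Finset.nonempty_iff_ne_empty.mpr hv)
      obtain ⟨S, _, _, ι, D, hι, hD, h1, h2, h3⟩ := hder j
      exfalso
      apply pderiv_ne_zero P j hj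
      apply ih _ (totalDegree_pderiv_le' P j d hP)
      apply hι
      rw [map_zero]
      let _ : Module (MvPolynomial I ℚ) S := Module.compHom S (ι.comp (aeval x)).toRingHom
      have hsm : ∀ (p : MvPolynomial I ℚ) (s : S), p • s = ι (aeval x p) * s := fun p s => rfl
      let D1 : Derivation ℚ (MvPolynomial I ℚ) S :=
        { toLinearMap := D.comp (aeval x).toLinearMap
          map_one_eq_zero' := by
            have := hD 1 1
            simp at this
            simp [this]
          leibniz' := by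
            intro a b
            simp only [LinearMap.comp_apply, AlgHom.toLinearMap_apply, map_mul, hsm, hD]
            ring }
      let D2 : Derivation ℚ (MvPolynomial I ℚ) S :=
        { toLinearMap := ι.toLinearMap.comp ((aeval x).toLinearMap.comp (pderiv j).toLinearMap)
          map_one_eq_zero' := by simp
          leibniz' := by
            intro a b
            simp [hsm, Derivation.leibniz] }
      have h4 : D1 P = D2 P := by
        apply derivation_eq_of_forall_mem_vars
        intro i hi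
        have e1 : D1 (X i) = D (x i) := by
          show D (aeval x (X i)) = _
          rw [aeval_X]
        have e2 : D2 (X i) = ι (aeval x (pderiv j (X i))) := rfl
        rw [e1, e2]
        by_cases hij : i = j
        · subst hij
          rw [h3, pderiv_X_self, map_one, map_one]
        · rw [pderiv_X_of_ne hij, map_zero, map_zero]
          rcases lt_or_eq_of_le (hmax i hi) with h | h
          · exact h1 i h
          · exact h2 i h hij
      have h5 : D1 P = D (aeval x P) := rfl
      have h6 : D2 P = ι (aeval x (pderiv j P)) := rfl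
      rw [← h6, ← h4, h5, hx, map_zero]

/-- A connected graded commutative `ℚ`-algebra in which every linear functional of every degree
`n ≥ 1` that vanishes on decomposables comes from a derivation is a polynomial algebra. -/
theorem exists_mvPolynomial_equiv {B : Type u} [CommRing B] [Nontrivial B] [Algebra ℚ B]
    (𝒜 : ℕ → Submodule ℚ B)
    (hone : ∀ b ∈ 𝒜 0, ∃ c : ℚ, b = algebraMap ℚ B c)
    (hsup : (⨆ n, 𝒜 n) = ⊤)
    (hder : ∀ n, 1 ≤ n → ∀ φ : 𝒜 n →ₗ[ℚ] ℚ, (∀ b : 𝒜 n, (b : B) ∈ decomp 𝒜 n → φ b = 0) →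
      ∃ (S : Type v) (_ : CommRing S) (_ : Algebra ℚ S) (ι : B →ₐ[ℚ] S)
      (D : B →ₗ[ℚ] S), Function.Injective ι ∧ (∀ a b, D (a * b) = D a * ι b + ι a * D b) ∧
      (∀ m, m < n → ∀ b ∈ 𝒜 m, D b = 0) ∧ (∀ b : 𝒜 n, D b = algebraMap ℚ S (φ b))) :
    ∃ I : Type u, Nonempty (MvPolynomial I ℚ ≃ₐ[ℚ] B) := by
  classical
  let K : ∀ n : ℕ, Submodule ℚ (𝒜 n) := fun n => (decomp 𝒜 n).comap (𝒜 n).subtype
  let bas : ∀ n : ℕ, Module.Basis (Module.Basis.ofVectorSpaceIndex ℚ (𝒜 n ⧸ K n)) ℚ (𝒜 n ⧸ K n) :=
    fun n => Module.Basis.ofVectorSpace ℚ (𝒜 n ⧸ K n)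
  let I : Type u := Σ n : {n : ℕ // 1 ≤ n}, Module.Basis.ofVectorSpaceIndex ℚ (𝒜 n.1 ⧸ K n.1)
  have hsurj : ∀ j : I, ∃ y : 𝒜 j.1.1, (K j.1.1).mkQ y = bas j.1.1 j.2 := fun j =>
    Submodule.mkQ_surjective _ _
  choose y hy using hsurj
  let x : I → B := fun j => (y j : B)
  let w : I → ℕ := fun j => j.1.1
  have hinj : Function.Injective (aeval x : MvPolynomial I ℚ →ₐ[ℚ] B) := by
    rw [injective_iff_map_eq_zero]
    apply eval_injective.{u, v, u} x w
    intro j
    let φ : 𝒜 j.1.1 →ₗ[ℚ] ℚ := ((bas j.1.1).coord j.2).comp (K j.1.1).mkQ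
    obtain ⟨S, i1, i2, ι, D, hι, hD, h1, h2⟩ := hder j.1.1 j.1.2 φ (by
      intro b hb
      have : (K j.1.1).mkQ b = 0 := by
        rw [Submodule.mkQ_apply, Submodule.Quotient.mk_eq_zero]
        exact hb
      simp only [φ, LinearMap.comp_apply, this, map_zero])
    refine ⟨S, i1, i2, ι, D, hι, hD, ?_, ?_, ?_⟩
    · intro i hi
      exact h1 _ hi _ (y i).2
    · rintro ⟨n', i'⟩ hi hne
      obtain ⟨n, i⟩ := j
      have hn : n' = n := Subtype.ext hi
      subst hn
      have hne' : i' ≠ i := fun h => hne (by rw [h])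
      show D (y ⟨n', i'⟩ : B) = 0
      rw [h2 (y ⟨n', i'⟩)]
      have e := hy ⟨n', i'⟩
      simp only [φ, LinearMap.comp_apply]
      rw [e, Module.Basis.coord_apply, Module.Basis.repr_self, Finsupp.single_eq_of_ne hne'.symm,
        map_zero]
    · show D (y j : B) = 1
      rw [h2 (y j)]
      have e := hy j
      simp only [φ, LinearMap.comp_apply]
      rw [e, Module.Basis.coord_apply, Module.Basis.repr_self, Finsupp.single_eq_same, map_one]
  have hrange : ∀ n, 𝒜 n ≤ (aeval x : MvPolynomial I ℚ →ₐ[ℚ] B).range.toSubmodule := by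
    intro n
    induction n using Nat.strong_induction_on with
    | _ n ih =>
      rcases Nat.eq_zero_or_pos n with rfl | hn
      · intro b hb
        obtain ⟨c, rfl⟩ := hone b hb
        exact (aeval x : MvPolynomial I ℚ →ₐ[ℚ] B).range.algebraMap_mem c
      · have hdec : decomp 𝒜 n ≤ (aeval x : MvPolynomial I ℚ →ₐ[ℚ] B).range.toSubmodule := by
          rw [decomp, Submodule.span_le]
          rintro c ⟨i, j, a, b, hi, hj, hij, ha, hb, rfl⟩
          exact (aeval x : MvPolynomial I ℚ →ₐ[ℚ] B).range.mul_mem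
            (ih i (by omega) ha) (ih j (by omega) hb)
        let R : Submodule ℚ (𝒜 n) :=
          ((aeval x : MvPolynomial I ℚ →ₐ[ℚ] B).range.toSubmodule).comap (𝒜 n).subtype
        have hKR : K n ≤ R := by
          intro b hb
          exact hdec hb
        have hmap : R.map (K n).mkQ = ⊤ := by
          rw [← (bas n).span_eq, eq_comm]
          apply le_antisymm
          · rw [Submodule.span_le]
            rintro _ ⟨i, rfl⟩
            refine ⟨y ⟨⟨n, hn⟩, i⟩, ?_, hy ⟨⟨n, hn⟩, i⟩⟩
            show (y ⟨⟨n, hn⟩, i⟩ : B) ∈ (aeval x : MvPolynomial I ℚ →ₐ[ℚ] B).range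
            exact ⟨X ⟨⟨n, hn⟩, i⟩, by simp [x]⟩
          · rw [(bas n).span_eq]; exact le_top
        have hR : R = ⊤ := by
          have h1 := Submodule.comap_map_mkQ (K n) R
          rw [hmap, Submodule.comap_top] at h1
          rw [eq_comm, sup_eq_right.mpr hKR] at h1
          exact h1
        intro b hb
        have : (⟨b, hb⟩ : 𝒜 n) ∈ R := by rw [hR]; trivial
        exact this
  have hsurj' : Function.Surjective (aeval x : MvPolynomial I ℚ →ₐ[ℚ] B) := by
    intro b
    have hb : b ∈ (⨆ n, 𝒜 n) := by rw [hsup]; trivial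
    have := (iSup_le hrange) hb
    exact this
  exact ⟨I, ⟨AlgEquiv.ofBijective _ ⟨hinj, hsurj'⟩⟩⟩

end Pool.Agent.MPec220f
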