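import Pool.Agent.Lib_MP_ec220f_lc.Ring
import Pool.Agent.Lib_MP_ec220f_lc.Orders
import Pool.Agent.Lib_MP_ec220f_lc.Poly

/-!
MP_ec220f_lc, algebra part 4: invariants, couplings, derivations, and the main algebraic theorem.
-/

namespace Pool.Agent.MPec220f

variable {Ω : Type*} [DecidableEq Ω] (G : Type*) [Group G] [MulAction G Ω]

/-- image of a finite set under a group element -/
def gim {G : Type*} [Group G] [MulAction G Ω] (g : G) (X : Finset Ω) : Finset Ω :=
  X.image (fun x => g • x)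

/-- two finite sets are in the same orbit -/
def SameOrbit (X Y : Finset Ω) : Prop := ∃ g : G, gim g X = Y

variable {G}

theorem gim_one (X : Finset Ω) : gim (1 : G) X = X := by
  simp [gim]

theorem gim_mul (g h : G) (X : Finset Ω) : gim (g * h) X = gim g (gim h X) := by
  rw [gim, gim, gim, Finset.image_image]
  congr 1
  ext x
  simp [mul_smul]

theorem gim_card (g : G) (X : Finset Ω) : (gim g X).card = X.card :=
  Finset.card_image_of_injective _ (MulAction.injective g)

theorem gim_union (g : G) (X Y : Finset Ω) : gim g (X ∪ Y) = gim g X ∪ gim g Y :=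
  Finset.image_union _ _

theorem gim_sdiff (g : G) (X Y : Finset Ω) : gim g (X \ Y) = gim g X \ gim g Y :=
  Finset.image_sdiff _ _ (MulAction.injective g)

theorem gim_mono (g : G) {X Y : Finset Ω} (h : X ⊆ Y) : gim g X ⊆ gim g Y :=
  Finset.image_subset_image h

theorem gim_empty (g : G) : gim g (∅ : Finset Ω) = ∅ := Finset.image_empty _

theorem SameOrbit.refl (X : Finset Ω) : SameOrbit G X X := ⟨1, gim_one X⟩

theorem SameOrbit.symm {X Y : Finset Ω} (h : SameOrbit G X Y) : SameOrbit G Y X := by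
  obtain ⟨g, rfl⟩ := h
  exact ⟨g⁻¹, by rw [← gim_mul, inv_mul_cancel, gim_one]⟩

theorem SameOrbit.trans {X Y Z : Finset Ω} (h : SameOrbit G X Y) (h' : SameOrbit G Y Z) :
    SameOrbit G X Z := by
  obtain ⟨g, rfl⟩ := h
  obtain ⟨g', rfl⟩ := h'
  exact ⟨g' * g, gim_mul _ _ _⟩

theorem SameOrbit.card {X Y : Finset Ω} (h : SameOrbit G X Y) : X.card = Y.card := by
  obtain ⟨g, rfl⟩ := h
  rw [gim_card]

variable (G)

/-- invariance of a function on finite sets -/
def Inv {V : SupAdd Ω} (f : SF V) : Prop := ∀ (g : G) (X : Finset Ω), f (gim g X) = f X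

/-- the orbit algebra of `G` acting on `Ω` (with `v`-additive product): functions on finite
subsets, invariant under `G`, and vanishing on all sufficiently large finite sets -/
def orbitAlg (V : SupAdd Ω) (hV : ∀ (g : G) X, V.v (gim g X) = V.v X) :
    Subalgebra ℚ (SF V) where
  carrier := {f | (∀ (g : G) (X : Finset Ω), f (gim g X) = f X) ∧
    ∃ N : ℕ, ∀ X : Finset Ω, N < X.card → f X = 0}
  mul_mem' := by
    rintro f h ⟨hf, N, hN⟩ ⟨hh, M, hM⟩
    refine ⟨?_, N + M, ?_⟩
    · intro g X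
      rw [SF.mul_app, SF.mul_app, eq_comm]
      apply Finset.sum_nbij' (fun A => gim g A) (fun A => gim g⁻¹ A)
      · intro A hA
        rw [Finset.mem_powerset] at *
        exact gim_mono g hA
      · intro A hA
        rw [Finset.mem_powerset] at *
        have := gim_mono g⁻¹ hA
        rwa [← gim_mul, inv_mul_cancel, gim_one] at this
      · intro A _
        rw [← gim_mul, inv_mul_cancel, gim_one]
      · intro A _
        rw [← gim_mul, mul_inv_cancel, gim_one]
      · intro A _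
        rw [← gim_sdiff, hV, hV, hV, hf, hh]
    · intro X hX
      rw [SF.mul_app]
      apply Finset.sum_eq_zero
      intro A hA
      rw [Finset.mem_powerset] at hA
      split_ifs
      · have h1 := Finset.card_sdiff_add_card_eq_card hA
        by_cases hA' : N < A.card
        · rw [hN A hA', zero_mul]
        · rw [hM (X \ A) (by omega), mul_zero]
      · rfl
  add_mem' := by
    rintro f h ⟨hf, N, hN⟩ ⟨hh, M, hM⟩
    refine ⟨?_, N + M, ?_⟩
    · intro g X
      rw [SF.add_app, SF.add_app, hf, hh]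
    · intro X hX
      rw [SF.add_app, hN X (by omega), hM X (by omega), add_zero]
  algebraMap_mem' := by
    intro c
    refine ⟨?_, 0, ?_⟩
    · intro g X
      rw [SF.algebraMap_app, SF.algebraMap_app]
      by_cases hX : X = ∅
      · rw [if_pos hX, hX, gim_empty, if_pos rfl]
      · rw [if_neg hX, if_neg]
        intro h
        apply hX
        rw [gim, Finset.image_eq_empty] at h
        exact h
    · intro X hX
      rw [SF.algebraMap_app, if_neg]
      rintro rfl
      simp at hX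

/-- abstract form of an invariant ordered coupling -/
structure Coupling (V : SupAdd Ω) (cl : Finset Ω → Finset Ω) where
  κ : Finset Ω → Finset Ω → List Ω → Finset Ω
  V_inv : ∀ (g : G) X, V.v (gim g X) = V.v X
  cl_mono : ∀ {X Y : Finset Ω}, X ⊆ Y → cl X ⊆ cl Y
  cl_inv : ∀ (g : G) X, cl (gim g X) = gim g (cl X)
  cl_disj : ∀ X Y, Disjoint X Y → V.v X + V.v Y = V.v (X ∪ Y) → Disjoint (cl X) (cl Y)
  K1 : ∀ (X Y : Finset Ω) (l : List Ω), l ∈ ords (cl Y) → ∃ a b : Ω → Ω,
    Set.InjOn a X ∧ Set.InjOn b Y ∧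
    Disjoint (X.image a) (Y.image b) ∧ ∀ X1 ⊆ X, ∀ Y1 ⊆ Y,
    SameOrbit G (X1.image a ∪ Y1.image b) (κ X1 Y1 (l.filter (· ∈ cl Y1)))
  K2 : ∀ X Y l (g : G), l ∈ ords (cl Y) →
    SameOrbit G (κ X Y l) (κ X (gim g Y) (l.map (fun x => g • x)))
  K3 : ∀ X, SameOrbit G (κ X ∅ []) X
  K3' : ∀ Y l, l ∈ ords (cl Y) → SameOrbit G (κ ∅ Y l) Y
  K4 : ∀ X Y l, l ∈ ords (cl Y) → V.v (κ X Y l) = V.v X + V.v Y

variable {G}

theorem inv_sameOrbit {V : SupAdd Ω} {f : SF V} (hf : Inv G f) {X Y : Finset Ω}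
    (h : SameOrbit G X Y) : f X = f Y := by
  obtain ⟨g, rfl⟩ := h
  rw [hf]

/-- reindexing of the subsets of a disjoint union of two images -/
theorem sum_powerset_images {X Y : Finset Ω} {a b : Ω → Ω} (ha : Set.InjOn a X)
    (hb : Set.InjOn b Y) (hd : Disjoint (X.image a) (Y.image b)) (Φ : Finset Ω → ℚ) :
    ∑ A ∈ (X.image a ∪ Y.image b).powerset, Φ A =
    ∑ X1 ∈ X.powerset, ∑ Y1 ∈ Y.powerset, Φ (X1.image a ∪ Y1.image b) := by
  rw [← Finset.sum_product', eq_comm]
  have hd' : ∀ x ∈ X, ∀ y ∈ Y, a x ≠ b y := by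
    intro x hx y hy h
    exact (Finset.disjoint_left.mp hd) (Finset.mem_image_of_mem a hx)
      (h ▸ Finset.mem_image_of_mem b hy)
  apply Finset.sum_nbij' (fun p => p.1.image a ∪ p.2.image b)
    (fun A => (X.filter (fun x => a x ∈ A), Y.filter (fun y => b y ∈ A)))
  · rintro ⟨X1, Y1⟩ hp
    rw [Finset.mem_product, Finset.mem_powerset, Finset.mem_powerset] at hp
    rw [Finset.mem_powerset]
    exact Finset.union_subset_union (Finset.image_subset_image hp.1)
      (Finset.image_subset_image hp.2)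
  · intro A _
    rw [Finset.mem_product, Finset.mem_powerset, Finset.mem_powerset]
    exact ⟨Finset.filter_subset _ _, Finset.filter_subset _ _⟩
  · rintro ⟨X1, Y1⟩ hp
    rw [Finset.mem_product, Finset.mem_powerset, Finset.mem_powerset] at hp
    obtain ⟨h1, h2⟩ := hp
    ext x
    · simp only [Finset.mem_filter, Finset.mem_union, Finset.mem_image]
      constructor
      · rintro ⟨hx, ⟨x', hx', e⟩ | ⟨y, hy, e⟩⟩
        · rwa [← ha (h1 hx') hx e]
        · exact absurd e.symm (hd' x hx y (h2 hy))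
      · intro hx
        exact ⟨h1 hx, Or.inl ⟨x, hx, rfl⟩⟩
    · simp only [Finset.mem_filter, Finset.mem_union, Finset.mem_image]
      constructor
      · rintro ⟨hy, ⟨x', hx', e⟩ | ⟨y, hy', e⟩⟩
        · exact absurd e (hd' x' (h1 hx') x hy)
        · rwa [← hb (h2 hy') hy e]
      · intro hx
        exact ⟨h2 hx, Or.inr ⟨x, hx, rfl⟩⟩
  · intro A hA
    rw [Finset.mem_powerset] at hA
    ext z
    simp only [Finset.mem_filter, Finset.mem_union, Finset.mem_image]
    constructor
    · rintro (⟨x, ⟨_, hx⟩, rfl⟩ | ⟨x, ⟨_, hx⟩, rfl⟩)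
      · exact hx
      · exact hx
    · intro hz
      have := hA hz
      rw [Finset.mem_union, Finset.mem_image, Finset.mem_image] at this
      rcases this with ⟨x, hx, rfl⟩ | ⟨x, hx, rfl⟩
      · exact Or.inl ⟨x, ⟨hx, hz⟩, rfl⟩
      · exact Or.inr ⟨x, ⟨hx, hz⟩, rfl⟩
  · rintro ⟨X1, Y1⟩ _
    rfl

theorem images_sdiff {X Y X1 Y1 : Finset Ω} {a b : Ω → Ω} (ha : Set.InjOn a X)
    (hb : Set.InjOn b Y) (hd : Disjoint (X.image a) (Y.image b)) (h1 : X1 ⊆ X) (h2 : Y1 ⊆ Y) :
    (X.image a ∪ Y.image b) \ (X1.image a ∪ Y1.image b) =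
    (X \ X1).image a ∪ (Y \ Y1).image b := by
  have hd' : ∀ x ∈ X, ∀ y ∈ Y, a x ≠ b y := by
    intro x hx y hy h
    exact (Finset.disjoint_left.mp hd) (Finset.mem_image_of_mem a hx)
      (h ▸ Finset.mem_image_of_mem b hy)
  ext z
  simp only [Finset.mem_sdiff, Finset.mem_union, Finset.mem_image, not_or, not_exists, not_and]
  constructor
  · rintro ⟨⟨x, hx, rfl⟩ | ⟨x, hx, rfl⟩, h3, h4⟩
    · exact Or.inl ⟨x, ⟨hx, fun h => h3 x h rfl⟩, rfl⟩
    · exact Or.inr ⟨x, ⟨hx, fun h => h4 x h rfl⟩, rfl⟩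
  · rintro (⟨x, ⟨hx, hx'⟩, rfl⟩ | ⟨x, ⟨hx, hx'⟩, rfl⟩)
    · refine ⟨Or.inl ⟨x, hx, rfl⟩, ?_, ?_⟩
      · intro y hy e
        rw [ha (h1 hy) hx e] at hy
        exact hx' hy
      · intro y hy e
        exact hd' x hx y (h2 hy) e.symm
    · refine ⟨Or.inr ⟨x, hx, rfl⟩, ?_, ?_⟩
      · intro y hy e
        exact hd' y (h1 hy) x hx e
      · intro y hy e
        rw [hb (h2 hy) hx e] at hy
        exact hx' hy

section coupling

variable {V : SupAdd Ω} {cl : Finset Ω → Finset Ω} (C : Coupling G V cl)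

theorem filter_self {D : Finset Ω} {l : List Ω} (hl : l ∈ ords D) : l.filter (· ∈ D) = l := by
  rw [List.filter_eq_self]
  intro a ha
  simpa using ((mem_ords_iff D l).mp hl).2 a |>.mp ha

include C in
theorem cl_empty : cl ∅ = ∅ := by
  have := C.cl_disj ∅ ∅ (Finset.disjoint_empty_left _) (by simp [SF.v_empty])
  rwa [Finset.disjoint_self_iff_empty] at this

theorem ords_empty : ords (∅ : Finset Ω) = {[]} := by
  ext l
  rw [mem_ords_iff, Finset.mem_singleton]
  constructor
  · rintro ⟨_, h⟩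
    rw [List.eq_nil_iff_forall_not_mem]
    intro a ha
    simpa using (h a).mp ha
  · rintro rfl
    simp

theorem card_κ (X Y : Finset Ω) (l : List Ω) (hl : l ∈ ords (cl Y)) :
    (C.κ X Y l).card = X.card + Y.card := by
  obtain ⟨a, b, ha, hb, hd, h⟩ := C.K1 X Y l hl
  have h1 := (h X le_rfl Y le_rfl).card
  rw [filter_self hl, Finset.card_union_of_disjoint hd, Finset.card_image_of_injOn ha,
    Finset.card_image_of_injOn hb] at h1
  exact h1.symm

/-- the averaged coupling operator -/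
def T (f : SF V) (X : Finset Ω) : SF V := fun Y => avg (cl Y) (fun l => f (C.κ X Y l))

theorem T_inv {f : SF V} (hf : Inv G f) (X : Finset Ω) : Inv G (T C f X) := by
  intro g Y
  show avg (cl (gim g Y)) _ = avg (cl Y) _
  rw [C.cl_inv, gim, avg_image _ (MulAction.injective g)]
  apply avg_congr
  intro l hl
  exact (inv_sameOrbit hf (C.K2 X Y l g hl)).symm

theorem T_bdd {f : SF V} {N : ℕ} (hN : ∀ X : Finset Ω, N < X.card → f X = 0) (X Y : Finset Ω)
    (hY : N < X.card + Y.card) : T C f X Y = 0 := by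
  refine (avg_congr _ ?_).trans (avg_const (cl Y) 0)
  intro l hl
  apply hN
  rwa [card_κ C X Y l hl]

theorem T_mul {f h : SF V} (hf : Inv G f) (hh : Inv G h) (X : Finset Ω) :
    T C (f * h) X = ∑ A ∈ X.powerset, if V.v A + V.v (X \ A) = V.v X then
      T C f A * T C h (X \ A) else 0 := by
  ext Y
  have sum_app : ∀ (s : Finset (Finset Ω)) (F : Finset Ω → SF V) (Y : Finset Ω),
      (∑ A ∈ s, F A) Y = ∑ A ∈ s, F A Y := by
    intro s F Y
    exact Finset.sum_apply Y s F
  rw [sum_app]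
  have e1 : T C (f * h) X Y = avg (cl Y) (fun l => ∑ X1 ∈ X.powerset, ∑ Y1 ∈ Y.powerset,
      if V.v X1 + V.v (X \ X1) = V.v X ∧ V.v Y1 + V.v (Y \ Y1) = V.v Y then
        f (C.κ X1 Y1 (l.filter (· ∈ cl Y1))) *
        h (C.κ (X \ X1) (Y \ Y1) (l.filter (· ∈ cl (Y \ Y1)))) else 0) := by
    apply avg_congr
    intro l hl
    obtain ⟨a, b, ha, hb, hd, hκ⟩ := C.K1 X Y l hl
    have hfull := hκ X le_rfl Y le_rfl
    rw [filter_self hl] at hfull
    have hV : ∀ {X Y : Finset Ω}, SameOrbit G X Y → V.v X = V.v Y := by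
      rintro X Y ⟨g, rfl⟩
      rw [C.V_inv]
    -- invariance of the product
    have hprod : (f * h) (C.κ X Y l) = (f * h) (X.image a ∪ Y.image b) := by
      obtain ⟨g, hg⟩ := hfull
      rw [← hg, SF.mul_app, SF.mul_app, eq_comm]
      apply Finset.sum_nbij' (fun A => gim g A) (fun A => gim g⁻¹ A)
      · intro A hA
        rw [Finset.mem_powerset] at *
        exact gim_mono g hA
      · intro A hA
        rw [Finset.mem_powerset] at *
        have := gim_mono g⁻¹ hA
        rwa [← gim_mul, inv_mul_cancel, gim_one] at this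
      · intro A _
        rw [← gim_mul, inv_mul_cancel, gim_one]
      · intro A _
        rw [← gim_mul, mul_inv_cancel, gim_one]
      · intro A _
        rw [← gim_sdiff, C.V_inv, C.V_inv, C.V_inv, hf, hh]
    rw [hprod, SF.mul_app, sum_powerset_images ha hb hd]
    apply Finset.sum_congr rfl
    intro X1 hX1
    apply Finset.sum_congr rfl
    intro Y1 hY1
    rw [Finset.mem_powerset] at hX1 hY1
    rw [images_sdiff ha hb hd hX1 hY1]
    have k1 := hκ X1 hX1 Y1 hY1
    have k2 := hκ (X \ X1) Finset.sdiff_subset (Y \ Y1) Finset.sdiff_subset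
    have l1 := filter_mem_ords (C.cl_mono hY1) hl
    have l2 := filter_mem_ords (C.cl_mono (Finset.sdiff_subset (s := Y) (t := Y1))) hl
    rw [hV k1, hV k2, hV hfull, C.K4 _ _ _ l1, C.K4 _ _ _ l2, C.K4 _ _ _ hl,
      inv_sameOrbit hf k1, inv_sameOrbit hh k2]
    have s1 := V.super X1 (X \ X1) Finset.disjoint_sdiff
    rw [Finset.union_sdiff_of_subset hX1] at s1
    have s2 := V.super Y1 (Y \ Y1) Finset.disjoint_sdiff
    rw [Finset.union_sdiff_of_subset hY1] at s2
    by_cases hc : V.v X1 + V.v (X \ X1) = V.v X ∧ V.v Y1 + V.v (Y \ Y1) = V.v Y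
    · rw [if_pos hc, if_pos (by omega)]
    · rw [if_neg hc, if_neg (by omega)]
  have avg_sum : ∀ (D : Finset Ω) (s : Finset (Finset Ω)) (F : Finset Ω → List Ω → ℚ),
      avg D (fun l => ∑ A ∈ s, F A l) = ∑ A ∈ s, avg D (F A) := by
    intro D s F
    rw [avg, Finset.sum_comm, Finset.sum_div]
    rfl
  rw [e1, avg_sum]
  apply Finset.sum_congr rfl
  intro X1 hX1
  rw [avg_sum]
  by_cases hc : V.v X1 + V.v (X \ X1) = V.v X
  · rw [if_pos hc, SF.mul_app]
    apply Finset.sum_congr rfl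
    intro Y1 hY1
    rw [Finset.mem_powerset] at hY1
    by_cases hc' : V.v Y1 + V.v (Y \ Y1) = V.v Y
    · rw [if_pos hc']
      have hdis : Disjoint (cl Y1) (cl (Y \ Y1)) := by
        apply C.cl_disj _ _ Finset.disjoint_sdiff
        rw [Finset.union_sdiff_of_subset hY1, hc']
      rw [show T C f X1 Y1 = avg (cl Y1) (fun l => f (C.κ X1 Y1 l)) from rfl,
        show T C h (X \ X1) (Y \ Y1) =
          avg (cl (Y \ Y1)) (fun l => h (C.κ (X \ X1) (Y \ Y1) l)) from rfl,
        ← avg_indep (C.cl_mono hY1) (C.cl_mono (Finset.sdiff_subset (s := Y) (t := Y1))) hdis]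
      apply avg_congr
      intro l _
      rw [if_pos ⟨hc, hc'⟩]
    · rw [if_neg hc']
      refine (avg_congr _ ?_).trans (avg_const (cl Y) 0)
      intro l _
      rw [if_neg]
      rintro ⟨_, h⟩
      exact hc' h
  · rw [if_neg hc, SF.zero_app]
    apply Finset.sum_eq_zero
    intro Y1 _
    refine (avg_congr _ ?_).trans (avg_const (cl Y) 0)
    intro l _
    rw [if_neg]
    rintro ⟨h, _⟩
    exact hc h

theorem T_empty {f : SF V} (hf : Inv G f) (X : Finset Ω) : T C f X ∅ = f X := by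
  show avg (cl ∅) _ = _
  rw [cl_empty C]
  refine (avg_congr _ ?_).trans (avg_const (∅ : Finset Ω) (f X))
  intro l hl
  rw [ords_empty, Finset.mem_singleton] at hl
  rw [hl]
  exact inv_sameOrbit hf (C.K3 X)

end coupling

end Pool.Agent.MPec220f
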