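import Pool.Agent.Lib_MP_ec220f_lc.SetAlg

/-!
The interface between the model theory and the algebra: an ordered coupling of
two copies of a permutation group.
-/

namespace MPec220f

open Finset Function

variable {V : Type} [DecidableEq V]

/-- An ordered coupling.  `Real lam X Y e` says that the map `e`, on the disjoint
union of `X` (left) and `Y` (right), realises the coupling of `X` and `Y`, where
`Y` is ordered by the labelling `lam`. -/
structure Coupling (G : Subgroup (Equiv.Perm V)) where
  /-- the realisation relation -/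
  Real : (V → ℕ) → Finset V → Finset V → (V ⊕ V → V) → Prop
  exists_real : ∀ lam : V → ℕ, Injective lam → ∀ X Y : Finset V, ∃ e, Real lam X Y e
  inj : ∀ lam X Y e, Injective lam → Real lam X Y e → Set.InjOn e (X.disjSum Y : Finset (V ⊕ V))
  mono : ∀ lam X Y e X' Y', Injective lam → Real lam X Y e → X' ⊆ X → Y' ⊆ Y → Real lam X' Y' e
  uniq : ∀ (lam lam' : V → ℕ) (X Y : Finset V) (e e' : V ⊕ V → V) (g : Equiv.Perm V), g ∈ G →
    Injective lam → Injective lam' →
    (∀ y ∈ Y, ∀ z ∈ Y, lam y < lam z ↔ lam' (g y) < lam' (g z)) →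
    Real lam X Y e → Real lam' X (Y.image g) e' →
    ∃ h ∈ G, (∀ x ∈ X, e' (Sum.inl x) = h (e (Sum.inl x))) ∧
      (∀ y ∈ Y, e' (Sum.inr (g y)) = h (e (Sum.inr y)))
  unit_left : ∀ lam Y, Injective lam → Real lam ∅ Y (Sum.elim id id)
  unit_right : ∀ lam X, Injective lam → Real lam X ∅ (Sum.elim id id)

end MPec220f
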