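import Pool.Agent.Lib_MP_ec220f_lc.Derive
import Pool.Agent.Lib_MP_ec220f_lc.Coupling

/-!
MP_ec220f_lc: a `Coupling` (interface of `Coupling.lean`) makes the orbit algebra polynomial.
-/

namespace MPec220f

open Finset Function Pool.Agent.MPec220f

variable {V : Type} [DecidableEq V]

theorem idxOf_lt_idxOf_filter (p : V → Bool) (l : List V) (y z : V)
    (hy : y ∈ l.filter p) (hz : z ∈ l.filter p) :
    (l.filter p).idxOf y < (l.filter p).idxOf z ↔ l.idxOf y < l.idxOf z := by
  induction l with
  | nil => simp at hy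
  | cons a l ih =>
    by_cases ha : p a = true
    · rw [List.filter_cons_of_pos ha] at hy hz ⊢
      by_cases hya : a = y
      · by_cases hza : a = z
        · subst hya; subst hza; simp
        · subst hya
          rw [List.idxOf_cons_self, List.idxOf_cons_self, List.idxOf_cons_ne _ hza,
            List.idxOf_cons_ne _ hza]
          simp
      · by_cases hza : a = z
        · subst hza
          rw [List.idxOf_cons_self, List.idxOf_cons_self]
          simp
        · rw [List.idxOf_cons_ne _ hza, List.idxOf_cons_ne _ hza, List.idxOf_cons_ne _ hya,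
            List.idxOf_cons_ne _ hya]
          have hy' : y ∈ l.filter p := by
            rcases List.mem_cons.mp hy with h | h
            · exact absurd h.symm hya
            · exact h
          have hz' : z ∈ l.filter p := by
            rcases List.mem_cons.mp hz with h | h
            · exact absurd h.symm hza
            · exact h
          have := ih hy' hz'
          omega
    · rw [List.filter_cons_of_neg ha] at hy hz ⊢
      have hya : a ≠ y := by
        rintro rfl
        exact ha (List.mem_filter.mp hy).2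
      have hza : a ≠ z := by
        rintro rfl
        exact ha (List.mem_filter.mp hz).2
      rw [List.idxOf_cons_ne _ hza, List.idxOf_cons_ne _ hya, ih hy hz]
      omega

theorem idxOf_map_inj {g : V → V} (hg : Injective g) (l : List V) (y : V) :
    (l.map g).idxOf (g y) = l.idxOf y := by
  induction l with
  | nil => simp
  | cons a l ih =>
    rw [List.map_cons]
    by_cases h : a = y
    · subst h; simp
    · rw [List.idxOf_cons_ne _ h, List.idxOf_cons_ne _ (fun e => h (hg e)), ih]

/-- the labelling given by a list (and an encoding outside the list) -/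
def lamOf (enc : V → ℕ) (l : List V) (x : V) : ℕ :=
  if x ∈ l then l.idxOf x else l.length + enc x

theorem lamOf_inj {enc : V → ℕ} (he : Injective enc) (l : List V) : Injective (lamOf enc l) := by
  intro x y h
  simp only [lamOf] at h
  by_cases hx : x ∈ l
  · by_cases hy : y ∈ l
    · rw [if_pos hx, if_pos hy] at h
      exact (List.idxOf_inj hx).mp h
    · rw [if_pos hx, if_neg hy] at h
      have := List.idxOf_lt_length_iff.mpr hx
      omega
  · by_cases hy : y ∈ l
    · rw [if_neg hx, if_pos hy] at h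
      have := List.idxOf_lt_length_iff.mpr hy
      omega
    · rw [if_neg hx, if_neg hy] at h
      exact he (by omega)

section

variable {G : Subgroup (Equiv.Perm V)} (C : MPec220f.Coupling G) {enc : V → ℕ}
  (he : Injective enc)

/-- chosen realisation -/
noncomputable def theE (X Y : Finset V) (l : List V) : V ⊕ V → V :=
  Classical.choose (C.exists_real (lamOf enc l) (lamOf_inj he l) X Y)

theorem theE_spec (X Y : Finset V) (l : List V) :
    C.Real (lamOf enc l) X Y (theE C he X Y l) :=
  Classical.choose_spec (C.exists_real (lamOf enc l) (lamOf_inj he l) X Y)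

theorem image_disjSum (X Y : Finset V) (e : V ⊕ V → V) :
    (X.disjSum Y).image e = X.image (e ∘ Sum.inl) ∪ Y.image (e ∘ Sum.inr) := by
  ext z
  simp only [mem_image, mem_union, mem_disjSum, Function.comp]
  constructor
  · rintro ⟨w, ⟨a, ha, rfl⟩ | ⟨a, ha, rfl⟩, rfl⟩
    · exact Or.inl ⟨a, ha, rfl⟩
    · exact Or.inr ⟨a, ha, rfl⟩
  · rintro (⟨a, ha, rfl⟩ | ⟨a, ha, rfl⟩)
    · exact ⟨_, Or.inl ⟨a, ha, rfl⟩, rfl⟩
    · exact ⟨_, Or.inr ⟨a, ha, rfl⟩, rfl⟩

theorem sameOrbit_of_uniq (lam lam' : V → ℕ) (X Y : Finset V) (e e' : V ⊕ V → V)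
    (g : Equiv.Perm V) (hg : g ∈ G) (h1 : Injective lam) (h2 : Injective lam')
    (h3 : ∀ y ∈ Y, ∀ z ∈ Y, lam y < lam z ↔ lam' (g y) < lam' (g z))
    (h4 : C.Real lam X Y e) (h5 : C.Real lam' X (Y.image g) e') :
    SameOrbit G ((X.disjSum Y).image e) ((X.disjSum (Y.image g)).image e') := by
  obtain ⟨h, hh, ha, hb⟩ := C.uniq lam lam' X Y e e' g hg h1 h2 h3 h4 h5
  refine ⟨⟨h, hh⟩, ?_⟩
  ext z
  simp only [gim, mem_image, mem_disjSum]
  constructor
  · rintro ⟨_, ⟨w, ⟨a, haX, rfl⟩ | ⟨a, haX, rfl⟩, rfl⟩, rfl⟩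
    · exact ⟨Sum.inl a, Or.inl ⟨a, haX, rfl⟩, ha a haX⟩
    · exact ⟨Sum.inr (g a), Or.inr ⟨g a, ⟨a, haX, rfl⟩, rfl⟩, hb a haX⟩
  · rintro ⟨w, ⟨a, haX, rfl⟩ | ⟨_, ⟨a, haX, rfl⟩, rfl⟩, rfl⟩
    · exact ⟨_, ⟨Sum.inl a, Or.inl ⟨a, haX, rfl⟩, rfl⟩, (ha a haX).symm⟩
    · exact ⟨_, ⟨Sum.inr a, Or.inr ⟨a, haX, rfl⟩, rfl⟩, (hb a haX).symm⟩

/-- the coupling in the list form -/
noncomputable def toList : Pool.Agent.MPec220f.Coupling G (SupAdd.zero V) id where
  κ := fun X Y l => (X.disjSum Y).image (theE C he X Y l)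
  V_inv := fun _ _ => rfl
  cl_mono := fun h => h
  cl_inv := fun _ _ => rfl
  cl_disj := fun _ _ h _ => h
  K1 := by
    intro X Y l hl
    have hinj := C.inj _ X Y _ (lamOf_inj he l) (theE_spec C he X Y l)
    refine ⟨theE C he X Y l ∘ Sum.inl, theE C he X Y l ∘ Sum.inr, ?_, ?_, ?_, ?_⟩
    · intro x hx y hy h
      have := hinj (by simpa using hx) (by simpa using hy) h
      exact Sum.inl.inj this
    · intro x hx y hy h
      have := hinj (by simpa using hx) (by simpa using hy) h
      exact Sum.inr.inj this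
    · rw [Finset.disjoint_left]
      intro z h1 h2
      rw [mem_image] at h1 h2
      obtain ⟨x, hx, rfl⟩ := h1
      obtain ⟨y, hy, h⟩ := h2
      have := hinj (by simpa using hy) (by simpa using hx) h
      exact absurd this (by simp)
    · intro X1 hX1 Y1 hY1
      have h1 := C.mono _ X Y _ X1 Y1 (lamOf_inj he l) (theE_spec C he X Y l) hX1 hY1
      have h2 := theE_spec C he X1 Y1 (l.filter (· ∈ id Y1))
      have hl' := (mem_ords_iff _ _).mp hl
      have h3 := sameOrbit_of_uniq C (lamOf enc l) (lamOf enc (l.filter (· ∈ id Y1))) X1 Y1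
        (theE C he X Y l) (theE C he X1 Y1 (l.filter (· ∈ id Y1))) 1 (one_mem G)
        (lamOf_inj he _) (lamOf_inj he _) (by
          intro y hy z hz
          have hyl : y ∈ l := (hl'.2 y).mpr (hY1 hy)
          have hzl : z ∈ l := (hl'.2 z).mpr (hY1 hz)
          have hyf : y ∈ l.filter (· ∈ id Y1) := List.mem_filter.mpr ⟨hyl, by simpa using hy⟩
          have hzf : z ∈ l.filter (· ∈ id Y1) := List.mem_filter.mpr ⟨hzl, by simpa using hz⟩
          simp only [lamOf, Equiv.Perm.coe_one, id_eq]
          rw [if_pos hyl, if_pos hzl, if_pos (by simpa using hyf), if_pos (by simpa using hzf)]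
          exact (idxOf_lt_idxOf_filter _ l y z hyf hzf).symm) h1 (by
          have : Y1.image (1 : Equiv.Perm V) = Y1 := by simp
          rw [this]; exact h2)
      have e2 : Y1.image (1 : Equiv.Perm V) = Y1 := by simp
      rw [e2, image_disjSum] at h3
      exact h3
  K2 := by
    intro X Y l g hl
    have hl' := (mem_ords_iff _ _).mp hl
    have h1 := theE_spec C he X Y l
    have h2 := theE_spec C he X (Y.image (g : Equiv.Perm V)) (l.map (g : Equiv.Perm V))
    exact sameOrbit_of_uniq C (lamOf enc l) (lamOf enc (l.map (g : Equiv.Perm V))) X Y _ _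
      (g : Equiv.Perm V) g.2 (lamOf_inj he _) (lamOf_inj he _) (by
        intro y hy z hz
        have hyl : y ∈ l := (hl'.2 y).mpr hy
        have hzl : z ∈ l := (hl'.2 z).mpr hz
        simp only [lamOf]
        rw [if_pos hyl, if_pos hzl, if_pos (List.mem_map_of_mem hyl),
          if_pos (List.mem_map_of_mem hzl), idxOf_map_inj (g : Equiv.Perm V).injective,
          idxOf_map_inj (g : Equiv.Perm V).injective]) h1 h2
  K3 := by
    intro X
    have h1 := theE_spec C he X ∅ []
    have h2 := C.unit_right (lamOf enc []) X (lamOf_inj he _)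
    have h3 := sameOrbit_of_uniq C (lamOf enc []) (lamOf enc []) X ∅ _ (Sum.elim id id) 1
      (one_mem G) (lamOf_inj he _) (lamOf_inj he _) (by simp) h1 (by simpa using h2)
    have e : (X.disjSum (∅ : Finset V)).image (Sum.elim id id) = X := by
      rw [image_disjSum]
      simp
    rw [Finset.image_empty, e] at h3
    exact h3
  K3' := by
    intro Y l hl
    have h1 := theE_spec C he ∅ Y l
    have h2 := C.unit_left (lamOf enc l) Y (lamOf_inj he _)
    have e2 : Y.image (1 : Equiv.Perm V) = Y := by simp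
    have h3 := sameOrbit_of_uniq C (lamOf enc l) (lamOf enc l) ∅ Y _ (Sum.elim id id) 1
      (one_mem G) (lamOf_inj he _) (lamOf_inj he _) (by simp) h1 (by rw [e2]; exact h2)
    have e : ((∅ : Finset V).disjSum Y).image (Sum.elim id id) = Y := by
      rw [image_disjSum]
      simp
    rw [e2, e] at h3
    exact h3
  K4 := fun _ _ _ _ => rfl

end

/-- the two versions of the orbit algebra agree -/
noncomputable def algEquiv (G : Subgroup (Equiv.Perm V)) :
    orbitAlg G (SupAdd.zero V) (fun _ _ => rfl) ≃ₐ[ℚ] orbitAlgebra G where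
  toFun := fun f => ⟨fun X => (f : SF (SupAdd.zero V)) X,
    fun g hg S => f.2.1 ⟨g, hg⟩ S, f.2.2⟩
  invFun := fun f => ⟨fun X => (f : SetFun V) X, fun g S => f.2.1 g.1 g.2 S, f.2.2⟩
  left_inv := fun _ => rfl
  right_inv := fun _ => rfl
  map_mul' := by
    intro f h
    apply Subtype.ext
    apply SetFun.ext
    intro S
    show ((f : SF (SupAdd.zero V)) * (h : SF (SupAdd.zero V))) S = _
    rw [SF.mul_app]
    show _ = ∑ T ∈ S.powerset, (f : SF (SupAdd.zero V)) T * (h : SF (SupAdd.zero V)) (S \ T)
    apply Finset.sum_congr rfl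
    intro A _
    exact if_pos (show (0 : ℕ) + 0 = 0 from rfl)
  map_add' := fun _ _ => rfl
  commutes' := by
    intro c
    apply Subtype.ext
    apply SetFun.ext
    intro S
    show (algebraMap ℚ (SF (SupAdd.zero V)) c) S = (algebraMap ℚ (SetFun V) c) S
    rw [SF.algebraMap_app, SetFun.algebraMap_apply]

/-- **The orbit algebra of a permutation group with an ordered coupling is a polynomial
algebra.** -/
theorem polynomial_of_coupling [Countable V] (G : Subgroup (Equiv.Perm V))
    (C : MPec220f.Coupling G) :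
    ∃ σ : Type, Nonempty (MvPolynomial σ ℚ ≃ₐ[ℚ] orbitAlgebra G) := by
  obtain ⟨enc, he⟩ := exists_injective_nat V
  obtain ⟨I, ⟨e⟩⟩ := Pool.Agent.MPec220f.polynomial_of_coupling (toList C he)
  exact ⟨I, ⟨e.trans (algEquiv G)⟩⟩

end MPec220f
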