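import Pool.Agent.Lib_MP_ec220f_lc.Defs

/-!
Existentially complete `𝓕`-free graphs: comparison of tuples, the blocker lemma.
-/

namespace MPec220fA

open Finset Function MPec220f

open scoped Classical in
section

variable {𝓕 : Set FinGraph} {V W V1 V2 V3 ι : Type}

/-- `k` is an isomorphism of `S` onto its image. -/
def PE (G : SimpleGraph V) (H : SimpleGraph W) (S : Finset V) (k : V → W) : Prop :=
  Set.InjOn k S ∧ ∀ x ∈ S, ∀ y ∈ S, H.Adj (k x) (k y) ↔ G.Adj x y

theorem PE.mono {G : SimpleGraph V} {H : SimpleGraph W} {S S' : Finset V} {k : V → W}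
    (h : PE G H S k) (hS : S' ⊆ S) : PE G H S' k :=
  ⟨h.1.mono (by exact_mod_cast hS), fun x hx y hy => h.2 x (hS hx) y (hS hy)⟩

theorem PE.comp {G : SimpleGraph V1} {H : SimpleGraph V2} {K : SimpleGraph V3} {S : Finset V1}
    {k : V1 → V2} {l : V2 → V3} (h : PE G H S k) (h' : PE H K (S.image k) l) :
    PE G K S (fun x => l (k x)) := by
  refine ⟨?_, ?_⟩
  · intro x hx y hy hxy
    exact h.1 hx hy (h'.1 (by simpa using ⟨x, hx, rfl⟩) (by simpa using ⟨y, hy, rfl⟩) hxy)
  · intro x hx y hy
    rw [h'.2 _ (Finset.mem_image_of_mem _ hx) _ (Finset.mem_image_of_mem _ hy), h.2 x hx y hy]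

/-- Comparison of tuples: every finite configuration around `a` in `G` is found around `b`
in `H`. -/
def Le (G : SimpleGraph V) (a : ι → V) (H : SimpleGraph W) (b : ι → W) : Prop :=
  ∀ S : Finset V, ∃ k : V → W, PE G H S k ∧ ∀ i, k (a i) = b i

theorem Le.trans {G : SimpleGraph V1} {H : SimpleGraph V2} {K : SimpleGraph V3}
    {a : ι → V1} {b : ι → V2} {c : ι → V3} (h1 : Le G a H b) (h2 : Le H b K c) : Le G a K c := by
  intro S
  obtain ⟨k, hk, hka⟩ := h1 S
  obtain ⟨l, hl, hlb⟩ := h2 (S.image k)
  exact ⟨fun x => l (k x), hk.comp hl, fun i => by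
    change l (k (a i)) = c i
    rw [hka, hlb]⟩

theorem Le.comp {κ : Type} {G : SimpleGraph V1} {H : SimpleGraph V2}
    {a : ι → V1} {b : ι → V2} (h : Le G a H b) (f : κ → ι) : Le G (a ∘ f) H (b ∘ f) := by
  intro S
  obtain ⟨k, hk, hka⟩ := h S
  exact ⟨k, hk, fun i => hka _⟩

theorem Le.of_embedding {G : SimpleGraph V} {H : SimpleGraph W} (j : G ↪g H) (a : ι → V) :
    Le G a H (j ∘ a) := by
  intro S
  refine ⟨j, ⟨j.injective.injOn, ?_⟩, fun i => rfl⟩
  intro x _ y _
  exact j.map_rel_iff

/-- The free amalgam of `Γ` and `G2` restricted to `T` over `A`, along `t`. -/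
def amal (Γ : SimpleGraph V1) (G2 : SimpleGraph V2) (A T : Finset V2) (t : V2 → V1) :
    SimpleGraph (V1 ⊕ {x : V2 // x ∈ T ∧ x ∉ A}) where
  Adj p q := match p, q with
    | Sum.inl x, Sum.inl y => Γ.Adj x y
    | Sum.inr x, Sum.inr y => G2.Adj x.1 y.1
    | Sum.inl x, Sum.inr y => ∃ p ∈ A, t p = x ∧ G2.Adj p y.1
    | Sum.inr y, Sum.inl x => ∃ p ∈ A, t p = x ∧ G2.Adj p y.1
  symm := ⟨by
    rintro (x | x) (y | y) h
    · exact h.symm
    · exact h
    · exact h
    · exact h.symm⟩
  loopless := ⟨by
    rintro (x | x) h
    · exact Γ.irrefl h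
    · exact G2.irrefl h⟩

/-- If a finite configuration `T` over `A` is not realised over `t` in the existentially
complete graph `Γ`, then this is witnessed by a finite part of `Γ`. -/
theorem blocker {Γ : SimpleGraph V1} (hΓ : IsEC 𝓕 Γ) (G2 : SimpleGraph V2) (T : Finset V2) :
    ∀ (r : ℕ) (A : Finset V2) (t : V2 → V1), A ⊆ T → (T \ A).card = r →
      (¬ ∃ k : V2 → V1, PE G2 Γ T k ∧ ∀ x ∈ A, k x = t x) →
      ∃ U : Finset V1, (∀ x ∈ A, t x ∈ U) ∧ ∀ (W : Type) (H : SimpleGraph W), IsFree 𝓕 H →
        ∀ h : V1 → W, PE Γ H U h →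
          ¬ ∃ F : V2 → W, PE G2 H T F ∧ ∀ x ∈ A, F x = h (t x) := by
  intro r
  induction r with
  | zero =>
    intro A t hA hr hno
    rw [Finset.card_eq_zero, Finset.sdiff_eq_empty_iff_subset] at hr
    have hAT : A = T := Finset.Subset.antisymm hA hr
    subst hAT
    refine ⟨A.image t, fun x hx => Finset.mem_image_of_mem _ hx, ?_⟩
    rintro W H _ h hh ⟨F, hF, hFt⟩
    apply hno
    refine ⟨t, ⟨?_, ?_⟩, fun x _ => rfl⟩
    · intro x hx y hy hxy
      exact hF.1 hx hy (by rw [hFt x hx, hFt y hy, hxy])
    · intro x hx y hy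
      rw [← hF.2 x hx y hy, hFt x hx, hFt y hy,
        hh.2 _ (Finset.mem_image_of_mem _ hx) _ (Finset.mem_image_of_mem _ hy)]
  | succ r ih =>
    intro A t hA hr hno
    by_cases hemb : PE G2 Γ A t
    · by_cases hfree : IsFree 𝓕 (amal Γ G2 A T t)
      · exfalso
        apply hno
        let j : Γ ↪g amal Γ G2 A T t := ⟨⟨Sum.inl, Sum.inl_injective⟩, Iff.rfl⟩
        let node : V2 → V1 ⊕ {x : V2 // x ∈ T ∧ x ∉ A} := fun x =>
          if h : x ∈ T ∧ x ∉ A then Sum.inr ⟨x, h⟩ else Sum.inl (t x)
        have hnA : ∀ x ∈ A, node x = Sum.inl (t x) := by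
          intro x hx
          exact dif_neg (fun h => h.2 hx)
        have hnT : ∀ x (hx : x ∈ T ∧ x ∉ A), node x = Sum.inr ⟨x, hx⟩ := by
          intro x hx
          exact dif_pos hx
        obtain ⟨k, hk1, hk2, hk3⟩ := hΓ.2 _ _ hfree j (T.image node)
        have hnS : ∀ x ∈ T, node x ∈ T.image node := fun x hx => Finset.mem_image_of_mem _ hx
        have hkt : ∀ x ∈ A, k (Sum.inl (t x)) = t x := by
          intro x hx
          apply hk3 (t x)
          rw [show j (t x) = node x from (hnA x hx).symm]
          exact hnS x (hA hx)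
        have hninj : ∀ x ∈ T, ∀ y ∈ T, node x = node y → x = y := by
          intro x hx y hy hxy
          by_cases hxA : x ∈ A
          · by_cases hyA : y ∈ A
            · rw [hnA x hxA, hnA y hyA] at hxy
              exact hemb.1 hxA hyA (Sum.inl_injective hxy)
            · rw [hnA x hxA, hnT y ⟨hy, hyA⟩] at hxy
              exact absurd hxy (by simp)
          · by_cases hyA : y ∈ A
            · rw [hnT x ⟨hx, hxA⟩, hnA y hyA] at hxy
              exact absurd hxy (by simp)
            · rw [hnT x ⟨hx, hxA⟩, hnT y ⟨hy, hyA⟩] at hxy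
              have := Sum.inr_injective hxy
              exact congrArg Subtype.val this
        have hnadj : ∀ x ∈ T, ∀ y ∈ T,
            (amal Γ G2 A T t).Adj (node x) (node y) ↔ G2.Adj x y := by
          intro x hx y hy
          by_cases hxA : x ∈ A
          · by_cases hyA : y ∈ A
            · rw [hnA x hxA, hnA y hyA]
              exact hemb.2 x hxA y hyA
            · rw [hnA x hxA, hnT y ⟨hy, hyA⟩]
              constructor
              · rintro ⟨p, hp, hpx, hadj⟩
                have : p = x := hemb.1 hp hxA hpx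
                exact this ▸ hadj
              · intro h
                exact ⟨x, hxA, rfl, h⟩
          · by_cases hyA : y ∈ A
            · rw [hnT x ⟨hx, hxA⟩, hnA y hyA]
              constructor
              · rintro ⟨p, hp, hpx, hadj⟩
                have : p = y := hemb.1 hp hyA hpx
                exact (this ▸ hadj).symm
              · intro h
                exact ⟨y, hyA, rfl, h.symm⟩
            · rw [hnT x ⟨hx, hxA⟩, hnT y ⟨hy, hyA⟩]
              exact Iff.rfl
        refine ⟨fun x => k (node x), ⟨?_, ?_⟩, ?_⟩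
        · intro x hx y hy hxy
          exact hninj x hx y hy (hk1 (hnS x hx) (hnS y hy) hxy)
        · intro x hx y hy
          rw [hk2 _ (hnS x hx) _ (hnS y hy), hnadj x hx y hy]
        · intro x hx
          simp only [hnA x hx]
          exact hkt x hx
      · -- the obstruction
        unfold IsFree at hfree
        push Not at hfree
        obtain ⟨F0, hF0, f, hfinj, hfadj⟩ := hfree
        let U0 : Finset V1 := A.image t ∪ Finset.univ.biUnion (fun i : Fin F0.1 =>
          match f i with
          | Sum.inl x => {x}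
          | Sum.inr _ => ∅)
        have hU0 : ∀ i x, f i = Sum.inl x → x ∈ U0 := by
          intro i x hx
          simp only [U0, Finset.mem_union, Finset.mem_biUnion]
          right
          refine ⟨i, Finset.mem_univ _, ?_⟩
          rw [hx]
          simp
        have hU0A : ∀ x ∈ A, t x ∈ U0 := fun x hx =>
          Finset.mem_union_left _ (Finset.mem_image_of_mem _ hx)
        -- the recursive witnesses
        have hrec : ∀ q ∈ T \ A, ∀ u ∈ U0, ∃ U : Finset V1,
            (∀ x ∈ insert q A, Function.update t q u x ∈ U) ∧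
            ∀ (W : Type) (H : SimpleGraph W), IsFree 𝓕 H →
              ∀ h : V1 → W, PE Γ H U h → ¬ ∃ F : V2 → W, PE G2 H T F ∧
                ∀ x ∈ insert q A, F x = h (Function.update t q u x) := by
          intro q hq u hu
          rw [Finset.mem_sdiff] at hq
          apply ih
          · exact Finset.insert_subset hq.1 hA
          · rw [Finset.sdiff_insert, Finset.card_erase_of_mem (Finset.mem_sdiff.2 hq), hr]
            rfl
          · rintro ⟨k, hk, hkA⟩
            apply hno
            refine ⟨k, hk, ?_⟩
            intro x hx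
            have hxq : x ≠ q := fun e => hq.2 (e ▸ hx)
            rw [hkA x (Finset.mem_insert_of_mem hx), Function.update_of_ne hxq]
        choose! UU hUU1 hUU2 using hrec
        refine ⟨U0 ∪ (T \ A).biUnion (fun q => U0.biUnion (fun u => UU q u)), ?_, ?_⟩
        · intro x hx
          exact Finset.mem_union_left _ (hU0A x hx)
        · rintro W H hH h hh ⟨F, hF, hFt⟩
          -- `F` meets `h '' U0` outside `A`
          have hmeet : ∃ q ∈ T \ A, ∃ u ∈ U0, F q = h u := by
            by_contra hcon
            push Not at hcon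
            have hhU0 : PE Γ H U0 h := hh.mono Finset.subset_union_left
            refine hH F0 hF0 (fun i => Sum.elim h (fun x => F x.1) (f i)) ?_ ?_
            · intro i i' hii
              apply hfinj
              rcases hfi : f i with x | x <;> rcases hfi' : f i' with y | y
              · simp only [hfi, hfi', Sum.elim_inl] at hii
                rw [hhU0.1 (hU0 i x hfi) (hU0 i' y hfi') hii]
              · simp only [hfi, hfi', Sum.elim_inl, Sum.elim_inr] at hii
                exact absurd hii.symm (hcon y.1 (Finset.mem_sdiff.2 y.2) x (hU0 i x hfi))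
              · simp only [hfi, hfi', Sum.elim_inl, Sum.elim_inr] at hii
                exact absurd hii (hcon x.1 (Finset.mem_sdiff.2 x.2) y (hU0 i' y hfi'))
              · simp only [hfi, hfi', Sum.elim_inr] at hii
                have := hF.1 x.2.1 y.2.1 hii
                rw [Subtype.ext this]
            · intro a b hab
              have h1 := hfadj a b hab
              rcases hfi : f a with x | x <;> rcases hfi' : f b with y | y
              · rw [hfi, hfi'] at h1
                simp only [Sum.elim_inl]
                exact (hhU0.2 x (hU0 a x hfi) y (hU0 b y hfi')).2 h1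
              · rw [hfi, hfi'] at h1
                simp only [Sum.elim_inl, Sum.elim_inr]
                obtain ⟨p, hp, hpx, hadj⟩ := h1
                rw [← hpx, ← hFt p hp]
                exact (hF.2 p (hA hp) y.1 y.2.1).2 hadj
              · rw [hfi, hfi'] at h1
                simp only [Sum.elim_inl, Sum.elim_inr]
                obtain ⟨p, hp, hpx, hadj⟩ := h1
                rw [← hpx, ← hFt p hp]
                exact ((hF.2 p (hA hp) x.1 x.2.1).2 hadj).symm
              · rw [hfi, hfi'] at h1
                simp only [Sum.elim_inr]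
                exact (hF.2 x.1 x.2.1 y.1 y.2.1).2 h1
          obtain ⟨q, hq, u, hu, hqu⟩ := hmeet
          refine hUU2 q hq u hu W H hH h (hh.mono ?_) ⟨F, hF, ?_⟩
          · intro z hz
            apply Finset.mem_union_right
            rw [Finset.mem_biUnion]
            exact ⟨q, hq, Finset.mem_biUnion.2 ⟨u, hu, hz⟩⟩
          · intro x hx
            by_cases hxq : x = q
            · subst hxq
              rw [Function.update_self]
              exact hqu
            · rw [Function.update_of_ne hxq]
              exact hFt x ((Finset.mem_insert.1 hx).resolve_left hxq)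
    · refine ⟨A.image t, fun x hx => Finset.mem_image_of_mem _ hx, ?_⟩
      rintro W H _ h hh ⟨F, hF, hFt⟩
      apply hemb
      refine ⟨?_, ?_⟩
      · intro x hx y hy hxy
        exact hF.1 (hA hx) (hA hy) (by rw [hFt x hx, hFt y hy, hxy])
      · intro x hx y hy
        rw [← hF.2 x (hA hx) y (hA hy), hFt x hx, hFt y hy,
          hh.2 _ (Finset.mem_image_of_mem _ hx) _ (Finset.mem_image_of_mem _ hy)]

/-- In an existentially complete graph the comparison of finite tuples is symmetric. -/
theorem Le.symm [Finite ι] {Γ : SimpleGraph V1} (hΓ : IsEC 𝓕 Γ) {H : SimpleGraph V2}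
    (hH : IsFree 𝓕 H) {a : ι → V1} {b : ι → V2} (h : Le Γ a H b) : Le H b Γ a := by
  have : Fintype ι := Fintype.ofFinite ι
  -- `a i = a j` iff `b i = b j`
  have hab : ∀ i j, a i = a j ↔ b i = b j := by
    intro i j
    obtain ⟨k, hk, hka⟩ := h (Finset.univ.image a)
    constructor
    · intro e
      rw [← hka i, ← hka j, e]
    · intro e
      rw [← hka i, ← hka j] at e
      exact hk.1 (by simp) (by simp) e
  intro T
  by_contra hno
  rcases isEmpty_or_nonempty V1 with hV1 | ⟨⟨v1⟩⟩
  · -- `V1` is empty: then `V2` is empty or there is no map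
    have hι : IsEmpty ι := ⟨fun i => hV1.false (a i)⟩
    rcases isEmpty_or_nonempty V2 with hV2 | ⟨⟨v2⟩⟩
    · apply hno
      exact ⟨fun x => (hV2.false x).elim, ⟨fun x => (hV2.false x).elim,
        fun x => (hV2.false x).elim⟩, fun i => (hι.false i).elim⟩
    · -- `Γ` on the empty type is existentially complete, but one vertex can be added
      obtain ⟨k, -⟩ := hΓ.2 V2 H hH ⟨⟨fun x => (hV1.false x).elim, fun x => (hV1.false x).elim⟩,
        fun {x} => (hV1.false x).elim⟩ {v2}
      exact (hV1.false (k v2)).elim
  · -- main case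
    let A : Finset V2 := Finset.univ.image b
    let t : V2 → V1 := fun x => if hx : ∃ i, b i = x then a hx.choose else v1
    have ht : ∀ i, t (b i) = a i := by
      intro i
      have hx : ∃ j, b j = b i := ⟨i, rfl⟩
      simp only [t, dif_pos hx]
      exact (hab _ _).2 hx.choose_spec
    obtain ⟨U, hU1, hU2⟩ := blocker hΓ H (T ∪ A) _ A t Finset.subset_union_right rfl (by
      rintro ⟨k, hk, hkA⟩
      apply hno
      refine ⟨k, hk.mono Finset.subset_union_left, ?_⟩
      intro i
      rw [hkA (b i) (by simp [A]), ht])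
    obtain ⟨k, hk, hka⟩ := h U
    refine hU2 V2 H hH k hk ⟨id, ⟨Function.injective_id.injOn, fun x _ y _ => Iff.rfl⟩, ?_⟩
    intro x hx
    simp only [A, Finset.mem_image, Finset.mem_univ, true_and] at hx
    obtain ⟨i, rfl⟩ := hx
    rw [ht, hka]
    rfl

end

end MPec220fA
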