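import Pool.Agent.Lib_MP_ec220f_lc.CatRN
import Pool.Agent.Lib_MP_ec220f_lc.CatEC

/-!
Countable existentially complete `𝓕`-free graphs, when there is an aleph_0-categorical
countable universal `𝓕`-free graph: homogeneity, uniqueness, oligomorphy.
-/

namespace MPec220fA

open Finset Function MPec220f FirstOrder FirstOrder.Language

open scoped Classical in
section

variable {𝓕 : Set FinGraph} {V W U V1 V2 : Type}

/-- `Δ` is a universal graph for the countable `𝓕`-free graphs. -/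
def IsUniversal (𝓕 : Set FinGraph) {U : Type} (Δ : SimpleGraph U) : Prop :=
  IsFree 𝓕 Δ ∧ ∀ (W : Type) (H : SimpleGraph W), Countable W → IsFree 𝓕 H → Nonempty (H ↪g Δ)

/-- The complete first-order theory of `Δ` has, up to isomorphism, a unique countably
infinite model. -/
def AlephNullCat {U : Type} (Δ : SimpleGraph U) : Prop :=
  @Cardinal.Categorical FirstOrder.Language.graph Cardinal.aleph0.{0}
    (@FirstOrder.Language.completeTheory FirstOrder.Language.graph U Δ.structure)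

/-- The set of formulas in the language of graphs true at a tuple. -/
def gtp {n : ℕ} (Δ : SimpleGraph U) (w : Fin n → U) :
    Set (FirstOrder.Language.graph.Formula (Fin n)) :=
  @tpOf FirstOrder.Language.graph U Δ.structure n w

/-- The formula saying that the configuration `S` is realised around the tuple. -/
noncomputable def diag {n : ℕ} (G : SimpleGraph V) (S : Finset V) (a : Fin n → V)
    (ha : ∀ i, a i ∈ S) : FirstOrder.Language.graph.Formula (Fin n) :=
  Formula.iExs {x // x ∈ S} (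
    (Formula.iInf (fun p : {x // x ∈ S} × {x // x ∈ S} =>
      if G.Adj p.1.1 p.2.1 then
        (Relations.formula₂ FirstOrder.Language.adj (Term.var (Sum.inr p.1)) (Term.var (Sum.inr p.2)))
      else
        (Relations.formula₂ FirstOrder.Language.adj (Term.var (Sum.inr p.1))
          (Term.var (Sum.inr p.2))).not)) ⊓
    ((Formula.iInf (fun p : {x // x ∈ S} × {x // x ∈ S} =>
      if p.1 = p.2 then ⊤ else
        (Term.equal (Term.var (Sum.inr p.1)) (Term.var (Sum.inr p.2))).not)) ⊓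
    (Formula.iInf (fun i : Fin n =>
      Term.equal (Term.var (Sum.inr ⟨a i, ha i⟩)) (Term.var (Sum.inl i))))))

theorem mem_gtp_diag {n : ℕ} (Δ : SimpleGraph U) (w : Fin n → U) (G : SimpleGraph V)
    (S : Finset V) (a : Fin n → V) (ha : ∀ i, a i ∈ S) :
    diag G S a ha ∈ gtp Δ w ↔ ∃ y : {x // x ∈ S} → U,
      (∀ p q, Δ.Adj (y p) (y q) ↔ G.Adj p.1 q.1) ∧ Injective y ∧ ∀ i, y ⟨a i, ha i⟩ = w i := by
  let _ := Δ.structure
  change (diag G S a ha).Realize w ↔ _
  unfold diag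
  rw [Formula.realize_iExs]
  apply exists_congr
  intro y
  rw [Formula.realize_inf, Formula.realize_inf, Formula.realize_iInf, Formula.realize_iInf,
    Formula.realize_iInf]
  refine and_congr ?_ (and_congr ?_ ?_)
  · constructor
    · intro h p q
      have := h (p, q)
      split_ifs at this with hpq
      · rw [Formula.realize_rel₂] at this
        exact ⟨fun _ => hpq, fun _ => this⟩
      · rw [Formula.realize_not, Formula.realize_rel₂] at this
        exact ⟨fun h' => (this h').elim, fun h' => (hpq h').elim⟩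
    · rintro h ⟨p, q⟩
      split_ifs with hpq
      · rw [Formula.realize_rel₂]
        exact (h p q).2 hpq
      · rw [Formula.realize_not, Formula.realize_rel₂]
        exact fun h' => hpq ((h p q).1 h')
  · constructor
    · intro h p q hpq
      by_contra hne
      have := h (p, q)
      rw [if_neg hne, Formula.realize_not, Formula.realize_equal] at this
      exact this hpq
    · rintro h ⟨p, q⟩
      split_ifs with hpq
      · simp
      · rw [Formula.realize_not, Formula.realize_equal]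
        exact fun h' => hpq (h h')
  · apply forall_congr'
    intro i
    rw [Formula.realize_equal]
    rfl

/-- Tuples of existentially complete graphs with the same type in a common `𝓕`-free
overgraph are comparable. -/
theorem le_of_gtp_eq {n : ℕ} {Δ : SimpleGraph U} (hΔ : IsFree 𝓕 Δ) {Γ1 : SimpleGraph V1}
    {Γ2 : SimpleGraph V2} (h2 : IsEC 𝓕 Γ2) (e1 : Γ1 ↪g Δ) (e2 : Γ2 ↪g Δ) (a : Fin n → V1)
    (b : Fin n → V2) (h : gtp Δ (e1 ∘ a) = gtp Δ (e2 ∘ b)) : Le Γ1 a Γ2 b := by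
  intro S
  have ha : ∀ i, a i ∈ S ∪ Finset.univ.image a := fun i =>
    Finset.mem_union_right _ (Finset.mem_image_of_mem _ (Finset.mem_univ i))
  have h1 : diag Γ1 (S ∪ Finset.univ.image a) a ha ∈ gtp Δ (e1 ∘ a) := by
    rw [mem_gtp_diag]
    exact ⟨fun x => e1 x.1, fun p q => e1.map_rel_iff, fun p q hpq =>
      Subtype.ext (e1.injective hpq), fun i => rfl⟩
  rw [h, mem_gtp_diag] at h1
  obtain ⟨y, hy1, hy2, hy3⟩ := h1
  obtain ⟨k, hk1, hk2, hk3⟩ := h2.2 U Δ hΔ e2
    (Finset.univ.image y ∪ Finset.univ.image (e2 ∘ b))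
  have hyT : ∀ x, y x ∈ Finset.univ.image y ∪ Finset.univ.image (e2 ∘ b) := fun x =>
    Finset.mem_union_left _ (Finset.mem_image_of_mem _ (Finset.mem_univ x))
  refine ⟨fun x => if hx : x ∈ S ∪ Finset.univ.image a then k (y ⟨x, hx⟩) else k (e1 x),
    ⟨?_, ?_⟩, ?_⟩
  · intro x hx x' hx' hxx
    have hx1 : x ∈ S ∪ Finset.univ.image a := Finset.mem_union_left _ hx
    have hx1' : x' ∈ S ∪ Finset.univ.image a := Finset.mem_union_left _ hx'
    simp only [dif_pos hx1, dif_pos hx1'] at hxx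
    have := hy2 (hk1 (hyT _) (hyT _) hxx)
    exact congrArg Subtype.val this
  · intro x hx x' hx'
    have hx1 : x ∈ S ∪ Finset.univ.image a := Finset.mem_union_left _ hx
    have hx1' : x' ∈ S ∪ Finset.univ.image a := Finset.mem_union_left _ hx'
    simp only [dif_pos hx1, dif_pos hx1']
    rw [hk2 _ (hyT _) _ (hyT _), hy1]
  · intro i
    simp only [dif_pos (ha i)]
    rw [hy3]
    apply hk3
    exact Finset.mem_union_right _ (Finset.mem_image_of_mem (e2 ∘ b) (Finset.mem_univ i))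

/-- The standing assumption: there is an aleph_0-categorical countable universal
`𝓕`-free graph (and the members of `𝓕` have at least two vertices and are connected,
which makes the universal graph infinite). -/
def Amb (𝓕 : Set FinGraph) : Prop :=
  ∃ (U : Type) (Δ : SimpleGraph U), Countable U ∧ Infinite U ∧ IsUniversal 𝓕 Δ ∧ AlephNullCat Δ

/-- The hypothesis `Amb` from a categorical countable universal graph, when the members of
`𝓕` are connected with at least two vertices. -/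
theorem amb_of (hconn : ∀ F ∈ 𝓕, F.2.Connected) (h2 : ∀ F ∈ 𝓕, 2 ≤ F.1)
    {Δ : SimpleGraph U} [Countable U] (hU : IsUniversal 𝓕 Δ) (hcat : AlephNullCat Δ) :
    Amb 𝓕 := by
  refine ⟨U, Δ, inferInstance, ?_, hU, hcat⟩
  have hfree : IsFree 𝓕 (⊥ : SimpleGraph ℕ) := by
    intro F hF f _ hadj
    have h0 : 0 < F.1 := lt_of_lt_of_le (by norm_num) (h2 F hF)
    have h1 : 1 < F.1 := lt_of_lt_of_le (by norm_num) (h2 F hF)
    have hne : (⟨0, h0⟩ : Fin F.1) ≠ ⟨1, h1⟩ := by
      intro e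
      have := congrArg Fin.val e
      simp at this
    have : Nontrivial (Fin F.1) := ⟨⟨_, _, hne⟩⟩
    obtain ⟨w, hw⟩ := (hconn F hF).preconnected.exists_adj_of_nontrivial ⟨0, h0⟩
    exact (hadj _ _ hw).elim
  obtain ⟨e⟩ := hU.2 ℕ ⊥ inferInstance hfree
  exact Infinite.of_injective e e.injective

/-- Finitely many classes of tuples. -/
theorem finite_classes (hA : Amb 𝓕) (n : ℕ) {Γ2 : SimpleGraph V2} [Countable V2]
    (h2 : IsEC 𝓕 Γ2) {κ : Type} (f : κ → Fin n → V2) :
    ∃ D : Finset κ, ∀ d, ∃ d' ∈ D, Le Γ2 (f d) Γ2 (f d') := by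
  obtain ⟨U, Δ, hU1, hU2, hU3, hU4⟩ := hA
  let _ := Δ.structure
  obtain ⟨e2⟩ := hU3.2 V2 Γ2 inferInstance h2.1
  have hcount : Countable FirstOrder.Language.graph.Symbols := by
    have h1 : Countable (Σ l, FirstOrder.Language.graph.Functions l) := by
      have : IsEmpty (Σ l, FirstOrder.Language.graph.Functions l) := ⟨fun x => x.2.elim⟩
      infer_instance
    have h2 : Countable (Σ l, FirstOrder.Language.graph.Relations l) := by
      have : ∀ l, Countable (FirstOrder.Language.graph.Relations l) := fun l => inferInstance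
      infer_instance
    exact inferInstanceAs (Countable (_ ⊕ _))
  have hfin := finite_types (L := FirstOrder.Language.graph) (M := U) hU4 n
  let g : κ → Set (FirstOrder.Language.graph.Formula (Fin n)) := fun d => gtp Δ (e2 ∘ f d)
  have hg : (Set.range g).Finite := by
    refine hfin.subset ?_
    rintro _ ⟨d, rfl⟩
    exact ⟨e2 ∘ f d, rfl⟩
  have : Finite (Set.range g) := hg
  refine ⟨(Set.finite_range (Set.rangeSplitting g)).toFinset, ?_⟩
  intro d
  refine ⟨Set.rangeSplitting g ⟨g d, d, rfl⟩, ?_, ?_⟩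
  · rw [Set.Finite.mem_toFinset]
    exact ⟨_, rfl⟩
  · apply le_of_gtp_eq hU3.1 h2 e2 e2
    exact (Set.apply_rangeSplitting g ⟨g d, d, rfl⟩).symm

/-- The extension step of the back-and-forth. -/
theorem extend (hA : Amb 𝓕) {n : ℕ} {Γ1 : SimpleGraph V1} {Γ2 : SimpleGraph V2} [Countable V2]
    (h2 : IsEC 𝓕 Γ2) {a : Fin n → V1} {b : Fin n → V2} (h : Le Γ1 a Γ2 b) (c : V1) :
    ∃ d : V2, Le Γ1 (Fin.snoc a c : Fin (n + 1) → V1) Γ2 (Fin.snoc b d : Fin (n + 1) → V2) := by
  by_contra hno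
  push Not at hno
  have hno' : ∀ d : V2, ∃ S : Finset V1, ∀ k : V1 → V2, PE Γ1 Γ2 S k →
      ¬ ∀ i, k ((Fin.snoc a c : Fin (n + 1) → V1) i) = (Fin.snoc b d : Fin (n + 1) → V2) i := by
    intro d
    have := hno d
    unfold Le at this
    push Not at this
    obtain ⟨S, hS⟩ := this
    refine ⟨S, fun k hk hk' => ?_⟩
    obtain ⟨i, hi⟩ := hS k hk
    exact hi (hk' i)
  choose SS hSS using hno'
  obtain ⟨D, hD⟩ := finite_classes hA (n + 1) h2
    (fun d : V2 => (Fin.snoc b d : Fin (n + 1) → V2))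
  obtain ⟨k, hk, hka⟩ := h (D.biUnion SS)
  obtain ⟨d', hd', hle⟩ := hD (k c)
  obtain ⟨l, hl, hlb⟩ := hle ((D.biUnion SS).image k)
  refine hSS d' (fun x => l (k x)) ((hk.comp hl).mono ?_) ?_
  · intro x hx
    exact Finset.mem_biUnion.2 ⟨d', hd', hx⟩
  · intro i
    refine Fin.lastCases ?_ (fun i => ?_) i
    · have := hlb (Fin.last n)
      simp only [Fin.snoc_last] at this ⊢
      exact this
    · have := hlb (Fin.castSucc i)
      simp only [Fin.snoc_castSucc] at this ⊢
      rw [hka, this]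

/-- The conditions of the back-and-forth. -/
structure BF (Γ1 : SimpleGraph V1) (Γ2 : SimpleGraph V2) where
  /-- length -/
  n : ℕ
  /-- left tuple -/
  a : Fin n → V1
  /-- right tuple -/
  b : Fin n → V2
  le' : Le Γ1 a Γ2 b

instance (Γ1 : SimpleGraph V1) (Γ2 : SimpleGraph V2) : Preorder (BF Γ1 Γ2) where
  le p q := ∃ f : Fin p.n → Fin q.n, p.a = q.a ∘ f ∧ p.b = q.b ∘ f
  le_refl p := ⟨id, rfl, rfl⟩
  le_trans p q r := by
    rintro ⟨f, hf1, hf2⟩ ⟨g, hg1, hg2⟩
    refine ⟨g ∘ f, ?_, ?_⟩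
    · rw [hf1, hg1]; rfl
    · rw [hf2, hg2]; rfl

/-- Homogeneity and uniqueness of the countable existentially complete graphs. -/
theorem exists_iso (hA : Amb 𝓕) {n : ℕ} {Γ1 : SimpleGraph V1} {Γ2 : SimpleGraph V2}
    [Countable V1] [Countable V2] (h1 : IsEC 𝓕 Γ1) (h2 : IsEC 𝓕 Γ2)
    {a : Fin n → V1} {b : Fin n → V2} (h : Le Γ1 a Γ2 b) :
    ∃ f : Γ1 ≃g Γ2, ∀ i, f (a i) = b i := by
  let D1 : V1 → Order.Cofinal (BF Γ1 Γ2) := fun x =>
    { carrier := {p | ∃ i, p.a i = x}
      isCofinal := by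
        intro p
        obtain ⟨d, hd⟩ := extend hA h2 p.le' x
        refine ⟨⟨p.n + 1, _, _, hd⟩, ⟨Fin.last _, by simp⟩, ⟨Fin.castSucc, ?_, ?_⟩⟩
        · funext i
          simp
        · funext i
          simp }
  let D2 : V2 → Order.Cofinal (BF Γ1 Γ2) := fun y =>
    { carrier := {p | ∃ i, p.b i = y}
      isCofinal := by
        intro p
        obtain ⟨d, hd⟩ := extend hA h1 (p.le'.symm h1 h2.1) y
        refine ⟨⟨p.n + 1, _, _, hd.symm h2 h1.1⟩, ⟨Fin.last _, by simp⟩, ⟨Fin.castSucc, ?_, ?_⟩⟩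
        · funext i
          simp
        · funext i
          simp }
  have henc : Encodable (V1 ⊕ V2) := Encodable.ofCountable _
  let I := Order.idealOfCofinals (⟨n, a, b, h⟩ : BF Γ1 Γ2) (Sum.elim D1 D2)
  let R : V1 → V2 → Prop := fun x y => ∃ p ∈ I, ∃ i, p.a i = x ∧ p.b i = y
  have hR1 : ∀ x, ∃ y, R x y := by
    intro x
    obtain ⟨p, ⟨i, hi⟩, hp⟩ := Order.cofinal_meets_idealOfCofinals
      (⟨n, a, b, h⟩ : BF Γ1 Γ2) (Sum.elim D1 D2) (Sum.inl x)
    exact ⟨p.b i, p, hp, i, hi, rfl⟩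
  have hR2 : ∀ y, ∃ x, R x y := by
    intro y
    obtain ⟨p, ⟨i, hi⟩, hp⟩ := Order.cofinal_meets_idealOfCofinals
      (⟨n, a, b, h⟩ : BF Γ1 Γ2) (Sum.elim D1 D2) (Sum.inr y)
    exact ⟨p.a i, p, hp, i, rfl, hi⟩
  have hR3 : ∀ x y x' y', R x y → R x' y' → (x = x' ↔ y = y') ∧ (Γ2.Adj y y' ↔ Γ1.Adj x x') := by
    rintro x y x' y' ⟨p, hp, i, hi1, hi2⟩ ⟨p', hp', i', hi1', hi2'⟩
    obtain ⟨q, -, ⟨f, hf1, hf2⟩, ⟨f', hf1', hf2'⟩⟩ := I.directed p hp p' hp'
    have e1 : q.a (f i) = x := by rw [← hi1, hf1]; rfl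
    have e2 : q.b (f i) = y := by rw [← hi2, hf2]; rfl
    have e1' : q.a (f' i') = x' := by rw [← hi1', hf1']; rfl
    have e2' : q.b (f' i') = y' := by rw [← hi2', hf2']; rfl
    obtain ⟨k, hk, hka⟩ := q.le' {x, x'}
    have k1 : k x = y := by rw [← e1, hka, e2]
    have k2 : k x' = y' := by rw [← e1', hka, e2']
    refine ⟨⟨fun e => by rw [← k1, ← k2, e], fun e => ?_⟩, ?_⟩
    · rw [← k1, ← k2] at e
      exact hk.1 (by simp) (by simp) e
    · rw [← k1, ← k2]
      exact hk.2 x (by simp) x' (by simp)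
  choose f hf using hR1
  have hinj : Injective f := by
    intro x x' hxx
    exact (hR3 x (f x) x' (f x') (hf x) (hf x')).1.2 hxx
  have hsurj : Surjective f := by
    intro y
    obtain ⟨x, hx⟩ := hR2 y
    exact ⟨x, (hR3 x (f x) x y (hf x) hx).1.1 rfl⟩
  refine ⟨⟨Equiv.ofBijective f ⟨hinj, hsurj⟩, ?_⟩, ?_⟩
  · intro x x'
    exact (hR3 x (f x) x' (f x') (hf x) (hf x')).2
  · intro i
    have hi : R (a i) (b i) := ⟨⟨n, a, b, h⟩, Order.mem_idealOfCofinals _ _, i, rfl, rfl⟩
    exact (hR3 (a i) (f (a i)) (a i) (b i) (hf _) hi).1.1 rfl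

/-- Any two countable existentially complete `𝓕`-free graphs are isomorphic. -/
theorem iso_unique (hA : Amb 𝓕) {Γ1 : SimpleGraph V1} {Γ2 : SimpleGraph V2}
    [Countable V1] [Countable V2] (h1 : IsEC 𝓕 Γ1) (h2 : IsEC 𝓕 Γ2) : Nonempty (Γ1 ≃g Γ2) := by
  have hA' := hA
  obtain ⟨U, Δ, hU1, hU2, hU3, hU4⟩ := hA'
  obtain ⟨e1⟩ := hU3.2 V1 Γ1 inferInstance h1.1
  obtain ⟨e2⟩ := hU3.2 V2 Γ2 inferInstance h2.1
  have hle : Le Γ1 (fun i : Fin 0 => i.elim0) Γ2 (fun i : Fin 0 => i.elim0) := by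
    apply le_of_gtp_eq hU3.1 h2 e1 e2
    congr 1
    exact funext fun i => i.elim0
  obtain ⟨f, -⟩ := exists_iso hA h1 h2 hle
  exact ⟨f⟩

/-- An embedding between countable existentially complete graphs agrees with an isomorphism
on any finite set. -/
theorem iso_of_embedding (hA : Amb 𝓕) {Γ1 : SimpleGraph V1} {Γ2 : SimpleGraph V2}
    [Countable V1] [Countable V2] (h1 : IsEC 𝓕 Γ1) (h2 : IsEC 𝓕 Γ2) (j : Γ1 ↪g Γ2)
    (A : Finset V1) : ∃ f : Γ1 ≃g Γ2, ∀ x ∈ A, f x = j x := by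
  have hle := Le.of_embedding j (fun i : Fin A.card => (A.equivFin.symm i).1)
  obtain ⟨f, hf⟩ := exists_iso hA h1 h2 hle
  refine ⟨f, ?_⟩
  intro x hx
  have := hf (A.equivFin ⟨x, hx⟩)
  simpa using this

/-- Tuples of one countable existentially complete graph: comparable tuples are conjugate. -/
theorem conj_of_le (hA : Amb 𝓕) {n : ℕ} {Γ : SimpleGraph V} [Countable V] (h : IsEC 𝓕 Γ)
    {a b : Fin n → V} (hab : Le Γ a Γ b) : ∃ g ∈ autSub Γ, ∀ i, g (a i) = b i := by
  obtain ⟨f, hf⟩ := exists_iso hA h h hab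
  exact ⟨f.toEquiv, fun x y => f.map_rel_iff, hf⟩

/-- The automorphism group of the countable existentially complete graph is oligomorphic. -/
theorem oligomorphic (hA : Amb 𝓕) {Γ : SimpleGraph V} [Countable V] (h : IsEC 𝓕 Γ) (n : ℕ) :
    ∃ D : Finset (Fin n → V), ∀ a : Fin n → V, ∃ b ∈ D, ∃ g ∈ autSub Γ, ∀ i, g (a i) = b i := by
  obtain ⟨D, hD⟩ := finite_classes hA n h (fun a : Fin n → V => a)
  refine ⟨D, fun a => ?_⟩
  obtain ⟨b, hb, hle⟩ := hD a
  exact ⟨b, hb, conj_of_le hA h hle⟩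

end

end MPec220fA
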