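import Mathlib

/-!
Omitting types and the theorem of Ryll-Nardzewski (one direction), for a
countable relational language: if the complete theory of a countably infinite
structure is aleph_0-categorical then only finitely many complete types of
`n`-tuples are realised in it.
-/

namespace MPec220fA

open FirstOrder FirstOrder.Language Theory

variable {L : FirstOrder.Language.{0, 0}}

/-- The truth of a formula in variables indexed by `ℕ` depends on finitely many
variables only. -/
theorem formula_support (φ : L.Formula ℕ) : ∃ K : ℕ, ∀ (M : Type) [L.Structure M]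
    (v v' : ℕ → M), (∀ i < K, v i = v' i) → (φ.Realize v ↔ φ.Realize v') := by
  classical
  refine ⟨φ.freeVarFinset.sup id + 1, ?_⟩
  intro M _ v v' h
  have hv : ∀ a : φ.freeVarFinset, v a = v' a := by
    intro a
    apply h
    exact Nat.lt_succ_of_le (Finset.le_sup (f := id) a.2)
  have h1 := BoundedFormula.realize_restrictFreeVar (L := L) (M := M) (φ := φ)
    (f := fun a => a) (v := fun a : φ.freeVarFinset => v a) (xs := default) v (fun a => rfl)
  have h2 := BoundedFormula.realize_restrictFreeVar (L := L) (M := M) (φ := φ)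
    (f := fun a => a) (v := fun a : φ.freeVarFinset => v a) (xs := default) v' hv
  exact h1.symm.trans h2

/-- Compactness in variables `α`. -/
theorem exists_realize_of_finite {α : Type} {M : Type} [L.Structure M] [Nonempty M]
    (S : Set (L.Formula α))
    (h : ∀ S0 : Finset (L.Formula α), (S0 : Set (L.Formula α)) ⊆ S →
      ∃ v : α → M, ∀ φ ∈ S0, φ.Realize v) :
    ∃ (N : ModelType.{0, 0, 0} (L.completeTheory M)) (v : α → N), ∀ φ ∈ S, φ.Realize v := by
  classical
  set T := L.completeTheory M with hT
  have hsat : ((L.lhomWithConstants α).onTheory T ∪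
      (Formula.equivSentence '' S : Set (L[[α]].Sentence))).IsSatisfiable := by
    rw [isSatisfiable_iff_isFinitelySatisfiable]
    intro T0 hT0
    have hfin : ((T0 : Set (L[[α]].Sentence)) ∩ (Formula.equivSentence '' S)).Finite :=
      T0.finite_toSet.inter_of_left _
    obtain ⟨S0, hS0, hS0'⟩ : ∃ S0 : Finset (L.Formula α), (S0 : Set (L.Formula α)) ⊆ S ∧
        (T0 : Set (L[[α]].Sentence)) ∩ (Formula.equivSentence '' S) ⊆
          Formula.equivSentence '' (S0 : Set (L.Formula α)) := by
      refine ⟨(hfin.preimage (f := (Formula.equivSentence (L := L) (α := α)))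
        (Formula.equivSentence (L := L) (α := α)).injective.injOn).toFinset, ?_, ?_⟩
      · intro φ hφ
        simp only [Set.Finite.coe_toFinset, Set.mem_preimage, Set.mem_inter_iff] at hφ
        obtain ⟨ψ, hψ, e⟩ := hφ.2
        have : ψ = φ := Formula.equivSentence.injective e
        exact this ▸ hψ
      · rintro _ ⟨h1, φ, hφ, rfl⟩
        refine ⟨φ, ?_, rfl⟩
        simp only [Set.Finite.coe_toFinset, Set.mem_preimage, Set.mem_inter_iff]
        exact ⟨h1, φ, hφ, rfl⟩
    obtain ⟨v, hv⟩ := h S0 hS0
    let _ : (constantsOn α).Structure M := constantsOn.structure v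
    have hM : M ⊨ (T0 : L[[α]].Theory) := by
      refine ⟨fun φ hφ => ?_⟩
      rcases hT0 hφ with h1 | h1
      · have : M ⊨ (L.lhomWithConstants α).onTheory T := by
          rw [LHom.onTheory_model]
          exact model_completeTheory
        exact this.realize_of_mem φ h1
      · obtain ⟨ψ, hψ, rfl⟩ := hS0' ⟨hφ, h1⟩
        rw [Formula.realize_equivSentence]
        exact hv ψ hψ
    exact Model.isSatisfiable M
  obtain ⟨N⟩ := hsat
  have hN1 : N ⊨ (L.lhomWithConstants α).onTheory T := N.is_model.mono Set.subset_union_left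
  let _ := (L.lhomWithConstants α).reduct N
  have hN2 : N ⊨ T := (LHom.onTheory_model _ _).1 hN1
  refine ⟨ModelType.of T N, fun a => (L.con a : N), ?_⟩
  intro φ hφ
  have := N.is_model.realize_of_mem (Formula.equivSentence φ) (Or.inr ⟨φ, hφ, rfl⟩)
  rw [Formula.realize_equivSentence] at this
  exact this

section Omit

variable {M : Type} [L.Structure M]

/-- The conditions: formulas in variables indexed by `ℕ`, satisfiable in `M`. -/
def Cond (L : FirstOrder.Language.{0, 0}) (M : Type) [L.Structure M] : Type :=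
  {φ : L.Formula ℕ // ∃ v : ℕ → M, φ.Realize v}

instance : Preorder (Cond L M) where
  le φ ψ := ∀ v : ℕ → M, ψ.1.Realize v → φ.1.Realize v
  le_refl _ _ h := h
  le_trans _ _ _ h1 h2 v h := h1 v (h2 v h)

/-- Existential closure over all variables, remembering the places `c`. -/
theorem exists_projection {n : ℕ} (φ : L.Formula ℕ) (c : Fin n → ℕ) [Nonempty M] :
    ∃ χ : L.Formula (Fin n), ∀ w : Fin n → M,
      χ.Realize w ↔ ∃ v : ℕ → M, φ.Realize v ∧ ∀ i, v (c i) = w i := by
  obtain ⟨K0, hK0⟩ := formula_support φ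
  obtain ⟨K, hK, hKc⟩ : ∃ K, K0 ≤ K ∧ ∀ i, c i < K := by
    refine ⟨max K0 (Finset.univ.sup c + 1), le_max_left _ _, ?_⟩
    intro i
    refine lt_of_lt_of_le (Nat.lt_succ_of_le (Finset.le_sup (Finset.mem_univ i))) (le_max_right _ _)
  let g : ℕ → Fin n ⊕ Fin (K + 1) := fun i => Sum.inr (if h : i < K then ⟨i, by omega⟩ else 0)
  refine ⟨Formula.iExs (Fin (K + 1)) (φ.relabel g ⊓ Formula.iInf (fun i : Fin n =>
    Term.equal (Term.var (Sum.inr ⟨c i, by have := hKc i; omega⟩)) (Term.var (Sum.inl i)))), ?_⟩
  intro w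
  rw [Formula.realize_iExs]
  constructor
  · rintro ⟨y, hy⟩
    rw [Formula.realize_inf, Formula.realize_relabel, Formula.realize_iInf] at hy
    refine ⟨Sum.elim w y ∘ g, hy.1, ?_⟩
    intro i
    have h2 := hy.2 i
    rw [Formula.realize_equal] at h2
    simp only [Term.realize_var, Sum.elim_inl, Sum.elim_inr] at h2
    simp only [Function.comp, g, dif_pos (hKc i), Sum.elim_inr]
    exact h2
  · rintro ⟨v, hv, hc⟩
    refine ⟨fun i => v i.1, ?_⟩
    rw [Formula.realize_inf, Formula.realize_relabel, Formula.realize_iInf]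
    refine ⟨?_, ?_⟩
    · rw [hK0 M _ v]
      · exact hv
      · intro i hi
        have : i < K := by omega
        simp only [Function.comp, g, dif_pos this, Sum.elim_inr]
    · intro i
      rw [Formula.realize_equal]
      simp only [Term.realize_var, Sum.elim_inl, Sum.elim_inr]
      exact hc i

/-- The omitting types theorem (for one type, relational language). -/
theorem omitting [L.IsRelational] [Countable L.Symbols] [Nonempty M] {n : ℕ}
    (p : Set (L.Formula (Fin n)))
    (hp : ∀ χ : L.Formula (Fin n), (∃ w : Fin n → M, χ.Realize w) →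
      ∃ w : Fin n → M, χ.Realize w ∧ ∃ θ ∈ p, ¬ θ.Realize w) :
    ∃ N : ModelType.{0, 0, 0} (L.completeTheory M), Countable N ∧
      ∀ w : Fin n → N, ∃ θ ∈ p, ¬ θ.Realize w := by
  classical
  -- the two families of cofinal sets
  let F1 : (Σ k, L.BoundedFormula Empty (k + 1) × (Fin k → ℕ)) → L.Formula ℕ :=
    fun x => x.2.1.ex.toFormula.relabel (Sum.elim Empty.elim x.2.2)
  let F2 : (Σ k, L.BoundedFormula Empty (k + 1) × (Fin k → ℕ)) → ℕ → L.Formula ℕ :=
    fun x j => x.2.1.toFormula.relabel (Sum.elim Empty.elim (Fin.snoc x.2.2 j))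
  have hF1 : ∀ x (N : Type) [L.Structure N] (v : ℕ → N), (F1 x).Realize v ↔
      ∃ a, x.2.1.Realize default (Fin.snoc (v ∘ x.2.2) a : _ → N) := by
    intro x N _ v
    simp only [F1, Formula.realize_relabel, BoundedFormula.realize_toFormula,
      BoundedFormula.realize_ex]
    have e1 : ((v ∘ Sum.elim Empty.elim x.2.2) ∘ Sum.inl : Empty → N) = default := by
      ext i; exact i.elim
    have e2 : ((v ∘ Sum.elim Empty.elim x.2.2) ∘ Sum.inr : Fin x.1 → N) = v ∘ x.2.2 := by
      ext i; rfl
    rw [e1, e2]
  have hF2 : ∀ x j (N : Type) [L.Structure N] (v : ℕ → N), (F2 x j).Realize v ↔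
      x.2.1.Realize default (Fin.snoc (v ∘ x.2.2) (v j) : _ → N) := by
    intro x j N _ v
    simp only [F2, Formula.realize_relabel, BoundedFormula.realize_toFormula]
    have e1 : ((v ∘ Sum.elim Empty.elim (Fin.snoc x.2.2 j : Fin (x.1 + 1) → ℕ)) ∘ Sum.inl :
        Empty → N) = default := by
      ext i; exact i.elim
    have e2 : ((v ∘ Sum.elim Empty.elim (Fin.snoc x.2.2 j : Fin (x.1 + 1) → ℕ)) ∘ Sum.inr :
        Fin (x.1 + 1) → N) = Fin.snoc (v ∘ x.2.2) (v j) := by
      ext i
      simp only [Function.comp, Sum.elim_inr]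
      refine Fin.lastCases ?_ (fun i => ?_) i
      · simp
      · simp
    rw [e1, e2]
  let D1 : (Σ k, L.BoundedFormula Empty (k + 1) × (Fin k → ℕ)) → Order.Cofinal (Cond L M) :=
    fun x =>
    { carrier := {q | (∀ v : ℕ → M, q.1.Realize v → (F1 x).not.Realize v) ∨
        ∃ j, ∀ v : ℕ → M, q.1.Realize v → (F2 x j).Realize v}
      isCofinal := by
        intro q
        by_cases h : ∃ v : ℕ → M, q.1.Realize v ∧ (F1 x).Realize v
        · obtain ⟨v, hv, hx⟩ := h
          rw [hF1] at hx
          obtain ⟨a, ha⟩ := hx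
          obtain ⟨K, hK⟩ := formula_support q.1
          set j : ℕ := max K (Finset.univ.sup x.2.2 + 1) with hj
          have hjK : K ≤ j := le_max_left _ _
          have hjc : ∀ i, x.2.2 i < j := fun i =>
            lt_of_lt_of_le (Nat.lt_succ_of_le (Finset.le_sup (Finset.mem_univ i)))
              (le_max_right _ _)
          have h1 : q.1.Realize (Function.update v j a) := by
            rw [hK M _ v]
            · exact hv
            · intro i hi
              rw [Function.update_of_ne (by omega)]
          have h2 : (F2 x j).Realize (Function.update v j a) := by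
            rw [hF2]
            have e1 : (Function.update v j a) ∘ x.2.2 = v ∘ x.2.2 := by
              ext i
              simp only [Function.comp]
              rw [Function.update_of_ne (hjc i).ne]
            rw [e1, Function.update_self]
            exact ha
          refine ⟨⟨q.1 ⊓ F2 x j, Function.update v j a, ?_⟩, ?_, ?_⟩
          · rw [Formula.realize_inf]
            exact ⟨h1, h2⟩
          · refine Or.inr ⟨j, ?_⟩
            intro v' hv'
            exact (Formula.realize_inf.1 hv').2
          · intro v' hv'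
            exact (Formula.realize_inf.1 hv').1
        · refine ⟨q, Or.inl ?_, le_refl q⟩
          intro v hv
          rw [Formula.realize_not]
          exact fun hx => h ⟨v, hv, hx⟩ }
  let D2 : (Fin n → ℕ) → Order.Cofinal (Cond L M) := fun c =>
    { carrier := {q | ∃ θ ∈ p, ∀ v : ℕ → M, q.1.Realize v → (θ.relabel c).not.Realize v}
      isCofinal := by
        intro q
        obtain ⟨χ, hχ⟩ := exists_projection (M := M) q.1 c
        obtain ⟨v0, hv0⟩ := q.2
        obtain ⟨w, hw, θ, hθ, hnot⟩ := hp χ ⟨v0 ∘ c, (hχ _).2 ⟨v0, hv0, fun i => rfl⟩⟩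
        obtain ⟨v, hv, hvc⟩ := (hχ w).1 hw
        have e : v ∘ c = w := funext hvc
        refine ⟨⟨q.1 ⊓ (θ.relabel c).not, v, ?_⟩, ⟨θ, hθ, ?_⟩, ?_⟩
        · rw [Formula.realize_inf, Formula.realize_not, Formula.realize_relabel, e]
          exact ⟨hv, hnot⟩
        · intro v' hv'
          exact (Formula.realize_inf.1 hv').2
        · intro v' hv'
          exact (Formula.realize_inf.1 hv').1 }
  let D : (Σ k, L.BoundedFormula Empty (k + 1) × (Fin k → ℕ)) ⊕ (Fin n → ℕ) →
      Order.Cofinal (Cond L M) := Sum.elim D1 D2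
  have hcount : Countable (Σ k, L.BoundedFormula Empty (k + 1) × (Fin k → ℕ)) := by
    have h1 : ∀ k, Countable (L.BoundedFormula Empty (k + 1)) := by
      intro k
      exact Function.Injective.countable
        (f := fun φ => (⟨k + 1, φ⟩ : Σ n, L.BoundedFormula Empty n)) sigma_mk_injective
    infer_instance
  have : Encodable ((Σ k, L.BoundedFormula Empty (k + 1) × (Fin k → ℕ)) ⊕ (Fin n → ℕ)) :=
    Encodable.ofCountable _
  obtain ⟨m0⟩ := (inferInstance : Nonempty M)
  let q0 : Cond L M := ⟨⊤, fun _ => m0, by simp⟩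
  let I := Order.idealOfCofinals q0 D
  let S : Set (L.Formula ℕ) := {φ | ∃ x ∈ I, ∀ v : ℕ → M, x.1.Realize v → φ.Realize v}
  have hSfin : ∀ S0 : Finset (L.Formula ℕ), (S0 : Set (L.Formula ℕ)) ⊆ S →
      ∃ v : ℕ → M, ∀ φ ∈ S0, φ.Realize v := by
    intro S0 hS0
    have : ∃ x ∈ I, ∀ φ ∈ S0, ∀ v : ℕ → M, x.1.Realize v → φ.Realize v := by
      induction S0 using Finset.induction_on with
      | empty => exact ⟨q0, Order.mem_idealOfCofinals _ _, by simp⟩
      | insert φ S0 _ ih =>
        obtain ⟨x, hx, hx'⟩ := ih (fun ψ hψ => hS0 (by simp [hψ]))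
        obtain ⟨y, hy, hy'⟩ : φ ∈ S := hS0 (by simp)
        obtain ⟨z, hz, hxz, hyz⟩ := I.directed x hx y hy
        refine ⟨z, hz, ?_⟩
        intro ψ hψ v hv
        rw [Finset.mem_insert] at hψ
        rcases hψ with rfl | hψ
        · exact hy' v (hyz v hv)
        · exact hx' ψ hψ v (hxz v hv)
    obtain ⟨x, _, hx⟩ := this
    obtain ⟨v, hv⟩ := x.2
    exact ⟨v, fun φ hφ => hx φ hφ v hv⟩
  obtain ⟨N, v, hv⟩ := exists_realize_of_finite S hSfin
  -- the elementary substructure
  let A : L.Substructure N :=
    { carrier := Set.range v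
      fun_mem := fun {k} f => (IsEmpty.false f).elim }
  have hA : ∀ (k : ℕ) (φ : L.BoundedFormula Empty (k + 1)) (x : Fin k → A) (a : N),
      φ.Realize default (Fin.snoc ((↑) ∘ x) a : _ → N) →
        ∃ b : A, φ.Realize default (Fin.snoc ((↑) ∘ x) b : _ → N) := by
    intro k φ x a ha
    have hx : ∀ i, ∃ c, v c = (x i : N) := fun i => (x i).2
    choose c hc using hx
    have hc' : v ∘ c = ((↑) ∘ x : Fin k → N) := funext hc
    obtain ⟨q, hq, hqI⟩ := Order.cofinal_meets_idealOfCofinals q0 D (Sum.inl ⟨k, φ, c⟩)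
    rcases hq with h1 | ⟨j, hj⟩
    · have := hv _ ⟨q, hqI, h1⟩
      rw [Formula.realize_not, hF1] at this
      exact (this ⟨a, by rw [hc']; exact ha⟩).elim
    · have := hv _ ⟨q, hqI, hj⟩
      rw [hF2] at this
      refine ⟨⟨v j, j, rfl⟩, ?_⟩
      rw [hc'] at this
      exact this
  let A' : L.ElementarySubstructure N := A.toElementarySubstructure hA
  have hNE : Nonempty A' := ⟨⟨v 0, 0, rfl⟩⟩
  refine ⟨ModelType.of (L.completeTheory M) A', ?_, ?_⟩
  · change Countable (Set.range v)
    exact (Set.countable_range v).to_subtype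
  · intro w
    have hw : ∀ i, ∃ c, v c = ((show A' from w i : A') : N) := fun i =>
      (show A' from w i : A').2
    choose c hc using hw
    obtain ⟨q, ⟨θ, hθ, hq⟩, hqI⟩ := Order.cofinal_meets_idealOfCofinals q0 D (Sum.inr c)
    refine ⟨θ, hθ, ?_⟩
    have := hv _ ⟨q, hqI, hq⟩
    rw [Formula.realize_not, Formula.realize_relabel] at this
    have hc' : v ∘ c = A'.subtype ∘ w := funext hc
    rw [hc', ElementaryEmbedding.map_formula] at this
    exact this

end Omit

section RN

variable {M : Type} [L.Structure M]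

/-- An infinite model of a categorical complete theory: tuples can be brought to `M`. -/
theorem transfer_tuple [Countable L.Symbols] [Infinite M] [Countable M]
    (hcat : Cardinal.aleph0.{0}.Categorical (L.completeTheory M)) {n : ℕ}
    (N : ModelType.{0, 0, 0} (L.completeTheory M)) (v : Fin n → N) :
    ∃ w : Fin n → M, ∀ φ : L.Formula (Fin n), φ.Realize w ↔ φ.Realize v := by
  have hMN : M ≅[L] N := by
    rw [elementarilyEquivalent_iff]
    intro φ
    exact (realize_iff_of_model_completeTheory M N φ).symm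
  have hinf : Infinite N := hMN.infinite
  obtain ⟨S, hS, hS'⟩ := exists_elementarySubstructure_card_eq L (M := N) (Set.range v)
    Cardinal.aleph0.{0} le_rfl
    (by
      simp only [Cardinal.lift_id]
      exact (Set.finite_range v).lt_aleph0.le)
    (by
      simp only [Cardinal.lift_id]
      exact Cardinal.mk_le_aleph0_iff.2 inferInstance)
    (by
      simp only [Cardinal.lift_id]
      exact Cardinal.aleph0_le_mk N)
  simp only [Cardinal.lift_id] at hS'
  have hNE : Nonempty S := by
    have : Cardinal.mk S ≠ 0 := by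
      rw [hS']
      exact Cardinal.aleph0_ne_zero
    exact Cardinal.mk_ne_zero_iff.1 this
  obtain ⟨e⟩ := hcat (ModelType.of (L.completeTheory M) S) (ModelType.of (L.completeTheory M) M)
    hS' (Cardinal.mk_eq_aleph0 M)
  let v' : Fin n → S := fun i => ⟨v i, hS ⟨i, rfl⟩⟩
  refine ⟨fun i => e (v' i), ?_⟩
  intro φ
  have h1 : φ.Realize (e ∘ v') ↔ φ.Realize v' := StrongHomClass.realize_formula e φ
  have h2 : φ.Realize (S.subtype ∘ v') ↔ φ.Realize v' := S.subtype.map_formula φ v'
  exact h1.trans h2.symm

/-- The set of formulas true at a tuple. -/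
def tpOf {n : ℕ} (w : Fin n → M) : Set (L.Formula (Fin n)) := {φ | φ.Realize w}

/-- One direction of the theorem of Ryll-Nardzewski. -/
theorem finite_types [L.IsRelational] [Countable L.Symbols] [Infinite M] [Countable M]
    (hcat : Cardinal.aleph0.{0}.Categorical (L.completeTheory M)) (n : ℕ) :
    (Set.range (fun w : Fin n → M => (tpOf w : Set (L.Formula (Fin n))))).Finite := by
  classical
  by_contra hinf
  let Iso : Set (L.Formula (Fin n)) := {θ | ∀ v w : Fin n → M, θ.Realize v → θ.Realize w →
    (tpOf v : Set (L.Formula (Fin n))) = tpOf w}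
  let S : Set (L.Formula (Fin n)) := {φ | ∃ θ ∈ Iso, φ = θ.not}
  have hS : ∀ S0 : Finset (L.Formula (Fin n)), (S0 : Set (L.Formula (Fin n))) ⊆ S →
      ∃ w : Fin n → M, ∀ φ ∈ S0, φ.Realize w := by
    intro S0 hS0
    by_contra hno
    push Not at hno
    apply hinf
    have hne : Nonempty (Fin n → M) := ⟨fun _ => Classical.arbitrary M⟩
    let f : L.Formula (Fin n) → Set (L.Formula (Fin n)) := fun φ =>
      if h : ∃ w : Fin n → M, ¬ φ.Realize w then tpOf h.choose else ∅
    refine (S0.image f).finite_toSet.subset ?_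
    rintro _ ⟨w, rfl⟩
    obtain ⟨φ, hφ, hw⟩ := hno w
    rw [Finset.coe_image]
    refine ⟨φ, hφ, ?_⟩
    have hex : ∃ w : Fin n → M, ¬ φ.Realize w := ⟨w, hw⟩
    simp only [f, dif_pos hex]
    obtain ⟨θ, hθ, rfl⟩ := hS0 hφ
    apply hθ
    · have := hex.choose_spec
      rw [Formula.realize_not, not_not] at this
      exact this
    · rw [Formula.realize_not, not_not] at hw
      exact hw
  obtain ⟨N0, v0, hv0⟩ := exists_realize_of_finite S hS
  obtain ⟨w0, hw0⟩ := transfer_tuple hcat N0 v0
  have hw1 : ∀ θ ∈ Iso, ¬ θ.Realize w0 := by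
    intro θ hθ
    have := hv0 θ.not ⟨θ, hθ, rfl⟩
    rw [← hw0, Formula.realize_not] at this
    exact this
  obtain ⟨N, hN, hom⟩ := omitting (M := M) (tpOf w0 : Set (L.Formula (Fin n))) (by
    intro χ ⟨w, hw⟩
    by_contra hcon
    push Not at hcon
    -- `χ` isolates the type of `w0`
    have htp : ∀ w : Fin n → M, χ.Realize w → (tpOf w : Set (L.Formula (Fin n))) = tpOf w0 := by
      intro w hw
      ext φ
      constructor
      · intro h
        by_contra h2
        have h3 : φ.not ∈ (tpOf w0 : Set (L.Formula (Fin n))) := by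
          simp only [tpOf, Set.mem_ofPred_eq, Formula.realize_not]
          exact h2
        have h4 := hcon w hw _ h3
        rw [Formula.realize_not] at h4
        exact h4 h
      · intro h
        exact hcon w hw _ h
    have h1 : χ ∈ Iso := by
      intro v w hv hw
      rw [htp v hv, htp w hw]
    have h2 : χ ∈ (tpOf w0 : Set (L.Formula (Fin n))) := by
      rw [← htp w hw]
      exact hw
    exact hw1 χ h1 h2)
  have hMN : M ≅[L] N := by
    rw [elementarilyEquivalent_iff]
    intro φ
    exact (realize_iff_of_model_completeTheory M N φ).symm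
  have hinfN : Infinite N := hMN.infinite
  obtain ⟨e⟩ := hcat (ModelType.of (L.completeTheory M) M) (ModelType.of (L.completeTheory M) N)
    (Cardinal.mk_eq_aleph0 M) (Cardinal.mk_eq_aleph0 N)
  obtain ⟨θ, hθ, hno⟩ := hom (fun i => e (w0 i))
  have h1 : θ.Realize (e ∘ w0) ↔ θ.Realize w0 := StrongHomClass.realize_formula e θ
  exact hno (h1.2 hθ)

end RN

end MPec220fA
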