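import Pool.Agent.Lib_MP_ec220f_lc.CatIso

/-!
The model theory in the form used by the coupling: homogeneity over finite sets,
oligomorphy, universality, finiteness of the algebraic closure.
-/

namespace MPec220fA

open Finset Function MPec220f

open scoped Classical in
section

variable {𝓕 : Set FinGraph} {V W U V1 V2 : Type}

/-- Homogeneity: a map on the finite set `A` whose finite configurations are all preserved
extends to an automorphism. -/
theorem homog_finset (hA : Amb 𝓕) {Γ : SimpleGraph V} [Countable V] (h : IsEC 𝓕 Γ)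
    (A : Finset V) (f : V → V)
    (hf : ∀ C : Finset V, A ⊆ C → ∃ k : V → V, Set.InjOn k C ∧
      (∀ x ∈ C, ∀ y ∈ C, Γ.Adj (k x) (k y) ↔ Γ.Adj x y) ∧ ∀ a ∈ A, k a = f a) :
    ∃ g ∈ autSub Γ, ∀ a ∈ A, g a = f a := by
  obtain ⟨g, hg, hg'⟩ := conj_of_le hA h (n := A.card)
    (a := fun i => (A.equivFin.symm i).1) (b := fun i => f (A.equivFin.symm i).1) (by
      intro S
      obtain ⟨k, hk1, hk2, hk3⟩ := hf (A ∪ S) Finset.subset_union_left
      exact ⟨k, PE.mono ⟨hk1, hk2⟩ Finset.subset_union_right,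
        fun i => hk3 _ (A.equivFin.symm i).2⟩)
  refine ⟨g, hg, ?_⟩
  intro a ha
  have := hg' (A.equivFin ⟨a, ha⟩)
  simpa using this

/-- Oligomorphy. -/
theorem oligo (hA : Amb 𝓕) {Γ : SimpleGraph V} [Countable V] (h : IsEC 𝓕 Γ) (n : ℕ) :
    ∃ R : Finset (Fin n → V), ∀ t : Fin n → V, ∃ r ∈ R, ∃ g ∈ autSub Γ, ∀ i, g (r i) = t i := by
  obtain ⟨D, hD⟩ := oligomorphic hA h n
  refine ⟨D, fun t => ?_⟩
  obtain ⟨b, hb, g, hg, hgi⟩ := hD t
  refine ⟨b, hb, g⁻¹, (autSub Γ).inv_mem hg, ?_⟩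
  intro i
  rw [← hgi i]
  simp

/-- Every countable `𝓕`-free graph embeds in the countable existentially complete one. -/
theorem exists_embedding (hA : Amb 𝓕) {Γ : SimpleGraph V} [Countable V] (h : IsEC 𝓕 Γ)
    (H : SimpleGraph W) [Countable W] (hH : IsFree 𝓕 H) : Nonempty (H ↪g Γ) := by
  have hA' := hA
  obtain ⟨U, Δ, hU1, hU2, hU3, hU4⟩ := hA'
  obtain ⟨e1⟩ := hU3.2 W H inferInstance hH
  obtain ⟨e2⟩ := hU3.2 V Γ inferInstance h.1
  have hle : Le H (fun i : Fin 0 => (i.elim0 : W)) Γ (fun i : Fin 0 => (i.elim0 : V)) := by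
    intro S
    obtain ⟨k, hk1, hk2, -⟩ := h.2 U Δ hU3.1 e2 (S.image e1)
    refine ⟨fun x => k (e1 x), ⟨?_, ?_⟩, fun i => i.elim0⟩
    · intro x hx y hy hxy
      exact e1.injective (hk1 (Finset.mem_coe.2 (Finset.mem_image_of_mem _ hx))
        (Finset.mem_coe.2 (Finset.mem_image_of_mem _ hy)) hxy)
    · intro x hx y hy
      rw [hk2 _ (Finset.mem_image_of_mem _ hx) _ (Finset.mem_image_of_mem _ hy)]
      exact e1.map_rel_iff
  let D1 : W → Order.Cofinal (BF H Γ) := fun x =>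
    { carrier := {p | ∃ i, p.a i = x}
      isCofinal := by
        intro p
        obtain ⟨d, hd⟩ := extend hA h p.le' x
        refine ⟨⟨p.n + 1, _, _, hd⟩, ⟨Fin.last _, by simp⟩, ⟨Fin.castSucc, ?_, ?_⟩⟩
        · funext i
          simp
        · funext i
          simp }
  have henc : Encodable W := Encodable.ofCountable _
  let I := Order.idealOfCofinals (⟨0, _, _, hle⟩ : BF H Γ) D1
  let R : W → V → Prop := fun x y => ∃ p ∈ I, ∃ i, p.a i = x ∧ p.b i = y
  have hR1 : ∀ x, ∃ y, R x y := by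
    intro x
    obtain ⟨p, ⟨i, hi⟩, hp⟩ := Order.cofinal_meets_idealOfCofinals
      (⟨0, _, _, hle⟩ : BF H Γ) D1 x
    exact ⟨p.b i, p, hp, i, hi, rfl⟩
  have hR3 : ∀ x y x' y', R x y → R x' y' → (x = x' ↔ y = y') ∧ (Γ.Adj y y' ↔ H.Adj x x') := by
    rintro x y x' y' ⟨p, hp, i, hi1, hi2⟩ ⟨p', hp', i', hi1', hi2'⟩
    obtain ⟨q, -, ⟨f, hf1, hf2⟩, ⟨f', hf1', hf2'⟩⟩ := I.directed p hp p' hp'
    have e1 : q.a (f i) = x := by rw [← hi1, hf1]; rfl
    have e2 : q.b (f i) = y := by rw [← hi2, hf2]; rfl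
    have e1' : q.a (f' i') = x' := by rw [← hi1', hf1']; rfl
    have e2' : q.b (f' i') = y' := by rw [← hi2', hf2']; rfl
    obtain ⟨k, hk, hka⟩ := q.le' {x, x'}
    have k1 : k x = y := by rw [← e1, hka, e2]
    have k2 : k x' = y' := by rw [← e1', hka, e2']
    refine ⟨⟨fun e => by rw [← k1, ← k2, e], fun e => ?_⟩, ?_⟩
    · rw [← k1, ← k2] at e
      exact hk.1 (by simp) (by simp) e
    · rw [← k1, ← k2]
      exact hk.2 x (by simp) x' (by simp)
  choose f hf using hR1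
  refine ⟨⟨⟨f, ?_⟩, ?_⟩⟩
  · intro x x' hxx
    exact (hR3 x (f x) x' (f x') (hf x) (hf x')).1.2 hxx
  · intro x x'
    exact (hR3 x (f x) x' (f x') (hf x) (hf x')).2

/-- The countable existentially complete graph is universal. -/
theorem ec_universal (hA : Amb 𝓕) {Γ : SimpleGraph V} [Countable V] (h : IsEC 𝓕 Γ) :
    IsUniversal 𝓕 Γ :=
  ⟨h.1, fun _ H _ hH => exists_embedding hA h H hH⟩

/-- Algebraic closures of finite sets are finite, for an oligomorphic group. -/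
theorem finite_acl_of_oligo {G : Subgroup (Equiv.Perm V)}
    (hG : ∀ n : ℕ, ∃ R : Finset (Fin n → V), ∀ t : Fin n → V, ∃ r ∈ R, ∃ g ∈ G,
      ∀ i, g (r i) = t i) (A : Finset V) :
    {x : V | ({y : V | ∃ g ∈ G, (∀ a ∈ A, g a = a) ∧ g x = y}).Finite}.Finite := by
  obtain ⟨R, hR⟩ := hG (A.card + 1)
  set T : Set V := {x : V | ({y : V | ∃ g ∈ G, (∀ a ∈ A, g a = a) ∧ g x = y}).Finite} with hT
  let a : Fin A.card → V := fun i => (A.equivFin.symm i).1
  have hcov : T ⊆ ⋃ r ∈ R, {x | x ∈ T ∧ ∃ g ∈ G, ∀ i, g (r i) = (Fin.snoc a x : Fin (A.card + 1) → V) i} := by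
    intro x hx
    obtain ⟨r, hr, g, hg, hgi⟩ := hR (Fin.snoc a x)
    simp only [Set.mem_iUnion]
    exact ⟨r, hr, hx, g, hg, hgi⟩
  refine Set.Finite.subset (Set.Finite.biUnion R.finite_toSet ?_) hcov
  intro r _
  rcases Set.eq_empty_or_nonempty {x | x ∈ T ∧ ∃ g ∈ G, ∀ i, g (r i) = (Fin.snoc a x : Fin (A.card + 1) → V) i} with he | ⟨x0, hx0, g0, hg0, hgi0⟩
  · rw [he]; exact Set.finite_empty
  · refine Set.Finite.subset hx0 ?_
    rintro x ⟨-, g, hg, hgi⟩
    refine ⟨g * g0⁻¹, G.mul_mem hg (G.inv_mem hg0), ?_, ?_⟩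
    · intro z hz
      have h1 := hgi0 (Fin.castSucc (A.equivFin ⟨z, hz⟩))
      have h2 := hgi (Fin.castSucc (A.equivFin ⟨z, hz⟩))
      simp only [Fin.snoc_castSucc, a, Equiv.symm_apply_apply] at h1 h2
      rw [Equiv.Perm.mul_apply]
      have h3 : g0⁻¹ z = r (Fin.castSucc (A.equivFin ⟨z, hz⟩)) := by
        rw [Equiv.Perm.inv_eq_iff_eq]
        exact h1.symm
      rw [h3, h2]
    · have h1 := hgi0 (Fin.last _)
      have h2 := hgi (Fin.last _)
      simp only [Fin.snoc_last] at h1 h2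
      rw [Equiv.Perm.mul_apply]
      have h3 : g0⁻¹ x0 = r (Fin.last _) := by
        rw [← h1]; simp
      rw [h3, h2]

end

end MPec220fA
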