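import Mathlib

/-!
Definitions of the statement: families of finite graphs, graphs free of a family,
closure under homomorphic images, existential completeness, the automorphism group.
-/

namespace MPec220f

open Finset Function

/-- A finite graph on the vertex set `Fin n`. -/
abbrev FinGraph : Type := Σ n : ℕ, SimpleGraph (Fin n)

/-- `H` has no subgraph (not necessarily induced) isomorphic to a member of `𝓕`. -/
def IsFree (𝓕 : Set FinGraph) {W : Type} (H : SimpleGraph W) : Prop :=
  ∀ F ∈ 𝓕, ∀ f : Fin F.1 → W, Injective f → ¬ ∀ a b, F.2.Adj a b → H.Adj (f a) (f b)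

/-- `𝓕` is closed under homomorphic images: a finite graph which admits a homomorphism
from a member of `𝓕` has a subgraph isomorphic to a member of `𝓕`. -/
def HomClosed (𝓕 : Set FinGraph) : Prop :=
  ∀ F ∈ 𝓕, ∀ H : FinGraph, (∃ f : Fin F.1 → Fin H.1, ∀ a b, F.2.Adj a b → H.2.Adj (f a) (f b)) →
    ¬ IsFree 𝓕 H.2

/-- `Γ` is an existentially complete `𝓕`-free graph: it is `𝓕`-free, and for every
`𝓕`-free graph `H` containing `Γ` as an induced subgraph and every finite set `S` of
vertices of `H` there is a map from `H` to `Γ`, injective on `S`, preserving adjacency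
and non-adjacency on `S`, and fixing the vertices of `Γ` that lie in `S`. -/
def IsEC (𝓕 : Set FinGraph) {V : Type} (Γ : SimpleGraph V) : Prop :=
  IsFree 𝓕 Γ ∧ ∀ (W : Type) (H : SimpleGraph W), IsFree 𝓕 H → ∀ j : Γ ↪g H, ∀ S : Finset W,
    ∃ k : W → V, Set.InjOn k S ∧ (∀ x ∈ S, ∀ y ∈ S, Γ.Adj (k x) (k y) ↔ H.Adj x y) ∧
      ∀ v, j v ∈ S → k (j v) = v

/-- The automorphism group of `Γ`, as a subgroup of the permutations of the vertices. -/
def autSub {V : Type} (Γ : SimpleGraph V) : Subgroup (Equiv.Perm V) where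
  carrier := {σ | ∀ a b, Γ.Adj (σ a) (σ b) ↔ Γ.Adj a b}
  mul_mem' := by
    intro σ τ hσ hτ a b
    rw [Equiv.Perm.mul_apply, Equiv.Perm.mul_apply, hσ, hτ]
  one_mem' := by intro a b; rfl
  inv_mem' := by
    intro σ hσ a b
    have := hσ (σ⁻¹ a) (σ⁻¹ b)
    simpa using this.symm

theorem mem_autSub {V : Type} {Γ : SimpleGraph V} {σ : Equiv.Perm V} :
    σ ∈ autSub Γ ↔ ∀ a b, Γ.Adj (σ a) (σ b) ↔ Γ.Adj a b :=
  Iff.rfl

end MPec220f
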