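import Pool.Agent.Lib_MP_ec220f_lc.Homog
import Pool.Agent.Lib_MP_ec220f_lc.Coupling
import Pool.Agent.Lib_MP_ec220f_lc.Defs

/-!
The ordered coupling of an existentially complete hom-free graph with itself.
-/

namespace MPec220f

open Finset Function

open scoped Classical in
section

variable {V : Type} {𝓕 : Set TG} {Γ : SimpleGraph V} {m : ℕ} {lam0 lam lam' : V → ℕ}

/-- The coupled graph. -/
def UU (𝓕 : Set TG) (Γ : SimpleGraph V) (m : ℕ) (lam0 lam : V → ℕ) :
    SimpleGraph ((V ⊕ V) ⊕ (Pat (V ⊕ V) × ℕ)) :=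
  attach (dbl Γ) {P | Accp 𝓕 Γ m lam0 lam P}

theorem fold_hom : ∀ u v, (dbl Γ).Adj u v → Γ.Adj (Sum.elim id id u) (Sum.elim id id v) := by
  rintro (a | a) (b | b) h
  · exact h
  · exact (show False from h).elim
  · exact (show False from h).elim
  · exact h

theorem holds_UU_two (hHC : HC 𝓕) (hbd : ∀ F ∈ 𝓕, F.n ≤ m) (hΓ : HF 𝓕 Γ) (hEC : EC 𝓕 Γ)
    (h0 : Injective lam0) (h1 : Injective lam) {P : Pat (V ⊕ V)} (hP : P.Good m) (hT : P.Two) :
    Holds (UU 𝓕 Γ m lam0 lam) Sum.inl P ↔ Accp 𝓕 Γ m lam0 lam P := by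
  constructor
  · intro h
    exact accp_of_holds (hf_accp hHC hbd hΓ hEC h0 h1) (e := Sum.inl) (fun _ _ h => h) ⟨hP, hT⟩
      (fun Q hQ => holds_attach hQ.2) h
  · intro h
    exact holds_attach h

theorem holds_UU_one (hHC : HC 𝓕) (hbd : ∀ F ∈ 𝓕, F.n ≤ m) (hΓ : HF 𝓕 Γ) (hEC : EC 𝓕 Γ)
    (h0 : Injective lam0) (h1 : Injective lam) {P : Pat (V ⊕ V)} (hT : ¬ P.Two) :
    Holds (UU 𝓕 Γ m lam0 lam) Sum.inl P ↔ Holds (dbl Γ) (fun u => u) P :=
  ⟨fun h => one_sided hEC (hf_accp hHC hbd hΓ hEC h0 h1) hT h, fun h => holds_attach_base h⟩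

/-- A pattern with roots on one side only holds in the double iff it holds in the fold. -/
theorem holds_fold {P : Pat (V ⊕ V)} (hT : ¬ P.Two) :
    Holds (dbl Γ) (fun u => u) P ↔ Holds Γ (Sum.elim id id) P := by
  constructor
  · intro h
    exact h.hom _ fold_hom
  · intro h
    by_cases hN : ∃ i, P.NV i
    · have hM : ∀ i, ¬ P.MV i := fun i hi => hT ⟨⟨i, hi⟩, hN⟩
      refine (h.hom (H' := dbl Γ) Sum.inr fun _ _ h => h).congr ?_
      rintro (v | v) hv
      · obtain ⟨i, hi⟩ := Pat.mem_roots.mp hv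
        exact absurd ⟨v, hi⟩ (hM i)
      · rfl
    · refine (h.hom (H' := dbl Γ) Sum.inl fun _ _ h => h).congr ?_
      rintro (v | v) hv
      · rfl
      · obtain ⟨i, hi⟩ := Pat.mem_roots.mp hv
        exact absurd ⟨i, v, hi⟩ hN

theorem full_UU (hHC : HC 𝓕) (hbd : ∀ F ∈ 𝓕, F.n ≤ m) (hΓ : HF 𝓕 Γ) (hEC : EC 𝓕 Γ)
    (h0 : Injective lam0) (h1 : Injective lam) (D : Finset (V ⊕ V)) :
    Full 𝓕 m (UU 𝓕 Γ m lam0 lam) D Sum.inl := by
  intro P hP hr
  by_cases hT : P.Two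
  · rw [holds_UU_two hHC hbd hΓ hEC h0 h1 hP hT]
    by_cases hacc : Accp 𝓕 Γ m lam0 lam P
    · exact Or.inl hacc
    right
    have hno : ¬ HF 𝓕 (attach (dbl Γ) (insert P (below 𝓕 Γ m lam0 lam (key m lam0 lam P)))) :=
      fun h => hacc (accp_iff.mpr ⟨⟨hP, hT⟩, h⟩)
    have hno' : ∃ F ∈ 𝓕, ∃ f : ℕ → (V ⊕ V) ⊕ (Pat (V ⊕ V) × ℕ),
        ∀ i j, F.G.Adj i j → (attach (dbl Γ) (insert P
          (below 𝓕 Γ m lam0 lam (key m lam0 lam P)))).Adj (f i) (f j) := by
      by_contra hcon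
      exact hno fun F hF f hf => hcon ⟨F, hF, f, hf⟩
    obtain ⟨F, hF, f, hf⟩ := hno'
    refine ⟨(range F.n).image f, ?_⟩
    rintro W G k hG hk ⟨φ, hφ1, hφ2⟩
    have hmem : ∀ i < F.n, f i ∈ (range F.n).image f := fun i hi =>
      Finset.mem_image_of_mem _ (Finset.mem_range.mpr hi)
    refine hG F hF (fun i => match f i with
      | Sum.inl v => k (Sum.inl v)
      | Sum.inr p => if p.1 = P then φ p.2 else k (Sum.inr p)) fun i j hij => ?_
    have h := hf i j hij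
    have hi := hmem i (F.lt _ _ hij)
    have hj := hmem j (F.lt _ _ hij.symm)
    have hkk := hk _ hi _ hj
    rcases h3 : f i with v | p <;> rcases h4 : f j with v' | p' <;> rw [h3, h4] at h hkk <;>
      simp only
    · exact hkk h
    · by_cases h5 : p'.1 = P
      · rw [if_pos h5]
        have h6 := h.2
        rw [h5] at h6
        exact hφ2 _ _ h6
      · rw [if_neg h5]
        exact hkk ⟨(h.1.resolve_left h5).2, h.2⟩
    · by_cases h5 : p.1 = P
      · rw [if_pos h5]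
        have h6 := h.2
        rw [h5] at h6
        exact (hφ2 _ _ h6).symm
      · rw [if_neg h5]
        exact hkk ⟨(h.1.resolve_left h5).2, h.2⟩
    · obtain ⟨h6, h7, h8⟩ := h
      by_cases h5 : p.1 = P
      · rw [if_pos h5, if_pos (h6 ▸ h5)]
        rw [h5] at h8
        exact hφ1 _ _ h8
      · rw [if_neg h5, if_neg (h6 ▸ h5)]
        exact hkk ⟨h6, (h7.resolve_left h5).2, h8⟩
  · rw [holds_UU_one hHC hbd hΓ hEC h0 h1 hT, holds_fold hT]
    rcases full_ec (m := m) hEC D (Sum.elim id id) P hP hr with h | ⟨T, hTb⟩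
    · exact Or.inl h
    · right
      by_cases hN : ∃ i, P.NV i
      · have hM : ∀ i, ¬ P.MV i := fun i hi => hT ⟨⟨i, hi⟩, hN⟩
        refine ⟨T.image (fun v => Sum.inl (Sum.inr v)), ?_⟩
        intro W G k hG hk hh
        refine hTb W G (fun v => k (Sum.inl (Sum.inr v))) hG ?_ ?_
        · intro x hx y hy hxy
          exact hk _ (Finset.mem_image.mpr ⟨x, hx, rfl⟩) _ (Finset.mem_image.mpr ⟨y, hy, rfl⟩) hxy
        · refine hh.congr ?_
          rintro (v | v) hv
          · obtain ⟨i, hi⟩ := Pat.mem_roots.mp hv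
            exact absurd ⟨v, hi⟩ (hM i)
          · rfl
      · refine ⟨T.image (fun v => Sum.inl (Sum.inl v)), ?_⟩
        intro W G k hG hk hh
        refine hTb W G (fun v => k (Sum.inl (Sum.inl v))) hG ?_ ?_
        · intro x hx y hy hxy
          exact hk _ (Finset.mem_image.mpr ⟨x, hx, rfl⟩) _ (Finset.mem_image.mpr ⟨y, hy, rfl⟩) hxy
        · refine hh.congr ?_
          rintro (v | v) hv
          · rfl
          · obtain ⟨i, hi⟩ := Pat.mem_roots.mp hv
            exact absurd ⟨i, v, hi⟩ hN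

/-- Realisations exist. -/
theorem exists_real (hHC : HC 𝓕) (hbd : ∀ F ∈ 𝓕, F.n ≤ m) (hΓ : HF 𝓕 Γ) (hEC : EC 𝓕 Γ)
    (h0 : Injective lam0) (h1 : Injective lam) (D : Finset (V ⊕ V)) :
    ∃ e : V ⊕ V → V, SameType m (UU 𝓕 Γ m lam0 lam) Γ D Sum.inl e := by
  have hst : SameType m (UU 𝓕 Γ m lam0 lam) Γ (∅ : Finset (V ⊕ V)) Sum.inl (Sum.elim id id) := by
    refine ⟨fun x hx => absurd hx (by simp), fun x hx => absurd hx (by simp), ?_⟩
    intro P hP hr
    have hT : ¬ P.Two := by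
      rintro ⟨⟨i, v, hv⟩, -⟩
      have := hr (Pat.mem_roots.mpr ⟨i, hv⟩)
      simp at this
    rw [holds_UU_one hHC hbd hΓ hEC h0 h1 hT, holds_fold hT]
  obtain ⟨e, -, he⟩ := extend hbd hΓ hEC (hf_accp hHC hbd hΓ hEC h0 h1) (Finset.empty_subset D)
    hst (full_UU hHC hbd hΓ hEC h0 h1 D)
  exact ⟨e, he⟩

/-- The coupled type depends only on the order, up to automorphisms. -/
theorem uniq_real [Countable V] (hHC : HC 𝓕) (hbd : ∀ F ∈ 𝓕, F.n ≤ m) (hΓ : HF 𝓕 Γ)
    (hEC : EC 𝓕 Γ) (h0 : Injective lam0) (h1 : Injective lam) (h1' : Injective lam')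
    {D D' : Finset (V ⊕ V)} {g : Equiv.Perm V} (hg : ∀ a b, Γ.Adj (g a) (g b) ↔ Γ.Adj a b)
    (hD : ∀ u ∈ D, dm g u ∈ D')
    (hord : ∀ u ∈ D, ∀ v ∈ D, LT2 lam0 lam u v ↔ LT2 lam0 lam' (dm g u) (dm g v))
    {e e' : V ⊕ V → V} (he : SameType m (UU 𝓕 Γ m lam0 lam) Γ D Sum.inl e)
    (he' : SameType m (UU 𝓕 Γ m lam0 lam') Γ D' Sum.inl e') :
    ∃ h ∈ autSub Γ, ∀ u ∈ D, h (e u) = e' (dm g u) := by
  have hgs : ∀ a b, Γ.Adj a b → Γ.Adj (g a) (g b) := fun a b h => (hg a b).mpr h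
  have hgs' : ∀ a b, Γ.Adj a b → Γ.Adj (g.symm a) (g.symm b) := by
    intro a b hab
    rw [← hg]
    simpa using hab
  have hdd : ∀ u, dm g.symm (dm g u) = u := by
    rintro (a | a) <;> simp [dm]
  have hst : SameType m Γ Γ D e (fun u => e' (dm g u)) := by
    refine ⟨fun x hx y hy => ?_, fun x hx y hy => ?_, fun P hP hr => ?_⟩
    · rw [← he.adj x hx y hy, ← he'.adj _ (hD x hx) _ (hD y hy)]
      constructor
      · intro h
        exact dm_hom hgs x y h
      · intro h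
        have := dm_hom hgs' _ _ h
        rw [hdd, hdd] at this
        exact this
    · rw [← he.eq x hx y hy, ← he'.eq _ (hD x hx) _ (hD y hy)]
      constructor
      · intro h
        rw [Sum.inl.inj h]
      · intro h
        rw [dm_inj g.injective (Sum.inl.inj h)]
    · rw [← he.holds P hP hr]
      have h2 := he'.holds (P.map (dm g)) (hP.map _) (by
        intro u hu
        obtain ⟨v, hv, rfl⟩ := mem_roots_map.mp hu
        exact hD v (hr hv))
      rw [holds_map (e := e')] at h2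
      rw [← h2]
      by_cases hT : P.Two
      · rw [holds_UU_two hHC hbd hΓ hEC h0 h1 hP hT,
          holds_UU_two hHC hbd hΓ hEC h0 h1' (hP.map _) (Two_map.mpr hT)]
        exact (accp_map hHC hbd hΓ hEC h0 h1 h1' hg
          (fun u hu v hv => hord u (hr hu) v (hr hv))).symm
      · have hT' : ¬ (P.map (dm g)).Two := fun h => hT (Two_map.mp h)
        rw [holds_UU_one hHC hbd hΓ hEC h0 h1 hT, holds_UU_one hHC hbd hΓ hEC h0 h1' hT',
          holds_map]
        constructor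
        · intro h
          exact h.hom _ (dm_hom hgs)
        · intro h
          have := h.hom _ (dm_hom hgs')
          simp only [hdd] at this
          exact this
  obtain ⟨σ, hσ1, hσ2⟩ := homog hbd hΓ hEC hst
  exact ⟨σ, hσ1, hσ2⟩

/-- The ordered coupling. -/
noncomputable def coupling [Countable V] (hHC : HC 𝓕) (hbd : ∀ F ∈ 𝓕, F.n ≤ m) (hΓ : HF 𝓕 Γ)
    (hEC : EC 𝓕 Γ) (h0 : Injective lam0) : Coupling (autSub Γ) where
  Real := fun lam X Y e => SameType m (UU 𝓕 Γ m lam0 lam) Γ (X.disjSum Y) Sum.inl e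
  exists_real := fun lam h1 X Y => exists_real hHC hbd hΓ hEC h0 h1 _
  inj := by
    intro lam X Y e _ h x hx y hy hxy
    exact Sum.inl.inj ((h.eq x hx y hy).mpr hxy)
  mono := by
    intro lam X Y e X' Y' _ h hX hY
    refine h.transfer id ?_
    rintro (v | v) hv
    · rw [Finset.inl_mem_disjSum] at hv
      exact ⟨Finset.inl_mem_disjSum.mpr (hX hv), rfl, rfl⟩
    · rw [Finset.inr_mem_disjSum] at hv
      exact ⟨Finset.inr_mem_disjSum.mpr (hY hv), rfl, rfl⟩
  uniq := by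
    intro lam lam' X Y e e' g hg h1 h1' hord he he'
    obtain ⟨h, hh, hh2⟩ := uniq_real (D := X.disjSum Y) (D' := X.disjSum (Y.image g))
      hHC hbd hΓ hEC h0 h1 h1' hg (by
        rintro (v | v) hv
        · rw [Finset.inl_mem_disjSum] at hv
          exact Finset.inl_mem_disjSum.mpr hv
        · rw [Finset.inr_mem_disjSum] at hv
          exact Finset.inr_mem_disjSum.mpr (Finset.mem_image_of_mem _ hv)) (by
        rintro (u | u) hu (v | v) hv
        · exact Iff.rfl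
        · exact Iff.rfl
        · exact Iff.rfl
        · rw [Finset.inr_mem_disjSum] at hu hv
          exact hord u hu v hv) he he'
    exact ⟨h, hh, fun x hx => (hh2 _ (Finset.inl_mem_disjSum.mpr hx)).symm,
      fun y hy => (hh2 _ (Finset.inr_mem_disjSum.mpr hy)).symm⟩
  unit_left := by
    intro lam Y h1
    have hl : ∀ u ∈ (∅ : Finset V).disjSum Y, ∃ v, u = Sum.inr v := by
      rintro (v | v) hv
      · rw [Finset.inl_mem_disjSum] at hv
        exact absurd hv (Finset.notMem_empty _)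
      · exact ⟨v, rfl⟩
    refine ⟨fun x hx y hy => ?_, fun x hx y hy => ?_, fun P hP hr => ?_⟩
    · obtain ⟨a, rfl⟩ := hl x hx
      obtain ⟨b, rfl⟩ := hl y hy
      exact Iff.rfl
    · obtain ⟨a, rfl⟩ := hl x hx
      obtain ⟨b, rfl⟩ := hl y hy
      simp
    · have hT : ¬ P.Two := by
        rintro ⟨⟨i, v, hv⟩, -⟩
        obtain ⟨a, ha⟩ := hl _ (hr (Pat.mem_roots.mpr ⟨i, hv⟩))
        simp at ha
      rw [holds_UU_one hHC hbd hΓ hEC h0 h1 hT, holds_fold hT]
  unit_right := by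
    intro lam X h1
    have hl : ∀ u ∈ X.disjSum (∅ : Finset V), ∃ v, u = Sum.inl v := by
      rintro (v | v) hv
      · exact ⟨v, rfl⟩
      · rw [Finset.inr_mem_disjSum] at hv
        exact absurd hv (Finset.notMem_empty _)
    refine ⟨fun x hx y hy => ?_, fun x hx y hy => ?_, fun P hP hr => ?_⟩
    · obtain ⟨a, rfl⟩ := hl x hx
      obtain ⟨b, rfl⟩ := hl y hy
      exact Iff.rfl
    · obtain ⟨a, rfl⟩ := hl x hx
      obtain ⟨b, rfl⟩ := hl y hy
      simp
    · have hT : ¬ P.Two := by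
        rintro ⟨-, ⟨i, v, hv⟩⟩
        obtain ⟨a, ha⟩ := hl _ (hr (Pat.mem_roots.mpr ⟨i, hv⟩))
        simp at ha
      rw [holds_UU_one hHC hbd hΓ hEC h0 h1 hT, holds_fold hT]

end

end MPec220f
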