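import Pool.Agent.Lib_MP_ec220f_lc.AlgCoupling

/-!
MP_ec220f_lc, algebra part 5: a coupling makes the orbit algebra (with `v`-additive product) a
polynomial algebra.
-/

namespace Pool.Agent.MPec220f

universe u

variable {Ω : Type*} [DecidableEq Ω] {G : Type*} [Group G] [MulAction G Ω]

section comp

variable {V : SupAdd Ω}

/-- homogeneous component -/
def comp (n : ℕ) (f : SF V) : SF V := fun X => if X.card = n then f X else 0

theorem comp_app (n : ℕ) (f : SF V) (X : Finset Ω) :
    comp n f X = if X.card = n then f X else 0 := rfl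

theorem comp_inv (n : ℕ) {f : SF V} (hf : Inv G f) : Inv G (comp n f) := by
  intro g X
  rw [comp_app, comp_app, gim_card, hf]

theorem mul_eq_sum_comp (f h : SF V) (n : ℕ) (Y : Finset Ω) (hY : Y.card = n) :
    (f * h) Y = ∑ i ∈ Finset.range (n + 1), (comp i f * comp (n - i) h) Y := by
  simp only [SF.mul_app]
  rw [Finset.sum_comm]
  apply Finset.sum_congr rfl
  intro A hA
  rw [Finset.mem_powerset] at hA
  have h1 := Finset.card_sdiff_add_card_eq_card hA
  rw [Finset.sum_eq_single A.card]
  · rw [comp_app, comp_app, if_pos (rfl : A.card = A.card),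
      if_pos (show (Y \ A).card = n - A.card by omega)]
  · intro i _ hi
    rw [comp_app, if_neg (Ne.symm hi), zero_mul]
    simp
  · intro hA'
    exfalso
    apply hA'
    rw [Finset.mem_range]
    omega

end comp

/-- the homogeneous pieces of the orbit algebra -/
def grade (V : SupAdd Ω) (hV : ∀ (g : G) X, V.v (gim g X) = V.v X) (n : ℕ) :
    Submodule ℚ (orbitAlg G V hV) where
  carrier := {b | ∀ X, X.card ≠ n → (b : SF V) X = 0}
  add_mem' := by
    intro a b ha hb X hX
    show ((a : SF V) + (b : SF V)) X = 0
    rw [SF.add_app, ha X hX, hb X hX, add_zero]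
  zero_mem' := by
    intro X _
    rfl
  smul_mem' := by
    intro c a ha X hX
    show (c • (a : SF V)) X = 0
    rw [SF.smul_app, ha X hX, mul_zero]

/-- every functional on the degree `n` part that kills decomposables comes from a derivation -/
theorem exists_derivation {Ω : Type u} [DecidableEq Ω] {G : Type*} [Group G] [MulAction G Ω]
    {V : SupAdd Ω} {cl : Finset Ω → Finset Ω} (C : Coupling G V cl) (n : ℕ) (hn : 1 ≤ n)
    (φ : grade V C.V_inv n →ₗ[ℚ] ℚ)
    (hφ : ∀ b : grade V C.V_inv n, (b : orbitAlg G V C.V_inv) ∈ decomp (grade V C.V_inv) n →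
      φ b = 0) :
    ∃ (S : Type u) (_ : CommRing S) (_ : Algebra ℚ S) (ι : orbitAlg G V C.V_inv →ₐ[ℚ] S)
      (D : orbitAlg G V C.V_inv →ₗ[ℚ] S), Function.Injective ι ∧
      (∀ a b, D (a * b) = D a * ι b + ι a * D b) ∧
      (∀ m, m < n → ∀ b ∈ grade V C.V_inv m, D b = 0) ∧
      (∀ b : grade V C.V_inv n, D b = algebraMap ℚ S (φ b)) := by
  classical
  -- the degree `n` component
  have hc : ∀ b : orbitAlg G V C.V_inv, comp n (b : SF V) ∈ orbitAlg G V C.V_inv := by
    intro b
    refine ⟨comp_inv n b.2.1, n, ?_⟩
    intro X hX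
    rw [comp_app, if_neg (by omega)]
  let pr : orbitAlg G V C.V_inv →ₗ[ℚ] grade V C.V_inv n :=
    { toFun := fun b => ⟨⟨comp n (b : SF V), hc b⟩, fun X hX => by
        show comp n (b : SF V) X = 0
        rw [comp_app, if_neg hX]⟩
      map_add' := by
        intro a b
        apply Subtype.ext
        apply Subtype.ext
        apply SF.ext
        intro X
        show comp n ((a : SF V) + (b : SF V)) X = comp n (a : SF V) X + comp n (b : SF V) X
        simp only [comp_app, SF.add_app]
        split_ifs <;> simp
      map_smul' := by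
        intro a b
        apply Subtype.ext
        apply Subtype.ext
        apply SF.ext
        intro X
        show comp n (a • (b : SF V)) X = a * comp n (b : SF V) X
        simp only [comp_app, SF.smul_app]
        split_ifs <;> simp }
  let ψ : orbitAlg G V C.V_inv →ₗ[ℚ] ℚ := φ.comp pr
  have ψ_one : ψ 1 = 0 := by
    have : pr 1 = 0 := by
      apply Subtype.ext
      apply Subtype.ext
      apply SF.ext
      intro X
      show comp n (1 : SF V) X = 0
      rw [comp_app, SF.one_app]
      split_ifs with h1 h2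
      · rw [h2] at h1
        simp at h1
        omega
      · rfl
      · rfl
    show φ (pr 1) = 0
    rw [this, map_zero]
  -- `ψ` kills products of invariant functions vanishing on `∅`
  have ψ_dec : ∀ f h : orbitAlg G V C.V_inv, (f : SF V) ∅ = 0 → (h : SF V) ∅ = 0 →
      ψ (f * h) = 0 := by
    intro f h hf0 hh0
    have hcf : ∀ i, comp i (f : SF V) ∈ orbitAlg G V C.V_inv := fun i =>
      ⟨comp_inv i f.2.1, i, fun X hX => by rw [comp_app, if_neg (by omega)]⟩
    have hch : ∀ i, comp i (h : SF V) ∈ orbitAlg G V C.V_inv := fun i =>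
      ⟨comp_inv i h.2.1, i, fun X hX => by rw [comp_app, if_neg (by omega)]⟩
    have m3 : ∀ i, i ≤ n → (⟨comp i f, hcf i⟩ * ⟨comp (n - i) h, hch (n - i)⟩ :
        orbitAlg G V C.V_inv) ∈ grade V C.V_inv n := by
      intro i hi X hX
      show (comp i (f : SF V) * comp (n - i) (h : SF V)) X = 0
      rw [SF.mul_app]
      apply Finset.sum_eq_zero
      intro A hA
      rw [Finset.mem_powerset] at hA
      have h1 := Finset.card_sdiff_add_card_eq_card hA
      rw [comp_app, comp_app]
      by_cases hAi : A.card = i
      · rw [if_neg (show ¬ (X \ A).card = n - i by omega)]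
        simp
      · rw [if_neg hAi]
        simp
    have e1 : pr (f * h) = ∑ i ∈ (Finset.range (n + 1)).attach,
        (⟨⟨comp i.1 f, hcf i.1⟩ * ⟨comp (n - i.1) h, hch (n - i.1)⟩,
          m3 i.1 (by have := Finset.mem_range.mp i.2; omega)⟩ : grade V C.V_inv n) := by
      apply Subtype.ext
      apply Subtype.ext
      rw [AddSubmonoidClass.coe_finsetSum, AddSubmonoidClass.coe_finsetSum]
      apply SF.ext
      intro X
      have sum_app : ∀ (s : Finset {x // x ∈ Finset.range (n + 1)})
          (F : {x // x ∈ Finset.range (n + 1)} → SF V) (Y : Finset Ω),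
          (∑ A ∈ s, F A) Y = ∑ A ∈ s, F A Y := by
        intro s F Y
        exact Finset.sum_apply Y s F
      rw [sum_app]
      show comp n ((f : SF V) * (h : SF V)) X = ∑ i ∈ (Finset.range (n + 1)).attach,
        (comp i.1 (f : SF V) * comp (n - i.1) (h : SF V)) X
      rw [Finset.sum_attach (Finset.range (n + 1))
        (fun i => (comp i (f : SF V) * comp (n - i) (h : SF V)) X)]
      rw [comp_app]
      by_cases hX : X.card = n
      · rw [if_pos hX, mul_eq_sum_comp _ _ n X hX]
      · rw [if_neg hX, eq_comm]
        apply Finset.sum_eq_zero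
        intro i hi
        rw [Finset.mem_range] at hi
        exact m3 i (by omega) X hX
    show φ (pr (f * h)) = 0
    rw [e1, map_sum]
    apply Finset.sum_eq_zero
    rintro ⟨i, hi⟩ _
    rw [Finset.mem_range] at hi
    have z : ∀ f : SF V, f ∅ = 0 → comp 0 f = 0 := by
      intro f hf
      apply SF.ext
      intro X
      rw [comp_app, SF.zero_app]
      split_ifs with hX
      · rw [Finset.card_eq_zero.mp hX, hf]
      · rfl
    apply hφ
    rcases Nat.eq_zero_or_pos i with rfl | hi0
    · have : (⟨comp 0 f, hcf 0⟩ : orbitAlg G V C.V_inv) = 0 := Subtype.ext (z f hf0)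
      show (⟨comp 0 f, hcf 0⟩ * ⟨comp (n - 0) h, hch (n - 0)⟩ : orbitAlg G V C.V_inv) ∈ _
      rw [this, zero_mul]
      exact Submodule.zero_mem _
    rcases Nat.eq_zero_or_pos (n - i) with hi1 | hi1
    · have : (⟨comp (n - i) h, hch (n - i)⟩ : orbitAlg G V C.V_inv) = 0 := by
        apply Subtype.ext
        show comp (n - i) (h : SF V) = 0
        rw [hi1]; exact z h hh0
      show (⟨comp i f, hcf i⟩ * ⟨comp (n - i) h, hch (n - i)⟩ : orbitAlg G V C.V_inv) ∈ _
      rw [this, mul_zero]
      exact Submodule.zero_mem _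
    apply Submodule.subset_span
    refine ⟨i, n - i, ⟨comp i f, hcf i⟩, ⟨comp (n - i) h, hch (n - i)⟩, hi0, hi1, by omega,
      ?_, ?_, rfl⟩
    · intro X hX
      show comp i (f : SF V) X = 0
      rw [comp_app, if_neg hX]
    · intro X hX
      show comp (n - i) (h : SF V) X = 0
      rw [comp_app, if_neg hX]
  have ψ_leib : ∀ f h : orbitAlg G V C.V_inv,
      ψ (f * h) = ψ f * (h : SF V) ∅ + (f : SF V) ∅ * ψ h := by
    intro f h
    have e0 : ∀ f : orbitAlg G V C.V_inv,
        ((f - ((f : SF V) ∅) • (1 : orbitAlg G V C.V_inv) : orbitAlg G V C.V_inv) : SF V) ∅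
          = 0 := by
      intro f
      have : ((f - ((f : SF V) ∅) • (1 : orbitAlg G V C.V_inv) : orbitAlg G V C.V_inv) : SF V) ∅
        = (f : SF V) ∅ - (f : SF V) ∅ * (1 : SF V) ∅ := rfl
      rw [this, SF.one_app, if_pos rfl, mul_one, sub_self]
    have hd := ψ_dec _ _ (e0 f) (e0 h)
    have e : f * h = (f - ((f : SF V) ∅) • (1 : orbitAlg G V C.V_inv)) *
        (h - ((h : SF V) ∅) • (1 : orbitAlg G V C.V_inv)) +
        (((f : SF V) ∅) • h + (((h : SF V) ∅) • f +
          (-((f : SF V) ∅ * (h : SF V) ∅)) • (1 : orbitAlg G V C.V_inv))) := by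
      simp only [Algebra.smul_def, map_neg, map_mul, mul_one]
      ring
    rw [e, map_add, hd, map_add, map_add, map_smul, map_smul, map_smul, ψ_one]
    simp only [smul_eq_mul]
    ring
  -- the derivation
  have hT : ∀ (b : orbitAlg G V C.V_inv) (X : Finset Ω),
      T C (b : SF V) X ∈ orbitAlg G V C.V_inv := by
    intro b X
    obtain ⟨hb, N, hN⟩ := b.2
    refine ⟨T_inv C hb X, N, ?_⟩
    intro Y hY
    exact T_bdd C hN X Y (by omega)
  let TT : orbitAlg G V C.V_inv → Finset Ω → orbitAlg G V C.V_inv := fun b X => ⟨_, hT b X⟩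
  have T_add : ∀ (f h : orbitAlg G V C.V_inv) X, TT (f + h) X = TT f X + TT h X := by
    intro f h X
    apply Subtype.ext
    apply SF.ext
    intro Y
    show avg (cl Y) (fun l => ((f : SF V) + (h : SF V)) _) = avg (cl Y) _ + avg (cl Y) _
    simp only [avg, SF.add_app, Finset.sum_add_distrib, add_div]
  have T_smul : ∀ (a : ℚ) (f : orbitAlg G V C.V_inv) X, TT (a • f) X = a • TT f X := by
    intro a f X
    apply Subtype.ext
    apply SF.ext
    intro Y
    show avg (cl Y) (fun l => (a • (f : SF V)) _) = a * avg (cl Y) _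
    simp only [avg, SF.smul_app, ← Finset.mul_sum, mul_div_assoc]
  have T_mul' : ∀ (f h : orbitAlg G V C.V_inv) X, TT (f * h) X =
      ∑ A ∈ X.powerset, if V.v A + V.v (X \ A) = V.v X then
      TT f A * TT h (X \ A) else 0 := by
    intro f h X
    apply Subtype.ext
    rw [AddSubmonoidClass.coe_finsetSum]
    show T C ((f : SF V) * (h : SF V)) X = _
    rw [T_mul C f.2.1 h.2.1]
    apply Finset.sum_congr rfl
    intro A _
    split_ifs
    · rfl
    · rfl
  have T_empty' : ∀ (f : orbitAlg G V C.V_inv) X, (TT f X : SF V) ∅ = (f : SF V) X :=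
    fun f X => T_empty C f.2.1 X
  let D : orbitAlg G V C.V_inv →ₗ[ℚ] SF V :=
    { toFun := fun b X => ψ (TT b X)
      map_add' := by
        intro a b
        apply SF.ext
        intro X
        show ψ (TT (a + b) X) = ψ (TT a X) + ψ (TT b X)
        rw [T_add, map_add]
      map_smul' := by
        intro a b
        apply SF.ext
        intro X
        show ψ (TT (a • b) X) = a * ψ (TT b X)
        rw [T_smul, map_smul, smul_eq_mul] }
  refine ⟨SF V, inferInstance, inferInstance, (orbitAlg G V C.V_inv).val, D,
    Subtype.val_injective, ?_, ?_, ?_⟩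
  · intro a b
    apply SF.ext
    intro X
    show ψ (TT (a * b) X) = (D a * (b : SF V) + (a : SF V) * D b) X
    rw [T_mul', map_sum, SF.add_app, SF.mul_app, SF.mul_app, ← Finset.sum_add_distrib]
    apply Finset.sum_congr rfl
    intro A _
    split_ifs
    · rw [ψ_leib, T_empty', T_empty']
      rfl
    · rw [map_zero, add_zero]
  · intro m hm b hb
    apply SF.ext
    intro X
    show φ (pr (TT b X)) = 0
    have : pr (TT b X) = 0 := by
      apply Subtype.ext
      apply Subtype.ext
      apply SF.ext
      intro Y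
      show comp n (T C (b : SF V) X) Y = 0
      rw [comp_app]
      split_ifs with hY
      · apply T_bdd C (N := m)
        · intro Z hZ
          exact hb Z (by omega)
        · omega
      · rfl
    rw [this, map_zero]
  · intro b
    apply SF.ext
    intro X
    show φ (pr (TT b X)) = _
    rw [SF.algebraMap_app]
    by_cases hX : X = ∅
    · rw [if_pos hX]
      congr 1
      apply Subtype.ext
      apply Subtype.ext
      apply SF.ext
      intro Y
      show comp n (T C ((b : orbitAlg G V C.V_inv) : SF V) X) Y =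
        ((b : orbitAlg G V C.V_inv) : SF V) Y
      rw [comp_app]
      split_ifs with hY
      · show avg (cl Y) _ = _
        refine (avg_congr _ ?_).trans (avg_const (cl Y) (((b : orbitAlg G V C.V_inv) : SF V) Y))
        intro l hl
        rw [hX]
        exact inv_sameOrbit (b : orbitAlg G V C.V_inv).2.1 (C.K3' Y l hl)
      · rw [b.2 Y hY]
    · rw [if_neg hX]
      have : pr (TT b X) = 0 := by
        apply Subtype.ext
        apply Subtype.ext
        apply SF.ext
        intro Y
        show comp n (T C ((b : orbitAlg G V C.V_inv) : SF V) X) Y = 0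
        rw [comp_app]
        split_ifs with hY
        · apply T_bdd C (N := n)
          · intro Z hZ
            exact b.2 Z (by omega)
          · have := Finset.card_pos.mpr (Finset.nonempty_iff_ne_empty.mpr hX)
            omega
        · rfl
      rw [this, map_zero]

/-- the main algebraic theorem (for the `v`-additive product) -/
theorem polynomial_of_coupling {Ω : Type u} [DecidableEq Ω] {G : Type*} [Group G] [MulAction G Ω]
    {V : SupAdd Ω} {cl : Finset Ω → Finset Ω} (C : Coupling G V cl) :
    ∃ I : Type u, Nonempty (MvPolynomial I ℚ ≃ₐ[ℚ] orbitAlg G V C.V_inv) := by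
  classical
  apply exists_mvPolynomial_equiv (grade V C.V_inv)
  · intro b hb
    refine ⟨(b : SF V) ∅, ?_⟩
    apply Subtype.ext
    apply SF.ext
    intro X
    show (b : SF V) X = (algebraMap ℚ (SF V) ((b : SF V) ∅)) X
    rw [SF.algebraMap_app]
    by_cases hX : X = ∅
    · rw [if_pos hX, hX]
    · rw [if_neg hX]
      apply hb
      rwa [Ne, Finset.card_eq_zero]
  · rw [eq_top_iff]
    rintro ⟨b, hb⟩ _
    obtain ⟨hbi, N, hN⟩ := hb
    have hc : ∀ n, comp n b ∈ orbitAlg G V C.V_inv := by
      intro n
      refine ⟨comp_inv n hbi, n, ?_⟩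
      intro X hX
      rw [comp_app, if_neg (by omega)]
    have hsum : (⟨b, ⟨hbi, N, hN⟩⟩ : orbitAlg G V C.V_inv) =
        ∑ n ∈ Finset.range (N + 1), (⟨comp n b, hc n⟩ : orbitAlg G V C.V_inv) := by
      apply Subtype.ext
      rw [AddSubmonoidClass.coe_finsetSum]
      apply SF.ext
      intro X
      have sum_app : ∀ (s : Finset ℕ) (F : ℕ → SF V) (Y : Finset Ω),
          (∑ A ∈ s, F A) Y = ∑ A ∈ s, F A Y := by
        intro s F Y
        exact Finset.sum_apply Y s F
      show b X = _
      rw [sum_app]
      simp only [comp_app]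
      rw [Finset.sum_ite_eq]
      split_ifs with h
      · rfl
      · apply hN
        rw [Finset.mem_range] at h
        omega
    rw [hsum]
    apply Submodule.sum_mem
    intro n _
    apply Submodule.mem_iSup_of_mem n
    intro X hX
    show comp n b X = 0
    rw [comp_app, if_neg hX]
  · intro n hn φ hφ
    exact exists_derivation C n hn φ hφ

end Pool.Agent.MPec220f
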