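import Pool.Agent.Lib_MP_ec220f_lc.EquiPiece

/-!
Translates of pieces, and the context of the no-pending theorem.
-/

namespace MPec220fX

open Finset Function

variable {V : Type} {G : Type*} [Group G] [MulAction G V] {X : SimpleGraph V}

open Classical in
/-- The translate of a piece. -/
noncomputable def tr (g : G) (p : Piece V) : Piece V where
  S := p.S
  C := p.C
  A := p.A.image fun q => (g • q.1, q.2)
  hA := by
    intro q hq
    obtain ⟨r, hr, rfl⟩ := Finset.mem_image.mp hq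
    exact p.hA r hr

@[simp] theorem tr_S (g : G) (p : Piece V) : (tr g p).S = p.S := rfl
@[simp] theorem tr_C (g : G) (p : Piece V) : (tr g p).C = p.C := rfl

theorem mem_tr_A {g : G} {p : Piece V} {x : V} {u : ℕ} :
    (x, u) ∈ (tr g p).A ↔ ∃ y, (y, u) ∈ p.A ∧ g • y = x := by
  classical
  simp only [tr, Finset.mem_image, Prod.mk.injEq, Prod.exists]
  constructor
  · rintro ⟨y, v, h, h1, rfl⟩; exact ⟨y, h, h1⟩
  · rintro ⟨y, h, h1⟩; exact ⟨y, u, h, h1, rfl⟩

theorem smul_mem_tr_A {g : G} {p : Piece V} {x : V} {u : ℕ} (h : (x, u) ∈ p.A) :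
    (g • x, u) ∈ (tr g p).A := mem_tr_A.mpr ⟨x, h, rfl⟩

theorem tr_mul (g h : G) (p : Piece V) : tr (g * h) p = tr g (tr h p) := by
  refine Piece.ext rfl rfl ?_
  ext ⟨x, u⟩
  rw [mem_tr_A, mem_tr_A]
  constructor
  · rintro ⟨y, hy, rfl⟩
    exact ⟨h • y, smul_mem_tr_A hy, (mul_smul g h y).symm⟩
  · rintro ⟨y, hy, rfl⟩
    obtain ⟨z, hz, rfl⟩ := mem_tr_A.mp hy
    exact ⟨z, hz, mul_smul g h z⟩

theorem tr_eq_self {g : G} {p : Piece V} (h : ∀ q ∈ p.A, g • q.1 = q.1) : tr g p = p := by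
  refine Piece.ext rfl rfl ?_
  ext ⟨x, u⟩
  rw [mem_tr_A]
  constructor
  · rintro ⟨y, hy, rfl⟩
    have := h _ hy
    rwa [this]
  · intro hx
    exact ⟨x, hx, h _ hx⟩

theorem tr_one (p : Piece V) : tr (1 : G) p = p := tr_eq_self fun q _ => one_smul G q.1

theorem tr_inv_tr (g : G) (p : Piece V) : tr g⁻¹ (tr g p) = p := by
  rw [← tr_mul, inv_mul_cancel, tr_one]

theorem tr_tr_inv (g : G) (p : Piece V) : tr g (tr g⁻¹ p) = p := by
  rw [← tr_mul, mul_inv_cancel, tr_one]

theorem tr_injective (g : G) : Injective (tr g : Piece V → Piece V) := fun p q h => by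
  have := congrArg (tr g⁻¹) h
  rwa [tr_inv_tr, tr_inv_tr] at this

theorem Real.tr (hX : ∀ (g : G) x y, X.Adj x y → X.Adj (g • x) (g • y)) {p : Piece V}
    {c : ℕ → V} (h : Real X p c) (g : G) : Real X (tr g p) (fun u => g • c u) := by
  refine ⟨fun u hu v hv huv => h.inj u hu v hv (MulAction.injective g huv),
    fun u hu v hv huv => hX g _ _ (h.inn u hu v hv huv), ?_⟩
  rintro ⟨x, u⟩ hq
  obtain ⟨y, hy, rfl⟩ := mem_tr_A.mp hq
  exact hX g _ _ (h.att _ hy)

theorem wrich_tr (hX : ∀ (g : G) x y, X.Adj x y → X.Adj (g • x) (g • y)) {p : Piece V}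
    (h : Wrich X p) (g : G) : Wrich X (tr g p) := by
  classical
  intro Z
  obtain ⟨c, hc, hZ⟩ := h (Z.image (g⁻¹ • ·))
  refine ⟨fun u => g • c u, hc.tr hX g, fun u hu hm => ?_⟩
  apply hZ u hu
  exact Finset.mem_image.mpr ⟨g • c u, hm, inv_smul_smul g _⟩

theorem Sub.tr {p' p : Piece V} (h : Sub p' p) (g : G) : Sub (tr g p') (tr g p) := by
  refine ⟨h.C, h.S, ?_⟩
  rintro ⟨x, u⟩ hx
  obtain ⟨y, hy, rfl⟩ := mem_tr_A.mp hx
  exact smul_mem_tr_A (h.A hy)

theorem minNW_tr (hX : ∀ (g : G) x y, X.Adj x y → X.Adj (g • x) (g • y)) {p : Piece V}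
    (h : MinNW X p) (g : G) : MinNW X (tr g p) := by
  refine ⟨fun hw => h.1 ?_, fun p' hs hne => ?_⟩
  · have := wrich_tr hX hw g⁻¹
    rwa [tr_inv_tr] at this
  · have h1 : Sub (MPec220fX.tr g⁻¹ p') p := by
      have := hs.tr g⁻¹
      rwa [tr_inv_tr] at this
    have h2 : MPec220fX.tr g⁻¹ p' ≠ p := by
      rintro rfl
      exact hne (tr_tr_inv g p').symm
    have := wrich_tr hX (h.2 _ h1 h2) g
    rwa [tr_tr_inv] at this

/-- The action on the vertices of `addG`. -/
noncomputable def mv (g : G) : V ⊕ (Piece V × ℕ) → V ⊕ (Piece V × ℕ)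
  | .inl x => .inl (g • x)
  | .inr q => .inr (tr g q.1, q.2)

theorem mv_injective (g : G) : Injective (mv g : V ⊕ (Piece V × ℕ) → V ⊕ (Piece V × ℕ)) := by
  rintro (x | ⟨q, u⟩) (y | ⟨r, v⟩) h
  · exact congrArg Sum.inl (MulAction.injective g (Sum.inl.inj h))
  · cases h
  · cases h
  · have h1 := Sum.inr.inj h
    have h2 := tr_injective g (congrArg Prod.fst h1)
    have h3 : u = v := congrArg Prod.snd h1
    have h2' : q = r := h2
    rw [h2', h3]

theorem addG_mv (hX : ∀ (g : G) x y, X.Adj x y → X.Adj (g • x) (g • y)) (g : G)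
    {T T' : Set (Piece V)} (hT : ∀ q ∈ T, tr g q ∈ T') {a b : V ⊕ (Piece V × ℕ)}
    (h : (addG X T).Adj a b) : (addG X T').Adj (mv g a) (mv g b) := by
  match a, b with
  | .inl x, .inl y => exact hX g _ _ h
  | .inl x, .inr (q, u) => exact ⟨hT _ h.1, smul_mem_tr_A h.2⟩
  | .inr (q, u), .inl x => exact ⟨hT _ h.1, smul_mem_tr_A h.2⟩
  | .inr (q, u), .inr (r, v) =>
    obtain ⟨h1, h2, h3, h4, h5⟩ := h
    subst h1
    exact ⟨rfl, hT _ h2, h3, h4, h5⟩

theorem addable_tr {𝓖 : Set FG} (hX : ∀ (g : G) x y, X.Adj x y → X.Adj (g • x) (g • y))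
    {p : Piece V} (h : Fre 𝓖 (addG X {p})) (g : G) : Fre 𝓖 (addG X {tr g p}) := by
  intro F hF φ hφ
  refine h F hF _ (hφ.map (mv g⁻¹) (fun a _ b _ hab => mv_injective g⁻¹ hab)
    fun a _ b _ _ hadj => addG_mv hX g⁻¹ ?_ hadj)
  intro q hq
  rw [Set.mem_singleton_iff] at hq ⊢
  rw [hq, tr_inv_tr]

/-- The orbit of a piece. -/
def Orb (G : Type*) [Group G] [MulAction G V] (p : Piece V) : Set (Piece V) :=
  {q | ∃ g : G, q = tr g p}

/-- The context of the no-pending theorem. -/
structure Ctx (G : Type*) [Group G] [MulAction G V] (X : SimpleGraph V) (𝓖 : Set FG) (m : ℕ) :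
    Prop where
  iso : NoIso 𝓖
  bd : ∀ F ∈ 𝓖, F.n ≤ m
  hX : ∀ (g : G) x y, X.Adj x y → X.Adj (g • x) (g • y)
  free : Fre 𝓖 X
  SN : ∀ (B : Finset V) (g : G), (∀ h : G, Fixes h B ↔ Fixes (g * h * g⁻¹) B) → Fixes g B
  FC : ∀ p : Piece V, p.A.Nonempty → Fre 𝓖 (addG X (Orb G p)) → ∀ Z : Finset V,
    ∃ c : ℕ → V, Real X p c ∧ (∀ u ∈ p.S, c u ∉ Z) ∧
      ∀ u ∈ p.S, ∀ g : G, g • c u = c u → ∀ q ∈ p.A, g • q.1 = q.1
  RC : ∀ p : Piece V, p.A = ∅ → Fre 𝓖 (addG X {p}) → Wrich X p

variable {𝓖 : Set FG} {m : ℕ}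

theorem ord_of_SN (SN : ∀ (B : Finset V) (g : G),
    (∀ h : G, Fixes h B ↔ Fixes (g * h * g⁻¹) B) → Fixes g B) (A : Finset V) (g : G)
    (h : ∀ a ∈ A, g • a ∈ A) : Fixes g A := by
  classical
  have himg : A.image (g • ·) = A := by
    apply Finset.eq_of_subset_of_card_le
    · intro x hx
      obtain ⟨a, ha, rfl⟩ := Finset.mem_image.mp hx
      exact h a ha
    · rw [Finset.card_image_of_injective _ (MulAction.injective g)]
  have hinv : ∀ a ∈ A, g⁻¹ • a ∈ A := by
    intro a ha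
    rw [← himg] at ha
    obtain ⟨b, hb, rfl⟩ := Finset.mem_image.mp ha
    simpa using hb
  apply SN
  intro k
  constructor
  · intro hk a ha
    rw [mul_smul, mul_smul, hk _ (hinv a ha), smul_inv_smul]
  · intro hk a ha
    have := hk _ (h a ha)
    rw [mul_smul, mul_smul, inv_smul_smul] at this
    exact MulAction.injective g this

/-- A rich piece is orbit-addable. -/
theorem orb_of_wrich (C : Ctx G X 𝓖 m) {p : Piece V} (hp : Wrich X p) :
    Fre 𝓖 (addG X (Orb G p)) := by
  classical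
  -- finitely many translates
  have key : ∀ T : Finset (Piece V), (∀ q ∈ T, ∃ g : G, q = tr g p) → Fre 𝓖 (addG X (T : Set _)) := by
    intro T
    induction T using Finset.induction_on with
    | empty =>
      intro _ F hF φ hφ
      have hno : ∀ a < F.n, ∀ q, φ a ≠ .inr q := by
        rintro a ha ⟨q, u⟩ hq
        simpa using (mem_of_inr (C.iso F hF) hφ ha hq).1
      obtain ⟨v⟩ : Nonempty V := by
        rcases Nat.eq_zero_or_pos F.n with h0 | h0
        · obtain ⟨c, _⟩ := hp ∅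
          exact ⟨c 0⟩
        · match h : φ 0 with
          | .inl x => exact ⟨x⟩
          | .inr q => exact (hno 0 h0 q h).elim
      refine C.free F hF _ (hφ.map (fun a => match a with
        | .inl x => x
        | .inr _ => v) ?_ ?_)
      · intro a ha b hb hab
        match h1 : φ a, h2 : φ b with
        | .inl x, .inl y => rw [h1, h2] at hab; exact congrArg Sum.inl hab
        | .inr q, _ => exact (hno a ha q h1).elim
        | .inl x, .inr q => exact (hno b hb q h2).elim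
      · intro a ha b hb _ hadj
        match h1 : φ a, h2 : φ b with
        | .inl x, .inl y => rw [h1, h2] at hadj; exact hadj
        | .inr q, _ => exact (hno a ha q h1).elim
        | .inl x, .inr q => exact (hno b hb q h2).elim
    | insert q T hq ih =>
      intro hT F hF φ hφ
      have ih' := ih fun r hr => hT r (Finset.mem_insert_of_mem hr)
      obtain ⟨g, rfl⟩ := hT q (Finset.mem_insert_self q T)
      have hw := wrich_tr C.hX hp g
      have hw' : Wrich X (used F φ (tr g p)) := by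
        intro Z
        obtain ⟨c, hc, hZ⟩ := hw Z
        refine ⟨c, ⟨?_, ?_, ?_⟩, ?_⟩
        · intro u hu v hv
          exact hc.inj u (Finset.mem_filter.mp hu).1 v (Finset.mem_filter.mp hv).1
        · intro u hu v hv
          exact hc.inn u (Finset.mem_filter.mp hu).1 v (Finset.mem_filter.mp hv).1
        · intro r hr
          exact hc.att r (Finset.mem_filter.mp hr).1
        · intro u hu
          exact hZ u (Finset.mem_filter.mp hu).1
      refine hφ.remove hF (C.iso F hF) hw' (ih'.mono C.iso ?_)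
      intro r hr
      have h1 : r ∈ insert (tr g p) T := by
        have := hr.1
        exact_mod_cast this
      rcases Finset.mem_insert.mp h1 with h2 | h2
      · exact absurd h2 hr.2
      · exact h2
  intro F hF φ hφ
  let T : Finset (Piece V) := (Finset.range F.n).biUnion fun a => match φ a with
    | .inl _ => ∅
    | .inr q => {q.1}
  have hT : ∀ q, q ∈ T → ∃ g : G, q = tr g p := by
    intro q hq
    obtain ⟨a, ha, h⟩ := Finset.mem_biUnion.mp hq
    match h1 : φ a with
    | .inl x => rw [h1] at h; simp at h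
    | .inr (r, u) =>
      rw [h1] at h
      have : q = r := Finset.mem_singleton.mp h
      subst this
      exact (mem_of_inr (C.iso F hF) hφ (Finset.mem_range.mp ha) h1).1
  refine key T hT F hF φ (hφ.shrink ?_)
  intro a ha q u hq
  refine Finset.mem_coe.mpr (Finset.mem_biUnion.mpr ⟨a, Finset.mem_range.mpr ha, ?_⟩)
  rw [hq]
  exact Finset.mem_singleton_self q

end MPec220fX
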