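import Pool.Agent.Lib_MP_ec220f_lc.EquiAct

/-!
The no-pending theorem: in the given context every addable piece is rich.
-/

namespace MPec220fX

open Finset Function

variable {V : Type} {G : Type*} [Group G] [MulAction G V] {X : SimpleGraph V}
variable {𝓖 : Set FG} {m : ℕ}

theorem eq_inl_or_inr (a : V ⊕ (Piece V × ℕ)) :
    (∃ x, a = .inl x) ∨ ∃ q u, a = .inr (q, u) := by
  match a with
  | .inl x => exact Or.inl ⟨x, rfl⟩
  | .inr (q, u) => exact Or.inr ⟨q, u, rfl⟩

/-- Minimal non-rich pieces are connected. -/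
theorem conn_of_minNW {p : Piece V} (h : MinNW X p) (D : Finset ℕ) (hD : D ⊆ p.S)
    (h1 : D.Nonempty) (h2 : (p.S \ D).Nonempty) :
    ∃ a ∈ D, ∃ b ∈ p.S \ D, eAdj p.C a b := by
  classical
  by_contra hcon
  push Not at hcon
  apply h.1
  intro Z
  let part : Finset ℕ → Piece V := fun D => ⟨p.S ∩ D, p.C, p.A.filter fun q => q.2 ∈ D, by
    intro q hq
    rw [Finset.mem_filter] at hq
    exact Finset.mem_inter.mpr ⟨p.hA q hq.1, hq.2⟩⟩
  have hsub : ∀ D, Sub (part D) p := fun D =>
    ⟨rfl, Finset.inter_subset_left, Finset.filter_subset _ _⟩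
  have w1 : Wrich X (part D) := by
    apply h.2 _ (hsub D)
    intro heq
    obtain ⟨b, hb⟩ := h2
    rw [Finset.mem_sdiff] at hb
    have h3 : b ∈ (part D).S := by rw [heq]; exact hb.1
    exact hb.2 (Finset.mem_inter.mp h3).2
  have w2 : Wrich X (part (p.S \ D)) := by
    apply h.2 _ (hsub _)
    intro heq
    obtain ⟨b, hb⟩ := h1
    have h3 : b ∈ (part (p.S \ D)).S := by rw [heq]; exact hD hb
    exact (Finset.mem_sdiff.mp (Finset.mem_inter.mp h3).2).2 hb
  obtain ⟨c1, r1, z1⟩ := w1 Z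
  obtain ⟨c2, r2, z2⟩ := w2 (Z ∪ D.image c1)
  have m1 : ∀ u ∈ p.S, u ∈ D → u ∈ (part D).S := fun u hu hd => Finset.mem_inter.mpr ⟨hu, hd⟩
  have m2 : ∀ u ∈ p.S, u ∉ D → u ∈ (part (p.S \ D)).S := fun u hu hd =>
    Finset.mem_inter.mpr ⟨hu, Finset.mem_sdiff.mpr ⟨hu, hd⟩⟩
  have hdis : ∀ u ∈ p.S, ∀ v ∈ D, u ∉ D → c2 u ≠ c1 v := by
    intro u hu v hv hud heq
    apply z2 u (m2 u hu hud)
    rw [heq]
    exact Finset.mem_union_right _ (Finset.mem_image_of_mem _ hv)
  refine ⟨fun u => if u ∈ D then c1 u else c2 u, ⟨?_, ?_, ?_⟩, ?_⟩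
  · intro u hu v hv huv
    by_cases hu' : u ∈ D <;> by_cases hv' : v ∈ D
    · simp only [if_pos hu', if_pos hv'] at huv
      exact r1.inj u (m1 u hu hu') v (m1 v hv hv') huv
    · simp only [if_pos hu', if_neg hv'] at huv
      exact absurd huv.symm (hdis v hv u hu' hv')
    · simp only [if_neg hu', if_pos hv'] at huv
      exact absurd huv (hdis u hu v hv' hu')
    · simp only [if_neg hu', if_neg hv'] at huv
      exact r2.inj u (m2 u hu hu') v (m2 v hv hv') huv
  · intro u hu v hv huv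
    by_cases hu' : u ∈ D <;> by_cases hv' : v ∈ D
    · simp only [if_pos hu', if_pos hv']
      exact r1.inn u (m1 u hu hu') v (m1 v hv hv') huv
    · exact absurd huv (hcon u hu' v (Finset.mem_sdiff.mpr ⟨hv, hv'⟩))
    · exact absurd huv.symm (hcon v hv' u (Finset.mem_sdiff.mpr ⟨hu, hu'⟩))
    · simp only [if_neg hu', if_neg hv']
      exact r2.inn u (m2 u hu hu') v (m2 v hv hv') huv
  · intro q hq
    have hqS := p.hA q hq
    by_cases hu' : q.2 ∈ D
    · simp only [if_pos hu']
      exact r1.att q (Finset.mem_filter.mpr ⟨hq, hu'⟩)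
    · simp only [if_neg hu']
      exact r2.att q (Finset.mem_filter.mpr ⟨hq, Finset.mem_sdiff.mpr ⟨hqS, hu'⟩⟩)
  · intro u hu
    by_cases hu' : u ∈ D
    · simp only [if_pos hu']
      exact z1 u (m1 u hu hu')
    · simp only [if_neg hu']
      exact fun hz => z2 u (m2 u hu hu') (Finset.mem_union_left _ hz)

/-- Simultaneous choice of disjoint copies. -/
theorem choose_copies (Q : Finset (Piece V)) (D : Piece V → Finset ℕ)
    (Pr : Piece V → (ℕ → V) → Prop) [Nonempty V]
    (h : ∀ q ∈ Q, ∀ Z : Finset V, ∃ c, Pr q c ∧ ∀ u ∈ D q, c u ∉ Z) (Z : Finset V) :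
    ∃ c : Piece V → ℕ → V, (∀ q ∈ Q, Pr q (c q) ∧ ∀ u ∈ D q, c q u ∉ Z) ∧
      ∀ q ∈ Q, ∀ q' ∈ Q, q ≠ q' → ∀ u ∈ D q, ∀ u' ∈ D q', c q u ≠ c q' u' := by
  classical
  induction Q using Finset.induction_on generalizing Z with
  | empty =>
    exact ⟨fun _ _ => Classical.arbitrary V, by simp, by simp⟩
  | insert q Q hq ih =>
    obtain ⟨c0, h0, hZ0⟩ := h q (Finset.mem_insert_self q Q) Z
    obtain ⟨c, h1, h2⟩ := ih (fun r hr => h r (Finset.mem_insert_of_mem hr))
      (Z ∪ (D q).image c0)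
    refine ⟨fun r => if r = q then c0 else c r, ?_, ?_⟩
    · intro r hr
      rcases Finset.mem_insert.mp hr with rfl | hr
      · simp only [if_true]
        exact ⟨h0, hZ0⟩
      · have hne : r ≠ q := fun e => hq (e ▸ hr)
        simp only [if_neg hne]
        exact ⟨(h1 r hr).1, fun u hu hz => (h1 r hr).2 u hu (Finset.mem_union_left _ hz)⟩
    · intro r hr r' hr' hne u hu u' hu'
      rcases Finset.mem_insert.mp hr with e | hs
      · rcases Finset.mem_insert.mp hr' with e' | hs'
        · exact absurd (e.trans e'.symm) hne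
        · have hne' : r' ≠ q := fun h => hne (e.trans h.symm)
          simp only [if_pos e, if_neg hne']
          intro heq
          apply (h1 r' hs').2 u' hu'
          rw [← heq, ← e]
          exact Finset.mem_union_right _ (Finset.mem_image_of_mem _ hu)
      · have hne1 : r ≠ q := fun e => hq (e ▸ hs)
        rcases Finset.mem_insert.mp hr' with e' | hs'
        · simp only [if_pos e', if_neg hne1]
          intro heq
          apply (h1 r hs).2 u hu
          rw [heq, ← e']
          exact Finset.mem_union_right _ (Finset.mem_image_of_mem _ hu')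
        · have hne2 : r' ≠ q := fun e => hq (e ▸ hs')
          simp only [if_neg hne1, if_neg hne2]
          exact h2 r hs r' hs' hne u hu u' hu'

end MPec220fX
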