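import Pool.Agent.Lib_MP_ec220f_lc.EquiMax
import Pool.Agent.Lib_MP_ec220f_lc.Defs

/-!
The equivariant existentially complete extension theorem.
-/

namespace MPec220fX

open Finset Function

variable {W : Type} {G : Type*} [Group G] [MulAction G W] {Wg : SimpleGraph W} {𝓖 : Set FG}

namespace Model

variable (M : Model G Wg 𝓖)

theorem smul_adj (hW : ∀ (g : G) x y, Wg.Adj x y → Wg.Adj (g • x) (g • y)) (g : G) (x y : M.Vx)
    (h : M.X.Adj x y) : M.X.Adj (g • x) (g • y) := XG_smul hW M.ok.inv g h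

theorem SN (hSN : ∀ (B : Finset W) (g : G), (∀ h : G, Fixes h B ↔ Fixes (g * h * g⁻¹) B) →
    Fixes g B) (B : Finset M.Vx) (g : G)
    (h : ∀ h : G, Fixes h B ↔ Fixes (g * h * g⁻¹) B) : Fixes g B := by
  rw [M.fixes_iff]
  apply hSN
  intro k
  rw [← M.fixes_iff, ← M.fixes_iff]
  exact h k

/-- Free induced copies of addable pieces, once the piece is orbit-addable. -/
theorem free_copy (hiso : NoIso 𝓖) (hconn : ConnF 𝓖) [Nonempty W]
    (hord : ∀ (A : Finset M.Vx) (g : G), (∀ a ∈ A, g • a ∈ A) → Fixes g A)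
    {p : Piece M.Vx} (hadd : Fre 𝓖 (addG M.X {p})) (horb : Fre 𝓖 (addG M.X (Orb G p)))
    (Z : Finset M.Vx) :
    ∃ c : ℕ → M.Vx, Real M.X p c ∧ (∀ u ∈ p.S, c u ∉ Z) ∧
      (∀ u ∈ p.S, ∀ v ∈ p.S, M.X.Adj (c u) (c v) → eAdj p.C u v) ∧
      (∀ z ∈ Z, ∀ u ∈ p.S, M.X.Adj z (c u) → (z, u) ∈ p.A) ∧
      ∀ u ∈ p.S, ∀ g : G, g • c u = c u → ∀ q ∈ p.A, g • q.1 = q.1 := by
  classical
  by_cases hA : p.A = ∅
  · let w : M.Vx := M.ι (Classical.arbitrary W)
    obtain ⟨c, h1, h2, h3, h4, _⟩ := copy_of_mem (p := p) (r := fun _ : Fin 1 => w)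
      (by intro q hq; rw [hA] at hq; simp at hq)
      (fun i => nd_mem_b hiso hconn hA _ hadd i) Z
    refine ⟨c, h1, h2, h3, h4, ?_⟩
    intro u _ g _ q hq
    rw [hA] at hq
    simp at hq
  · let R : Finset M.Vx := p.A.image Prod.fst
    have hR : R.Nonempty := (Finset.nonempty_iff_ne_empty.mpr hA).image _
    obtain ⟨k, hk⟩ : ∃ k, R.card = k + 1 := ⟨R.card - 1, by
      have := Finset.card_pos.mpr hR
      omega⟩
    let e := (R.equivFinOfCardEq hk)
    let r : Fin (k + 1) → M.Vx := fun j => (e.symm j).1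
    have hr : ∀ q ∈ p.A, ∃ j, r j = q.1 := by
      intro q hq
      refine ⟨e ⟨q.1, Finset.mem_image_of_mem Prod.fst hq⟩, ?_⟩
      show (e.symm (e _)).1 = q.1
      rw [Equiv.symm_apply_apply]
    have hr' : ∀ j, ∃ u, (r j, u) ∈ p.A := by
      intro j
      obtain ⟨⟨x, u⟩, hq, h⟩ := Finset.mem_image.mp (e.symm j).2
      exact ⟨u, by
        have h1 : r j = x := h.symm
        rw [h1]; exact hq⟩
    obtain ⟨c, h1, h2, h3, h4, h5⟩ := copy_of_mem (p := p) (r := r) hr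
      (fun i => nd_mem_a hiso hord hr hr' horb i) Z
    refine ⟨c, h1, h2, h3, h4, ?_⟩
    intro u hu g hg q hq
    obtain ⟨j, hj⟩ := hr q hq
    rw [← hj]
    exact h5 u hu g hg j

theorem ctx {m : ℕ} (hiso : NoIso 𝓖) (hbd : ∀ F ∈ 𝓖, F.n ≤ m) (hconn : ConnF 𝓖) [Nonempty W]
    (hW : ∀ (g : G) x y, Wg.Adj x y → Wg.Adj (g • x) (g • y))
    (hSN : ∀ (B : Finset W) (g : G), (∀ h : G, Fixes h B ↔ Fixes (g * h * g⁻¹) B) →
      Fixes g B) : Ctx G M.X 𝓖 m := by
  have hord := ord_of_SN (M.SN hSN)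
  refine ⟨hiso, hbd, M.smul_adj hW, M.free, M.SN hSN, ?_, ?_⟩
  · intro p _ h Z
    have hadd : Fre 𝓖 (addG M.X {p}) := h.mono hiso (by
      intro q hq
      rw [Set.mem_singleton_iff.mp hq]
      exact ⟨1, (tr_one p).symm⟩)
    obtain ⟨c, h1, h2, _, _, h5⟩ := M.free_copy hiso hconn hord hadd h Z
    exact ⟨c, h1, h2, h5⟩
  · intro p hA hadd Z
    let w : M.Vx := M.ι (Classical.arbitrary W)
    obtain ⟨c, h1, h2, _⟩ := copy_of_mem (p := p) (r := fun _ : Fin 1 => w)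
      (by intro q hq; rw [hA] at hq; simp at hq)
      (fun i => nd_mem_b hiso hconn hA _ hadd i) Z
    exact ⟨c, h1, h2⟩

/-- Existential completeness of the model. -/
theorem ec {m : ℕ} (hiso : NoIso 𝓖) (hbd : ∀ F ∈ 𝓖, F.n ≤ m) (hconn : ConnF 𝓖) [Nonempty W]
    (hW : ∀ (g : G) x y, Wg.Adj x y → Wg.Adj (g • x) (g • y))
    (hSN : ∀ (B : Finset W) (g : G), (∀ h : G, Fixes h B ↔ Fixes (g * h * g⁻¹) B) →
      Fixes g B) {U : Type} (H : SimpleGraph U) (hH : Fre 𝓖 H) (j : M.X ↪g H) (S : Finset U) :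
    ∃ k : U → M.Vx, Set.InjOn k S ∧ (∀ x ∈ S, ∀ y ∈ S, M.X.Adj (k x) (k y) ↔ H.Adj x y) ∧
      ∀ v, j v ∈ S → k (j v) = v := by
  classical
  have hord := ord_of_SN (M.SN hSN)
  have C := M.ctx hiso hbd hconn hW hSN
  let w0 : M.Vx := M.ι (Classical.arbitrary W)
  have hU : Nonempty U := ⟨j w0⟩
  have hjadj : ∀ x y, H.Adj (j x) (j y) ↔ M.X.Adj x y := fun x y => j.map_adj_iff
  -- old and new vertices
  let inv : U → M.Vx := fun x => if h : ∃ v, j v = x then h.choose else w0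
  have hinv : ∀ v, inv (j v) = v := by
    intro v
    have hex : ∃ v', j v' = j v := ⟨v, rfl⟩
    have h1 : inv (j v) = hex.choose := dif_pos hex
    rw [h1]
    exact j.injective hex.choose_spec
  let S1 : Finset U := S.filter fun x => ∀ v, j v ≠ x
  let Z : Finset M.Vx := (S.filter fun x => ∃ v, j v = x).image inv
  have hZ : ∀ v, j v ∈ S → v ∈ Z := by
    intro v hv
    refine Finset.mem_image.mpr ⟨j v, Finset.mem_filter.mpr ⟨hv, v, rfl⟩, hinv v⟩
  obtain ⟨ℓ, hℓ⟩ := Set.countable_iff_exists_injOn.mp (S1.finite_toSet.countable)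
  let un : ℕ → U := invFunOn ℓ (S1 : Set U)
  have hun : ∀ x ∈ S1, un (ℓ x) = x := fun x hx =>
    hℓ.leftInvOn_invFunOn (Finset.mem_coe.mpr hx)
  let L : Finset ℕ := S1.image ℓ
  have hL : ∀ a ∈ L, ∃ x ∈ S1, ℓ x = a := fun a ha => by
    obtain ⟨x, hx, h⟩ := Finset.mem_image.mp ha
    exact ⟨x, hx, h⟩
  let p : Piece M.Vx := ⟨L, (L ×ˢ L).filter fun ab => H.Adj (un ab.1) (un ab.2),
    (Z ×ˢ L).filter fun va => H.Adj (j va.1) (un va.2), fun q hq =>
      (Finset.mem_product.mp (Finset.mem_filter.mp hq).1).2⟩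
  have hpC : ∀ a ∈ L, ∀ b ∈ L, (eAdj p.C a b ↔ H.Adj (un a) (un b)) := by
    intro a ha b hb
    constructor
    · rintro ⟨_, h | h⟩
      · exact (Finset.mem_filter.mp h).2
      · exact (Finset.mem_filter.mp h).2.symm
    · intro h
      refine ⟨fun e => ?_, Or.inl (Finset.mem_filter.mpr
        ⟨Finset.mem_product.mpr ⟨ha, hb⟩, h⟩)⟩
      rw [e] at h
      exact H.irrefl h
  have hpA : ∀ v a, (v, a) ∈ p.A ↔ v ∈ Z ∧ a ∈ L ∧ H.Adj (j v) (un a) := by
    intro v a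
    show (v, a) ∈ (Z ×ˢ L).filter _ ↔ _
    rw [Finset.mem_filter, Finset.mem_product]
    tauto
  have hadd : Fre 𝓖 (addG M.X {p}) := by
    intro F hF φ hφ
    let θ : M.Vx ⊕ (Piece M.Vx × ℕ) → U := fun t => match t with
      | .inl x => j x
      | .inr q => un q.2
    have hm : ∀ a < F.n, ∀ q u, φ a = .inr (q, u) → q = p ∧ u ∈ L := by
      intro a ha q u hq
      have h1 := mem_of_inr (hiso F hF) hφ ha hq
      have h2 : q = p := Set.mem_singleton_iff.mp h1.1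
      subst h2
      exact ⟨rfl, h1.2⟩
    refine hH F hF _ (hφ.map θ ?_ ?_)
    · intro a ha b hb hab
      rcases eq_inl_or_inr (φ a) with ⟨x, hx⟩ | ⟨q, u, hq⟩ <;>
        rcases eq_inl_or_inr (φ b) with ⟨x', hx'⟩ | ⟨q', u', hq'⟩
      · rw [hx, hx'] at hab ⊢
        exact congrArg Sum.inl (j.injective hab)
      · rw [hx, hq'] at hab
        obtain ⟨y, hy, hyu⟩ := hL u' (hm b hb q' u' hq').2
        have h1 : j x = un u' := hab
        rw [← hyu, hun y hy] at h1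
        exact absurd h1 ((Finset.mem_filter.mp hy).2 x)
      · rw [hq, hx'] at hab
        obtain ⟨y, hy, hyu⟩ := hL u (hm a ha q u hq).2
        have h1 : un u = j x' := hab
        rw [← hyu, hun y hy] at h1
        exact absurd h1.symm ((Finset.mem_filter.mp hy).2 x')
      · rw [hq, hq'] at hab
        obtain ⟨y, hy, hyu⟩ := hL u (hm a ha q u hq).2
        obtain ⟨y', hy', hyu'⟩ := hL u' (hm b hb q' u' hq').2
        have h1 : un u = un u' := hab
        rw [← hyu, ← hyu', hun y hy, hun y' hy'] at h1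
        rw [hq, hq', (hm a ha q u hq).1, (hm b hb q' u' hq').1, ← hyu, ← hyu', h1]
    · intro a ha b hb _ hadj
      rcases eq_inl_or_inr (φ a) with ⟨x, hx⟩ | ⟨q, u, hq⟩ <;>
        rcases eq_inl_or_inr (φ b) with ⟨x', hx'⟩ | ⟨q', u', hq'⟩
      · rw [hx, hx'] at hadj ⊢
        exact (hjadj x x').mpr hadj
      · rw [hx, hq'] at hadj ⊢
        rw [(hm b hb q' u' hq').1] at hadj
        exact ((hpA x u').mp hadj.2).2.2
      · rw [hq, hx'] at hadj ⊢
        rw [(hm a ha q u hq).1] at hadj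
        exact ((hpA x' u).mp hadj.2).2.2.symm
      · rw [hq, hq'] at hadj ⊢
        rw [(hm a ha q u hq).1, (hm b hb q' u' hq').1] at hadj
        exact (hpC u (hm a ha q u hq).2 u' (hm b hb q' u' hq').2).mp hadj.2.2.2.2
  have horb := orb_of_wrich C (no_pending C p hadd)
  obtain ⟨c, h1, h2, h3, h4, _⟩ := M.free_copy hiso hconn hord hadd horb Z
  refine ⟨fun x => if (∃ v, j v = x) then inv x else c (ℓ x), ?_, ?_, ?_⟩
  · intro x hx y hy hxy
    have hx' : x ∈ S := hx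
    have hy' : y ∈ S := hy
    by_cases ex : ∃ v, j v = x <;> by_cases ey : ∃ v, j v = y
    · simp only [if_pos ex, if_pos ey] at hxy
      obtain ⟨v, rfl⟩ := ex
      obtain ⟨v', rfl⟩ := ey
      rw [hinv, hinv] at hxy
      rw [hxy]
    · simp only [if_pos ex, if_neg ey] at hxy
      obtain ⟨v, rfl⟩ := ex
      rw [hinv] at hxy
      have hyS : y ∈ S1 := Finset.mem_filter.mpr ⟨hy', fun v h => ey ⟨v, h⟩⟩
      exact absurd (hZ v hx') (hxy ▸ h2 _ (Finset.mem_image_of_mem ℓ hyS))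
    · simp only [if_neg ex, if_pos ey] at hxy
      obtain ⟨v, rfl⟩ := ey
      rw [hinv] at hxy
      have hxS : x ∈ S1 := Finset.mem_filter.mpr ⟨hx', fun v h => ex ⟨v, h⟩⟩
      exact absurd (hZ v hy') (hxy ▸ h2 _ (Finset.mem_image_of_mem ℓ hxS))
    · simp only [if_neg ex, if_neg ey] at hxy
      have hxS : x ∈ S1 := Finset.mem_filter.mpr ⟨hx', fun v h => ex ⟨v, h⟩⟩
      have hyS : y ∈ S1 := Finset.mem_filter.mpr ⟨hy', fun v h => ey ⟨v, h⟩⟩
      exact hℓ hxS hyS (h1.inj _ (Finset.mem_image_of_mem ℓ hxS) _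
        (Finset.mem_image_of_mem ℓ hyS) hxy)
  · have hmix : ∀ v, j v ∈ S → ∀ y ∈ S1, (M.X.Adj v (c (ℓ y)) ↔ H.Adj (j v) y) := by
      intro v hv y hy
      have hyL : ℓ y ∈ L := Finset.mem_image_of_mem ℓ hy
      constructor
      · intro h
        have h5 := h4 v (hZ v hv) (ℓ y) hyL h
        have h6 := ((hpA v (ℓ y)).mp h5).2.2
        rwa [hun y hy] at h6
      · intro h
        exact h1.att (v, ℓ y) ((hpA v (ℓ y)).mpr ⟨hZ v hv, hyL, by rwa [hun y hy]⟩)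
    intro x hx y hy
    by_cases ex : ∃ v, j v = x <;> by_cases ey : ∃ v, j v = y
    · simp only [if_pos ex, if_pos ey]
      obtain ⟨v, rfl⟩ := ex
      obtain ⟨v', rfl⟩ := ey
      rw [hinv, hinv, hjadj]
    · simp only [if_pos ex, if_neg ey]
      obtain ⟨v, rfl⟩ := ex
      rw [hinv]
      exact hmix v hx y (Finset.mem_filter.mpr ⟨hy, fun v h => ey ⟨v, h⟩⟩)
    · simp only [if_neg ex, if_pos ey]
      obtain ⟨v, rfl⟩ := ey
      rw [hinv, SimpleGraph.adj_comm, H.adj_comm]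
      exact hmix v hy x (Finset.mem_filter.mpr ⟨hx, fun v h => ex ⟨v, h⟩⟩)
    · simp only [if_neg ex, if_neg ey]
      have hxS : x ∈ S1 := Finset.mem_filter.mpr ⟨hx, fun v h => ex ⟨v, h⟩⟩
      have hyS : y ∈ S1 := Finset.mem_filter.mpr ⟨hy, fun v h => ey ⟨v, h⟩⟩
      have hxL : ℓ x ∈ L := Finset.mem_image_of_mem ℓ hxS
      have hyL : ℓ y ∈ L := Finset.mem_image_of_mem ℓ hyS
      have h5 := hpC (ℓ x) hxL (ℓ y) hyL
      rw [hun x hxS, hun y hyS] at h5
      rw [← h5]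
      exact ⟨fun h => h3 _ hxL _ hyL h, fun h => h1.inn _ hxL _ hyL h⟩
  · intro v hv
    have ex : ∃ v', j v' = j v := ⟨v, rfl⟩
    simp only [if_pos ex]
    exact hinv v

end Model

end MPec220fX
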