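import Pool.Agent.Lib_MP_ec220f_lc.EquiEC

/-!
The equivariant existentially complete extension theorem, in terms of families of finite graphs.
-/

namespace MPec220fX

open Finset Function MPec220f

/-- A finite graph on `Fin n` as a labelled graph. -/
noncomputable def toFG (F : FinGraph) : FG := by
  classical
  exact ⟨F.1, ((Finset.univ : Finset (Fin F.1 × Fin F.1)).filter
    fun ab => F.2.Adj ab.1 ab.2).image fun ab => (ab.1.1, ab.2.1)⟩

theorem toFG_n (F : FinGraph) : (toFG F).n = F.1 := rfl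

theorem mem_toFG_E {F : FinGraph} {a b : ℕ} :
    (a, b) ∈ (toFG F).E ↔ ∃ (ha : a < F.1) (hb : b < F.1), F.2.Adj ⟨a, ha⟩ ⟨b, hb⟩ := by
  classical
  simp only [toFG, Finset.mem_image, Finset.mem_filter, Finset.mem_univ, true_and, Prod.mk.injEq,
    Prod.exists]
  constructor
  · rintro ⟨x, y, h, rfl, rfl⟩
    exact ⟨x.2, y.2, h⟩
  · rintro ⟨ha, hb, h⟩
    exact ⟨⟨a, ha⟩, ⟨b, hb⟩, h, rfl, rfl⟩

theorem eAdj_toFG {F : FinGraph} {a b : ℕ} :
    eAdj (toFG F).E a b ↔ ∃ (ha : a < F.1) (hb : b < F.1), F.2.Adj ⟨a, ha⟩ ⟨b, hb⟩ := by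
  constructor
  · rintro ⟨_, h | h⟩
    · exact mem_toFG_E.mp h
    · obtain ⟨hb, ha, h⟩ := mem_toFG_E.mp h
      exact ⟨ha, hb, h.symm⟩
  · rintro ⟨ha, hb, h⟩
    refine ⟨?_, Or.inl (mem_toFG_E.mpr ⟨ha, hb, h⟩)⟩
    rintro rfl
    exact F.2.irrefl h

theorem fre_iff {𝓕 : Set FinGraph} (h2 : ∀ F ∈ 𝓕, 2 ≤ F.1) {U : Type} {H : SimpleGraph U} :
    Fre (toFG '' 𝓕) H ↔ IsFree 𝓕 H := by
  constructor
  · intro h F hF f hf hadj
    have h0 : 0 < F.1 := lt_of_lt_of_le (by norm_num) (h2 F hF)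
    refine h (toFG F) ⟨F, hF, rfl⟩ (fun a => if ha : a < F.1 then f ⟨a, ha⟩ else f ⟨0, h0⟩)
      ⟨?_, ?_⟩
    · intro a ha b hb hab
      have ha' : a < F.1 := ha
      have hb' : b < F.1 := hb
      simp only [dif_pos ha', dif_pos hb'] at hab
      exact congrArg Fin.val (hf hab)
    · intro a ha b hb hab
      obtain ⟨ha', hb', h3⟩ := eAdj_toFG.mp hab
      simp only [dif_pos ha', dif_pos hb']
      exact hadj _ _ h3
  · rintro h _ ⟨F, hF, rfl⟩ φ hφ
    refine h F hF (fun a => φ a.1) ?_ ?_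
    · intro a b hab
      exact Fin.ext (hφ.inj a.1 a.2 b.1 b.2 hab)
    · intro a b hab
      exact hφ.adj a.1 a.2 b.1 b.2 (eAdj_toFG.mpr ⟨a.2, b.2, hab⟩)

theorem noIso_toFG {𝓕 : Set FinGraph} (hconn : ∀ F ∈ 𝓕, F.2.Connected)
    (h2 : ∀ F ∈ 𝓕, 2 ≤ F.1) : NoIso (toFG '' 𝓕) := by
  rintro _ ⟨F, hF, rfl⟩ a ha
  have ha' : a < F.1 := ha
  have : Nontrivial (Fin F.1) := Fin.nontrivial_iff_two_le.mpr (h2 F hF)
  obtain ⟨b, hb⟩ := (hconn F hF).preconnected.exists_adj_of_nontrivial (⟨a, ha'⟩ : Fin F.1)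
  exact ⟨b.1, b.2, eAdj_toFG.mpr ⟨ha', b.2, hb⟩⟩

theorem connF_toFG {𝓕 : Set FinGraph} (hconn : ∀ F ∈ 𝓕, F.2.Connected) :
    ConnF (toFG '' 𝓕) := by
  rintro _ ⟨F, hF, rfl⟩ D hD hne hne'
  by_contra hcon
  push Not at hcon
  obtain ⟨a, ha⟩ := hne
  have haF : a < F.1 := Finset.mem_range.mp (hD ha)
  apply hne'
  apply Finset.Subset.antisymm hD
  intro b hb
  have hbF : b < F.1 := Finset.mem_range.mp hb
  have hreach := (hconn F hF).preconnected ⟨a, haF⟩ ⟨b, hbF⟩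
  obtain ⟨w⟩ := hreach
  have key : ∀ (x y : Fin F.1), F.2.Walk x y → x.1 ∈ D → y.1 ∈ D := by
    intro x y w
    induction w with
    | nil => exact id
    | cons hxy _ ih =>
      intro hx
      apply ih
      by_contra hy
      exact hcon _ hx _ (Finset.mem_sdiff.mpr ⟨Finset.mem_range.mpr (Fin.is_lt _), hy⟩)
        (eAdj_toFG.mpr ⟨Fin.is_lt _, Fin.is_lt _, hxy⟩)
  exact key _ _ w ha

/-! ### Countability of the terms -/

/-- labels of the W-type -/
abbrev WA (W : Type) : Type := W ⊕ (ℕ × (Finset ℕ × Finset (ℕ × ℕ) × Finset (ℕ × ℕ) × ℕ) × ℕ)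

/-- arities of the W-type -/
def WB {W : Type} : WA W → Type
  | .inl _ => Empty
  | .inr x => Fin (x.1 + 1)

instance {W : Type} : ∀ a : WA W, Fintype (WB a)
  | .inl _ => inferInstanceAs (Fintype Empty)
  | .inr x => inferInstanceAs (Fintype (Fin (x.1 + 1)))

instance {W : Type} : ∀ a : WA W, Encodable (WB a)
  | .inl _ => inferInstanceAs (Encodable Empty)
  | .inr x => inferInstanceAs (Encodable (Fin (x.1 + 1)))

/-- terms as elements of a W-type -/
def toWT {W : Type} : Tm W → WType (WB : WA W → Type)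
  | .base w => ⟨.inl w, fun e => (e : Empty).elim⟩
  | .node k r d u => ⟨.inr (k, (d.S, d.C, d.A, d.i), u), fun j => toWT (r j)⟩

theorem toWT_injective {W : Type} : Injective (toWT : Tm W → WType (WB : WA W → Type)) := by
  intro s
  induction s with
  | base w =>
    intro t h
    cases t with
    | base w' =>
      simp only [toWT, WType.mk.injEq, Sum.inl.injEq] at h
      rw [h.1]
    | node k r d u =>
      simp only [toWT, WType.mk.injEq] at h
      exact absurd h.1 (by simp)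
  | node k r d u ih =>
    intro t h
    cases t with
    | base w' =>
      simp only [toWT, WType.mk.injEq] at h
      exact absurd h.1 (by simp)
    | node k' r' d' u' =>
      obtain ⟨S, C, A, i⟩ := d
      obtain ⟨S', C', A', i'⟩ := d'
      simp only [toWT, WType.mk.injEq, Sum.inr.injEq, Prod.mk.injEq] at h
      obtain ⟨⟨h1, ⟨h2, h3, h4, h5⟩, h6⟩, h7⟩ := h
      subst h1 h2 h3 h4 h5 h6
      have h8 := eq_of_heq h7
      have h9 : r = r' := by
        funext j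
        exact ih j (congrFun h8 j)
      rw [h9]

instance {W : Type} [Countable W] : Countable (Tm W) := by
  have := Encodable.ofCountable W
  exact toWT_injective.countable

/-- **Equivariant existentially complete extension.** -/
theorem exists_equivariant_ec {𝓕 : Set FinGraph} (hfin : 𝓕.Finite)
    (hconn : ∀ F ∈ 𝓕, F.2.Connected) (h2 : ∀ F ∈ 𝓕, 2 ≤ F.1)
    {W : Type} [Countable W] [Nonempty W] {Wg : SimpleGraph W} (hW : IsFree 𝓕 Wg)
    {G : Type*} [Group G] [MulAction G W]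
    (hact : ∀ (g : G) x y, Wg.Adj (g • x) (g • y) ↔ Wg.Adj x y)
    (hSN : ∀ (B : Finset W) (g : G), (∀ h : G, Fixes h B ↔ Fixes (g * h * g⁻¹) B) →
      Fixes g B) :
    ∃ (V : Type) (_ : Countable V) (_ : MulAction G V) (X : SimpleGraph V) (ι : W → V),
      IsEC 𝓕 X ∧ (∀ (g : G) x y, X.Adj (g • x) (g • y) ↔ X.Adj x y) ∧ Injective ι ∧
      (∀ a b, X.Adj (ι a) (ι b) ↔ Wg.Adj a b) ∧ (∀ (g : G) w, ι (g • w) = g • ι w) ∧
      ∀ x : V, ∃ B : Finset W, B.Nonempty ∧ ∀ g : G, g • x = x ↔ Fixes g B := by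
  have hiso := noIso_toFG hconn h2
  have hcF := connF_toFG hconn
  obtain ⟨m, hm⟩ : ∃ m : ℕ, ∀ F ∈ toFG '' 𝓕, F.n ≤ m := by
    obtain ⟨m, hm⟩ := (hfin.image (fun F : FinGraph => F.1)).bddAbove
    refine ⟨m, ?_⟩
    rintro _ ⟨F, hF, rfl⟩
    exact hm ⟨F, hF, rfl⟩
  obtain ⟨M⟩ := exists_model (G := G) hiso ((fre_iff h2).mpr hW)
  have hact' : ∀ (g : G) x y, Wg.Adj x y → Wg.Adj (g • x) (g • y) := fun g x y =>
    (hact g x y).mpr
  have hadj : ∀ (g : G) (x y : M.Vx), M.X.Adj (g • x) (g • y) ↔ M.X.Adj x y := by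
    intro g x y
    constructor
    · intro h
      have := M.smul_adj hact' g⁻¹ _ _ h
      rwa [inv_smul_smul, inv_smul_smul] at this
    · exact M.smul_adj hact' g x y
  refine ⟨M.Vx, inferInstanceAs (Countable {t : Tm W // Live M.Φ t}), inferInstance, M.X, M.ι,
    ⟨(fre_iff h2).mp M.free, ?_⟩, hadj, M.ι_injective, M.ι_adj, fun g w => rfl, ?_⟩
  · intro U H hH j S
    exact M.ec hiso hm hcF hact' hSN H ((fre_iff h2).mpr hH) j S
  · intro x
    exact ⟨x.1.supp, x.1.supp_nonempty, fun g => M.smul_eq_iff g x⟩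

end MPec220fX
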