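import Pool.Agent.Lib_MP_ec220f_lc.EquiModel

/-!
Maximality: orbit-addable pieces are nodes of the model.
-/

namespace MPec220fX

open Finset Function

variable {W : Type} {G : Type*} [Group G] [MulAction G W] {Wg : SimpleGraph W} {𝓖 : Set FG}

/-- Connectedness of the members of the family. -/
def ConnF (𝓖 : Set FG) : Prop := ∀ F ∈ 𝓖, ∀ D : Finset ℕ, D ⊆ Finset.range F.n → D.Nonempty →
  D ≠ Finset.range F.n → ∃ a ∈ D, ∃ b ∈ Finset.range F.n \ D, eAdj F.E a b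

namespace Model

variable {M : Model G Wg 𝓖}

/-- The orbit of a node. -/
def orbN (G : Type*) [Group G] [MulAction G W] (π : Nd W) : Set (Nd W) :=
  {π' | ∃ g : G, π' = π.sm g}

theorem mem_of_ok {π : Nd W} (h : Ok G Wg 𝓖 (M.Φ ∪ orbN G π)) : π ∈ M.Φ :=
  M.max _ h Set.subset_union_left (Or.inr ⟨1, π.sm_one.symm⟩)

theorem inv_union (π : Nd W) : ∀ (g : G), ∀ π' ∈ M.Φ ∪ orbN G π, π'.sm g ∈ M.Φ ∪ orbN G π := by
  rintro g π' (h | ⟨g', rfl⟩)
  · exact Or.inl (M.ok.inv g π' h)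
  · exact Or.inr ⟨g * g', (π.sm_mul g g').symm⟩

theorem hered_union {π : Nd W} (h : ∀ j, Live M.Φ (π.r j)) :
    ∀ π' ∈ M.Φ ∪ orbN G π, ∀ j, Live M.Φ (π'.r j) := by
  rintro π' (h' | ⟨g', rfl⟩) j
  · exact M.ok.hered π' h' j
  · exact (h j).smul M.ok.inv g'

theorem not_mem_sm {π : Nd W} (h : π ∉ M.Φ) (g : G) : π.sm g ∉ M.Φ := by
  intro h1
  apply h
  have := M.ok.inv g⁻¹ _ h1
  rwa [← Nd.sm_mul, inv_mul_cancel, Nd.sm_one] at this

theorem live_union {π : Nd W} {t : Tm W} (h : Live (M.Φ ∪ orbN G π) t) :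
    Live M.Φ t ∨ ∃ (g : G) (u : ℕ), t = (π.sm g).vtx u ∧ u ∈ π.d.S := by
  rcases eq_base_or_vtx t with ⟨w, rfl⟩ | ⟨π', u, rfl⟩
  · exact Or.inl trivial
  · rcases h.1 with h1 | ⟨g, h1⟩
    · exact Or.inl ⟨h1, h.2⟩
    · refine Or.inr ⟨g, u, ?_, ?_⟩
      · rw [← h1]
      · have h2 : u ∈ π'.d.S := h.2
        have h3 : π' = π.sm g := h1
        rw [h3] at h2
        exact h2

theorem rl_live {π : Nd W} (h : ∀ j, Live M.Φ (π.r j)) {s t : Tm W}
    (hr : Rl Wg (M.Φ ∪ orbN G π) s t) :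
    Live (M.Φ ∪ orbN G π) s ∧ Live (M.Φ ∪ orbN G π) t := by
  rcases hr with ⟨x, y, rfl, rfl, _⟩ | ⟨π', hπ', j, u, rfl, rfl, hu, _⟩ |
    ⟨π', hπ', u, v, rfl, rfl, hu, hv, _⟩
  · exact ⟨trivial, trivial⟩
  · exact ⟨(hered_union h π' hπ' j).mono Set.subset_union_left, hπ', hu⟩
  · exact ⟨⟨hπ', hu⟩, hπ', hv⟩

theorem copy_live {π : Nd W} (h : ∀ j, Live M.Φ (π.r j)) {F : FG}
    (hiso : ∀ a < F.n, ∃ b < F.n, eAdj F.E a b) {φ : ℕ → Tm W}
    (hφ : IsCopy F (XG Wg (M.Φ ∪ orbN G π)) φ) {a : ℕ} (ha : a < F.n) :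
    Live (M.Φ ∪ orbN G π) (φ a) := by
  obtain ⟨b, hb, hab⟩ := hiso a ha
  rcases (hφ.adj a ha b hb hab).2 with h1 | h1
  · exact (rl_live h h1).1
  · exact (rl_live h h1).2

theorem tr_congr {V : Type} [MulAction G V] {g g' : G} {p : Piece V}
    (h : ∀ q ∈ p.A, g • q.1 = g' • q.1) : tr g p = tr g' p := by
  refine Piece.ext rfl rfl ?_
  ext ⟨x, u⟩
  rw [mem_tr_A, mem_tr_A]
  constructor
  · rintro ⟨y, hy, rfl⟩
    exact ⟨y, hy, (h _ hy).symm⟩
  · rintro ⟨y, hy, rfl⟩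
    exact ⟨y, hy, h _ hy⟩

/-- Attached pieces: orbit-addable pieces are nodes. -/
theorem nd_mem_a (hiso : NoIso 𝓖)
    (hord : ∀ (A : Finset M.Vx) (g : G), (∀ a ∈ A, g • a ∈ A) → Fixes g A)
    {p : Piece M.Vx} {k : ℕ} {r : Fin (k + 1) → M.Vx}
    (hr : ∀ q ∈ p.A, ∃ j, r j = q.1) (hr' : ∀ j, ∃ u, (r j, u) ∈ p.A)
    (hfree : Fre 𝓖 (addG M.X (Orb G p))) (i : ℕ) : M.nd p r i ∈ M.Φ := by
  classical
  set π := M.nd p r i with hπdef
  by_contra hπ
  have hlive : ∀ j, Live M.Φ (π.r j) := fun j => (r j).2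
  have hnm : ∀ g : G, π.sm g ∉ M.Φ := not_mem_sm hπ
  have hnl : ∀ (g : G) (u : ℕ), ¬ Live M.Φ ((π.sm g).vtx u) := fun g u h => hnm g h.1
  -- translates of the node and of the piece
  have hsm : ∀ g g' : G, π.sm g = π.sm g' ↔ ∀ j, g • r j = g' • r j := by
    intro g g'
    rw [hπdef]
    simp only [nd, Nd.sm, Nd.mk.injEq, heq_eq_eq, and_true, true_and]
    constructor
    · intro h j
      exact Subtype.ext (congrFun h j)
    · intro h
      funext j
      exact congrArg Subtype.val (h j)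
  have htr : ∀ g g' : G, π.sm g = π.sm g' → tr g p = tr g' p := by
    intro g g' h
    rw [hsm] at h
    apply tr_congr
    intro q hq
    obtain ⟨j, hj⟩ := hr q hq
    rw [← hj]
    exact h j
  have htr' : ∀ g g' : G, tr g p = tr g' p → π.sm g = π.sm g' := by
    intro g g' h
    rw [hsm]
    have h1 : tr (g'⁻¹ * g) p = p := by rw [tr_mul, h, tr_inv_tr]
    have h2 : Fixes (g'⁻¹ * g) (p.A.image Prod.fst) := by
      apply hord
      intro a ha
      obtain ⟨⟨x, u⟩, hs, rfl⟩ := Finset.mem_image.mp ha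
      have h3 := smul_mem_tr_A (g := g'⁻¹ * g) hs
      rw [h1] at h3
      exact Finset.mem_image_of_mem Prod.fst h3
    intro j
    obtain ⟨u, hu⟩ := hr' j
    have h3 : (g'⁻¹ * g) • r j = r j := h2 _ (Finset.mem_image_of_mem Prod.fst hu)
    rwa [mul_smul, inv_smul_eq_iff] at h3
  apply hπ
  apply mem_of_ok
  refine ⟨inv_union π, fun π' h j => (hered_union hlive π' h j).mono Set.subset_union_left, ?_⟩
  intro F hF φ hφ
  let θ : Tm W → M.Vx ⊕ (Piece M.Vx × ℕ) := fun t =>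
    if h : Live M.Φ t then .inl ⟨t, h⟩ else
    if h : ∃ (g : G) (u : ℕ), t = (π.sm g).vtx u then .inr (tr h.choose p, h.choose_spec.choose)
    else .inr (p, 0)
  have θl : ∀ (t : Tm W) (h : Live M.Φ t), θ t = .inl ⟨t, h⟩ := fun t h => dif_pos h
  have θr : ∀ (g : G) (u : ℕ), θ ((π.sm g).vtx u) = .inr (tr g p, u) := by
    intro g u
    have hex : ∃ (g' : G) (u' : ℕ), (π.sm g).vtx u = (π.sm g').vtx u' := ⟨g, u, rfl⟩
    have h1 : θ ((π.sm g).vtx u) = .inr (tr hex.choose p, hex.choose_spec.choose) :=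
      (dif_neg (hnl g u)).trans (dif_pos hex)
    rw [h1]
    obtain ⟨e1, e2⟩ := vtx_inj hex.choose_spec.choose_spec
    rw [← e2, htr _ _ e1]
  have hcase : ∀ a < F.n, Live M.Φ (φ a) ∨ ∃ (g : G) (u : ℕ), φ a = (π.sm g).vtx u := by
    intro a ha
    rcases live_union (copy_live hlive (hiso F hF) hφ ha) with h | ⟨g, u, h, _⟩
    · exact Or.inl h
    · exact Or.inr ⟨g, u, h⟩
  have hkey : ∀ s t, Rl Wg (M.Φ ∪ orbN G π) s t → (addG M.X (Orb G p)).Adj (θ s) (θ t) := by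
    intro s t hst
    rcases hst with ⟨x, y, rfl, rfl, hxy⟩ | ⟨π', hπ', j, u, rfl, rfl, hu, hA⟩ |
      ⟨π', hπ', u, v, rfl, rfl, hu, hv, huv⟩
    · rw [θl _ (live_base _ x), θl _ (live_base _ y)]
      exact Rl.adj (Or.inl ⟨x, y, rfl, rfl, hxy⟩)
    · rcases hπ' with h | ⟨g, h⟩
      · rw [θl _ (M.ok.hered π' h j), θl _ (show Live M.Φ (π'.vtx u) from ⟨h, hu⟩)]
        exact Rl.adj (Or.inr (Or.inl ⟨π', h, j, u, rfl, rfl, hu, hA⟩))
      · subst h
        rw [θr, θl ((π.sm g).r j) ((hlive j).smul M.ok.inv g)]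
        refine ⟨⟨g, rfl⟩, ?_⟩
        exact smul_mem_tr_A (mem_nd_A.mp hA)
    · rcases hπ' with h | ⟨g, h⟩
      · rw [θl _ (show Live M.Φ (π'.vtx u) from ⟨h, hu⟩),
          θl _ (show Live M.Φ (π'.vtx v) from ⟨h, hv⟩)]
        exact Rl.adj (Or.inr (Or.inr ⟨π', h, u, v, rfl, rfl, hu, hv, huv⟩))
      · subst h
        rw [θr, θr]
        exact ⟨rfl, ⟨g, rfl⟩, hu, hv, huv⟩
  refine hfree F hF _ (hφ.map θ ?_ ?_)
  · intro a ha b hb hab
    rcases hcase a ha with h1 | ⟨g, u, h1⟩ <;> rcases hcase b hb with h2 | ⟨g', u', h2⟩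
    · rw [θl _ h1, θl _ h2] at hab
      exact congrArg Subtype.val (Sum.inl.inj hab)
    · rw [θl _ h1, h2, θr] at hab
      cases hab
    · rw [θl _ h2, h1, θr] at hab
      cases hab
    · rw [h1, h2, θr, θr] at hab
      have h3 := Sum.inr.inj hab
      have h4 : tr g p = tr g' p := congrArg Prod.fst h3
      have h5 : u = u' := congrArg Prod.snd h3
      rw [h1, h2, h5, htr' _ _ h4]
  · intro a ha b hb _ hadj
    rcases hadj.2 with h | h
    · exact hkey _ _ h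
    · exact (hkey _ _ h).symm

/-- Rootless pieces (with a fake root). -/
theorem nd_mem_b (hiso : NoIso 𝓖) (hconn : ConnF 𝓖)
    {p : Piece M.Vx} (hA : p.A = ∅) {k : ℕ} (r : Fin (k + 1) → M.Vx)
    (hfree : Fre 𝓖 (addG M.X {p})) (i : ℕ) : M.nd p r i ∈ M.Φ := by
  classical
  set π := M.nd p r i with hπdef
  by_contra hπ
  have hlive : ∀ j, Live M.Φ (π.r j) := fun j => (r j).2
  have hnm : ∀ g : G, π.sm g ∉ M.Φ := not_mem_sm hπ
  have hnA : ∀ (j : Fin (k + 1)) (u : ℕ), (j.1, u) ∉ π.d.A := by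
    intro j u h
    have := (mem_nd_A (r := r) (i := i)).mp h
    rw [hA] at this
    simp at this
  -- neighbours of a new vertex
  have hnb : ∀ (g : G) (u : ℕ) (t : Tm W), (XG Wg (M.Φ ∪ orbN G π)).Adj ((π.sm g).vtx u) t →
      ∃ v, t = (π.sm g).vtx v ∧ u ∈ p.S ∧ v ∈ p.S ∧ eAdj p.C u v := by
    intro g u t h
    rcases h.2 with h | h
    · rcases h with ⟨x, y, h1, h2, _⟩ | ⟨π', hπ', j, u', h1, h2, h3, h4⟩ |
        ⟨π', hπ', u', v', h1, h2, hu', hv', h3⟩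
      · exact (vtx_ne_base h1).elim
      · exfalso
        have h5 := hered_union hlive π' hπ' j
        rw [← h1] at h5
        exact hnm g h5.1
      · obtain ⟨e1, e2⟩ := vtx_inj h1
        subst e1
        exact ⟨v', h2, by rw [e2]; exact hu', hv', by rw [e2]; exact h3⟩
    · rcases h with ⟨x, y, h1, h2, _⟩ | ⟨π', hπ', j, u', h1, h2, h3, h4⟩ |
        ⟨π', hπ', u', v', h1, h2, hu', hv', h3⟩
      · exact (vtx_ne_base h2).elim
      · exfalso
        obtain ⟨e1, e2⟩ := vtx_inj h2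
        subst e1
        exact hnA j u' h4
      · obtain ⟨e1, e2⟩ := vtx_inj h2
        subst e1
        exact ⟨u', h1, by rw [e2]; exact hv', hu', by rw [e2]; exact h3.symm⟩
  apply hπ
  apply mem_of_ok
  refine ⟨inv_union π, fun π' h j => (hered_union hlive π' h j).mono Set.subset_union_left, ?_⟩
  intro F hF φ hφ
  by_cases hall : ∀ a < F.n, Live M.Φ (φ a)
  · -- all live
    have hkey : ∀ s t, Live M.Φ s → Live M.Φ t → Rl Wg (M.Φ ∪ orbN G π) s t →
        Rl Wg M.Φ s t := by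
      intro s t hs ht hst
      rcases hst with h1 | ⟨π', hπ', j, u, h1, h2, hu, h3⟩ | ⟨π', hπ', u, v, h1, h2, hu, hv, h3⟩
      · exact Or.inl h1
      · rw [h2] at ht
        exact Or.inr (Or.inl ⟨π', ht.1, j, u, h1, h2, hu, h3⟩)
      · rw [h2] at ht
        exact Or.inr (Or.inr ⟨π', ht.1, u, v, h1, h2, hu, hv, h3⟩)
    refine M.ok.free F hF φ ⟨hφ.inj, fun a ha b hb hab => ?_⟩
    have hadj := hφ.adj a ha b hb hab
    exact ⟨hadj.1, hadj.2.imp (hkey _ _ (hall a ha) (hall b hb))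
      (hkey _ _ (hall b hb) (hall a ha))⟩
  · push Not at hall
    obtain ⟨a0, ha0, hna0⟩ := hall
    obtain ⟨g, u0, hu0, _⟩ := (live_union (copy_live hlive (hiso F hF) hφ ha0)).resolve_left hna0
    have hD : ∀ a < F.n, ∃ u, φ a = (π.sm g).vtx u := by
      by_contra hcon
      push Not at hcon
      obtain ⟨a1, ha1, hna1⟩ := hcon
      let D : Finset ℕ := (Finset.range F.n).filter fun a => ∃ u, φ a = (π.sm g).vtx u
      obtain ⟨a, ha, b, hb, hab⟩ := hconn F hF D (Finset.filter_subset _ _)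
        ⟨a0, Finset.mem_filter.mpr ⟨Finset.mem_range.mpr ha0, u0, hu0⟩⟩ (by
          intro h
          have h1 : a1 ∈ D := by rw [h]; exact Finset.mem_range.mpr ha1
          obtain ⟨u, hu⟩ := (Finset.mem_filter.mp h1).2
          exact hna1 u hu)
      obtain ⟨ha', u, hu⟩ := Finset.mem_filter.mp ha
      obtain ⟨hb', hbD⟩ := Finset.mem_sdiff.mp hb
      have hadj := hφ.adj a (Finset.mem_range.mp ha') b (Finset.mem_range.mp hb') hab
      rw [hu] at hadj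
      obtain ⟨v, hv, _⟩ := hnb g u _ hadj
      exact hbD (Finset.mem_filter.mpr ⟨hb', v, hv⟩)
    let lb : Tm W → ℕ := fun t => match t with
      | .base _ => 0
      | .node _ _ _ u => u
    refine hfree F hF _ (hφ.map (fun t => .inr (p, lb t)) ?_ ?_)
    · intro a ha b hb hab
      obtain ⟨u, hu⟩ := hD a ha
      obtain ⟨v, hv⟩ := hD b hb
      have h1 : lb (φ a) = lb (φ b) := congrArg Prod.snd (Sum.inr.inj hab)
      rw [hu, hv] at h1
      have h2 : u = v := h1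
      rw [hu, hv, h2]
    · intro a ha b hb _ hadj
      obtain ⟨u, hu⟩ := hD a ha
      obtain ⟨v, hv⟩ := hD b hb
      rw [hu] at hadj
      obtain ⟨v', hv', h1, h2, h3⟩ := hnb g u _ hadj
      rw [hu, hv']
      exact ⟨rfl, rfl, h1, h2, h3⟩

end Model

end MPec220fX
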