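import Pool.Agent.Lib_MP_ec220f_lc.EquiTerm

/-!
The maximal set of nodes (Zorn) and its graph.
-/

namespace MPec220fX

open Finset Function

variable {W : Type} {G : Type*} [Group G] [MulAction G W] {Wg : SimpleGraph W} {𝓖 : Set FG}

/-- Admissible sets of nodes. -/
structure Ok (G : Type*) [Group G] [MulAction G W] (Wg : SimpleGraph W) (𝓖 : Set FG)
    (Φ : Set (Nd W)) : Prop where
  inv : ∀ (g : G), ∀ π ∈ Φ, π.sm g ∈ Φ
  hered : ∀ π ∈ Φ, ∀ j, Live Φ (π.r j)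
  free : Fre 𝓖 (XG Wg Φ)

theorem ok_empty (hiso : NoIso 𝓖) (hW : Fre 𝓖 Wg) : Ok G Wg 𝓖 ∅ := by
  refine ⟨fun _ _ h => h.elim, fun _ h => h.elim, ?_⟩
  intro F hF φ hφ
  obtain ⟨w0, _⟩ := (φ 0).supp_nonempty
  have hbase : ∀ a < F.n, ∃ w, φ a = .base w := by
    intro a ha
    obtain ⟨b, hb, hab⟩ := hiso F hF a ha
    rcases (hφ.adj a ha b hb hab).2 with h | h
    · rcases h with ⟨x, y, h1, h2, _⟩ | ⟨π, hπ, _⟩ | ⟨π, hπ, _⟩
      · exact ⟨x, h1⟩
      · exact hπ.elim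
      · exact hπ.elim
    · rcases h with ⟨x, y, h1, h2, _⟩ | ⟨π, hπ, _⟩ | ⟨π, hπ, _⟩
      · exact ⟨y, h2⟩
      · exact hπ.elim
      · exact hπ.elim
  let f : Tm W → W := fun t => match t with
    | .base w => w
    | .node _ _ _ _ => w0
  refine hW F hF _ (hφ.map f ?_ ?_)
  · intro a ha b hb hab
    obtain ⟨x, hx⟩ := hbase a ha
    obtain ⟨y, hy⟩ := hbase b hb
    rw [hx, hy] at hab ⊢
    exact congrArg Tm.base hab
  · intro a ha b hb _ hadj
    rcases hadj.2 with h | h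
    · rcases h with ⟨x, y, h1, h2, h3⟩ | ⟨π, hπ, _⟩ | ⟨π, hπ, _⟩
      · rw [h1, h2]
        exact h3
      · exact hπ.elim
      · exact hπ.elim
    · rcases h with ⟨x, y, h1, h2, h3⟩ | ⟨π, hπ, _⟩ | ⟨π, hπ, _⟩
      · rw [h1, h2]
        exact h3.symm
      · exact hπ.elim
      · exact hπ.elim

theorem ok_sUnion {c : Set (Set (Nd W))} (hne : c.Nonempty) (hc : IsChain (· ⊆ ·) c)
    (h : ∀ Φ ∈ c, Ok G Wg 𝓖 Φ) : Ok G Wg 𝓖 (⋃₀ c) := by
  classical
  refine ⟨?_, ?_, ?_⟩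
  · rintro g π ⟨Φ, hΦ, hπ⟩
    exact ⟨Φ, hΦ, (h Φ hΦ).inv g π hπ⟩
  · rintro π ⟨Φ, hΦ, hπ⟩ j
    exact ((h Φ hΦ).hered π hπ j).mono (Set.subset_sUnion_of_mem hΦ)
  · intro F hF φ hφ
    have hRl : ∀ s t, Rl Wg (⋃₀ c) s t → ∃ Φ ∈ c, Rl Wg Φ s t := by
      rintro s t (h1 | ⟨π, ⟨Φ, hΦ, hπ⟩, h1⟩ | ⟨π, ⟨Φ, hΦ, hπ⟩, h1⟩)
      · obtain ⟨Φ, hΦ⟩ := hne
        exact ⟨Φ, hΦ, Or.inl h1⟩
      · exact ⟨Φ, hΦ, Or.inr (Or.inl ⟨π, hπ, h1⟩)⟩
      · exact ⟨Φ, hΦ, Or.inr (Or.inr ⟨π, hπ, h1⟩)⟩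
    have hadj : ∀ s t, (XG Wg (⋃₀ c)).Adj s t → ∃ Φ ∈ c, (XG Wg Φ).Adj s t := by
      rintro s t ⟨hn, h1 | h1⟩
      · obtain ⟨Φ, hΦ, h2⟩ := hRl s t h1
        exact ⟨Φ, hΦ, hn, Or.inl h2⟩
      · obtain ⟨Φ, hΦ, h2⟩ := hRl t s h1
        exact ⟨Φ, hΦ, hn, Or.inr h2⟩
    have key : ∀ s : Finset (ℕ × ℕ), ∃ Φ ∈ c, ∀ ab ∈ s,
        (XG Wg (⋃₀ c)).Adj (φ ab.1) (φ ab.2) → (XG Wg Φ).Adj (φ ab.1) (φ ab.2) := by
      intro s
      induction s using Finset.induction_on with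
      | empty =>
        obtain ⟨Φ, hΦ⟩ := hne
        exact ⟨Φ, hΦ, by simp⟩
      | insert ab s _ ih =>
        obtain ⟨Φ, hΦ, h1⟩ := ih
        by_cases hab : (XG Wg (⋃₀ c)).Adj (φ ab.1) (φ ab.2)
        · obtain ⟨Φ', hΦ', h2⟩ := hadj _ _ hab
          rcases hc.total hΦ hΦ' with hs | hs
          · refine ⟨Φ', hΦ', ?_⟩
            intro cd hcd hcd'
            rcases Finset.mem_insert.mp hcd with rfl | hcd
            · exact h2
            · exact XG_mono hs (h1 cd hcd hcd')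
          · refine ⟨Φ, hΦ, ?_⟩
            intro cd hcd hcd'
            rcases Finset.mem_insert.mp hcd with rfl | hcd
            · exact XG_mono hs h2
            · exact h1 cd hcd hcd'
        · refine ⟨Φ, hΦ, ?_⟩
          intro cd hcd hcd'
          rcases Finset.mem_insert.mp hcd with rfl | hcd
          · exact absurd hcd' hab
          · exact h1 cd hcd hcd'
    obtain ⟨Φ, hΦ, h1⟩ := key (Finset.range F.n ×ˢ Finset.range F.n)
    refine (h Φ hΦ).free F hF φ ⟨hφ.inj, fun a ha b hb hab => ?_⟩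
    exact h1 (a, b) (Finset.mem_product.mpr ⟨Finset.mem_range.mpr ha, Finset.mem_range.mpr hb⟩)
      (hφ.adj a ha b hb hab)

/-- A maximal admissible set of nodes. -/
structure Model (G : Type*) [Group G] [MulAction G W] (Wg : SimpleGraph W) (𝓖 : Set FG) where
  /-- the nodes -/
  Φ : Set (Nd W)
  ok : Ok G Wg 𝓖 Φ
  max : ∀ Φ', Ok G Wg 𝓖 Φ' → Φ ⊆ Φ' → Φ' ⊆ Φ

theorem exists_model (hiso : NoIso 𝓖) (hW : Fre 𝓖 Wg) : Nonempty (Model G Wg 𝓖) := by
  obtain ⟨Φ, hΦ⟩ := zorn_subset {Φ : Set (Nd W) | Ok G Wg 𝓖 Φ} (by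
    intro c hc hchain
    rcases c.eq_empty_or_nonempty with rfl | hne
    · exact ⟨∅, ok_empty hiso hW, by simp⟩
    · exact ⟨⋃₀ c, ok_sUnion hne hchain fun Φ h => hc h, fun s hs => Set.subset_sUnion_of_mem hs⟩)
  exact ⟨⟨Φ, hΦ.1, fun Φ' h1 h2 => hΦ.2 h1 h2⟩⟩

namespace Model

/-- The vertices of the model. -/
def Vx (M : Model G Wg 𝓖) : Type := {t : Tm W // Live M.Φ t}

variable (M : Model G Wg 𝓖)

instance : MulAction G M.Vx where
  smul g t := ⟨g • t.1, t.2.smul M.ok.inv g⟩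
  one_smul t := Subtype.ext (one_smul G t.1)
  mul_smul g h t := Subtype.ext (mul_smul g h t.1)

theorem smul_val (g : G) (x : M.Vx) : (g • x).1 = g • x.1 := rfl

/-- The graph of the model. -/
def X : SimpleGraph M.Vx := (XG Wg M.Φ).comap Subtype.val

theorem adj {x y : M.Vx} : M.X.Adj x y ↔ (XG Wg M.Φ).Adj x.1 y.1 := Iff.rfl

theorem smul_eq_iff (g : G) (x : M.Vx) : g • x = x ↔ Fixes g x.1.supp := by
  rw [← Tm.smul_eq_iff]
  exact Subtype.ext_iff

open Classical in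
/-- The support of a finite set. -/
noncomputable def fsupp (B : Finset M.Vx) : Finset W := B.biUnion fun x => x.1.supp

theorem fixes_iff (g : G) (B : Finset M.Vx) : Fixes g B ↔ Fixes g (M.fsupp B) := by
  classical
  constructor
  · intro h w hw
    obtain ⟨x, hx, hw⟩ := Finset.mem_biUnion.mp hw
    exact (M.smul_eq_iff g x).mp (h x hx) w hw
  · intro h x hx
    exact (M.smul_eq_iff g x).mpr fun w hw => h w (Finset.mem_biUnion.mpr ⟨x, hx, hw⟩)

theorem free : Fre 𝓖 M.X := fun F hF _ hφ =>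
  M.ok.free F hF _ (hφ.map Subtype.val (fun _ _ _ _ h => Subtype.ext h)
    fun _ _ _ _ _ h => h)

/-- The embedding of the base. -/
def ι (w : W) : M.Vx := ⟨.base w, trivial⟩

theorem ι_injective : Injective M.ι := fun _ _ h => Tm.base.inj (congrArg Subtype.val h)

theorem ι_smul (g : G) (w : W) : M.ι (g • w) = g • M.ι w := rfl

theorem ι_adj (a b : W) : M.X.Adj (M.ι a) (M.ι b) ↔ Wg.Adj a b := by
  constructor
  · rintro ⟨_, h | h⟩
    · rcases h with ⟨x, y, h1, h2, h3⟩ | ⟨π, hπ, j, u, h1, h2, _⟩ | ⟨π, hπ, u, v, h1, h2, _⟩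
      · rw [Tm.base.inj h1, Tm.base.inj h2]; exact h3
      · exact (vtx_ne_base h2.symm).elim
      · exact (vtx_ne_base h2.symm).elim
    · rcases h with ⟨x, y, h1, h2, h3⟩ | ⟨π, hπ, j, u, h1, h2, _⟩ | ⟨π, hπ, u, v, h1, h2, _⟩
      · rw [Tm.base.inj h1, Tm.base.inj h2]; exact h3.symm
      · exact (vtx_ne_base h2.symm).elim
      · exact (vtx_ne_base h2.symm).elim
  · intro h
    exact Rl.adj (Or.inl ⟨a, b, rfl, rfl, h⟩)

open Classical in
/-- The node of a piece over the model, with an enumeration of the roots. -/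
noncomputable def nd (p : Piece M.Vx) {k : ℕ} (r : Fin (k + 1) → M.Vx) (i : ℕ) : Nd W :=
  ⟨k, fun j => (r j).1, ⟨p.S, p.C, (Finset.range (k + 1) ×ˢ p.S).filter fun ju =>
    ∃ h : ju.1 < k + 1, (r ⟨ju.1, h⟩, ju.2) ∈ p.A, i⟩⟩

variable {M}

theorem mem_nd_A {p : Piece M.Vx} {k : ℕ} {r : Fin (k + 1) → M.Vx} {i : ℕ} {j : Fin (k + 1)}
    {u : ℕ} : (j.1, u) ∈ (M.nd p r i).d.A ↔ (r j, u) ∈ p.A := by
  classical
  show (j.1, u) ∈ (Finset.range (k + 1) ×ˢ p.S).filter _ ↔ _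
  rw [Finset.mem_filter, Finset.mem_product]
  constructor
  · rintro ⟨_, _, h⟩
    exact h
  · intro h
    exact ⟨⟨Finset.mem_range.mpr j.2, p.hA _ h⟩, j.2, h⟩

/-- The index of a term. -/
def ix : Tm W → ℕ
  | .base _ => 0
  | .node _ _ d _ => d.i

open Classical in
/-- The indices of a term and its roots. -/
noncomputable def ixs : Tm W → Finset ℕ
  | .base _ => {0}
  | .node _ r d _ => insert d.i (Finset.univ.image fun j => ix (r j))

theorem ix_mem_ixs (t : Tm W) : ix t ∈ ixs t := by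
  classical
  match t with
  | .base w => exact Finset.mem_singleton_self 0
  | .node k r d u => exact Finset.mem_insert_self _ _

theorem ix_root_mem_ixs (π : Nd W) (j : Fin (π.k + 1)) (u : ℕ) : ix (π.r j) ∈ ixs (π.vtx u) := by
  classical
  exact Finset.mem_insert_of_mem (Finset.mem_image_of_mem (fun j => ix (π.r j))
    (Finset.mem_univ j))

/-- The free induced copies given by nodes. -/
theorem copy_of_mem {p : Piece M.Vx} {k : ℕ} {r : Fin (k + 1) → M.Vx}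
    (hr : ∀ q ∈ p.A, ∃ j, r j = q.1)
    (hΦ : ∀ i, M.nd p r i ∈ M.Φ) (Z : Finset M.Vx) :
    ∃ c : ℕ → M.Vx, Real M.X p c ∧ (∀ u ∈ p.S, c u ∉ Z) ∧
      (∀ u ∈ p.S, ∀ v ∈ p.S, M.X.Adj (c u) (c v) → eAdj p.C u v) ∧
      (∀ z ∈ Z, ∀ u ∈ p.S, M.X.Adj z (c u) → (z, u) ∈ p.A) ∧
      ∀ u ∈ p.S, ∀ g : G, g • c u = c u → ∀ j, g • r j = r j := by
  classical
  obtain ⟨i, hi⟩ := Infinite.exists_notMem_finset (Z.biUnion fun z => ixs z.1)
  have hi1 : ∀ z ∈ Z, i ∉ ixs z.1 := fun z hz h => hi (Finset.mem_biUnion.mpr ⟨z, hz, h⟩)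
  set π := M.nd p r i with hπdef
  let c : ℕ → M.Vx := fun u => if h : ∃ x : M.Vx, x.1 = π.vtx u then h.choose else r 0
  have hc : ∀ u ∈ p.S, (c u).1 = π.vtx u := by
    intro u hu
    have hex : ∃ x : M.Vx, x.1 = π.vtx u := ⟨⟨π.vtx u, hΦ i, hu⟩, rfl⟩
    show (if h : ∃ x : M.Vx, x.1 = π.vtx u then h.choose else r 0).1 = _
    rw [dif_pos hex]
    exact hex.choose_spec
  have hnot : ∀ z ∈ Z, ∀ v, z.1 ≠ π.vtx v := by
    intro z hz v h
    apply hi1 z hz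
    have h1 := ix_mem_ixs z.1
    rw [h] at h1
    rw [h]
    exact h1
  refine ⟨c, ⟨?_, ?_, ?_⟩, ?_, ?_, ?_, ?_⟩
  · intro u hu v hv huv
    have := congrArg Subtype.val huv
    rw [hc u hu, hc v hv] at this
    exact (vtx_inj this).2
  · intro u hu v hv huv
    rw [M.adj, hc u hu, hc v hv]
    exact Rl.adj (Or.inr (Or.inr ⟨π, hΦ i, u, v, rfl, rfl, hu, hv, huv⟩))
  · intro q hq
    obtain ⟨j, hj⟩ := hr q hq
    have hqS := p.hA q hq
    rw [M.adj, hc q.2 hqS]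
    have h1 : q.1.1 = π.r j := by
      rw [← hj]
      rfl
    have h2 : (j.1, q.2) ∈ π.d.A := by
      apply mem_nd_A.mpr
      rw [hj]
      exact hq
    exact Rl.adj (Or.inr (Or.inl ⟨π, hΦ i, j, q.2, h1, rfl, hqS, h2⟩))
  · intro u hu hz
    exact hnot _ hz u (hc u hu)
  · intro u hu v hv huv
    rw [M.adj, hc u hu, hc v hv] at huv
    have key : ∀ a b, Rl Wg M.Φ (π.vtx a) (π.vtx b) → eAdj p.C a b := by
      rintro a b (⟨x, y, h1, h2, _⟩ | ⟨π', hπ', j, u', h1, h2, _⟩ |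
        ⟨π', hπ', u', v', h1, h2, _, _, h3⟩)
      · exact (vtx_ne_base h1).elim
      · exfalso
        obtain ⟨e1, e2⟩ := vtx_inj h2
        have h3 := Tm.ht_root π' j b
        rw [← h1] at h3
        rw [← e1] at h3
        exact lt_irrefl _ (h3 : (π.vtx a).ht < (π.vtx b).ht)
      · obtain ⟨e1, e2⟩ := vtx_inj h1
        obtain ⟨e3, e4⟩ := vtx_inj h2
        rw [← e1, ← e2, ← e4] at h3
        exact h3
    rcases huv.2 with h | h
    · exact key u v h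
    · exact (key v u h).symm
  · intro z hz u hu hzu
    rw [M.adj, hc u hu] at hzu
    rcases hzu.2 with h | h
    · rcases h with ⟨x, y, h1, h2, _⟩ | ⟨π', hπ', j, u', h1, h2, h3, h4⟩ |
        ⟨π', hπ', u', v', h1, h2, _, _, h3⟩
      · exact (vtx_ne_base h2).elim
      · obtain ⟨e1, e2⟩ := vtx_inj h2
        subst e2
        subst e1
        have h5 : z = r j := Subtype.ext h1
        rw [h5]
        exact mem_nd_A.mp h4
      · obtain ⟨e1, e2⟩ := vtx_inj h2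
        exact (hnot z hz u' (by rw [h1, e1])).elim
    · rcases h with ⟨x, y, h1, h2, _⟩ | ⟨π', hπ', j, u', h1, h2, h3, h4⟩ |
        ⟨π', hπ', u', v', h1, h2, _, _, h3⟩
      · exact (vtx_ne_base h1).elim
      · exfalso
        apply hi1 z hz
        rw [h2]
        have h5 := ix_root_mem_ixs π' j u'
        rw [← h1] at h5
        exact h5
      · obtain ⟨e1, e2⟩ := vtx_inj h1
        exact (hnot z hz v' (by rw [h2, e1])).elim
  · intro u hu g hg j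
    have h1 := congrArg Subtype.val hg
    rw [M.smul_val, hc u hu, Nd.smul_vtx] at h1
    have h2 := (vtx_inj h1).1
    have h3 : (fun j => g • (r j).1) = fun j => (r j).1 := by
      have h4 : π.sm g = π := h2
      rw [hπdef] at h4
      simp only [nd, Nd.sm, Nd.mk.injEq, heq_eq_eq, and_true, true_and] at h4
      exact h4
    exact Subtype.ext (congrFun h3 j)

end Model

end MPec220fX
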