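import Pool.Agent.Lib_MP_ec220f_lc.EquiCore

/-!
The no-pending theorem: in the given context every addable piece is rich.
-/

namespace MPec220fX

open Finset Function

variable {V : Type} {G : Type*} [Group G] [MulAction G V] {X : SimpleGraph V}
variable {𝓖 : Set FG} {m : ℕ}

/-- `x` is moved by the pointwise stabiliser of the roots of `q0`. -/
def Mvd (G : Type*) [Group G] [MulAction G V] (q0 : Piece V) (x : V) : Prop :=
  ∃ g : G, (∀ s ∈ q0.A, g • s.1 = s.1) ∧ g • x ≠ x

open Classical in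
theorem core (C : Ctx G X 𝓖 m) {p : Piece V} (hmin : MinNW X p)
    (hmax : ∀ p', Fre 𝓖 (addG X {p'}) → MinNW X p' → p'.S.card ≤ p.S.card)
    (T : Finset (Piece V)) (hT : ∀ q ∈ T, ∃ g : G, q = tr g p)
    (hTmin : ∀ T' : Finset (Piece V), (∀ q ∈ T', ∃ g : G, q = tr g p) → T'.card < T.card →
      Fre 𝓖 (addG X (T' : Set (Piece V))))
    {F : FG} (hF : F ∈ 𝓖) {φ : ℕ → V ⊕ (Piece V × ℕ)}
    (hφ : IsCopy F (addG X (T : Set (Piece V))) φ)
    {q0 : Piece V} (hq0 : q0 ∈ T) : ∀ q ∈ T, ∀ r ∈ q.A, ¬ Mvd G q0 r.1 := by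
  intro q1 hq1 r1 hr1 hmv1
  have hord := ord_of_SN C.SN
  have hV : Nonempty V := ⟨r1.1⟩
  have hin : ∀ a < F.n, ∀ q u, φ a = .inr (q, u) → q ∈ T ∧ u ∈ q.S := by
    intro a ha q u hq
    have := mem_of_inr (C.iso F hF) hφ ha hq
    exact ⟨Finset.mem_coe.mp this.1, this.2⟩
  -- roots of q0 are not moved
  have hroot0 : ∀ s ∈ q0.A, ¬ Mvd G q0 s.1 := by
    rintro s hs ⟨g, hg, hne⟩
    exact hne (hg s hs)
  let T2 : Finset (Piece V) := T.filter fun q => ∃ r ∈ q.A, Mvd G q0 r.1
  have hT2T : ∀ q ∈ T2, q ∈ T := fun q hq => (Finset.mem_filter.mp hq).1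
  have hq1T2 : q1 ∈ T2 := Finset.mem_filter.mpr ⟨hq1, r1, hr1, hmv1⟩
  have hq0T2 : q0 ∉ T2 := by
    intro h
    obtain ⟨r, hr, hm⟩ := (Finset.mem_filter.mp h).2
    exact hroot0 r hr hm
  have hnT2 : ∀ q ∈ T, q ∉ T2 → ∀ r ∈ q.A, ¬ Mvd G q0 r.1 := fun q hq hn r hr hm =>
    hn (Finset.mem_filter.mpr ⟨hq, r, hr, hm⟩)
  have hT2card : T2.card < T.card :=
    Finset.card_lt_card (Finset.ssubset_iff_subset_ne.mpr
      ⟨Finset.filter_subset _ _, fun h => hq0T2 (h ▸ hq0)⟩)
  let InP : ℕ → Prop := fun a => (∃ z, φ a = .inl z ∧ Mvd G q0 z) ∨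
    ∃ q u, φ a = .inr (q, u) ∧ q ∈ T2
  let P : Finset ℕ := (Finset.range F.n).filter InP
  have hPn : ∀ a ∈ P, a < F.n := fun a ha => Finset.mem_range.mp (Finset.mem_filter.mp ha).1
  have hPP : ∀ a ∈ P, InP a := fun a ha => (Finset.mem_filter.mp ha).2
  have hPm : ∀ a < F.n, InP a → a ∈ P := fun a ha h =>
    Finset.mem_filter.mpr ⟨Finset.mem_range.mpr ha, h⟩
  -- the piece K
  let AK : Finset (V × ℕ) := (vs φ F.n ×ˢ P).filter fun r =>
    ¬ Mvd G q0 r.1 ∧ ∃ b < F.n, eAdj F.E r.2 b ∧ φ b = .inl r.1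
  let K : Piece V := ⟨P, F.E, AK, fun q hq =>
    (Finset.mem_product.mp (Finset.mem_filter.mp hq).1).2⟩
  have hKA : ∀ x a, (x, a) ∈ K.A → a ∈ P ∧ ¬ Mvd G q0 x ∧ ∃ b < F.n, eAdj F.E a b ∧
      φ b = .inl x := by
    intro x a h
    obtain ⟨h1, h2, h3⟩ := Finset.mem_filter.mp h
    exact ⟨(Finset.mem_product.mp h1).2, h2, h3⟩
  -- edges leaving P
  have hout : ∀ a ∈ P, ∀ b < F.n, b ∉ P → eAdj F.E a b →
      ∃ r, φ b = .inl r ∧ (r, a) ∈ K.A := by
    intro a ha b hb hbP hab
    have hadj := hφ.adj a (hPn a ha) b hb hab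
    rcases eq_inl_or_inr (φ b) with ⟨r, hr⟩ | ⟨q', v, hq'⟩
    · refine ⟨r, hr, Finset.mem_filter.mpr ⟨Finset.mem_product.mpr ⟨mem_vs.mpr ⟨b, hb, hr⟩, ha⟩,
        fun hm => hbP (hPm b hb (Or.inl ⟨r, hr, hm⟩)), b, hb, hab, hr⟩⟩
    · exfalso
      have hq'T2 : q' ∉ T2 := fun h => hbP (hPm b hb (Or.inr ⟨q', v, hq', h⟩))
      rcases hPP a ha with ⟨z, hz, hzm⟩ | ⟨q, u, hq, hqT2⟩
      · rw [hz, hq', addG_lr] at hadj
        exact hnT2 q' (hin b hb q' v hq').1 hq'T2 _ hadj.2 hzm
      · rw [hq, hq', addG_rr] at hadj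
        exact hq'T2 (hadj.1 ▸ hqT2)
  -- Claim 1
  have hK1 : Fre 𝓖 (addG X {K}) := by
    intro F1 hF1 ψ hψ
    have hinK : ∀ b < F1.n, ∀ q a, ψ b = .inr (q, a) → q = K ∧ a ∈ P := by
      intro b hb q a h
      have := mem_of_inr (C.iso F1 hF1) hψ hb h
      have e : q = K := Set.mem_singleton_iff.mp this.1
      subst e
      exact ⟨rfl, this.2⟩
    let Z0 : Finset V := (vs φ F.n).filter fun z => Mvd G q0 z
    obtain ⟨g, hg, hgZ⟩ := neumann hord (A := Z0) (B := q0.A.image Prod.fst) (Z := vs ψ F1.n)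
      (by
        intro z hz
        obtain ⟨g, hg, hne⟩ := (Finset.mem_filter.mp hz).2
        refine ⟨g, ?_, hne⟩
        intro b hb
        obtain ⟨s, hs, rfl⟩ := Finset.mem_image.mp hb
        exact hg s hs)
    have hgr : ∀ x, ¬ Mvd G q0 x → g • x = x := by
      intro x hx
      by_contra hne
      exact hx ⟨g, fun s hs => hg _ (Finset.mem_image_of_mem _ hs), hne⟩
    let T3 : Finset (Piece V) := T2.image (tr g)
    have hT3 : Fre 𝓖 (addG X (T3 : Set (Piece V))) := by
      apply hTmin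
      · intro q hq
        obtain ⟨r, hr, rfl⟩ := Finset.mem_image.mp hq
        obtain ⟨g', rfl⟩ := hT r (hT2T r hr)
        exact ⟨g * g', (tr_mul g g' p).symm⟩
      · exact lt_of_le_of_lt Finset.card_image_le hT2card
    let θ : V ⊕ (Piece V × ℕ) → V ⊕ (Piece V × ℕ) := fun b => match b with
      | .inl x => .inl x
      | .inr q => mv g (φ q.2)
    refine hT3 F1 hF1 _ (hψ.map θ ?_ ?_)
    · -- injectivity
      have hcross : ∀ x a, x ∈ vs ψ F1.n → a ∈ P → mv g (φ a) ≠ .inl x := by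
        intro x a hx ha heq
        rcases hPP a ha with ⟨z, hz, hzm⟩ | ⟨q, u, hq, hqT2⟩
        · rw [hz] at heq
          have : g • z = x := Sum.inl.inj heq
          apply hgZ z (Finset.mem_filter.mpr ⟨mem_vs.mpr ⟨a, hPn a ha, hz⟩, hzm⟩)
          rw [this]
          exact hx
        · rw [hq] at heq
          cases heq
      intro b hb b' hb' heq
      rcases eq_inl_or_inr (ψ b) with ⟨x, hx⟩ | ⟨q, a, hq⟩ <;>
        rcases eq_inl_or_inr (ψ b') with ⟨x', hx'⟩ | ⟨q', a', hq'⟩
      · rw [hx, hx'] at heq ⊢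
        exact heq
      · rw [hx, hq'] at heq
        exact absurd heq.symm
          (hcross x a' (mem_vs.mpr ⟨b, hb, hx⟩) (hinK b' hb' q' a' hq').2)
      · rw [hq, hx'] at heq
        exact absurd heq
          (hcross x' a (mem_vs.mpr ⟨b', hb', hx'⟩) (hinK b hb q a hq).2)
      · obtain ⟨e1, h1⟩ := hinK b hb q a hq
        obtain ⟨e2, h2⟩ := hinK b' hb' q' a' hq'
        rw [hq, hq'] at heq
        have h3 : φ a = φ a' := mv_injective g heq
        have h4 := hφ.inj a (hPn a h1) a' (hPn a' h2) h3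
        rw [hq, hq', e1, e2, h4]
    · -- adjacency
      have hadjP : ∀ a b, (addG X (T : Set (Piece V))).Adj (φ a) (φ b) → a ∈ P →
          (b ∈ P ∨ ∃ x, φ b = .inl x) →
          (addG X (T3 : Set (Piece V))).Adj (mv g (φ a)) (mv g (φ b)) := by
        intro a b hadj ha hb
        have h2 : (addG X (T2 : Set (Piece V))).Adj (φ a) (φ b) := by
          have hbT2 : ∀ q v, φ b = .inr (q, v) → q ∈ T2 := by
            intro q v hq
            rcases hb with hb | ⟨x, hx⟩
            · rcases hPP b hb with ⟨z, hz, _⟩ | ⟨q', u', hq', h'⟩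
              · rw [hz] at hq; cases hq
              · rw [hq'] at hq
                have e : q' = q := congrArg Prod.fst (Sum.inr.inj hq)
                exact e ▸ h'
            · rw [hx] at hq; cases hq
          rcases hPP a ha with ⟨z, hz, _⟩ | ⟨q, u, hq, hqT2⟩ <;>
            rcases eq_inl_or_inr (φ b) with ⟨x, hx⟩ | ⟨q', v, hq'⟩
          · rw [hz, hx] at hadj ⊢
            exact hadj
          · rw [hz, hq'] at hadj ⊢
            exact ⟨hbT2 q' v hq', hadj.2⟩
          · rw [hq, hx] at hadj ⊢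
            exact ⟨hqT2, hadj.2⟩
          · rw [hq, hq'] at hadj ⊢
            exact ⟨hadj.1, hqT2, hadj.2.2⟩
        refine addG_mv C.hX g (fun q hq => ?_) h2
        exact Finset.mem_coe.mpr (Finset.mem_image_of_mem _ (Finset.mem_coe.mp hq))
      have hmix : ∀ x a, (x, a) ∈ K.A →
          (addG X (T3 : Set (Piece V))).Adj (mv g (φ a)) (.inl x) := by
        intro x a hxa
        obtain ⟨haP, hnm, c, hc, hac, hcx⟩ := hKA x a hxa
        have h1 := hφ.adj a (hPn a haP) c hc hac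
        have h2 := hadjP a c h1 haP (Or.inr ⟨x, hcx⟩)
        rw [hcx] at h2
        have h3 : (mv g (.inl x) : V ⊕ (Piece V × ℕ)) = .inl x := congrArg Sum.inl (hgr x hnm)
        rw [h3] at h2
        exact h2
      intro b hb b' hb' _ hadj
      rcases eq_inl_or_inr (ψ b) with ⟨x, hx⟩ | ⟨q, a, hq⟩ <;>
        rcases eq_inl_or_inr (ψ b') with ⟨x', hx'⟩ | ⟨q', a', hq'⟩
      · rw [hx, hx'] at hadj ⊢
        exact hadj
      · rw [hx, hq'] at hadj ⊢
        obtain ⟨e2, h2⟩ := hinK b' hb' q' a' hq'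
        rw [e2, addG_lr] at hadj
        exact SimpleGraph.Adj.symm (hmix x a' hadj.2)
      · rw [hq, hx'] at hadj ⊢
        obtain ⟨e2, h2⟩ := hinK b hb q a hq
        rw [e2, addG_rl] at hadj
        exact hmix x' a hadj.2
      · rw [hq, hq'] at hadj ⊢
        obtain ⟨e1, h1⟩ := hinK b hb q a hq
        obtain ⟨e2, h2⟩ := hinK b' hb' q' a' hq'
        rw [e1, e2, addG_rr] at hadj
        exact hadjP a a' (hφ.adj a (hPn a h1) a' (hPn a' h2) hadj.2.2.2.2) h1 (Or.inl h2)
  -- Claim 2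
  have hK2 : ¬ Wrich X K := by
    intro hw
    obtain ⟨c, hc, hcZ⟩ := hw (vs φ F.n)
    have key := hφ.rep P c
      (fun a ha b hb _ _ => hc.inj a ha b hb)
      (fun a ha b hb _ heq => hcZ a ha (mem_vs.mpr ⟨b, hb, heq⟩))
      (fun a ha b hb _ _ hab => hc.inn a ha b hb hab)
      (fun a ha b hbP _ hb hab => by
        obtain ⟨r, hr, hrK⟩ := hout a ha b hb hbP hab
        exact ⟨r, hr, hc.att (r, a) hrK⟩)
    have hfre := hTmin (T \ T2) (fun q hq => hT q (Finset.mem_sdiff.mp hq).1) (by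
      apply Finset.card_lt_card
      refine Finset.ssubset_iff_subset_ne.mpr ⟨Finset.sdiff_subset, fun h => ?_⟩
      have : q1 ∈ T \ T2 := by rw [h]; exact hq1
      exact (Finset.mem_sdiff.mp this).2 hq1T2)
    refine hfre F hF _ (key.shrink ?_)
    intro a ha q u hq
    by_cases haP : a ∈ P
    · rw [if_pos haP] at hq
      cases hq
    · rw [if_neg haP] at hq
      refine Finset.mem_coe.mpr (Finset.mem_sdiff.mpr ⟨(hin a ha q u hq).1, fun h => ?_⟩)
      exact haP (hPm a ha (Or.inr ⟨q, u, hq, h⟩))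
  -- Claim 3
  obtain ⟨K', hsub, hK'⟩ := exists_minNW K hK2
  have hK'add : Fre 𝓖 (addG X {K'}) := addable_sub C.iso hsub hK1
  have hS' : ∀ a ∈ K'.S, a ∈ P := fun a ha => hsub.S ha
  have hC' : K'.C = F.E := hsub.C
  -- adjacency of labels of K'
  have hadj' : ∀ a ∈ K'.S, ∀ b ∈ K'.S, eAdj K'.C a b →
      (addG X (T : Set (Piece V))).Adj (φ a) (φ b) := by
    intro a ha b hb hab
    rw [hC'] at hab
    exact hφ.adj a (hPn a (hS' a ha)) b (hPn b (hS' b hb)) hab
  let DQ : Piece V → Piece V := fun q =>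
    ⟨q.S.filter fun u => ∃ a ∈ K'.S, φ a = .inr (q, u), q.C,
      q.A.filter fun r => ∃ a ∈ K'.S, φ a = .inr (q, r.2) ∧
        ((∃ b ∈ K'.S, φ b = .inl r.1) ∨ (r.1, a) ∈ K'.A), by
      intro r hr
      obtain ⟨h1, a, ha, h2, _⟩ := Finset.mem_filter.mp hr
      exact Finset.mem_filter.mpr ⟨q.hA r h1, a, ha, h2⟩⟩
  have hDQ : ∀ q, Sub (DQ q) q := fun q =>
    ⟨rfl, Finset.filter_subset _ _, Finset.filter_subset _ _⟩
  have hDS : ∀ a ∈ K'.S, ∀ q u, φ a = .inr (q, u) → u ∈ (DQ q).S := by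
    intro a ha q u hq
    exact Finset.mem_filter.mpr ⟨(hin a (hPn a (hS' a ha)) q u hq).2, a, ha, hq⟩
  have hqT2 : ∀ a ∈ K'.S, ∀ q u, φ a = .inr (q, u) → q ∈ T2 := by
    intro a ha q u hq
    rcases hPP a (hS' a ha) with ⟨z, hz, _⟩ | ⟨q', u', hq', h'⟩
    · rw [hz] at hq; cases hq
    · rw [hq'] at hq
      have e : q' = q := congrArg Prod.fst (Sum.inr.inj hq)
      exact e ▸ h'
  have hzm : ∀ a ∈ K'.S, ∀ z, φ a = .inl z → Mvd G q0 z := by
    intro a ha z hz
    rcases hPP a (hS' a ha) with ⟨z', hz', h'⟩ | ⟨q', u', hq', _⟩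
    · rw [hz'] at hz
      exact Sum.inl.inj hz ▸ h'
    · rw [hq'] at hz; cases hz
  by_cases hfull : ∃ q ∈ T2, DQ q = q
  · obtain ⟨q, hq, hDq⟩ := hfull
    obtain ⟨g, hqg⟩ := hT q (hT2T q hq)
    have hcard : K'.S.card ≤ q.S.card := by
      rw [hqg]
      exact hmax K' hK'add hK'
    -- the labels of K' in q
    let Dq : Finset ℕ := K'.S.filter fun a => ∃ u, φ a = .inr (q, u)
    have hDqim : q.S ⊆ Dq.image fun a => lab (φ a) := by
      intro u hu
      rw [← hDq] at hu
      obtain ⟨_, a, ha, h⟩ := Finset.mem_filter.mp hu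
      refine Finset.mem_image.mpr ⟨a, Finset.mem_filter.mpr ⟨ha, u, h⟩, ?_⟩
      rw [h]
      rfl
    have h1 : q.S.card ≤ Dq.card := (Finset.card_le_card hDqim).trans Finset.card_image_le
    have h2 : Dq = K'.S := Finset.eq_of_subset_of_card_le (Finset.filter_subset _ _)
      (hcard.trans h1)
    obtain ⟨r, hr, hrm⟩ := (Finset.mem_filter.mp hq).2
    have hr' : r ∈ (DQ q).A := by rw [hDq]; exact hr
    obtain ⟨_, a, ha, h3, h4⟩ := Finset.mem_filter.mp hr'
    rcases h4 with ⟨b, hb, hbr⟩ | h4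
    · have hb' : b ∈ Dq := h2.symm ▸ hb
      obtain ⟨u, hu⟩ := (Finset.mem_filter.mp hb').2
      rw [hu] at hbr
      cases hbr
    · exact (hKA r.1 a (hsub.A h4)).2.1 hrm
  · push Not at hfull
    -- all parts are rich
    have hrich : ∀ q ∈ T2, Wrich X (DQ q) := by
      intro q hq
      obtain ⟨g, hqg⟩ := hT q (hT2T q hq)
      have : MinNW X q := hqg ▸ minNW_tr C.hX hmin g
      exact this.2 _ (hDQ q) (hfull q hq)
    by_cases hZ : ∃ a ∈ K'.S, ∃ z, φ a = .inl z
    · -- Z nonempty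
      obtain ⟨a0, ha0, z0, hz0⟩ := hZ
      have hchoice := choose_copies T2 (fun q => (DQ q).S)
        (fun q c => Real X (DQ q) c ∧ ∀ u ∈ (DQ q).S, Mvd G q0 (c u)) (by
          intro q hq Z
          by_cases hDe : (DQ q).S = ∅
          · obtain ⟨c, hc⟩ := wrich_of_empty (X := X) hDe Z
            refine ⟨c, ⟨hc.1, ?_⟩, hc.2⟩
            intro u hu
            rw [hDe] at hu
            simp at hu
          · -- there is a moved root
            let Dq : Finset ℕ := K'.S.filter fun a => ∃ u, φ a = .inr (q, u)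
            have hDqne : Dq.Nonempty := by
              obtain ⟨u, hu⟩ := Finset.nonempty_iff_ne_empty.mpr hDe
              obtain ⟨_, a, ha, h⟩ := Finset.mem_filter.mp hu
              exact ⟨a, Finset.mem_filter.mpr ⟨ha, u, h⟩⟩
            have hDqc : (K'.S \ Dq).Nonempty := by
              refine ⟨a0, Finset.mem_sdiff.mpr ⟨ha0, fun h => ?_⟩⟩
              obtain ⟨u, hu⟩ := (Finset.mem_filter.mp h).2
              rw [hz0] at hu
              cases hu
            obtain ⟨a, ha, b, hb, hab⟩ := conn_of_minNW hK' Dq (Finset.filter_subset _ _)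
              hDqne hDqc
            obtain ⟨ha', u, hu⟩ := Finset.mem_filter.mp ha
            obtain ⟨hb', hbD⟩ := Finset.mem_sdiff.mp hb
            have hadj := hadj' a ha' b hb' hab
            rcases eq_inl_or_inr (φ b) with ⟨z, hz⟩ | ⟨q', v, hq'⟩
            · rw [hu, hz, addG_rl] at hadj
              have hroot : (z, u) ∈ (DQ q).A := by
                refine Finset.mem_filter.mpr ⟨hadj.2, a, ha', hu, Or.inl ⟨b, hb', hz⟩⟩
              have hfc := C.FC (DQ q) ⟨_, hroot⟩ (orb_of_wrich C (hrich q hq)) Z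
              obtain ⟨c, hc1, hc2, hc3⟩ := hfc
              refine ⟨c, ⟨hc1, fun w hw => ?_⟩, hc2⟩
              obtain ⟨g, hg, hne⟩ := hzm b hb' z hz
              exact ⟨g, hg, fun h => hne (hc3 w hw g h _ hroot)⟩
            · exfalso
              rw [hu, hq', addG_rr] at hadj
              exact hbD (Finset.mem_filter.mpr ⟨hb', v, hadj.1 ▸ hq'⟩)) (vs φ F.n)
      obtain ⟨c, hc1, hc2⟩ := hchoice
      let γ : ℕ → V := fun a => match φ a with
        | .inl z => z
        | .inr q => c q.1 q.2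
      have hγl : ∀ a z, φ a = .inl z → γ a = z := by
        intro a z h
        show (match φ a with
        | .inl z => z
        | .inr q => c q.1 q.2) = z
        rw [h]
      have hγr : ∀ a q u, φ a = .inr (q, u) → γ a = c q u := by
        intro a q u h
        show (match φ a with
        | .inl z => z
        | .inr q => c q.1 q.2) = c q u
        rw [h]
      have hreal : Real X K' γ := by
        refine ⟨?_, ?_, ?_⟩
        · intro a ha b hb hab
          have han := hPn a (hS' a ha)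
          have hbn := hPn b (hS' b hb)
          apply hφ.inj a han b hbn
          rcases eq_inl_or_inr (φ a) with ⟨x, hx⟩ | ⟨q, u, hq⟩ <;>
            rcases eq_inl_or_inr (φ b) with ⟨x', hx'⟩ | ⟨q', u', hq'⟩
          · rw [hγl a x hx, hγl b x' hx'] at hab
            rw [hx, hx', hab]
          · exfalso
            rw [hγl a x hx, hγr b q' u' hq'] at hab
            apply (hc1 q' (hqT2 b hb q' u' hq')).2 u' (hDS b hb q' u' hq')
            rw [← hab]
            exact mem_vs.mpr ⟨a, han, hx⟩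
          · exfalso
            rw [hγr a q u hq, hγl b x' hx'] at hab
            apply (hc1 q (hqT2 a ha q u hq)).2 u (hDS a ha q u hq)
            rw [hab]
            exact mem_vs.mpr ⟨b, hbn, hx'⟩
          · rw [hγr a q u hq, hγr b q' u' hq'] at hab
            by_cases hqq : q = q'
            · subst hqq
              have := (hc1 q (hqT2 a ha q u hq)).1.1.inj u (hDS a ha q u hq) u'
                (hDS b hb q u' hq') hab
              rw [hq, hq', this]
            · exact absurd hab (hc2 q (hqT2 a ha q u hq) q' (hqT2 b hb q' u' hq') hqq u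
                (hDS a ha q u hq) u' (hDS b hb q' u' hq'))
        · intro a ha b hb hab
          have hadj := hadj' a ha b hb hab
          rcases eq_inl_or_inr (φ a) with ⟨x, hx⟩ | ⟨q, u, hq⟩ <;>
            rcases eq_inl_or_inr (φ b) with ⟨x', hx'⟩ | ⟨q', u', hq'⟩
          · rw [hγl a x hx, hγl b x' hx']
            rw [hx, hx', addG_ll] at hadj
            exact hadj
          · rw [hγl a x hx, hγr b q' u' hq']
            rw [hx, hq', addG_lr] at hadj
            exact (hc1 q' (hqT2 b hb q' u' hq')).1.1.att (x, u')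
              (Finset.mem_filter.mpr ⟨hadj.2, b, hb, hq', Or.inl ⟨a, ha, hx⟩⟩)
          · rw [hγr a q u hq, hγl b x' hx']
            rw [hq, hx', addG_rl] at hadj
            exact ((hc1 q (hqT2 a ha q u hq)).1.1.att (x', u)
              (Finset.mem_filter.mpr ⟨hadj.2, a, ha, hq, Or.inl ⟨b, hb, hx'⟩⟩)).symm
          · rw [hγr a q u hq, hγr b q' u' hq']
            rw [hq, hq', addG_rr] at hadj
            obtain ⟨e, _, h3, h4, h5⟩ := hadj
            subst e
            exact (hc1 q (hqT2 a ha q u hq)).1.1.inn u (hDS a ha q u hq) u'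
              (hDS b hb q u' hq') h5
        · rintro ⟨x, a⟩ hxa
          have ha : a ∈ K'.S := K'.hA _ hxa
          obtain ⟨_, hnm, b, hb, hab, hbx⟩ := hKA x a (hsub.A hxa)
          have hadj := hφ.adj a (hPn a (hS' a ha)) b hb hab
          show X.Adj x (γ a)
          rcases eq_inl_or_inr (φ a) with ⟨z, hz⟩ | ⟨q, u, hq⟩
          · rw [hγl a z hz]
            rw [hz, hbx, addG_ll] at hadj
            exact hadj.symm
          · rw [hγr a q u hq]
            rw [hq, hbx, addG_rl] at hadj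
            exact (hc1 q (hqT2 a ha q u hq)).1.1.att (x, u)
              (Finset.mem_filter.mpr ⟨hadj.2, a, ha, hq, Or.inr hxa⟩)
      have hγm : ∀ a ∈ K'.S, Mvd G q0 (γ a) := by
        intro a ha
        rcases eq_inl_or_inr (φ a) with ⟨z, hz⟩ | ⟨q, u, hq⟩
        · rw [hγl a z hz]
          exact hzm a ha z hz
        · rw [hγr a q u hq]
          exact (hc1 q (hqT2 a ha q u hq)).1.2 u (hDS a ha q u hq)
      apply hK'.1
      intro Z
      obtain ⟨g, hg, hgZ⟩ := neumann hord (A := K'.S.image γ) (B := q0.A.image Prod.fst) (Z := Z)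
        (by
          intro y hy
          obtain ⟨a, ha, rfl⟩ := Finset.mem_image.mp hy
          obtain ⟨g, hg, hne⟩ := hγm a ha
          refine ⟨g, ?_, hne⟩
          intro b hb
          obtain ⟨s, hs, rfl⟩ := Finset.mem_image.mp hb
          exact hg s hs)
      refine ⟨fun a => g • γ a, ⟨?_, ?_, ?_⟩, ?_⟩
      · intro a ha b hb hab
        exact hreal.inj a ha b hb (MulAction.injective g hab)
      · intro a ha b hb hab
        exact C.hX g _ _ (hreal.inn a ha b hb hab)
      · rintro ⟨x, a⟩ hxa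
        have h1 := C.hX g _ _ (hreal.att _ hxa)
        have h2 : g • x = x := by
          by_contra hne
          exact (hKA x a (hsub.A hxa)).2.1
            ⟨g, fun s hs => hg _ (Finset.mem_image_of_mem _ hs), hne⟩
        rw [h2] at h1
        exact h1
      · intro a ha
        exact hgZ _ (Finset.mem_image_of_mem _ ha)
    · -- Z empty: K' lies in one piece
      push Not at hZ
      have hne : K'.S.Nonempty := by
        rw [Finset.nonempty_iff_ne_empty]
        intro he
        exact hK'.1 (wrich_of_empty he)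
      obtain ⟨a0, ha0⟩ := hne
      obtain ⟨q, u0, hq0'⟩ : ∃ q u, φ a0 = .inr (q, u) := by
        rcases eq_inl_or_inr (φ a0) with ⟨x, hx⟩ | h
        · exact absurd hx (hZ a0 ha0 x)
        · exact h
      have hall : ∀ a ∈ K'.S, ∃ u, φ a = .inr (q, u) := by
        let Dq : Finset ℕ := K'.S.filter fun a => ∃ u, φ a = .inr (q, u)
        by_contra hcon
        push Not at hcon
        obtain ⟨a1, ha1, hn1⟩ := hcon
        obtain ⟨a, ha, b, hb, hab⟩ := conn_of_minNW hK' Dq (Finset.filter_subset _ _)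
          ⟨a0, Finset.mem_filter.mpr ⟨ha0, u0, hq0'⟩⟩
          ⟨a1, Finset.mem_sdiff.mpr ⟨ha1, fun h => by
            obtain ⟨u, hu⟩ := (Finset.mem_filter.mp h).2
            exact hn1 u hu⟩⟩
        obtain ⟨ha', u, hu⟩ := Finset.mem_filter.mp ha
        obtain ⟨hb', hbD⟩ := Finset.mem_sdiff.mp hb
        have hadj := hadj' a ha' b hb' hab
        rcases eq_inl_or_inr (φ b) with ⟨z, hz⟩ | ⟨q', v, hq'⟩
        · exact hZ b hb' z hz
        · rw [hu, hq', addG_rr] at hadj
          exact hbD (Finset.mem_filter.mpr ⟨hb', v, hadj.1 ▸ hq'⟩)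
      have hqq := hqT2 a0 ha0 q u0 hq0'
      apply hK'.1
      intro Z
      obtain ⟨c, hc, hcZ⟩ := hrich q hqq Z
      refine ⟨fun a => c (lab (φ a)), ⟨?_, ?_, ?_⟩, ?_⟩
      · intro a ha b hb hab
        obtain ⟨u, hu⟩ := hall a ha
        obtain ⟨v, hv⟩ := hall b hb
        rw [hu, hv] at hab
        have := hc.inj u (hDS a ha q u hu) v (hDS b hb q v hv) hab
        apply hφ.inj a (hPn a (hS' a ha)) b (hPn b (hS' b hb))
        rw [hu, hv, this]
      · intro a ha b hb hab
        obtain ⟨u, hu⟩ := hall a ha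
        obtain ⟨v, hv⟩ := hall b hb
        have hadj := hadj' a ha b hb hab
        rw [hu, hv, addG_rr] at hadj
        simp only [hu, hv]
        exact hc.inn u (hDS a ha q u hu) v (hDS b hb q v hv) hadj.2.2.2.2
      · rintro ⟨x, a⟩ hxa
        have ha : a ∈ K'.S := K'.hA _ hxa
        obtain ⟨u, hu⟩ := hall a ha
        obtain ⟨_, hnm, b, hb, hab, hbx⟩ := hKA x a (hsub.A hxa)
        have hadj := hφ.adj a (hPn a (hS' a ha)) b hb hab
        rw [hu, hbx, addG_rl] at hadj
        simp only [hu]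
        exact hc.att (x, u) (Finset.mem_filter.mpr ⟨hadj.2, a, ha, hu, Or.inr hxa⟩)
      · intro a ha
        obtain ⟨u, hu⟩ := hall a ha
        simp only [hu]
        exact hcZ u (hDS a ha q u hu)

/-- A conflicting finite set of translates of minimal cardinality. -/
theorem exists_conflict (C : Ctx G X 𝓖 m) {p : Piece V} (hadd : Fre 𝓖 (addG X {p}))
    (hp : ¬ Wrich X p) : ∃ T : Finset (Piece V), (∀ q ∈ T, ∃ g : G, q = tr g p) ∧
      (∀ T' : Finset (Piece V), (∀ q ∈ T', ∃ g : G, q = tr g p) → T'.card < T.card →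
        Fre 𝓖 (addG X (T' : Set (Piece V)))) ∧
      ∃ F ∈ 𝓖, ∃ φ, IsCopy F (addG X (T : Set (Piece V))) φ := by
  classical
  have h1 : ¬ Fre 𝓖 (addG X (Orb G p)) := by
    intro h
    by_cases hA : p.A = ∅
    · exact hp (C.RC p hA hadd)
    · apply hp
      intro Z
      obtain ⟨c, h1, h2, _⟩ := C.FC p (Finset.nonempty_iff_ne_empty.mpr hA) h Z
      exact ⟨c, h1, h2⟩
  have h2 : ∃ n : ℕ, ∃ T : Finset (Piece V), T.card = n ∧ (∀ q ∈ T, ∃ g : G, q = tr g p) ∧
      ∃ F ∈ 𝓖, ∃ φ, IsCopy F (addG X (T : Set (Piece V))) φ := by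
    simp only [Fre, not_forall, not_not] at h1
    obtain ⟨F, hF, φ, hφ⟩ := h1
    let T : Finset (Piece V) := (Finset.range F.n).biUnion fun a => match φ a with
      | .inl _ => ∅
      | .inr q => {q.1}
    refine ⟨T.card, T, rfl, ?_, F, hF, φ, hφ.shrink ?_⟩
    · intro q hq
      obtain ⟨a, ha, h⟩ := Finset.mem_biUnion.mp hq
      match h1 : φ a with
      | .inl x => rw [h1] at h; simp at h
      | .inr (r, u) =>
        rw [h1] at h
        have : q = r := Finset.mem_singleton.mp h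
        subst this
        exact (mem_of_inr (C.iso F hF) hφ (Finset.mem_range.mp ha) h1).1
    · intro a ha q u hq
      refine Finset.mem_coe.mpr (Finset.mem_biUnion.mpr ⟨a, Finset.mem_range.mpr ha, ?_⟩)
      rw [hq]
      exact Finset.mem_singleton_self q
  obtain ⟨T, hTn, hT, hc⟩ := Nat.find_spec h2
  refine ⟨T, hT, ?_, hc⟩
  intro T' hT' hlt F hF φ hφ
  rw [hTn] at hlt
  exact Nat.find_min h2 hlt ⟨T', rfl, hT', F, hF, φ, hφ⟩

/-- Every piece of a minimal conflict is used fully. -/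
theorem used_full (C : Ctx G X 𝓖 m) {p : Piece V} (hmin : MinNW X p)
    {T : Finset (Piece V)} (hT : ∀ q ∈ T, ∃ g : G, q = tr g p)
    (hTmin : ∀ T' : Finset (Piece V), (∀ q ∈ T', ∃ g : G, q = tr g p) → T'.card < T.card →
      Fre 𝓖 (addG X (T' : Set (Piece V))))
    {F : FG} (hF : F ∈ 𝓖) {φ : ℕ → V ⊕ (Piece V × ℕ)}
    (hφ : IsCopy F (addG X (T : Set (Piece V))) φ) {q : Piece V} (hq : q ∈ T) :
    used F φ q = q := by
  classical
  by_contra hne
  obtain ⟨g, hqg⟩ := hT q hq
  have hmq : MinNW X q := hqg ▸ minNW_tr C.hX hmin g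
  have hsub : Sub (used F φ q) q := ⟨rfl, Finset.filter_subset _ _, Finset.filter_subset _ _⟩
  have hw := hmq.2 _ hsub hne
  refine hφ.remove hF (C.iso F hF) hw ?_
  have h := hTmin (T.erase q) (fun r hr => hT r (Finset.mem_of_mem_erase hr))
    (Finset.card_erase_lt_of_mem hq)
  rwa [Finset.coe_erase] at h

theorem card_le_of_minNW (C : Ctx G X 𝓖 m) {p : Piece V} (hadd : Fre 𝓖 (addG X {p}))
    (hmin : MinNW X p) : p.S.card ≤ m := by
  classical
  obtain ⟨T, hT, hTmin, F, hF, φ, hφ⟩ := exists_conflict (G := G) C hadd hmin.1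
  have hTne : T.Nonempty := by
    rw [Finset.nonempty_iff_ne_empty]
    rintro rfl
    have h0 : (((∅ : Finset (Piece V)) : Set (Piece V))) = ∅ := Finset.coe_empty
    rw [h0] at hφ
    refine hadd F hF φ (hφ.shrink ?_)
    intro a ha q u hq
    exact absurd (mem_of_inr (C.iso F hF) hφ ha hq).1 (Set.notMem_empty q)
  obtain ⟨q, hq⟩ := hTne
  obtain ⟨g, hqg⟩ := hT q hq
  have hfull := used_full (G := G) C hmin hT hTmin hF hφ hq
  have h1 : q.S ⊆ (Finset.range F.n).image fun a => lab (φ a) := by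
    intro u hu
    rw [← hfull] at hu
    obtain ⟨_, a, ha, h⟩ := Finset.mem_filter.mp hu
    refine Finset.mem_image.mpr ⟨a, Finset.mem_range.mpr ha, ?_⟩
    rw [h]
    rfl
  have h2 : q.S = p.S := by rw [hqg]; rfl
  calc p.S.card = q.S.card := by rw [h2]
    _ ≤ _ := Finset.card_le_card h1
    _ ≤ _ := Finset.card_image_le
    _ = F.n := Finset.card_range _
    _ ≤ m := C.bd F hF

/-- **No pending pieces.**  Every addable piece is rich. -/
theorem no_pending (C : Ctx G X 𝓖 m) (p₀ : Piece V) (hadd₀ : Fre 𝓖 (addG X {p₀})) :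
    Wrich X p₀ := by
  classical
  by_contra hw
  obtain ⟨p₁, hs₁, hp₁⟩ := exists_minNW p₀ hw
  have hadd₁ := addable_sub C.iso hs₁ hadd₀
  let Pk : ℕ → Prop := fun k => ∃ p : Piece V, Fre 𝓖 (addG X {p}) ∧ MinNW X p ∧ p.S.card = k
  have hPk1 : Pk p₁.S.card := ⟨p₁, hadd₁, hp₁, rfl⟩
  obtain ⟨p, hadd, hmin, hcard⟩ := Nat.findGreatest_spec (P := Pk)
    (card_le_of_minNW (G := G) C hadd₁ hp₁) hPk1
  have hmax : ∀ p', Fre 𝓖 (addG X {p'}) → MinNW X p' → p'.S.card ≤ p.S.card := by
    intro p' h1 h2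
    rw [hcard]
    exact Nat.le_findGreatest (card_le_of_minNW (G := G) C h1 h2) ⟨p', h1, h2, rfl⟩
  obtain ⟨T, hT, hTmin, F, hF, φ, hφ⟩ := exists_conflict (G := G) C hadd hmin.1
  -- at least two translates
  have h2 : 1 < T.card := by
    by_contra hle
    have hT1 : ∀ q ∈ T, ∀ r ∈ T, q = r := Finset.card_le_one.mp (not_lt.mp hle)
    rcases T.eq_empty_or_nonempty with rfl | ⟨q, hq⟩
    · have h0 : (((∅ : Finset (Piece V)) : Set (Piece V))) = ∅ := Finset.coe_empty
      rw [h0] at hφ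
      refine hadd F hF φ (hφ.shrink ?_)
      intro a ha q u hq
      exact absurd (mem_of_inr (C.iso F hF) hφ ha hq).1 (Set.notMem_empty q)
    · obtain ⟨g, hqg⟩ := hT q hq
      have := addable_tr C.hX hadd g
      refine this F hF φ (hφ.shrink ?_)
      intro a ha r u hr
      have h3 := (mem_of_inr (C.iso F hF) hφ ha hr).1
      have h4 := hT1 q hq r (Finset.mem_coe.mp h3)
      rw [Set.mem_singleton_iff, ← h4, hqg]
  obtain ⟨q, hq, q', hq', hne⟩ := Finset.one_lt_card.mp h2
  obtain ⟨g1, hg1⟩ := hT q hq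
  obtain ⟨g2, hg2⟩ := hT q' hq'
  apply hne
  have hq'q : q' = tr (g2 * g1⁻¹) q := by
    rw [hg1, ← tr_mul, mul_assoc, inv_mul_cancel, mul_one, hg2]
  set g := g2 * g1⁻¹ with hgdef
  have c1 := core (G := G) C hmin hmax T hT hTmin hF hφ hq q' hq'
  have c2 := core (G := G) C hmin hmax T hT hTmin hF hφ hq' q hq
  have d1 : ∀ h : G, (∀ s ∈ q.A, h • s.1 = s.1) → ∀ r ∈ q'.A, h • r.1 = r.1 := by
    intro h hh r hr
    by_contra hcon
    exact c1 r hr ⟨h, hh, hcon⟩
  have d2 : ∀ h : G, (∀ s ∈ q'.A, h • s.1 = s.1) → ∀ r ∈ q.A, h • r.1 = r.1 := by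
    intro h hh r hr
    by_contra hcon
    exact c2 r hr ⟨h, hh, hcon⟩
  have hfix : Fixes g (q.A.image Prod.fst) := by
    apply C.SN
    intro h
    have e1 : ∀ k : G, Fixes k (q.A.image Prod.fst) ↔ ∀ s ∈ q.A, k • s.1 = s.1 := by
      intro k
      constructor
      · intro hk s hs
        exact hk _ (Finset.mem_image_of_mem _ hs)
      · intro hk b hb
        obtain ⟨s, hs, rfl⟩ := Finset.mem_image.mp hb
        exact hk s hs
    have e2 : ∀ k : G, (∀ s ∈ q'.A, k • s.1 = s.1) ↔ ∀ s ∈ q.A, (g⁻¹ * k * g) • s.1 = s.1 := by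
      intro k
      constructor
      · rintro hk ⟨x, u⟩ hs
        have h3 : (g • x, u) ∈ q'.A := by
          rw [hq'q]
          exact smul_mem_tr_A hs
        have h4 : k • (g • x) = g • x := hk _ h3
        show (g⁻¹ * k * g) • x = x
        rw [mul_smul, mul_smul, h4, inv_smul_smul]
      · rintro hk ⟨x, u⟩ hs
        rw [hq'q] at hs
        obtain ⟨y, hy, rfl⟩ := mem_tr_A.mp hs
        have h4 : (g⁻¹ * k * g) • y = y := hk _ hy
        rw [mul_smul, mul_smul, inv_smul_eq_iff] at h4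
        exact h4
    rw [e1, e1]
    constructor
    · intro hh
      apply d2
      rw [e2]
      intro s hs
      have : g⁻¹ * (g * h * g⁻¹) * g = h := by group
      rw [this]
      exact hh s hs
    · intro hh
      have h3 := d1 _ hh
      rw [e2] at h3
      intro s hs
      have h4 := h3 s hs
      have : g⁻¹ * (g * h * g⁻¹) * g = h := by group
      rwa [this] at h4
  rw [hq'q]
  exact (tr_eq_self fun s hs => hfix _ (Finset.mem_image_of_mem _ hs)).symm

end MPec220fX
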