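import Mathlib

/-!
B. H. Neumann's separation lemma for group actions.
-/

namespace MPec220fX

open Finset Function

open scoped Pointwise

variable {G V : Type*} [Group G] [MulAction G V]

/-- `g` fixes every element of `B`. -/
def Fixes (g : G) (B : Finset V) : Prop := ∀ b ∈ B, g • b = b

theorem Fixes.mul {g h : G} {B : Finset V} (hg : Fixes g B) (hh : Fixes h B) :
    Fixes (g * h) B := fun b hb => by rw [mul_smul, hh b hb, hg b hb]

theorem Fixes.inv {g : G} {B : Finset V} (hg : Fixes g B) : Fixes g⁻¹ B := fun b hb => by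
  rw [inv_smul_eq_iff, hg b hb]

theorem Fixes.mono {g : G} {A B : Finset V} (hg : Fixes g B) (h : A ⊆ B) : Fixes g A :=
  fun b hb => hg b (h hb)

theorem Fixes.one (B : Finset V) : Fixes (1 : G) B := fun b _ => one_smul G b

/-- **Neumann's lemma.**  If all points of the finite set `A` have infinite orbits, then
`A` can be moved off any finite set `Z`. -/
theorem neumann_infinite {A Z : Finset V} (hA : ∀ a ∈ A, (MulAction.orbit G a).Infinite) :
    ∃ g : G, ∀ a ∈ A, g • a ∉ Z := by
  classical
  by_contra hcon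
  push Not at hcon
  let s : Finset (V × V) := (A ×ˢ Z).filter (fun p => ∃ g : G, g • p.1 = p.2)
  let H : V × V → Subgroup G := fun p => MulAction.stabilizer G p.1
  let t : V × V → G := fun p => if h : ∃ g : G, g • p.1 = p.2 then h.choose else 1
  have hcov : ⋃ i ∈ s, t i • (H i : Set G) = Set.univ := by
    ext g
    simp only [Set.mem_iUnion, Set.mem_univ, iff_true]
    obtain ⟨a, ha, hz⟩ := hcon g
    refine ⟨(a, g • a), Finset.mem_filter.mpr ⟨Finset.mem_product.mpr ⟨ha, hz⟩, ⟨g, rfl⟩⟩, ?_⟩
    have hex : ∃ g' : G, g' • (a, g • a).1 = (a, g • a).2 := ⟨g, rfl⟩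
    have ht : t (a, g • a) • a = g • a := by
      show (if h : ∃ g' : G, g' • (a, g • a).1 = (a, g • a).2 then h.choose else 1) • a = g • a
      rw [dif_pos hex]
      exact hex.choose_spec
    rw [Set.mem_smul_set_iff_inv_smul_mem]
    show (t (a, g • a))⁻¹ * g ∈ MulAction.stabilizer G a
    rw [MulAction.mem_stabilizer_iff, mul_smul, inv_smul_eq_iff, ht]
  obtain ⟨p, hp, hfi⟩ := Subgroup.exists_finiteIndex_of_leftCoset_cover hcov
  have hp1 : p.1 ∈ A := (Finset.mem_product.mp (Finset.mem_filter.mp hp).1).1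
  apply hA p.1 hp1
  have : (MulAction.stabilizer G p.1).FiniteIndex := hfi
  have : Finite (G ⧸ MulAction.stabilizer G p.1) := Subgroup.finite_quotient_of_finiteIndex
  exact (MulAction.orbitEquivQuotientStabilizer G p.1).finite_iff.mpr inferInstance

/-- Neumann's lemma for an order-like action: if no point of `A` is fixed by the pointwise
stabiliser of `B`, then some element fixing `B` pointwise moves `A` off `Z`. -/
theorem neumann (hord : ∀ (A : Finset V) (g : G), (∀ a ∈ A, g • a ∈ A) → Fixes g A)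
    {A B Z : Finset V} (hA : ∀ a ∈ A, ∃ g : G, Fixes g B ∧ g • a ≠ a) :
    ∃ g : G, Fixes g B ∧ ∀ a ∈ A, g • a ∉ Z := by
  classical
  have key : ∃ g : fixingSubgroup G (B : Set V), ∀ a ∈ A, g • a ∉ Z := by
    apply neumann_infinite
    intro a ha hfin
    obtain ⟨g, hg, hne⟩ := hA a ha
    apply hne
    have h1 : ∀ b ∈ hfin.toFinset, g • b ∈ hfin.toFinset := by
      intro b hb
      rw [Set.Finite.mem_toFinset] at hb ⊢
      obtain ⟨h, rfl⟩ := hb
      have hg' : g ∈ fixingSubgroup G (B : Set V) :=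
        (mem_fixingSubgroup_iff G).mpr fun y hy => hg y (by simpa using hy)
      exact ⟨⟨g, hg'⟩ * h, mul_smul (⟨g, hg'⟩ : fixingSubgroup G (B : Set V)) h a⟩
    exact hord _ g h1 a ((Set.Finite.mem_toFinset _).mpr (MulAction.mem_orbit_self a))
  obtain ⟨g, hg⟩ := key
  refine ⟨g.1, fun b hb => (mem_fixingSubgroup_iff G).mp g.2 b (by simpa using hb), hg⟩

end MPec220fX
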