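import Pool.Agent.Lib_MP_ec220f_lc.EquiNeumann

/-!
Finite pieces attached to a graph, copies of finite graphs, replacement of attached pieces.
-/

namespace MPec220fX

open Finset Function

/-- Adjacency of labels given by a finite set of pairs. -/
def eAdj (C : Finset (ℕ × ℕ)) (u v : ℕ) : Prop := u ≠ v ∧ ((u, v) ∈ C ∨ (v, u) ∈ C)

theorem eAdj.symm {C : Finset (ℕ × ℕ)} {u v : ℕ} (h : eAdj C u v) : eAdj C v u :=
  ⟨h.1.symm, h.2.symm⟩

/-- A finite graph with the vertices `0, …, n-1`. -/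
structure FG where
  /-- number of vertices -/
  n : ℕ
  /-- edges -/
  E : Finset (ℕ × ℕ)

/-- `φ` is a copy of `F` in `H` (not necessarily induced). -/
structure IsCopy {U : Type*} (F : FG) (H : SimpleGraph U) (φ : ℕ → U) : Prop where
  inj : ∀ a < F.n, ∀ b < F.n, φ a = φ b → a = b
  adj : ∀ a < F.n, ∀ b < F.n, eAdj F.E a b → H.Adj (φ a) (φ b)

/-- `H` contains no copy of a member of the family. -/
def Fre (𝓖 : Set FG) {U : Type*} (H : SimpleGraph U) : Prop :=
  ∀ F ∈ 𝓖, ∀ φ : ℕ → U, ¬ IsCopy F H φ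

theorem IsCopy.map {U U' : Type*} {F : FG} {H : SimpleGraph U} {H' : SimpleGraph U'} {φ : ℕ → U}
    (h : IsCopy F H φ) (f : U → U')
    (hinj : ∀ a < F.n, ∀ b < F.n, f (φ a) = f (φ b) → φ a = φ b)
    (hadj : ∀ a < F.n, ∀ b < F.n, eAdj F.E a b → H.Adj (φ a) (φ b) → H'.Adj (f (φ a)) (f (φ b))) :
    IsCopy F H' (fun a => f (φ a)) :=
  ⟨fun a ha b hb hab => h.inj a ha b hb (hinj a ha b hb hab),
    fun a ha b hb hab => hadj a ha b hb hab (h.adj a ha b hb hab)⟩

/-- A piece over `V`: a finite graph on the labels `S` together with edges to `V`. -/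
@[ext] structure Piece (V : Type) where
  /-- labels of the new vertices -/
  S : Finset ℕ
  /-- edges between the new vertices -/
  C : Finset (ℕ × ℕ)
  /-- edges to `V` -/
  A : Finset (V × ℕ)
  hA : ∀ q ∈ A, q.2 ∈ S

variable {V : Type}

/-- The graph `X` together with one copy of every piece of `T`. -/
def addG (X : SimpleGraph V) (T : Set (Piece V)) : SimpleGraph (V ⊕ (Piece V × ℕ)) where
  Adj a b := match a, b with
    | .inl x, .inl y => X.Adj x y
    | .inl x, .inr q => q.1 ∈ T ∧ (x, q.2) ∈ q.1.A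
    | .inr q, .inl x => q.1 ∈ T ∧ (x, q.2) ∈ q.1.A
    | .inr q, .inr r => q.1 = r.1 ∧ q.1 ∈ T ∧ q.2 ∈ q.1.S ∧ r.2 ∈ q.1.S ∧ eAdj q.1.C q.2 r.2
  symm := ⟨by
    rintro (x | q) (y | r) h
    · exact SimpleGraph.Adj.symm h
    · exact h
    · exact h
    · obtain ⟨h1, h2, h3, h4, h5⟩ := h
      refine ⟨h1.symm, h1 ▸ h2, h1 ▸ h4, h1 ▸ h3, h1 ▸ h5.symm⟩⟩
  loopless := ⟨by
    rintro (x | q) h
    · exact X.irrefl h
    · exact h.2.2.2.2.1 rfl⟩

variable {X : SimpleGraph V} {T T' : Set (Piece V)}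

theorem addG_ll {x y : V} : (addG X T).Adj (.inl x) (.inl y) ↔ X.Adj x y := Iff.rfl

theorem addG_lr {x : V} {q : Piece V} {u : ℕ} :
    (addG X T).Adj (.inl x) (.inr (q, u)) ↔ q ∈ T ∧ (x, u) ∈ q.A := Iff.rfl

theorem addG_rl {x : V} {q : Piece V} {u : ℕ} :
    (addG X T).Adj (.inr (q, u)) (.inl x) ↔ q ∈ T ∧ (x, u) ∈ q.A := Iff.rfl

theorem addG_rr {q r : Piece V} {u v : ℕ} :
    (addG X T).Adj (.inr (q, u)) (.inr (r, v)) ↔
      q = r ∧ q ∈ T ∧ u ∈ q.S ∧ v ∈ q.S ∧ eAdj q.C u v := Iff.rfl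

/-- Every vertex of a member of the family has a neighbour. -/
def NoIso (𝓖 : Set FG) : Prop := ∀ F ∈ 𝓖, ∀ a < F.n, ∃ b < F.n, eAdj F.E a b

theorem mem_of_inr {F : FG} (hiso : ∀ a < F.n, ∃ b < F.n, eAdj F.E a b)
    {φ : ℕ → V ⊕ (Piece V × ℕ)} (h : IsCopy F (addG X T) φ) {a : ℕ} (ha : a < F.n)
    {q : Piece V} {u : ℕ} (hq : φ a = .inr (q, u)) : q ∈ T ∧ u ∈ q.S := by
  obtain ⟨b, hb, hab⟩ := hiso a ha
  have := h.adj a ha b hb hab
  rw [hq] at this
  match hφ : φ b with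
  | .inl x =>
    rw [hφ, addG_rl] at this
    exact ⟨this.1, q.hA _ this.2⟩
  | .inr (r, v) =>
    rw [hφ, addG_rr] at this
    exact ⟨this.2.1, this.2.2.1⟩

theorem IsCopy.shrink {F : FG} {φ : ℕ → V ⊕ (Piece V × ℕ)} (h : IsCopy F (addG X T) φ)
    (hT : ∀ a < F.n, ∀ q u, φ a = .inr (q, u) → q ∈ T') : IsCopy F (addG X T') φ := by
  refine ⟨h.inj, fun a ha b hb hab => ?_⟩
  have h1 := h.adj a ha b hb hab
  have ha' := hT a ha
  have hb' := hT b hb
  match hφ : φ a, hφ' : φ b with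
  | .inl x, .inl y => rw [hφ, hφ'] at h1; exact h1
  | .inl x, .inr (q, u) =>
    rw [hφ, hφ', addG_lr] at h1
    exact ⟨hb' _ _ hφ', h1.2⟩
  | .inr (q, u), .inl x =>
    rw [hφ, hφ', addG_rl] at h1
    exact ⟨ha' _ _ hφ, h1.2⟩
  | .inr (q, u), .inr (r, v) =>
    rw [hφ, hφ', addG_rr] at h1
    exact ⟨h1.1, ha' _ _ hφ, h1.2.2⟩

theorem Fre.mono {𝓖 : Set FG} (hiso : NoIso 𝓖) (h : Fre 𝓖 (addG X T')) (hT : T ⊆ T') :
    Fre 𝓖 (addG X T) := fun F hF φ hφ =>
  h F hF φ (hφ.shrink fun _ ha _ _ hq => hT (mem_of_inr (hiso F hF) hφ ha hq).1)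

/-- A realisation of the piece `p` in `X`. -/
structure Real (X : SimpleGraph V) (p : Piece V) (c : ℕ → V) : Prop where
  inj : ∀ u ∈ p.S, ∀ v ∈ p.S, c u = c v → u = v
  inn : ∀ u ∈ p.S, ∀ v ∈ p.S, eAdj p.C u v → X.Adj (c u) (c v)
  att : ∀ q ∈ p.A, X.Adj q.1 (c q.2)

/-- The piece has infinitely many disjoint realisations. -/
def Wrich (X : SimpleGraph V) (p : Piece V) : Prop :=
  ∀ Z : Finset V, ∃ c : ℕ → V, Real X p c ∧ ∀ u ∈ p.S, c u ∉ Z

/-- Replacement of a part of a copy. -/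
theorem IsCopy.rep {F : FG} {φ : ℕ → V ⊕ (Piece V × ℕ)} (h : IsCopy F (addG X T) φ)
    (P : Finset ℕ) [DecidablePred (· ∈ P)] (c : ℕ → V)
    (hinj : ∀ a ∈ P, ∀ b ∈ P, a < F.n → b < F.n → c a = c b → a = b)
    (hav : ∀ a ∈ P, ∀ b < F.n, b ∉ P → φ b ≠ .inl (c a))
    (hinn : ∀ a ∈ P, ∀ b ∈ P, a < F.n → b < F.n → eAdj F.E a b → X.Adj (c a) (c b))
    (hout : ∀ a ∈ P, ∀ b, b ∉ P → a < F.n → b < F.n → eAdj F.E a b →
      ∃ r, φ b = .inl r ∧ X.Adj r (c a)) :
    IsCopy F (addG X T) (fun a => if a ∈ P then .inl (c a) else φ a) := by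
  refine ⟨fun a ha b hb hab => ?_, fun a ha b hb hab => ?_⟩
  · by_cases h1 : a ∈ P <;> by_cases h2 : b ∈ P
    · simp only [if_pos h1, if_pos h2] at hab
      exact hinj a h1 b h2 ha hb (Sum.inl.inj hab)
    · simp only [if_pos h1, if_neg h2] at hab
      exact absurd hab.symm (hav a h1 b hb h2)
    · simp only [if_neg h1, if_pos h2] at hab
      exact absurd hab (hav b h2 a ha h1)
    · simp only [if_neg h1, if_neg h2] at hab
      exact h.inj a ha b hb hab
  · by_cases h1 : a ∈ P <;> by_cases h2 : b ∈ P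
    · simp only [if_pos h1, if_pos h2]
      exact hinn a h1 b h2 ha hb hab
    · simp only [if_pos h1, if_neg h2]
      obtain ⟨r, hr, hadj⟩ := hout a h1 b h2 ha hb hab
      rw [hr]
      exact hadj.symm
    · simp only [if_neg h1, if_pos h2]
      obtain ⟨r, hr, hadj⟩ := hout b h2 a h1 hb ha hab.symm
      rw [hr]
      exact hadj
    · simp only [if_neg h1, if_neg h2]
      exact h.adj a ha b hb hab

open Classical in
/-- The vertices of `X` used by a copy. -/
noncomputable def vs (φ : ℕ → V ⊕ (Piece V × ℕ)) (n : ℕ) : Finset V :=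
  (Finset.range n).biUnion fun a => match φ a with
    | .inl x => {x}
    | .inr _ => ∅

theorem mem_vs {φ : ℕ → V ⊕ (Piece V × ℕ)} {n : ℕ} {x : V} :
    x ∈ vs φ n ↔ ∃ a < n, φ a = .inl x := by
  classical
  simp only [vs, Finset.mem_biUnion, Finset.mem_range]
  constructor
  · rintro ⟨a, ha, h⟩
    refine ⟨a, ha, ?_⟩
    match hφ : φ a with
    | .inl y =>
      rw [hφ] at h
      rw [Finset.mem_singleton.mp h]
    | .inr q =>
      rw [hφ] at h
      simp at h
  · rintro ⟨a, ha, h⟩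
    refine ⟨a, ha, ?_⟩
    rw [h]
    exact Finset.mem_singleton_self x

/-- The label of a new vertex. -/
def lab : V ⊕ (Piece V × ℕ) → ℕ
  | .inl _ => 0
  | .inr q => q.2

open Classical in
/-- The part of the piece `q` used by a copy. -/
noncomputable def used (F : FG) (φ : ℕ → V ⊕ (Piece V × ℕ)) (q : Piece V) : Piece V where
  S := q.S.filter fun u => ∃ a < F.n, φ a = .inr (q, u)
  C := q.C
  A := q.A.filter fun r => ∃ a < F.n, ∃ b < F.n, eAdj F.E a b ∧ φ a = .inr (q, r.2) ∧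
    φ b = .inl r.1
  hA := by
    intro r hr
    rw [Finset.mem_filter] at hr ⊢
    obtain ⟨h1, a, ha, b, hb, hab, h2, h3⟩ := hr
    exact ⟨q.hA _ h1, a, ha, h2⟩

/-- If the used part of `q` is rich, then `q` is not needed. -/
theorem IsCopy.remove {𝓖 : Set FG} {F : FG} (hF : F ∈ 𝓖)
    {φ : ℕ → V ⊕ (Piece V × ℕ)} (h : IsCopy F (addG X T) φ) {q : Piece V}
    (hiso : ∀ a < F.n, ∃ b < F.n, eAdj F.E a b)
    (hq : Wrich X (used F φ q)) : ¬ Fre 𝓖 (addG X (T \ {q})) := by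
  classical
  obtain ⟨c, hc, hcZ⟩ := hq (vs φ F.n)
  have hmemS : ∀ a, a < F.n → ∀ u, φ a = .inr (q, u) → u ∈ (used F φ q).S := by
    intro a ha u hu
    exact Finset.mem_filter.mpr ⟨(mem_of_inr hiso h ha hu).2, a, ha, hu⟩
  let P : Finset ℕ := (Finset.range F.n).filter fun a => ∃ u, φ a = .inr (q, u)
  have hP : ∀ a ∈ P, ∃ u, φ a = .inr (q, u) := fun a ha => (Finset.mem_filter.mp ha).2
  have hnP : ∀ a < F.n, a ∉ P → ∀ u, φ a ≠ .inr (q, u) := fun a ha hP u hu =>
    hP (Finset.mem_filter.mpr ⟨Finset.mem_range.mpr ha, u, hu⟩)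
  have key := h.rep P (fun a => c (lab (φ a))) ?_ ?_ ?_ ?_
  · intro hfre
    refine hfre F hF _ (key.shrink ?_)
    intro a ha r u hr
    by_cases h1 : a ∈ P
    · rw [if_pos h1] at hr
      cases hr
    · rw [if_neg h1] at hr
      refine ⟨(mem_of_inr hiso h ha hr).1, ?_⟩
      intro hrq
      rw [Set.mem_singleton_iff] at hrq
      exact hnP a ha h1 u (hrq ▸ hr)
  · intro a ha b hb ha' hb' hab
    obtain ⟨u, hu⟩ := hP a ha
    obtain ⟨v, hv⟩ := hP b hb
    rw [hu, hv] at hab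
    have : u = v := hc.inj u (hmemS a ha' u hu) v (hmemS b hb' v hv) hab
    subst this
    exact h.inj a ha' b hb' (hu.trans hv.symm)
  · intro a ha b hb hbP heq
    obtain ⟨u, hu⟩ := hP a ha
    rw [hu] at heq
    have ha' : a < F.n := Finset.mem_range.mp (Finset.mem_filter.mp ha).1
    exact hcZ u (hmemS a ha' u hu) (mem_vs.mpr ⟨b, hb, heq⟩)
  · intro a ha b hb ha' hb' hab
    obtain ⟨u, hu⟩ := hP a ha
    obtain ⟨v, hv⟩ := hP b hb
    have h1 := h.adj a ha' b hb' hab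
    rw [hu, hv, addG_rr] at h1
    simp only [hu, hv]
    exact hc.inn u (hmemS a ha' u hu) v (hmemS b hb' v hv) h1.2.2.2.2
  · intro a ha b hb ha' hb' hab
    obtain ⟨u, hu⟩ := hP a ha
    have h1 := h.adj a ha' b hb' hab
    match hφ : φ b with
    | .inl r =>
      rw [hu, hφ, addG_rl] at h1
      refine ⟨r, rfl, ?_⟩
      simp only [hu]
      exact hc.att (r, u) (Finset.mem_filter.mpr ⟨h1.2, a, ha', b, hb', hab, hu, hφ⟩)
    | .inr (q', v) =>
      rw [hu, hφ, addG_rr] at h1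
      exfalso
      exact hnP b hb' hb v (h1.1 ▸ hφ)

/-- Subpieces: fewer vertices and fewer attaching edges. -/
structure Sub (p' p : Piece V) : Prop where
  C : p'.C = p.C
  S : p'.S ⊆ p.S
  A : p'.A ⊆ p.A

theorem Sub.refl (p : Piece V) : Sub p p := ⟨rfl, subset_rfl, subset_rfl⟩

theorem Sub.trans {p q r : Piece V} (h : Sub p q) (h' : Sub q r) : Sub p r :=
  ⟨h.C.trans h'.C, h.S.trans h'.S, h.A.trans h'.A⟩

/-- Minimal among the pieces that are not rich. -/
def MinNW (X : SimpleGraph V) (p : Piece V) : Prop :=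
  ¬ Wrich X p ∧ ∀ p', Sub p' p → p' ≠ p → Wrich X p'

theorem exists_minNW (p : Piece V) (hp : ¬ Wrich X p) : ∃ p', Sub p' p ∧ MinNW X p' := by
  induction hn : p.S.card + p.A.card using Nat.strong_induction_on generalizing p with
  | _ n ih =>
    by_cases h : ∃ p', Sub p' p ∧ p' ≠ p ∧ ¬ Wrich X p'
    · obtain ⟨p', hs, hne, hw⟩ := h
      have hlt : p'.S.card + p'.A.card < n := by
        rw [← hn]
        have h1 := Finset.card_le_card hs.S
        have h2 := Finset.card_le_card hs.A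
        by_contra hcon
        have e1 := Finset.eq_of_subset_of_card_le hs.S (by omega)
        have e2 := Finset.eq_of_subset_of_card_le hs.A (by omega)
        exact hne (Piece.ext e1 hs.C e2)
      obtain ⟨p'', h1, h2⟩ := ih _ hlt p' hw rfl
      exact ⟨p'', h1.trans hs, h2⟩
    · push Not at h
      exact ⟨p, Sub.refl p, hp, fun p' h1 h2 => h p' h1 h2⟩

theorem wrich_of_empty {p : Piece V} (hp : p.S = ∅) [Nonempty V] : Wrich X p := by
  intro Z
  have hA : ∀ q ∈ p.A, False := by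
    intro q hq
    have := p.hA q hq
    rw [hp] at this
    simp at this
  refine ⟨fun _ => Classical.arbitrary V, ⟨?_, ?_, fun q hq => (hA q hq).elim⟩, ?_⟩
  all_goals
    intro u hu
    rw [hp] at hu
    simp at hu

theorem addable_sub {𝓖 : Set FG} (hiso : NoIso 𝓖) {p' p : Piece V} (hs : Sub p' p)
    (h : Fre 𝓖 (addG X {p})) : Fre 𝓖 (addG X {p'}) := by
  intro F hF φ hφ
  let f : V ⊕ (Piece V × ℕ) → V ⊕ (Piece V × ℕ) := fun a => match a with
    | .inl x => .inl x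
    | .inr q => .inr (p, q.2)
  have hm : ∀ a < F.n, ∀ q u, φ a = .inr (q, u) → q = p' := fun a ha q u hq =>
    Set.mem_singleton_iff.mp (mem_of_inr (hiso F hF) hφ ha hq).1
  refine h F hF _ (hφ.map f ?_ ?_)
  · intro a ha b hb hab
    match h1 : φ a, h2 : φ b with
    | .inl x, .inl y =>
      rw [h1, h2] at hab
      exact congrArg Sum.inl (Sum.inl.inj hab)
    | .inl x, .inr (q, u) => rw [h1, h2] at hab; cases hab
    | .inr (q, u), .inl x => rw [h1, h2] at hab; cases hab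
    | .inr (q, u), .inr (r, v) =>
      rw [h1, h2] at hab
      have h3 := hm a ha _ _ h1
      have h4 := hm b hb _ _ h2
      have : u = v := congrArg Prod.snd (Sum.inr.inj hab)
      rw [h3, h4, this]
  · intro a ha b hb hab hadj
    match h1 : φ a, h2 : φ b with
    | .inl x, .inl y => rw [h1, h2] at hadj; exact hadj
    | .inl x, .inr (q, u) =>
      rw [h1, h2, addG_lr] at hadj
      have h4 := hm b hb _ _ h2
      subst h4
      exact ⟨rfl, hs.A hadj.2⟩
    | .inr (q, u), .inl x =>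
      rw [h1, h2, addG_rl] at hadj
      have h4 := hm a ha _ _ h1
      subst h4
      exact ⟨rfl, hs.A hadj.2⟩
    | .inr (q, u), .inr (r, v) =>
      rw [h1, h2, addG_rr] at hadj
      have h4 := hm a ha _ _ h1
      subst h4
      refine ⟨rfl, rfl, hs.S hadj.2.2.1, hs.S hadj.2.2.2.1, ?_⟩
      show eAdj p.C u v
      rw [← hs.C]
      exact hadj.2.2.2.2

end MPec220fX
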