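import Pool.Agent.Lib_MP_ec220f_lc.EquiNP

/-!
The term model: vertices are terms built from the base set by attaching finite pieces.
-/

namespace MPec220fX

open Finset Function

/-- The data of a node. -/
@[ext] structure Dat where
  /-- labels -/
  S : Finset ℕ
  /-- inner edges -/
  C : Finset (ℕ × ℕ)
  /-- attaching edges (index of the root, label) -/
  A : Finset (ℕ × ℕ)
  /-- number of the copy -/
  i : ℕ

/-- Terms over `W`. -/
inductive Tm (W : Type) : Type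
  | base : W → Tm W
  | node : (k : ℕ) → (Fin (k + 1) → Tm W) → Dat → ℕ → Tm W

/-- Nodes: a nonempty finite family of roots, and the data. -/
@[ext] structure Nd (W : Type) where
  /-- number of roots minus one -/
  k : ℕ
  /-- the roots -/
  r : Fin (k + 1) → Tm W
  /-- the data -/
  d : Dat

variable {W : Type}

/-- The vertex of a node with the label `u`. -/
def Nd.vtx (π : Nd W) (u : ℕ) : Tm W := Tm.node π.k π.r π.d u

theorem vtx_inj {π π' : Nd W} {u u' : ℕ} (h : π.vtx u = π'.vtx u') : π = π' ∧ u = u' := by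
  obtain ⟨k, r, d⟩ := π
  obtain ⟨k', r', d'⟩ := π'
  simp only [Nd.vtx, Tm.node.injEq] at h
  obtain ⟨h1, h2, h3, h4⟩ := h
  subst h1
  have := eq_of_heq h2
  subst this
  subst h3
  exact ⟨rfl, h4⟩

theorem vtx_ne_base {π : Nd W} {u : ℕ} {w : W} : π.vtx u ≠ Tm.base w := by
  intro h
  cases h

namespace Tm

/-- height of a term -/
def ht : Tm W → ℕ
  | base _ => 0
  | node _ r _ _ => (Finset.univ.sup fun j => (r j).ht) + 1

theorem ht_root (π : Nd W) (j : Fin (π.k + 1)) (u : ℕ) : (π.r j).ht < (π.vtx u).ht := by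
  show (π.r j).ht < (Finset.univ.sup fun j => (π.r j).ht) + 1
  have : (π.r j).ht ≤ Finset.univ.sup fun j => (π.r j).ht :=
    Finset.le_sup (f := fun j => (π.r j).ht) (Finset.mem_univ j)
  omega

open Classical in
/-- the finite support in `W` -/
noncomputable def supp : Tm W → Finset W
  | base w => {w}
  | node _ r _ _ => Finset.univ.biUnion fun j => (r j).supp

theorem mem_supp_base {v w : W} : v ∈ (base w).supp ↔ v = w := by
  rw [supp, Finset.mem_singleton]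

theorem mem_supp_node {k : ℕ} {r : Fin (k + 1) → Tm W} {d : Dat} {u : ℕ} {w : W} :
    w ∈ (node k r d u).supp ↔ ∃ j, w ∈ (r j).supp := by
  classical
  rw [supp, Finset.mem_biUnion]
  simp

theorem supp_nonempty : ∀ t : Tm W, t.supp.Nonempty
  | base w => ⟨w, mem_supp_base.mpr rfl⟩
  | node k r d u => by
    obtain ⟨w, hw⟩ := supp_nonempty (r 0)
    exact ⟨w, mem_supp_node.mpr ⟨0, hw⟩⟩

variable {G : Type*} [Group G] [MulAction G W]

/-- the action on terms -/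
def act (g : G) : Tm W → Tm W
  | base w => base (g • w)
  | node k r d u => node k (fun j => act g (r j)) d u

theorem act_one : ∀ t : Tm W, act (1 : G) t = t
  | base w => by rw [act, one_smul]
  | node k r d u => by
    rw [act]
    congr 1
    funext j
    exact act_one (r j)

theorem act_mul (g h : G) : ∀ t : Tm W, act (g * h) t = act g (act h t)
  | base w => by rw [act, act, act, mul_smul]
  | node k r d u => by
    rw [act, act, act]
    congr 1
    funext j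
    exact act_mul g h (r j)

instance : MulAction G (Tm W) where
  smul g t := act g t
  one_smul := act_one
  mul_smul := act_mul

theorem smul_base (g : G) (w : W) : g • (base w : Tm W) = base (g • w) := rfl

theorem smul_eq_iff (g : G) : ∀ t : Tm W, g • t = t ↔ Fixes g t.supp
  | base w => by
    rw [smul_base]
    constructor
    · intro h b hb
      rw [mem_supp_base.mp hb]
      exact Tm.base.inj h
    · intro h
      rw [h w (mem_supp_base.mpr rfl)]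
  | node k r d u => by
    constructor
    · intro h b hb
      obtain ⟨j, hj⟩ := mem_supp_node.mp hb
      have h1 : (⟨k, fun j => g • r j, d⟩ : Nd W).vtx u = (⟨k, r, d⟩ : Nd W).vtx u := h
      have h2 := (vtx_inj h1).1
      simp only [Nd.mk.injEq, heq_eq_eq, and_true, true_and] at h2
      exact (smul_eq_iff g (r j)).mp (congrFun h2 j) b hj
    · intro h
      show node k (fun j => g • r j) d u = node k r d u
      congr 1
      funext j
      refine (smul_eq_iff g (r j)).mpr fun b hb => h b ?_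
      exact mem_supp_node.mpr ⟨j, hb⟩

end Tm

variable {G : Type*} [Group G] [MulAction G W]

/-- the translate of a node -/
def Nd.sm (g : G) (π : Nd W) : Nd W := ⟨π.k, fun j => g • π.r j, π.d⟩

theorem Nd.smul_vtx (g : G) (π : Nd W) (u : ℕ) : g • π.vtx u = (π.sm g).vtx u := rfl

theorem Nd.sm_one (π : Nd W) : π.sm (1 : G) = π := by
  obtain ⟨k, r, d⟩ := π
  simp [Nd.sm]

theorem Nd.sm_mul (g h : G) (π : Nd W) : π.sm (g * h) = (π.sm h).sm g := by
  obtain ⟨k, r, d⟩ := π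
  simp [Nd.sm, mul_smul]

/-- live vertices -/
def Live (Φ : Set (Nd W)) : Tm W → Prop
  | .base _ => True
  | .node k r d u => (⟨k, r, d⟩ : Nd W) ∈ Φ ∧ u ∈ d.S

theorem live_base (Φ : Set (Nd W)) (w : W) : Live Φ (.base w) := trivial

theorem live_vtx {Φ : Set (Nd W)} {π : Nd W} {u : ℕ} : Live Φ (π.vtx u) ↔ π ∈ Φ ∧ u ∈ π.d.S :=
  Iff.rfl

theorem Live.mono {Φ Φ' : Set (Nd W)} (h : Φ ⊆ Φ') {t : Tm W} (ht : Live Φ t) : Live Φ' t := by
  match t with
  | .base w => trivial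
  | .node k r d u => exact ⟨h ht.1, ht.2⟩

theorem eq_base_or_vtx (t : Tm W) : (∃ w, t = .base w) ∨ ∃ (π : Nd W) (u : ℕ), t = π.vtx u := by
  match t with
  | .base w => exact Or.inl ⟨w, rfl⟩
  | .node k r d u => exact Or.inr ⟨⟨k, r, d⟩, u, rfl⟩

/-- The relation generating the graph on terms. -/
def Rl (Wg : SimpleGraph W) (Φ : Set (Nd W)) (s t : Tm W) : Prop :=
  (∃ x y, s = .base x ∧ t = .base y ∧ Wg.Adj x y) ∨
  (∃ π ∈ Φ, ∃ (j : Fin (π.k + 1)) (u : ℕ), s = π.r j ∧ t = π.vtx u ∧ u ∈ π.d.S ∧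
    (j.1, u) ∈ π.d.A) ∨
  (∃ π ∈ Φ, ∃ u v : ℕ, s = π.vtx u ∧ t = π.vtx v ∧ u ∈ π.d.S ∧ v ∈ π.d.S ∧ eAdj π.d.C u v)

/-- The graph on terms. -/
def XG (Wg : SimpleGraph W) (Φ : Set (Nd W)) : SimpleGraph (Tm W) :=
  SimpleGraph.fromRel (Rl Wg Φ)

theorem XG_adj {Wg : SimpleGraph W} {Φ : Set (Nd W)} {s t : Tm W} :
    (XG Wg Φ).Adj s t ↔ s ≠ t ∧ (Rl Wg Φ s t ∨ Rl Wg Φ t s) := Iff.rfl

theorem Rl.mono {Wg : SimpleGraph W} {Φ Φ' : Set (Nd W)} (h : Φ ⊆ Φ') {s t : Tm W}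
    (hr : Rl Wg Φ s t) : Rl Wg Φ' s t := by
  rcases hr with h1 | ⟨π, hπ, h1⟩ | ⟨π, hπ, h1⟩
  · exact Or.inl h1
  · exact Or.inr (Or.inl ⟨π, h hπ, h1⟩)
  · exact Or.inr (Or.inr ⟨π, h hπ, h1⟩)

theorem XG_mono {Wg : SimpleGraph W} {Φ Φ' : Set (Nd W)} (h : Φ ⊆ Φ') {s t : Tm W}
    (hr : (XG Wg Φ).Adj s t) : (XG Wg Φ').Adj s t :=
  ⟨hr.1, hr.2.imp (Rl.mono h) (Rl.mono h)⟩

theorem Rl.ne {Wg : SimpleGraph W} {Φ : Set (Nd W)} {s t : Tm W} (hr : Rl Wg Φ s t) : s ≠ t := by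
  rcases hr with ⟨x, y, rfl, rfl, h⟩ | ⟨π, hπ, j, u, rfl, rfl, _⟩ | ⟨π, hπ, u, v, rfl, rfl, _, _, h⟩
  · intro e
    exact h.ne (Tm.base.inj e)
  · intro e
    have := Tm.ht_root π j u
    rw [e] at this
    exact lt_irrefl _ this
  · intro e
    exact h.1 (vtx_inj e).2

theorem Rl.adj {Wg : SimpleGraph W} {Φ : Set (Nd W)} {s t : Tm W} (hr : Rl Wg Φ s t) :
    (XG Wg Φ).Adj s t := ⟨hr.ne, Or.inl hr⟩

theorem Rl.smul {Wg : SimpleGraph W} (hW : ∀ (g : G) x y, Wg.Adj x y → Wg.Adj (g • x) (g • y))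
    {Φ : Set (Nd W)} (hΦ : ∀ (g : G), ∀ π ∈ Φ, π.sm g ∈ Φ) (g : G) {s t : Tm W}
    (hr : Rl Wg Φ s t) : Rl Wg Φ (g • s) (g • t) := by
  rcases hr with ⟨x, y, rfl, rfl, h⟩ | ⟨π, hπ, j, u, rfl, rfl, h⟩ | ⟨π, hπ, u, v, rfl, rfl, h⟩
  · exact Or.inl ⟨g • x, g • y, rfl, rfl, hW g x y h⟩
  · exact Or.inr (Or.inl ⟨π.sm g, hΦ g π hπ, j, u, rfl, rfl, h⟩)
  · exact Or.inr (Or.inr ⟨π.sm g, hΦ g π hπ, u, v, rfl, rfl, h⟩)

theorem XG_smul {Wg : SimpleGraph W} (hW : ∀ (g : G) x y, Wg.Adj x y → Wg.Adj (g • x) (g • y))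
    {Φ : Set (Nd W)} (hΦ : ∀ (g : G), ∀ π ∈ Φ, π.sm g ∈ Φ) (g : G) {s t : Tm W}
    (hr : (XG Wg Φ).Adj s t) : (XG Wg Φ).Adj (g • s) (g • t) :=
  ⟨fun e => hr.1 (MulAction.injective g e), hr.2.imp (Rl.smul hW hΦ g) (Rl.smul hW hΦ g)⟩

theorem Live.smul {Φ : Set (Nd W)} (hΦ : ∀ (g : G), ∀ π ∈ Φ, π.sm g ∈ Φ) (g : G) {t : Tm W}
    (ht : Live Φ t) : Live Φ (g • t) := by
  rcases eq_base_or_vtx t with ⟨w, rfl⟩ | ⟨π, u, rfl⟩
  · trivial
  · exact ⟨hΦ g π ht.1, ht.2⟩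

end MPec220fX
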