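import Pool.Agent.Lib_MP_ec220f_lc.EquiMain

/-!
The equivariant existentially complete extension theorem in the form used by the plug-in.
-/

namespace MPec220fX

open Finset Function MPec220f

/-- Piece (C), in the form of board note 1037 (with `W` nonempty). -/
theorem pieceC {𝓕 : Set FinGraph} (hfin : 𝓕.Finite)
    (hconn : ∀ F ∈ 𝓕, F.2.Connected) (h2 : ∀ F ∈ 𝓕, 2 ≤ F.1)
    (W : Type) [Countable W] [Nonempty W] (H : SimpleGraph W) (hH : IsFree 𝓕 H)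
    (K : Type) [Group K] [MulAction K W]
    (hact : ∀ (g : K) a b, H.Adj (g • a) (g • b) ↔ H.Adj a b)
    (hSN : ∀ (B : Finset W) (g : K),
      (∀ h : K, (∀ b ∈ B, h • b = b) ↔ (∀ b ∈ B, (g * h * g⁻¹) • b = b)) → ∀ b ∈ B, g • b = b) :
    ∃ (U : Type) (_ : Countable U) (X : SimpleGraph U) (_ : MulAction K U) (ι : W → U),
      IsEC 𝓕 X ∧ (∀ (g : K) x y, X.Adj (g • x) (g • y) ↔ X.Adj x y) ∧ Function.Injective ι ∧
      (∀ (g : K) w, ι (g • w) = g • ι w) ∧ (∀ a b, X.Adj (ι a) (ι b) ↔ H.Adj a b) ∧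
      ∀ x : U, ∃ B : Finset W, B.Nonempty ∧ ∀ g : K, g • x = x ↔ ∀ b ∈ B, g • b = b := by
  obtain ⟨U, hU, hKU, X, ι, h1, h2', h3, h4, h5, h6⟩ :=
    exists_equivariant_ec hfin hconn h2 hH hact hSN
  exact ⟨U, hU, X, hKU, ι, h1, h2', h3, h5, h4, h6⟩

end MPec220fX
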