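import Pool.Agent.Lib_MP_ec220f_lc.Defs

/-!
Existential completeness stated with existential first-order formulas with parameters, and
its equivalence with the combinatorial form `IsEC`.
-/

namespace MPec220f

open Finset Function FirstOrder FirstOrder.Language

/-- `Γ` is an existentially complete `𝓕`-free graph: `Γ` is `𝓕`-free, and for every `𝓕`-free
graph `H` containing `Γ` as an induced subgraph (by the embedding `j`), every existential
first-order formula with parameters from `Γ` (a formula whose free variables are the vertices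
of `Γ`, each interpreted by itself) that holds in `H` holds in `Γ`. -/
def ExComplete (𝓕 : Set FinGraph) {V : Type} (Γ : SimpleGraph V) : Prop :=
  IsFree 𝓕 Γ ∧ ∀ (W : Type) (H : SimpleGraph W), IsFree 𝓕 H → ∀ j : Γ ↪g H,
    ∀ φ : FirstOrder.Language.graph.Formula V, BoundedFormula.IsExistential φ →
      @Formula.Realize FirstOrder.Language.graph W H.structure V φ j →
        @Formula.Realize FirstOrder.Language.graph V Γ.structure V φ id

section formulas

variable {L : FirstOrder.Language.{0, 0}} {α β : Type}

theorem isExistential_exs : ∀ (n : ℕ) (φ : L.BoundedFormula α n), φ.IsExistential →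
    BoundedFormula.IsExistential (φ.exs)
  | 0, _, h => h
  | n + 1, φ, h => isExistential_exs n φ.ex h.ex

theorem isExistential_iExs [Finite β] (θ : L.Formula (α ⊕ β)) (h : BoundedFormula.IsQF θ) :
    BoundedFormula.IsExistential (Formula.iExs β θ) := by
  unfold Formula.iExs
  exact isExistential_exs _ _ (h.relabel _).isExistential

theorem isQF_iInf [Finite β] {n : ℕ} (f : β → L.BoundedFormula α n)
    (h : ∀ b, (f b).IsQF) : (BoundedFormula.iInf f).IsQF := by
  unfold BoundedFormula.iInf
  have key : ∀ l : List (L.BoundedFormula α n), (∀ φ ∈ l, φ.IsQF) →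
      (l.foldr (· ⊓ ·) ⊤).IsQF := by
    intro l
    induction l with
    | nil => intro _; exact BoundedFormula.IsQF.top
    | cons a l ih =>
      intro hl
      rw [List.foldr_cons]
      exact (hl a (List.mem_cons_self ..)).inf (ih fun φ hφ => hl φ (List.mem_cons_of_mem _ hφ))
  apply key
  intro φ hφ
  rw [List.mem_map] at hφ
  obtain ⟨b, _, rfl⟩ := hφ
  exact h b

end formulas

variable {V W : Type}

open scoped Classical in
/-- The formula describing the finite set `S` of vertices of `H` over the vertices of `Γ`. -/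
noncomputable def sform (H : SimpleGraph W) (j : V → W) (S : Finset W) :
    FirstOrder.Language.graph.Formula (V ⊕ {x // x ∈ S}) :=
  (Formula.iInf (fun p : {x // x ∈ S} × {x // x ∈ S} =>
      if H.Adj p.1.1 p.2.1 then
        (Relations.formula₂ FirstOrder.Language.adj (Term.var (Sum.inr p.1)) (Term.var (Sum.inr p.2)))
      else
        (Relations.formula₂ FirstOrder.Language.adj (Term.var (Sum.inr p.1))
          (Term.var (Sum.inr p.2))).not)) ⊓
    ((Formula.iInf (fun p : {x // x ∈ S} × {x // x ∈ S} =>
      if p.1 = p.2 then ⊤ else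
        (Term.equal (Term.var (Sum.inr p.1)) (Term.var (Sum.inr p.2))).not)) ⊓
    (Formula.iInf (fun x : {x // x ∈ S} =>
      if h : ∃ v, j v = x.1 then
        Term.equal (Term.var (Sum.inr x)) (Term.var (Sum.inl (Classical.choose h))) else ⊤)))

theorem sform_isQF (H : SimpleGraph W) (j : V → W) (S : Finset W) :
    BoundedFormula.IsQF (sform H j S) := by
  classical
  unfold sform
  refine BoundedFormula.IsQF.inf ?_ (BoundedFormula.IsQF.inf ?_ ?_)
  · apply isQF_iInf
    intro p
    split_ifs
    · exact (BoundedFormula.IsAtomic.rel _ _).isQF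
    · exact (BoundedFormula.IsAtomic.rel _ _).isQF.not
  · apply isQF_iInf
    intro p
    split_ifs
    · exact BoundedFormula.IsQF.top
    · exact (BoundedFormula.IsAtomic.equal _ _).isQF.not
  · apply isQF_iInf
    intro p
    split_ifs
    · exact (BoundedFormula.IsAtomic.equal _ _).isQF
    · exact BoundedFormula.IsQF.top

theorem realize_sform {U : Type} (Δ : SimpleGraph U) (H : SimpleGraph W) (j : V → W)
    (hj : Injective j) (S : Finset W) (w : V → U) (y : {x // x ∈ S} → U) :
    @Formula.Realize FirstOrder.Language.graph U Δ.structure _ (sform H j S) (Sum.elim w y) ↔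
      (∀ p q, Δ.Adj (y p) (y q) ↔ H.Adj p.1 q.1) ∧ Injective y ∧
        ∀ v (hv : j v ∈ S), y ⟨j v, hv⟩ = w v := by
  classical
  let _ := Δ.structure
  unfold sform
  rw [Formula.realize_inf, Formula.realize_inf, Formula.realize_iInf, Formula.realize_iInf,
    Formula.realize_iInf]
  refine and_congr ?_ (and_congr ?_ ?_)
  · constructor
    · intro h p q
      have := h (p, q)
      split_ifs at this with hpq
      · rw [Formula.realize_rel₂] at this
        exact ⟨fun _ => hpq, fun _ => this⟩
      · rw [Formula.realize_not, Formula.realize_rel₂] at this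
        exact ⟨fun h' => (this h').elim, fun h' => (hpq h').elim⟩
    · rintro h ⟨p, q⟩
      split_ifs with hpq
      · rw [Formula.realize_rel₂]
        exact (h p q).2 hpq
      · rw [Formula.realize_not, Formula.realize_rel₂]
        exact fun h' => hpq ((h p q).1 h')
  · constructor
    · intro h p q hpq
      by_contra hne
      have := h (p, q)
      rw [if_neg hne, Formula.realize_not, Formula.realize_equal] at this
      exact this hpq
    · rintro h ⟨p, q⟩
      split_ifs with hpq
      · simp
      · rw [Formula.realize_not, Formula.realize_equal]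
        exact fun h' => hpq (h h')
  · constructor
    · intro h v hv
      have h1 := h ⟨j v, hv⟩
      have hex : ∃ v', j v' = (⟨j v, hv⟩ : {x // x ∈ S}).1 := ⟨v, rfl⟩
      rw [dif_pos hex, Formula.realize_equal] at h1
      have h2 : Classical.choose hex = v := hj (Classical.choose_spec hex)
      have h3 : y ⟨j v, hv⟩ = w (Classical.choose hex) := h1
      rw [h3, h2]
    · intro h x
      split_ifs with hex
      · rw [Formula.realize_equal]
        have h1 : j (Classical.choose hex) = x.1 := Classical.choose_spec hex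
        have h2 : j (Classical.choose hex) ∈ S := by rw [h1]; exact x.2
        have h3 := h _ h2
        have h4 : (⟨j (Classical.choose hex), h2⟩ : {x // x ∈ S}) = x := Subtype.ext h1
        rw [h4] at h3
        exact h3
      · simp

theorem isEC_of_exComplete {𝓕 : Set FinGraph} {Γ : SimpleGraph V} (h : ExComplete 𝓕 Γ) :
    IsEC 𝓕 Γ := by
  classical
  refine ⟨h.1, ?_⟩
  intro W H hH j S
  have key : ∀ S : Finset W, ∃ y : {x // x ∈ S} → V,
      (∀ p q, Γ.Adj (y p) (y q) ↔ H.Adj p.1 q.1) ∧ Injective y ∧
        ∀ v (hv : j v ∈ S), y ⟨j v, hv⟩ = v := by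
    intro S
    have h1 := h.2 W H hH j (Formula.iExs _ (sform H j S))
      (isExistential_iExs _ (sform_isQF H j S))
    have h2 : @Formula.Realize FirstOrder.Language.graph W H.structure V
        (Formula.iExs _ (sform H j S)) j := by
      let _ := H.structure
      rw [Formula.realize_iExs]
      refine ⟨Subtype.val, ?_⟩
      rw [realize_sform H H j j.injective]
      exact ⟨fun p q => Iff.rfl, Subtype.val_injective, fun v hv => rfl⟩
    have h3 := h1 h2
    let _ := Γ.structure
    rw [Formula.realize_iExs] at h3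
    obtain ⟨y, hy⟩ := h3
    rw [realize_sform Γ H j j.injective] at hy
    exact ⟨y, hy⟩
  rcases isEmpty_or_nonempty W with hW | ⟨⟨w0⟩⟩
  · exact ⟨fun w => (hW.false w).elim, fun x => (hW.false x).elim,
      fun x => (hW.false x).elim, fun v => (hW.false (j v)).elim⟩
  · obtain ⟨y, hy1, hy2, hy3⟩ := key (insert w0 S)
    have hw0 : w0 ∈ insert w0 S := Finset.mem_insert_self _ _
    have hS : ∀ x ∈ S, x ∈ insert w0 S := fun x hx => Finset.mem_insert_of_mem hx
    refine ⟨fun x => if hx : x ∈ insert w0 S then y ⟨x, hx⟩ else y ⟨w0, hw0⟩, ?_, ?_, ?_⟩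
    · intro x hx x' hx' he
      simp only [dif_pos (hS x hx), dif_pos (hS x' hx')] at he
      exact congrArg Subtype.val (hy2 he)
    · intro x hx x' hx'
      simp only [dif_pos (hS x hx), dif_pos (hS x' hx')]
      exact hy1 _ _
    · intro v hv
      simp only [dif_pos (hS _ hv)]
      exact hy3 v _

/-- the maps that are isomorphic on `S` and fix the vertices of `Γ` in `S` -/
def Good (Γ : SimpleGraph V) (H : SimpleGraph W) (j : V → W) (S : Finset W) (k : W → V) : Prop :=
  Set.InjOn k S ∧ (∀ x ∈ S, ∀ y ∈ S, Γ.Adj (k x) (k y) ↔ H.Adj x y) ∧ ∀ v, j v ∈ S → k (j v) = v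

theorem Good.mono {Γ : SimpleGraph V} {H : SimpleGraph W} {j : V → W} {S T : Finset W}
    {k : W → V} (h : Good Γ H j T k) (hST : S ⊆ T) : Good Γ H j S k :=
  ⟨h.1.mono (by exact_mod_cast hST), fun x hx y hy => h.2.1 x (hST hx) y (hST hy),
    fun v hv => h.2.2 v (hST hv)⟩

theorem term_local (Γ : SimpleGraph V) (H : SimpleGraph W) (j : V → W) {n : ℕ} (xs : Fin n → W)
    (t : FirstOrder.Language.graph.Term (V ⊕ Fin n)) : ∃ x : W,
      @Term.realize FirstOrder.Language.graph W H.structure _ (Sum.elim j xs) t = x ∧
      ∀ k : W → V, (∀ v, j v = x → k (j v) = v) →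
        @Term.realize FirstOrder.Language.graph V Γ.structure _ (Sum.elim id (k ∘ xs)) t = k x := by
  match t with
  | Term.var (Sum.inl v) => exact ⟨j v, rfl, fun k hk => (hk v rfl).symm⟩
  | Term.var (Sum.inr i) => exact ⟨xs i, rfl, fun k _ => rfl⟩
  | Term.func f _ => exact Empty.elim f

theorem qf_local (Γ : SimpleGraph V) (H : SimpleGraph W) (j : V → W) {n : ℕ}
    {φ : FirstOrder.Language.graph.BoundedFormula V n} (hφ : φ.IsQF) (xs : Fin n → W) :
    ∃ S : Finset W, ∀ k, Good Γ H j S k →
      (@BoundedFormula.Realize FirstOrder.Language.graph V Γ.structure V n φ id (k ∘ xs) ↔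
        @BoundedFormula.Realize FirstOrder.Language.graph W H.structure V n φ j xs) := by
  classical
  induction hφ with
  | falsum => exact ⟨∅, fun k _ => Iff.rfl⟩
  | of_isAtomic h =>
    cases h with
    | equal t₁ t₂ =>
      obtain ⟨x1, h1, h1'⟩ := term_local Γ H j xs t₁
      obtain ⟨x2, h2, h2'⟩ := term_local Γ H j xs t₂
      refine ⟨{x1, x2}, fun k hk => ?_⟩
      rw [@BoundedFormula.realize_bdEqual _ _ Γ.structure, @BoundedFormula.realize_bdEqual _ _
        H.structure, h1, h2, h1' k fun v hv => hk.2.2 v (by simp [hv]),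
        h2' k fun v hv => hk.2.2 v (by simp [hv])]
      exact ⟨fun h => hk.1 (by simp) (by simp) h, fun h => by rw [h]⟩
    | rel R ts =>
      cases R with
      | adj =>
        obtain ⟨x1, h1, h1'⟩ := term_local Γ H j xs (ts 0)
        obtain ⟨x2, h2, h2'⟩ := term_local Γ H j xs (ts 1)
        refine ⟨{x1, x2}, fun k hk => ?_⟩
        rw [@BoundedFormula.realize_rel _ _ Γ.structure, @BoundedFormula.realize_rel _ _
          H.structure]
        change Γ.Adj (@Term.realize _ _ Γ.structure _ _ (ts 0))
          (@Term.realize _ _ Γ.structure _ _ (ts 1)) ↔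
          H.Adj (@Term.realize _ _ H.structure _ _ (ts 0))
          (@Term.realize _ _ H.structure _ _ (ts 1))
        rw [h1, h2, h1' k fun v hv => hk.2.2 v (by simp [hv]),
          h2' k fun v hv => hk.2.2 v (by simp [hv])]
        exact hk.2.1 x1 (by simp) x2 (by simp)
  | imp _ _ ih1 ih2 =>
    obtain ⟨S1, h1⟩ := ih1
    obtain ⟨S2, h2⟩ := ih2
    refine ⟨S1 ∪ S2, fun k hk => ?_⟩
    rw [@BoundedFormula.realize_imp _ _ Γ.structure, @BoundedFormula.realize_imp _ _ H.structure,
      h1 k (hk.mono Finset.subset_union_left), h2 k (hk.mono Finset.subset_union_right)]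

theorem ex_local (Γ : SimpleGraph V) (H : SimpleGraph W) (j : V → W) {n : ℕ}
    {φ : FirstOrder.Language.graph.BoundedFormula V n} (hφ : φ.IsExistential) (xs : Fin n → W)
    (hr : @BoundedFormula.Realize FirstOrder.Language.graph W H.structure V n φ j xs) :
    ∃ S : Finset W, ∀ k, Good Γ H j S k →
      @BoundedFormula.Realize FirstOrder.Language.graph V Γ.structure V n φ id (k ∘ xs) := by
  induction hφ with
  | of_isQF h =>
    obtain ⟨S, hS⟩ := qf_local Γ H j h xs
    exact ⟨S, fun k hk => (hS k hk).mpr hr⟩
  | ex h ih =>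
    rw [@BoundedFormula.realize_ex _ _ H.structure] at hr
    obtain ⟨a, ha⟩ := hr
    obtain ⟨S, hS⟩ := ih _ ha
    refine ⟨S, fun k hk => ?_⟩
    rw [@BoundedFormula.realize_ex _ _ Γ.structure]
    refine ⟨k a, ?_⟩
    have := hS k hk
    rwa [Fin.comp_snoc] at this

theorem exComplete_of_isEC {𝓕 : Set FinGraph} {Γ : SimpleGraph V} (h : IsEC 𝓕 Γ) :
    ExComplete 𝓕 Γ := by
  refine ⟨h.1, ?_⟩
  intro W H hH j φ hφ hr
  obtain ⟨S, hS⟩ := ex_local Γ H j hφ default hr
  obtain ⟨k, hk⟩ := h.2 W H hH j S
  have := hS k hk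
  have e : k ∘ (default : Fin 0 → W) = default := Subsingleton.elim _ _
  rw [e] at this
  exact this

theorem exComplete_iff {𝓕 : Set FinGraph} {Γ : SimpleGraph V} :
    ExComplete 𝓕 Γ ↔ IsEC 𝓕 Γ :=
  ⟨isEC_of_exComplete, exComplete_of_isEC⟩

end MPec220f
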