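import Pool.Agent.Lib_MP_ec220f_lc.Derive

/-!
MP_ec220f_lc, algebra part 6: from the graded (`v`-additive) product to the usual product.
-/

namespace Pool.Agent.MPec220f

open MvPolynomial

universe u

variable {Ω : Type u} [DecidableEq Ω] {G : Type*} [Group G] [MulAction G Ω]

section

variable (V : SupAdd Ω) (hV : ∀ (g : G) X, V.v (gim g X) = V.v X)

/-- bihomogeneous elements -/
def bigrade (n k : ℕ) : Submodule ℚ (orbitAlg G V hV) where
  carrier := {b | ∀ X, ¬ (X.card = n ∧ V.v X = k) → (b : SF V) X = 0}
  add_mem' := by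
    intro a b ha hb X hX
    show ((a : SF V) + (b : SF V)) X = 0
    rw [SF.add_app, ha X hX, hb X hX, add_zero]
  zero_mem' := by
    intro X _
    rfl
  smul_mem' := by
    intro c a ha X hX
    show (c • (a : SF V)) X = 0
    rw [SF.smul_app, ha X hX, mul_zero]

/-- bihomogeneous decomposables -/
def bidec (n k : ℕ) : Submodule ℚ (orbitAlg G V hV) :=
  Submodule.span ℚ {c | ∃ i j a' b', ∃ a ∈ bigrade V hV i a', ∃ b ∈ bigrade V hV j b',
    1 ≤ i ∧ 1 ≤ j ∧ i + j = n ∧ a' + b' = k ∧ c = a * b}

/-- the component with `v = k` -/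
def vpr (k : ℕ) : orbitAlg G V hV →ₗ[ℚ] orbitAlg G V hV where
  toFun := fun b => ⟨fun X => if V.v X = k then (b : SF V) X else 0, by
    refine ⟨?_, ?_⟩
    · intro g X
      show (if V.v (gim g X) = k then (b : SF V) (gim g X) else 0) =
        if V.v X = k then (b : SF V) X else 0
      rw [hV, b.2.1]
    · obtain ⟨N, hN⟩ := b.2.2
      refine ⟨N, fun X hX => ?_⟩
      show (if V.v X = k then (b : SF V) X else 0) = 0
      rw [hN X hX]
      split_ifs <;> rfl⟩
  map_add' := by
    intro a b
    apply Subtype.ext
    apply SF.ext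
    intro X
    show (if V.v X = k then ((a : SF V) + (b : SF V)) X else 0) =
      (if V.v X = k then (a : SF V) X else 0) + if V.v X = k then (b : SF V) X else 0
    split_ifs
    · rfl
    · simp
  map_smul' := by
    intro c b
    apply Subtype.ext
    apply SF.ext
    intro X
    show (if V.v X = k then (c • (b : SF V)) X else 0) =
      c * if V.v X = k then (b : SF V) X else 0
    split_ifs
    · rfl
    · simp

theorem vpr_app (k : ℕ) (b : orbitAlg G V hV) (X : Finset Ω) :
    (vpr V hV k b : SF V) X = if V.v X = k then (b : SF V) X else 0 := rfl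

theorem vpr_mul (k : ℕ) (a b : orbitAlg G V hV) :
    vpr V hV k (a * b) = ∑ i ∈ Finset.range (k + 1), vpr V hV i a * vpr V hV (k - i) b := by
  apply Subtype.ext
  rw [AddSubmonoidClass.coe_finsetSum]
  apply SF.ext
  intro X
  have sum_app : ∀ (s : Finset ℕ) (F : ℕ → SF V) (Y : Finset Ω),
      (∑ A ∈ s, F A) Y = ∑ A ∈ s, F A Y := by
    intro s F Y
    exact Finset.sum_apply Y s F
  rw [sum_app, vpr_app]
  show (if V.v X = k then ((a : SF V) * (b : SF V)) X else 0) =
    ∑ i ∈ Finset.range (k + 1), ((vpr V hV i a : SF V) * (vpr V hV (k - i) b : SF V)) X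
  simp only [SF.mul_app]
  rw [Finset.sum_comm]
  by_cases hX : V.v X = k
  · rw [if_pos hX]
    apply Finset.sum_congr rfl
    intro A _
    by_cases hA : V.v A + V.v (X \ A) = V.v X
    · simp only [if_pos hA, vpr_app]
      rw [Finset.sum_eq_single (V.v A)]
      · rw [if_pos rfl, if_pos (by omega)]
      · intro i _ hi
        rw [if_neg (Ne.symm hi), zero_mul]
      · intro h
        exfalso
        apply h
        rw [Finset.mem_range]
        omega
    · simp only [if_neg hA]
      simp
  · rw [if_neg hX, eq_comm]
    apply Finset.sum_eq_zero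
    intro A _
    apply Finset.sum_eq_zero
    intro i hi
    rw [Finset.mem_range] at hi
    by_cases hA : V.v A + V.v (X \ A) = V.v X
    · rw [if_pos hA, vpr_app, vpr_app]
      by_cases h1 : V.v A = i
      · by_cases h2 : V.v (X \ A) = k - i
        · exfalso; omega
        · rw [if_neg h2, mul_zero]
      · rw [if_neg h1, zero_mul]
    · rw [if_neg hA]

theorem vpr_mem_bigrade {n : ℕ} (k : ℕ) {b : orbitAlg G V hV} (hb : b ∈ grade V hV n) :
    vpr V hV k b ∈ bigrade V hV n k := by
  intro X hX
  rw [vpr_app]
  split_ifs with h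
  · apply hb
    intro h'
    exact hX ⟨h', h⟩
  · rfl

theorem vpr_of_bigrade {n k : ℕ} {b : orbitAlg G V hV} (hb : b ∈ bigrade V hV n k) :
    vpr V hV k b = b := by
  apply Subtype.ext
  apply SF.ext
  intro X
  rw [vpr_app]
  split_ifs with h
  · rfl
  · exact (hb X (fun h' => h h'.2)).symm

theorem vpr_of_bigrade_ne {n k k' : ℕ} (hk : k ≠ k') {b : orbitAlg G V hV}
    (hb : b ∈ bigrade V hV n k) : vpr V hV k' b = 0 := by
  apply Subtype.ext
  apply SF.ext
  intro X
  rw [vpr_app]
  split_ifs with h
  · exact hb X (fun h' => hk (h'.2.symm.trans h))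
  · rfl

theorem vpr_decomp {n k : ℕ} {b : orbitAlg G V hV} (hb : b ∈ decomp (grade V hV) n) :
    vpr V hV k b ∈ bidec V hV n k := by
  have : decomp (grade V hV) n ≤ (bidec V hV n k).comap (vpr V hV k) := by
    rw [decomp, Submodule.span_le]
    rintro c ⟨i, j, a, b, hi, hj, hij, ha, hb, rfl⟩
    show vpr V hV k (a * b) ∈ bidec V hV n k
    rw [vpr_mul]
    apply Submodule.sum_mem
    intro l hl
    rw [Finset.mem_range] at hl
    apply Submodule.subset_span
    exact ⟨i, j, l, k - l, _, vpr_mem_bigrade V hV l ha, _, vpr_mem_bigrade V hV (k - l) hb,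
      hi, hj, hij, by omega, rfl⟩
  exact this hb

end

/-- the same function, viewed in the algebra with the usual product -/
def toZero (V : SupAdd Ω) (hV : ∀ (g : G) X, V.v (gim g X) = V.v X) (b : orbitAlg G V hV) :
    orbitAlg G (SupAdd.zero Ω) (fun _ _ => rfl) :=
  ⟨fun X => (b : SF V) X, b.2.1, b.2.2⟩

/-- the same function, viewed in the graded algebra -/
def ofZero (V : SupAdd Ω) (hV : ∀ (g : G) X, V.v (gim g X) = V.v X)
    (b : orbitAlg G (SupAdd.zero Ω) (fun _ _ => rfl)) : orbitAlg G V hV :=
  ⟨fun X => (b : SF (SupAdd.zero Ω)) X, b.2.1, b.2.2⟩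

theorem zero_mul_app (f h : SF (SupAdd.zero Ω)) (X : Finset Ω) :
    (f * h) X = ∑ A ∈ X.powerset, f A * h (X \ A) := by
  rw [SF.mul_app]
  apply Finset.sum_congr rfl
  intro A _
  exact if_pos (show (0 : ℕ) + 0 = 0 from rfl)

/-- `f` has leading form `f1` of `v`-degree `k` -/
def Lead (V : SupAdd Ω) (k : ℕ) (f : SF (SupAdd.zero Ω)) (f1 : SF V) : Prop :=
  (∀ X, V.v X < k → f X = 0) ∧ (∀ X, V.v X ≠ k → f1 X = 0) ∧ (∀ X, V.v X = k → f X = f1 X)

theorem Lead.mul {V : SupAdd Ω} {k l : ℕ} {f h : SF (SupAdd.zero Ω)} {f1 h1 : SF V}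
    (hf : Lead V k f f1) (hh : Lead V l h h1) : Lead V (k + l) (f * h) (f1 * h1) := by
  refine ⟨?_, ?_, ?_⟩
  · intro X hX
    rw [zero_mul_app]
    apply Finset.sum_eq_zero
    intro A hA
    rw [Finset.mem_powerset] at hA
    have s := V.super A (X \ A) Finset.disjoint_sdiff
    rw [Finset.union_sdiff_of_subset hA] at s
    by_cases h1 : V.v A < k
    · rw [hf.1 A h1, zero_mul]
    · rw [hh.1 (X \ A) (by omega), mul_zero]
  · intro X hX
    rw [SF.mul_app]
    apply Finset.sum_eq_zero
    intro A hA
    split_ifs with hv
    · by_cases h1 : V.v A = k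
      · rw [hh.2.1 (X \ A) (by omega), mul_zero]
      · rw [hf.2.1 A h1, zero_mul]
    · rfl
  · intro X hX
    rw [zero_mul_app, SF.mul_app]
    apply Finset.sum_congr rfl
    intro A hA
    rw [Finset.mem_powerset] at hA
    have s := V.super A (X \ A) Finset.disjoint_sdiff
    rw [Finset.union_sdiff_of_subset hA] at s
    rcases lt_trichotomy (V.v A) k with h1 | h1 | h1
    · rw [hf.1 A h1, hf.2.1 A (by omega)]
      simp
    · rw [hf.2.2 A h1]
      rcases lt_trichotomy (V.v (X \ A)) l with h2 | h2 | h2
      · rw [hh.1 _ h2, hh.2.1 _ (by omega)]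
        simp
      · rw [hh.2.2 _ h2, if_pos (by omega)]
      · exfalso; omega
    · rw [hh.1 (X \ A) (by omega), hh.2.1 (X \ A) (by omega)]
      simp

theorem Lead.one (V : SupAdd Ω) : Lead V 0 (1 : SF (SupAdd.zero Ω)) (1 : SF V) := by
  refine ⟨?_, ?_, ?_⟩
  · intro X hX; omega
  · intro X hX
    rw [SF.one_app, if_neg]
    rintro rfl
    exact hX (SF.v_empty V)
  · intro X _
    rw [SF.one_app, SF.one_app]

theorem Lead.pow {V : SupAdd Ω} {k : ℕ} {f : SF (SupAdd.zero Ω)} {f1 : SF V}
    (hf : Lead V k f f1) (e : ℕ) : Lead V (e * k) (f ^ e) (f1 ^ e) := by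
  induction e with
  | zero => simpa using Lead.one V
  | succ e ih =>
    rw [pow_succ, pow_succ, add_mul, one_mul]
    exact ih.mul hf

theorem Lead.prod {V : SupAdd Ω} {I : Type*} (s : Finset I) (k : I → ℕ)
    (f : I → SF (SupAdd.zero Ω)) (f1 : I → SF V) (hf : ∀ i ∈ s, Lead V (k i) (f i) (f1 i)) :
    Lead V (∑ i ∈ s, k i) (∏ i ∈ s, f i) (∏ i ∈ s, f1 i) := by
  classical
  induction s using Finset.cons_induction with
  | empty => simpa using Lead.one V
  | cons a s ha ih =>
    rw [Finset.sum_cons, Finset.prod_cons, Finset.prod_cons]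
    exact (hf a (Finset.mem_cons_self a s)).mul
      (ih (fun i hi => hf i (Finset.mem_cons_of_mem hi)))

/-- **the main algebraic theorem**: a coupling makes the usual orbit algebra polynomial -/
theorem polynomial_of_coupling_zero {Ω : Type u} [DecidableEq Ω] {G : Type*} [Group G]
    [MulAction G Ω] {V : SupAdd Ω} {cl : Finset Ω → Finset Ω} (C : Coupling G V cl)
    (hbd : ∀ n : ℕ, ∃ K : ℕ, ∀ X : Finset Ω, X.card = n → V.v X ≤ K) :
    ∃ I : Type u, Nonempty (MvPolynomial I ℚ ≃ₐ[ℚ]
      orbitAlg G (SupAdd.zero Ω) (fun _ _ => rfl)) := by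
  classical
  set B1 := orbitAlg G V C.V_inv with hB1
  set B0 := orbitAlg G (SupAdd.zero Ω) (fun (_ : G) _ => rfl) with hB0
  let bg : ℕ → ℕ → Submodule ℚ B1 := bigrade V C.V_inv
  let K : ∀ n k : ℕ, Submodule ℚ (bg n k) := fun n k => (bidec V C.V_inv n k).comap (bg n k).subtype
  let bas : ∀ n k : ℕ, Module.Basis (Module.Basis.ofVectorSpaceIndex ℚ (bg n k ⧸ K n k)) ℚ
      (bg n k ⧸ K n k) := fun n k => Module.Basis.ofVectorSpace ℚ (bg n k ⧸ K n k)
  let I : Type u := Σ p : {p : ℕ × ℕ // 1 ≤ p.1},
    Module.Basis.ofVectorSpaceIndex ℚ (bg p.1.1 p.1.2 ⧸ K p.1.1 p.1.2)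
  have hsurj : ∀ j : I, ∃ y : bg j.1.1.1 j.1.1.2, (K j.1.1.1 j.1.1.2).mkQ y =
      bas j.1.1.1 j.1.1.2 j.2 := fun j => Submodule.mkQ_surjective _ _
  choose y hy using hsurj
  let x1 : I → B1 := fun j => (y j : B1)
  let x0 : I → B0 := fun j => toZero V C.V_inv (x1 j)
  let w : I → ℕ := fun j => j.1.1.1
  let kk : I → ℕ := fun j => j.1.1.2
  -- algebraic independence for the graded product
  have hinj1 : ∀ P : MvPolynomial I ℚ, aeval x1 P = 0 → P = 0 := by
    apply eval_injective.{u, u, u} x1 w
    intro j
    -- the functional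
    let π : grade V C.V_inv j.1.1.1 →ₗ[ℚ] bg j.1.1.1 j.1.1.2 :=
      LinearMap.codRestrict (bg j.1.1.1 j.1.1.2)
        ((vpr V C.V_inv j.1.1.2).comp (grade V C.V_inv j.1.1.1).subtype)
        (fun b => vpr_mem_bigrade V C.V_inv _ b.2)
    let φ : grade V C.V_inv j.1.1.1 →ₗ[ℚ] ℚ :=
      ((bas j.1.1.1 j.1.1.2).coord j.2).comp ((K j.1.1.1 j.1.1.2).mkQ.comp π)
    have hgr : ∀ i : I, x1 i ∈ grade V C.V_inv (w i) := by
      intro i X hX
      exact (y i).2 X (fun h => hX h.1)
    obtain ⟨S, i1, i2, ι, D, hι, hD, h1, h2⟩ := exists_derivation C j.1.1.1 j.1.2 φ (by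
      intro b hb
      have : (K j.1.1.1 j.1.1.2).mkQ (π b) = 0 := by
        rw [Submodule.mkQ_apply, Submodule.Quotient.mk_eq_zero]
        exact vpr_decomp V C.V_inv hb
      simp only [φ, LinearMap.comp_apply, this, map_zero])
    refine ⟨S, i1, i2, ι, D, hι, hD, ?_, ?_, ?_⟩
    · intro i hi
      exact h1 _ hi _ (hgr i)
    · rintro ⟨⟨⟨n', k'⟩, hn'⟩, i'⟩ hi hne
      obtain ⟨⟨⟨n, k⟩, hn⟩, i⟩ := j
      have hnn : n' = n := hi
      subst hnn
      have hgi := hgr ⟨⟨⟨n', k'⟩, hn'⟩, i'⟩
      show D (y ⟨⟨⟨n', k'⟩, hn'⟩, i'⟩ : B1) = 0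
      have e0 := h2 ⟨(y ⟨⟨⟨n', k'⟩, hn'⟩, i'⟩ : B1), hgi⟩
      rw [show D (y ⟨⟨⟨n', k'⟩, hn'⟩, i'⟩ : B1) = _ from e0]
      by_cases hk : k' = k
      · subst hk
        have hne' : i' ≠ i := fun h => hne (by rw [h])
        have e := hy ⟨⟨⟨n', k'⟩, hn'⟩, i'⟩
        have e2 : π ⟨(y ⟨⟨⟨n', k'⟩, hn'⟩, i'⟩ : B1), hgi⟩ = y ⟨⟨⟨n', k'⟩, hn'⟩, i'⟩ := by
          apply Subtype.ext
          exact vpr_of_bigrade V C.V_inv (y ⟨⟨⟨n', k'⟩, hn'⟩, i'⟩).2
        simp only [φ, LinearMap.comp_apply]
        rw [e2, e, Module.Basis.coord_apply, Module.Basis.repr_self,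
          Finsupp.single_eq_of_ne hne'.symm, map_zero]
      · have e2 : π ⟨(y ⟨⟨⟨n', k'⟩, hn'⟩, i'⟩ : B1), hgi⟩ = 0 := by
          apply Subtype.ext
          exact vpr_of_bigrade_ne V C.V_inv hk (y ⟨⟨⟨n', k'⟩, hn'⟩, i'⟩).2
        simp only [φ, LinearMap.comp_apply]
        rw [e2, map_zero, map_zero, map_zero]
    · have hgj := hgr j
      show D (y j : B1) = 1
      have e0 := h2 ⟨(y j : B1), hgj⟩
      rw [show D (y j : B1) = _ from e0]
      have e := hy j
      have e2 : π ⟨(y j : B1), hgj⟩ = y j := by
        apply Subtype.ext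
        exact vpr_of_bigrade V C.V_inv (y j).2
      simp only [φ, LinearMap.comp_apply]
      rw [e2, e, Module.Basis.coord_apply, Module.Basis.repr_self, Finsupp.single_eq_same,
        map_one]
  -- leading forms of monomials
  let wt : (I →₀ ℕ) → ℕ := fun s => ∑ i ∈ s.support, s i * kk i
  let mon0 : (I →₀ ℕ) → SF (SupAdd.zero Ω) := fun s =>
    ∏ i ∈ s.support, ((x0 i : B0) : SF (SupAdd.zero Ω)) ^ s i
  let mon1 : (I →₀ ℕ) → SF V := fun s => ∏ i ∈ s.support, ((x1 i : B1) : SF V) ^ s i
  have hlead : ∀ s, Lead V (wt s) (mon0 s) (mon1 s) := by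
    intro s
    apply Lead.prod
    intro i _
    apply Lead.pow
    refine ⟨?_, ?_, ?_⟩
    · intro X hX
      exact (y i).2 X (fun h => by have := h.2; simp only [kk] at hX; omega)
    · intro X hX
      exact (y i).2 X (fun h => hX h.2)
    · intro X _
      rfl
  have ev0 : ∀ P : MvPolynomial I ℚ, ((aeval x0 P : B0) : SF (SupAdd.zero Ω)) =
      ∑ s ∈ P.support, P.coeff s • mon0 s := by
    intro P
    rw [aeval_def, eval₂_eq, AddSubmonoidClass.coe_finsetSum]
    apply Finset.sum_congr rfl
    intro s _
    rw [MulMemClass.coe_mul, SubmonoidClass.coe_finsetProd]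
    rw [Algebra.smul_def]
    rfl
  have ev1 : ∀ P : MvPolynomial I ℚ, ((aeval x1 P : B1) : SF V) =
      ∑ s ∈ P.support, P.coeff s • mon1 s := by
    intro P
    rw [aeval_def, eval₂_eq, AddSubmonoidClass.coe_finsetSum]
    apply Finset.sum_congr rfl
    intro s _
    rw [MulMemClass.coe_mul, SubmonoidClass.coe_finsetProd]
    rw [Algebra.smul_def]
    rfl
  have hinj0 : Function.Injective (aeval x0 : MvPolynomial I ℚ →ₐ[ℚ] B0) := by
    rw [injective_iff_map_eq_zero]
    intro P hP
    by_contra hne
    have hsupp : P.support.Nonempty := by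
      rw [Finset.nonempty_iff_ne_empty, Ne, support_eq_empty]
      exact hne
    obtain ⟨s0, hs0, hmin⟩ := Finset.exists_min_image P.support wt hsupp
    let P0 : MvPolynomial I ℚ := ∑ s ∈ P.support.filter (fun s => wt s = wt s0),
      monomial s (P.coeff s)
    have hc0 : ∀ s, P0.coeff s = if wt s = wt s0 then P.coeff s else 0 := by
      intro s
      simp only [P0]
      rw [coeff_sum]
      simp only [coeff_monomial]
      rw [Finset.sum_ite_eq']
      by_cases h : wt s = wt s0
      · rw [if_pos h]
        split_ifs with h'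
        · rfl
        · rw [Finset.mem_filter, not_and] at h'
          by_contra hc
          exact h' (by rw [mem_support_iff]; exact fun h => hc h.symm) h
      · rw [if_neg h, if_neg]
        rw [Finset.mem_filter]
        exact fun h' => h h'.2
    have hP0 : P0 ≠ 0 := by
      intro h
      have := hc0 s0
      rw [h, if_pos rfl, coeff_zero] at this
      rw [mem_support_iff] at hs0
      exact hs0 this.symm
    apply hP0
    apply hinj1
    apply Subtype.ext
    rw [ev1]
    have sum_app : ∀ (V : SupAdd Ω) (s : Finset (I →₀ ℕ)) (F : (I →₀ ℕ) → SF V) (Y : Finset Ω),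
        (∑ A ∈ s, F A) Y = ∑ A ∈ s, F A Y := by
      intro V s F Y
      exact Finset.sum_apply Y s F
    apply SF.ext
    intro X
    rw [sum_app]
    show _ = (0 : ℚ)
    have hPX : ∑ s ∈ P.support, P.coeff s * mon0 s X = 0 := by
      have h1 := ev0 P
      rw [hP] at h1
      have h2 := congrFun h1 X
      rw [sum_app] at h2
      exact h2.symm
    by_cases hX : V.v X = wt s0
    · have e1 : ∀ s ∈ P.support, P.coeff s * mon0 s X =
          if wt s = wt s0 then P.coeff s * mon1 s X else 0 := by
        intro s hs
        split_ifs with h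
        · rw [(hlead s).2.2 X (by rw [hX, h])]
        · have := hmin s hs
          rw [(hlead s).1 X (by omega), mul_zero]
      rw [Finset.sum_congr rfl e1] at hPX
      rw [← hPX]
      have hsub : P0.support ⊆ P.support := by
        intro s hs
        rw [mem_support_iff, hc0] at hs
        rw [mem_support_iff]
        intro h
        apply hs
        rw [h]
        simp
      rw [Finset.sum_subset hsub]
      · apply Finset.sum_congr rfl
        intro s _
        rw [SF.smul_app, hc0]
        split_ifs
        · rfl
        · rw [zero_mul]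
      · intro s _ hs
        rw [mem_support_iff, not_not] at hs
        rw [SF.smul_app, hs, zero_mul]
    · apply Finset.sum_eq_zero
      intro s hs
      rw [mem_support_iff, hc0] at hs
      have h : wt s = wt s0 := by
        by_contra h
        rw [if_neg h] at hs
        exact hs rfl
      rw [SF.smul_app, (hlead s).2.1 X (by rw [h]; exact hX), mul_zero]
  -- surjectivity
  have hzmem : ∀ (n : ℕ) (b : B0), (∀ X, X.card ≠ n → (b : SF (SupAdd.zero Ω)) X = 0) →
      b ∈ (aeval x0 : MvPolynomial I ℚ →ₐ[ℚ] B0).range := by
    intro n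
    induction n using Nat.strong_induction_on with
    | _ n ih =>
      rcases Nat.eq_zero_or_pos n with rfl | hn
      · intro b hb
        have : b = algebraMap ℚ B0 ((b : SF (SupAdd.zero Ω)) ∅) := by
          apply Subtype.ext
          apply SF.ext
          intro X
          show (b : SF (SupAdd.zero Ω)) X =
            (algebraMap ℚ (SF (SupAdd.zero Ω)) ((b : SF (SupAdd.zero Ω)) ∅)) X
          rw [SF.algebraMap_app]
          by_cases hX : X = ∅
          · rw [if_pos hX, hX]
          · rw [if_neg hX]
            apply hb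
            rwa [Ne, Finset.card_eq_zero]
        rw [this]
        exact (aeval x0 : MvPolynomial I ℚ →ₐ[ℚ] B0).range.algebraMap_mem _
      · obtain ⟨Kn, hKn⟩ := hbd n
        -- descending induction on the filtration degree
        have hdesc : ∀ d k : ℕ, k + d = Kn + 1 → ∀ b : B0,
            (∀ X, ¬ (X.card = n ∧ k ≤ V.v X) → (b : SF (SupAdd.zero Ω)) X = 0) →
            b ∈ (aeval x0 : MvPolynomial I ℚ →ₐ[ℚ] B0).range := by
          intro d
          induction d with
          | zero =>
            intro k hk b hb
            have : b = 0 := by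
              apply Subtype.ext
              apply SF.ext
              intro X
              apply hb
              rintro ⟨h1, h2⟩
              have := hKn X h1
              omega
            rw [this]
            exact Subalgebra.zero_mem _
          | succ d ihd =>
            intro k hk b hb
            -- the quotient statement: every element of `bg n k` is, up to higher filtration,
            -- in the range
            let R : Submodule ℚ (bg n k) :=
              { carrier := {a | ∃ b' ∈ (aeval x0 : MvPolynomial I ℚ →ₐ[ℚ] B0).range,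
                  ∀ X, (X.card ≠ n → (b' : SF (SupAdd.zero Ω)) X = 0) ∧
                    (V.v X < k → (b' : SF (SupAdd.zero Ω)) X = 0) ∧
                    (V.v X = k → (b' : SF (SupAdd.zero Ω)) X = ((a : B1) : SF V) X)}
                add_mem' := by
                  rintro a1 a2 ⟨b1, hb1, h1⟩ ⟨b2, hb2, h2⟩
                  refine ⟨b1 + b2, Subalgebra.add_mem _ hb1 hb2, fun X => ⟨?_, ?_, ?_⟩⟩
                  · intro h
                    show (b1 : SF (SupAdd.zero Ω)) X + (b2 : SF (SupAdd.zero Ω)) X = 0
                    rw [(h1 X).1 h, (h2 X).1 h, add_zero]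
                  · intro h
                    show (b1 : SF (SupAdd.zero Ω)) X + (b2 : SF (SupAdd.zero Ω)) X = 0
                    rw [(h1 X).2.1 h, (h2 X).2.1 h, add_zero]
                  · intro h
                    show (b1 : SF (SupAdd.zero Ω)) X + (b2 : SF (SupAdd.zero Ω)) X =
                      ((a1 : B1) : SF V) X + ((a2 : B1) : SF V) X
                    rw [(h1 X).2.2 h, (h2 X).2.2 h]
                zero_mem' := ⟨0, Subalgebra.zero_mem _, fun X => ⟨fun _ => rfl, fun _ => rfl,
                  fun _ => rfl⟩⟩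
                smul_mem' := by
                  rintro c a1 ⟨b1, hb1, h1⟩
                  refine ⟨c • b1, Subalgebra.smul_mem _ hb1 c, fun X => ⟨?_, ?_, ?_⟩⟩
                  · intro h
                    show c * (b1 : SF (SupAdd.zero Ω)) X = 0
                    rw [(h1 X).1 h, mul_zero]
                  · intro h
                    show c * (b1 : SF (SupAdd.zero Ω)) X = 0
                    rw [(h1 X).2.1 h, mul_zero]
                  · intro h
                    show c * (b1 : SF (SupAdd.zero Ω)) X = c * ((a1 : B1) : SF V) X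
                    rw [(h1 X).2.2 h] }
            have hKR : K n k ≤ R := by
              -- first for elements of `bidec`, as elements of `B1`
              have aux : ∀ c ∈ bidec V C.V_inv n k,
                  ∃ b' ∈ (aeval x0 : MvPolynomial I ℚ →ₐ[ℚ] B0).range,
                  ∀ X, (X.card ≠ n → (b' : SF (SupAdd.zero Ω)) X = 0) ∧
                    (V.v X < k → (b' : SF (SupAdd.zero Ω)) X = 0) ∧
                    (V.v X = k → (b' : SF (SupAdd.zero Ω)) X = (c : SF V) X) := by
                intro c hc
                induction hc using Submodule.span_induction with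
                | mem c hc =>
                  obtain ⟨i, j, a', b', a, ha, b, hb, hi, hj, hij, hab, rfl⟩ := hc
                  refine ⟨toZero V C.V_inv a * toZero V C.V_inv b,
                    Subalgebra.mul_mem _ (ih i (by omega) _ ?_) (ih j (by omega) _ ?_), ?_⟩
                  · intro X hX
                    exact ha X (fun h => hX h.1)
                  · intro X hX
                    exact hb X (fun h => hX h.1)
                  · have hL : Lead V k ((toZero V C.V_inv a * toZero V C.V_inv b : B0) :
                        SF (SupAdd.zero Ω)) ((a * b : B1) : SF V) := by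
                      rw [← hab]
                      apply Lead.mul
                      · refine ⟨?_, ?_, ?_⟩
                        · intro X hX
                          exact ha X (fun h => by have := h.2; omega)
                        · intro X hX
                          exact ha X (fun h => hX h.2)
                        · intro X _; rfl
                      · refine ⟨?_, ?_, ?_⟩
                        · intro X hX
                          exact hb X (fun h => by have := h.2; omega)
                        · intro X hX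
                          exact hb X (fun h => hX h.2)
                        · intro X _; rfl
                    intro X
                    refine ⟨?_, hL.1 X, hL.2.2 X⟩
                    intro hX
                    show (((toZero V C.V_inv a : B0) : SF (SupAdd.zero Ω)) *
                      ((toZero V C.V_inv b : B0) : SF (SupAdd.zero Ω))) X = 0
                    rw [zero_mul_app]
                    apply Finset.sum_eq_zero
                    intro A hA
                    rw [Finset.mem_powerset] at hA
                    have h1 := Finset.card_sdiff_add_card_eq_card hA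
                    by_cases hAi : A.card = i
                    · have : ((toZero V C.V_inv b : B0) : SF (SupAdd.zero Ω)) (X \ A) = 0 :=
                        hb (X \ A) (fun h => by have := h.1; omega)
                      rw [this, mul_zero]
                    · have : ((toZero V C.V_inv a : B0) : SF (SupAdd.zero Ω)) A = 0 :=
                        ha A (fun h => hAi h.1)
                      rw [this, zero_mul]
                | zero => exact ⟨0, Subalgebra.zero_mem _, fun X => ⟨fun _ => rfl, fun _ => rfl,
                    fun _ => rfl⟩⟩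
                | add c1 c2 _ _ h1 h2 =>
                  obtain ⟨b1, hb1, h1⟩ := h1
                  obtain ⟨b2, hb2, h2⟩ := h2
                  refine ⟨b1 + b2, Subalgebra.add_mem _ hb1 hb2, fun X => ⟨?_, ?_, ?_⟩⟩
                  · intro h
                    show (b1 : SF (SupAdd.zero Ω)) X + (b2 : SF (SupAdd.zero Ω)) X = 0
                    rw [(h1 X).1 h, (h2 X).1 h, add_zero]
                  · intro h
                    show (b1 : SF (SupAdd.zero Ω)) X + (b2 : SF (SupAdd.zero Ω)) X = 0
                    rw [(h1 X).2.1 h, (h2 X).2.1 h, add_zero]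
                  · intro h
                    show (b1 : SF (SupAdd.zero Ω)) X + (b2 : SF (SupAdd.zero Ω)) X =
                      (c1 : SF V) X + (c2 : SF V) X
                    rw [(h1 X).2.2 h, (h2 X).2.2 h]
                | smul c c1 _ h1 =>
                  obtain ⟨b1, hb1, h1⟩ := h1
                  refine ⟨c • b1, Subalgebra.smul_mem _ hb1 c, fun X => ⟨?_, ?_, ?_⟩⟩
                  · intro h
                    show c * (b1 : SF (SupAdd.zero Ω)) X = 0
                    rw [(h1 X).1 h, mul_zero]
                  · intro h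
                    show c * (b1 : SF (SupAdd.zero Ω)) X = 0
                    rw [(h1 X).2.1 h, mul_zero]
                  · intro h
                    show c * (b1 : SF (SupAdd.zero Ω)) X = c * (c1 : SF V) X
                    rw [(h1 X).2.2 h]
              intro a ha
              exact aux _ ha
            have hmap : R.map (K n k).mkQ = ⊤ := by
              apply le_antisymm le_top
              rw [← (bas n k).span_eq, Submodule.span_le]
              rintro _ ⟨i, rfl⟩
              refine ⟨y ⟨⟨⟨n, k⟩, hn⟩, i⟩, ?_, hy ⟨⟨⟨n, k⟩, hn⟩, i⟩⟩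
              refine ⟨x0 ⟨⟨⟨n, k⟩, hn⟩, i⟩, ⟨X ⟨⟨⟨n, k⟩, hn⟩, i⟩, by simp⟩, fun X => ⟨?_, ?_, ?_⟩⟩
              · intro h
                exact (y ⟨⟨⟨n, k⟩, hn⟩, i⟩).2 X (fun h' => h h'.1)
              · intro h
                exact (y ⟨⟨⟨n, k⟩, hn⟩, i⟩).2 X (fun h' => by
                  have h3 : V.v X = k := h'.2
                  omega)
              · intro _
                rfl
            have hR : R = ⊤ := by
              have h1 := Submodule.comap_map_mkQ (K n k) R
              rw [hmap, Submodule.comap_top] at h1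
              rw [eq_comm, sup_eq_right.mpr hKR] at h1
              exact h1
            -- the leading part of `b`
            have hbn : ofZero V C.V_inv b ∈ grade V C.V_inv n := by
              intro X hX
              exact hb X (fun h => hX h.1)
            have hl : (⟨vpr V C.V_inv k (ofZero V C.V_inv b),
                vpr_mem_bigrade V C.V_inv k hbn⟩ : bg n k) ∈ R := by
              rw [hR]; trivial
            obtain ⟨b', hb', hb''⟩ := hl
            have hdiff := ihd (k + 1) (by omega) (b - b') (by
              intro X hX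
              show (b : SF (SupAdd.zero Ω)) X - (b' : SF (SupAdd.zero Ω)) X = 0
              by_cases hcX : X.card = n
              · have hvX : V.v X < k + 1 := by
                  by_contra h
                  exact hX ⟨hcX, by omega⟩
                rcases Nat.lt_succ_iff_lt_or_eq.mp hvX with h | h
                · rw [hb X (fun h' => by have := h'.2; omega), (hb'' X).2.1 h, sub_zero]
                · rw [(hb'' X).2.2 h]
                  show (b : SF (SupAdd.zero Ω)) X -
                    (if V.v X = k then (b : SF (SupAdd.zero Ω)) X else 0) = 0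
                  rw [if_pos h, sub_self]
              · rw [hb X (fun h => hcX h.1), (hb'' X).1 hcX, sub_zero])
            have := Subalgebra.add_mem _ hdiff hb'
            rwa [sub_add_cancel] at this
        intro b hb
        exact hdesc (Kn + 1) 0 (by omega) b (fun X hX => hb X (fun h => hX ⟨h, Nat.zero_le _⟩))
  have hsurj0 : Function.Surjective (aeval x0 : MvPolynomial I ℚ →ₐ[ℚ] B0) := by
    intro b
    obtain ⟨hbi, N, hN⟩ := b.2
    have hc : ∀ n, comp n (b : SF (SupAdd.zero Ω)) ∈ B0 := by
      intro n
      refine ⟨comp_inv n hbi, n, ?_⟩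
      intro X hX
      rw [comp_app, if_neg (by omega)]
    have hsum : b = ∑ n ∈ Finset.range (N + 1), (⟨comp n (b : SF (SupAdd.zero Ω)), hc n⟩ : B0) := by
      apply Subtype.ext
      rw [AddSubmonoidClass.coe_finsetSum]
      apply SF.ext
      intro X
      have sum_app : ∀ (s : Finset ℕ) (F : ℕ → SF (SupAdd.zero Ω)) (Y : Finset Ω),
          (∑ A ∈ s, F A) Y = ∑ A ∈ s, F A Y := by
        intro s F Y
        exact Finset.sum_apply Y s F
      rw [sum_app]
      simp only [comp_app]
      rw [Finset.sum_ite_eq]
      split_ifs with h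
      · rfl
      · apply hN
        rw [Finset.mem_range] at h
        omega
    have : b ∈ (aeval x0 : MvPolynomial I ℚ →ₐ[ℚ] B0).range := by
      rw [hsum]
      apply Subalgebra.sum_mem
      intro n _
      apply hzmem n
      intro X hX
      show comp n (b : SF (SupAdd.zero Ω)) X = 0
      rw [comp_app, if_neg hX]
    exact this
  exact ⟨I, ⟨AlgEquiv.ofBijective _ ⟨hinj0, hsurj0⟩⟩⟩

end Pool.Agent.MPec220f
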