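import Pool.Agent.Lib_MP_ec220f_lc.Couple
import Pool.Agent.Lib_MP_ec220f_lc.Bridge

/-!
From families of finite connected graphs to test graphs, and the final theorem.
-/

namespace MPec220f

open Finset Function

/-- A graph on `Fin n` as a graph on the natural numbers. -/
def natGraph (F : FinGraph) : SimpleGraph ℕ where
  Adj i j := ∃ a b, F.2.Adj a b ∧ a.1 = i ∧ b.1 = j
  symm := ⟨fun _ _ ⟨a, b, h, ha, hb⟩ => ⟨b, a, h.symm, hb, ha⟩⟩
  loopless := ⟨by
    rintro i ⟨a, b, h, ha, hb⟩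
    have : a = b := Fin.ext (ha.trans hb.symm)
    subst this
    exact F.2.irrefl h⟩

/-- The test graph of a connected graph with at least two vertices. -/
def TG.ofFin (F : FinGraph) (hc : F.2.Connected) (h2 : 2 ≤ F.1) : TG where
  n := F.1
  G := natGraph F
  lt := by
    rintro i j ⟨a, b, -, rfl, -⟩
    exact a.2
  conn := by
    intro i hi j hj
    have h := hc.preconnected ⟨i, hi⟩ ⟨j, hj⟩
    exact h.map (⟨fun a => a.1, fun {a b} hab => ⟨a, b, hab, rfl, rfl⟩⟩ : F.2 →g natGraph F)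
  two := h2

/-- The family of test graphs. -/
def tgs (𝓕 : Set FinGraph) : Set TG :=
  {T | ∃ F ∈ 𝓕, ∃ (hc : F.2.Connected) (h2 : 2 ≤ F.1), T = TG.ofFin F hc h2}

theorem hf_of_isFree {𝓕 : Set FinGraph} (hhom : HomClosed 𝓕) {W : Type} {H : SimpleGraph W}
    (h : IsFree 𝓕 H) : HF (tgs 𝓕) H := by
  classical
  rintro T ⟨F, hF, hc, h2, rfl⟩ f hf
  set g : Fin F.1 → W := fun a => f a.1 with hg
  have hgh : ∀ a b, F.2.Adj a b → H.Adj (g a) (g b) := by
    intro a b hab
    exact hf _ _ ⟨a, b, hab, rfl, rfl⟩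
  set s : Finset W := Finset.univ.image g with hs
  have hgs : ∀ a, g a ∈ s := fun a => Finset.mem_image_of_mem _ (Finset.mem_univ a)
  let H' : SimpleGraph (Fin s.card) := H.comap fun i => (s.equivFin.symm i).1
  refine hhom F hF ⟨s.card, H'⟩ ⟨fun a => s.equivFin ⟨g a, hgs a⟩, ?_⟩ ?_
  · intro a b hab
    show H.Adj _ _
    simp only [Equiv.symm_apply_apply]
    exact hgh a b hab
  · intro F' hF' f' hf' hadj
    refine h F' hF' (fun a => (s.equivFin.symm (f' a)).1) ?_ fun a b hab => hadj a b hab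
    intro a b hab
    exact hf' (s.equivFin.symm.injective (Subtype.ext hab))

theorem isFree_of_hf {𝓕 : Set FinGraph} (hconn : ∀ F ∈ 𝓕, F.2.Connected)
    (h2 : ∀ F ∈ 𝓕, 2 ≤ F.1) {W : Type} {H : SimpleGraph W} (h : HF (tgs 𝓕) H) :
    IsFree 𝓕 H := by
  intro F hF f _ hf
  have h0 : 0 < F.1 := lt_of_lt_of_le (by norm_num) (h2 F hF)
  refine h (TG.ofFin F (hconn F hF) (h2 F hF)) ⟨F, hF, _, _, rfl⟩
    (fun i => if hi : i < F.1 then f ⟨i, hi⟩ else f ⟨0, h0⟩) ?_
  intro i j hij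
  obtain ⟨a, b, hab, rfl, rfl⟩ := hij
  simp only [Fin.is_lt, dif_pos, Fin.eta]
  exact hf a b hab

theorem hc_tgs {𝓕 : Set FinGraph} (hconn : ∀ F ∈ 𝓕, F.2.Connected)
    (h2 : ∀ F ∈ 𝓕, 2 ≤ F.1) (hhom : HomClosed 𝓕) : HC (tgs 𝓕) := by
  intro W H hno
  have h1 : ¬ IsFree 𝓕 H := fun h => hno (hf_of_isFree hhom h)
  have h3 : ∃ F ∈ 𝓕, ∃ f : Fin F.1 → W, Injective f ∧ ∀ a b, F.2.Adj a b → H.Adj (f a) (f b) := by
    by_contra hcon
    exact h1 fun F hF f hf hadj => hcon ⟨F, hF, f, hf, hadj⟩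
  obtain ⟨F, hF, f, hf, hadj⟩ := h3
  have h0 : 0 < F.1 := lt_of_lt_of_le (by norm_num) (h2 F hF)
  refine ⟨TG.ofFin F (hconn F hF) (h2 F hF), ⟨F, hF, _, _, rfl⟩,
    fun i => if hi : i < F.1 then f ⟨i, hi⟩ else f ⟨0, h0⟩, ?_, ?_⟩
  · intro i j hij
    obtain ⟨a, b, hab, rfl, rfl⟩ := hij
    simp only [Fin.is_lt, dif_pos, Fin.eta]
    exact hadj a b hab
  · intro i hi j hj hij
    have hi' : i < F.1 := hi
    have hj' : j < F.1 := hj
    simp only [dif_pos hi', dif_pos hj'] at hij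
    exact congrArg Fin.val (hf hij)

/-- The orbit algebra of a permutation group on the empty set. -/
theorem polynomial_of_isEmpty {V : Type} [DecidableEq V] [IsEmpty V]
    (G : Subgroup (Equiv.Perm V)) :
    ∃ σ : Type, Nonempty (MvPolynomial σ ℚ ≃ₐ[ℚ] orbitAlgebra G) := by
  refine ⟨Empty, ⟨(MvPolynomial.isEmptyAlgEquiv ℚ Empty).trans ?_⟩⟩
  refine AlgEquiv.ofBijective (Algebra.ofId ℚ (orbitAlgebra G)) ⟨?_, ?_⟩
  · intro a b hab
    have h1 := congrArg (fun x : orbitAlgebra G => (x : SetFun V) ∅) hab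
    have h3 : ∀ c : ℚ, ((Algebra.ofId ℚ (orbitAlgebra G) c : orbitAlgebra G) : SetFun V) ∅ = c := by
      intro c
      show (algebraMap ℚ (SetFun V) c) ∅ = c
      rw [SetFun.algebraMap_apply, if_pos rfl]
    simp only [h3] at h1
    exact h1
  · rintro ⟨f, hf⟩
    refine ⟨f ∅, Subtype.ext (SetFun.ext fun S => ?_)⟩
    have hS : S = ∅ := Finset.eq_empty_of_isEmpty S
    subst hS
    show (algebraMap ℚ (SetFun V) (f ∅)) ∅ = f ∅
    rw [SetFun.algebraMap_apply, if_pos rfl]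

/-- The orbit algebra of the existentially complete `𝓕`-free graph is a polynomial
algebra, for `𝓕` closed under homomorphic images. -/
theorem polynomial_of_homClosed {𝓕 : Set FinGraph} (hfin : 𝓕.Finite)
    (hconn : ∀ F ∈ 𝓕, F.2.Connected) (hhom : HomClosed 𝓕) {V : Type} [Countable V]
    [inst : DecidableEq V] (Γ : SimpleGraph V) (hEC : IsEC 𝓕 Γ) :
    ∃ σ : Type, Nonempty (MvPolynomial σ ℚ ≃ₐ[ℚ] orbitAlgebra (autSub Γ)) := by
  by_cases h2 : ∀ F ∈ 𝓕, 2 ≤ F.1
  · obtain ⟨m, hm⟩ : ∃ m : ℕ, ∀ F ∈ 𝓕, F.1 ≤ m := by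
      obtain ⟨m, hm⟩ := (hfin.image (fun F : FinGraph => F.1)).bddAbove
      exact ⟨m, fun F hF => hm ⟨F, hF, rfl⟩⟩
    have hbd : ∀ T ∈ tgs 𝓕, T.n ≤ m := by
      rintro T ⟨F, hF, hc, h2, rfl⟩
      exact hm F hF
    have hec : EC (tgs 𝓕) Γ := by
      intro W H hH j hj hjadj S
      exact hEC.2 W H (isFree_of_hf hconn h2 hH) ⟨⟨j, hj⟩, fun {a b} => hjadj a b⟩ S
    obtain ⟨lam0, h0⟩ := exists_injective_nat V
    have hdec : inst = fun a b => Classical.propDecidable (a = b) :=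
      Subsingleton.elim _ _
    rw [hdec]
    exact @polynomial_of_coupling V (fun a b => Classical.propDecidable (a = b)) _ (autSub Γ)
      (coupling (hc_tgs hconn h2 hhom) hbd (hf_of_isFree hhom hEC.1) hec h0)
  · -- a member with one vertex: the graph is empty
    push Not at h2
    obtain ⟨F, hF, hlt⟩ := h2
    have : IsEmpty V := by
      refine ⟨fun v => hEC.1 F hF (fun _ => v) ?_ ?_⟩
      · intro a b _
        apply Fin.ext
        have := a.2
        have := b.2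
        omega
      · intro a b hab
        have h3 : a = b := by
          apply Fin.ext
          have := a.2
          have := b.2
          omega
        subst h3
        exact (F.2.irrefl hab).elim
    exact polynomial_of_isEmpty _

end MPec220f
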