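import Pool.Agent.Lib_MP_ec220f_lc.EquiNeumann

/-!
Generic linear orders for closed permutation groups with finite algebraic closures.
-/

namespace MPec220fB

open Finset Function

variable {V : Type}

/-- The orbit of `x` under the pointwise stabiliser of `A`. -/
def FixOrb (G : Subgroup (Equiv.Perm V)) (A : Finset V) (x : V) : Set V :=
  {y | ∃ g ∈ G, (∀ a ∈ A, g a = a) ∧ g x = y}

/-- Algebraically closed finite sets. -/
def IsCl (G : Subgroup (Equiv.Perm V)) (A : Finset V) : Prop :=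
  ∀ x, (FixOrb G A x).Finite → x ∈ A

/-- The pointwise stabiliser in `G` of a finite set. -/
def fixG (G : Subgroup (Equiv.Perm V)) (A : Finset V) : Subgroup (Equiv.Perm V) where
  carrier := {g | g ∈ G ∧ ∀ a ∈ A, g a = a}
  mul_mem' := by
    rintro g h ⟨hg, hg'⟩ ⟨hh, hh'⟩
    refine ⟨G.mul_mem hg hh, fun a ha => ?_⟩
    rw [Equiv.Perm.mul_apply, hh' a ha, hg' a ha]
  one_mem' := ⟨G.one_mem, fun a _ => rfl⟩
  inv_mem' := by
    rintro g ⟨hg, hg'⟩
    refine ⟨G.inv_mem hg, fun a ha => ?_⟩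
    rw [Equiv.Perm.inv_eq_iff_eq]
    exact (hg' a ha).symm

/-- Neumann's lemma, moving points outside a closed set. -/
theorem move {G : Subgroup (Equiv.Perm V)} {A : Finset V} (hA : IsCl G A) (B Z : Finset V) :
    ∃ g ∈ G, (∀ a ∈ A, g a = a) ∧ ∀ b ∈ B, b ∉ A → g b ∉ Z := by
  classical
  obtain ⟨g, hg⟩ := MPec220fX.neumann_infinite (G := fixG G A) (V := V)
    (A := B.filter fun b => b ∉ A) (Z := Z) (by
      intro b hb hfin
      refine (Finset.mem_filter.mp hb).2 (hA b (hfin.subset ?_))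
      rintro y ⟨g, hg, hgA, rfl⟩
      exact ⟨⟨g, hg, hgA⟩, rfl⟩)
  exact ⟨g.1, g.2.1, g.2.2, fun b hb hbA => hg b (Finset.mem_filter.mpr ⟨hb, hbA⟩)⟩

theorem fixOrb_image (G : Subgroup (Equiv.Perm V)) [DecidableEq V] {A : Finset V}
    {g : Equiv.Perm V} (hg : g ∈ G) (x : V) :
    FixOrb G (A.image g) x = g '' FixOrb G A (g⁻¹ x) := by
  ext y
  constructor
  · rintro ⟨h, hh, hhA, rfl⟩
    refine ⟨g⁻¹ (h x), ⟨g⁻¹ * h * g, ?_, ?_, ?_⟩, ?_⟩
    · exact G.mul_mem (G.mul_mem (G.inv_mem hg) hh) hg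
    · intro a ha
      rw [Equiv.Perm.mul_apply, Equiv.Perm.mul_apply, hhA _ (Finset.mem_image_of_mem _ ha)]
      simp
    · simp [Equiv.Perm.mul_apply]
    · simp
  · rintro ⟨z, ⟨h, hh, hhA, rfl⟩, rfl⟩
    refine ⟨g * h * g⁻¹, ?_, ?_, ?_⟩
    · exact G.mul_mem (G.mul_mem hg hh) (G.inv_mem hg)
    · intro b hb
      obtain ⟨a, ha, rfl⟩ := Finset.mem_image.mp hb
      simp [Equiv.Perm.mul_apply, hhA a ha]
    · simp [Equiv.Perm.mul_apply]

theorem IsCl.image {G : Subgroup (Equiv.Perm V)} [DecidableEq V] {A : Finset V} (hA : IsCl G A)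
    {g : Equiv.Perm V} (hg : g ∈ G) : IsCl G (A.image g) := by
  intro x hx
  rw [fixOrb_image G hg] at hx
  have h1 : (FixOrb G A (g⁻¹ x)).Finite := (Set.finite_image_iff g.injective.injOn).mp hx
  have h2 := hA _ h1
  exact Finset.mem_image.mpr ⟨_, h2, by simp⟩

/-- Closures are closed. -/
theorem exists_cl {G : Subgroup (Equiv.Perm V)}
    (hcl : ∀ A : Finset V, {x | (FixOrb G A x).Finite}.Finite) (A : Finset V) :
    ∃ B : Finset V, A ⊆ B ∧ IsCl G B := by
  classical
  set S := (hcl A).toFinset with hS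
  have hSm : ∀ x, x ∈ S ↔ (FixOrb G A x).Finite := by
    intro x
    rw [hS, Set.Finite.mem_toFinset, Set.mem_ofPred_eq]
  have hAS : A ⊆ S := by
    intro a ha
    rw [hSm]
    refine (Set.finite_singleton a).subset ?_
    rintro y ⟨g, -, hgA, rfl⟩
    exact hgA a ha
  refine ⟨S, hAS, fun x hx => ?_⟩
  rw [hSm]
  -- restrictions of the stabiliser of `A` to `S`
  set R : Set (S → V) := {r | ∃ g ∈ G, (∀ a ∈ A, g a = a) ∧ ∀ s : S, g s = r s} with hR
  have hRfin : R.Finite := by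
    refine (Set.Finite.pi' (fun s : S => (hSm s.1).mp s.2)).subset ?_
    rintro r ⟨g, hg, hgA, hgr⟩ s
    exact ⟨g, hg, hgA, hgr s⟩
  have hch : ∀ r : S → V, ∃ g : Equiv.Perm V, r ∈ R →
      (g ∈ G ∧ (∀ a ∈ A, g a = a) ∧ ∀ s : S, g s = r s) := by
    intro r
    by_cases hr : r ∈ R
    · obtain ⟨g, h1, h2, h3⟩ := hr
      exact ⟨g, fun _ => ⟨h1, h2, h3⟩⟩
    · exact ⟨1, fun h => absurd h hr⟩
  choose G0 hG0 using hch
  refine (hRfin.biUnion (t := fun r => G0 r '' FixOrb G S x) (fun r _ => hx.image _)).subset ?_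
  rintro y ⟨g, hg, hgA, rfl⟩
  have hr : (fun s : S => g s) ∈ R := ⟨g, hg, hgA, fun _ => rfl⟩
  obtain ⟨h1, h2, h3⟩ := hG0 _ hr
  refine Set.mem_biUnion hr ⟨(G0 fun s : S => g s)⁻¹ (g x), ⟨(G0 fun s : S => g s)⁻¹ * g, ?_, ?_, ?_⟩, ?_⟩
  · exact G.mul_mem (G.inv_mem h1) hg
  · intro s hs
    have := h3 ⟨s, hs⟩
    rw [Equiv.Perm.mul_apply, Equiv.Perm.inv_eq_iff_eq]
    exact this.symm
  · rfl
  · simp

/-- Extension of rational labels along an order. -/
theorem ext_labels [DecidableEq V] (A C : Finset V) (hAC : Disjoint A C) (q : V → ℚ)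
    (hq : Set.InjOn q (A ∪ C : Finset V)) (r : V → ℚ)
    (hr : ∀ a ∈ A, ∀ b ∈ A, q a < q b ↔ r a < r b) (Z : Finset ℚ) :
    ∃ r' : V → ℚ, (∀ a ∈ A, r' a = r a) ∧
      (∀ a ∈ A ∪ C, ∀ b ∈ A ∪ C, q a < q b ↔ r' a < r' b) ∧ ∀ b ∈ C, r' b ∉ Z := by
  classical
  induction C using Finset.induction_on with
  | empty =>
    refine ⟨r, fun _ _ => rfl, ?_, fun b hb => absurd hb (Finset.notMem_empty _)⟩
    simpa using hr
  | @insert c C hc ih =>
    have hcA : c ∉ A := fun h =>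
      (Finset.disjoint_left.mp hAC h) (Finset.mem_insert_self c C)
    have hAC' : Disjoint A C := hAC.mono_right (Finset.subset_insert c C)
    obtain ⟨r', h1, h2, h3⟩ := ih hAC' (hq.mono (by
      intro x hx
      simp only [Finset.coe_union, Finset.coe_insert, Set.mem_union, Set.mem_insert_iff,
        Finset.mem_coe] at hx ⊢
      tauto))
    set lo := ((A ∪ C).filter fun a => q a < q c).image r' with hlo
    set hi := ((A ∪ C).filter fun a => q c < q a).image r' ∪ Z.filter (fun z => ∀ x ∈ lo, x < z)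
      with hhi
    obtain ⟨m, hm1, hm2⟩ := Order.exists_between_finsets lo hi (by
      intro x hx y hy
      rcases Finset.mem_union.mp hy with hy | hy
      · obtain ⟨a, ha, rfl⟩ := Finset.mem_image.mp hx
        obtain ⟨b, hb, rfl⟩ := Finset.mem_image.mp hy
        obtain ⟨ha1, ha2⟩ := Finset.mem_filter.mp ha
        obtain ⟨hb1, hb2⟩ := Finset.mem_filter.mp hb
        exact (h2 a ha1 b hb1).mp (ha2.trans hb2)
      · exact (Finset.mem_filter.mp hy).2 x hx)
    have hmZ : m ∉ Z := by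
      intro hmZ
      by_cases h : ∀ x ∈ lo, x < m
      · exact absurd (hm2 m (Finset.mem_union_right _ (Finset.mem_filter.mpr ⟨hmZ, h⟩)))
          (lt_irrefl m)
      · exact h hm1
    have hcU : c ∉ A ∪ C := by
      rw [Finset.mem_union]
      tauto
    have hlt1 : ∀ a ∈ A ∪ C, q a < q c → r' a < m := fun a ha h =>
      hm1 _ (Finset.mem_image_of_mem _ (Finset.mem_filter.mpr ⟨ha, h⟩))
    have hlt2 : ∀ a ∈ A ∪ C, q c < q a → m < r' a := fun a ha h =>
      hm2 _ (Finset.mem_union_left _ (Finset.mem_image_of_mem _ (Finset.mem_filter.mpr ⟨ha, h⟩)))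
    have hne : ∀ a ∈ A ∪ C, q a ≠ q c := by
      intro a ha h
      have : a = c := hq (by
        simp only [Finset.coe_union, Finset.coe_insert, Set.mem_union, Set.mem_insert_iff,
          Finset.mem_coe]
        rw [Finset.mem_union] at ha
        tauto) (by simp) h
      exact hcU (this ▸ ha)
    refine ⟨Function.update r' c m, ?_, ?_, ?_⟩
    · intro a ha
      have : a ≠ c := fun h => hcA (h ▸ ha)
      rw [Function.update_of_ne this]
      exact h1 a ha
    · intro a ha b hb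
      rw [Finset.union_insert, Finset.mem_insert] at ha hb
      rcases ha with rfl | ha <;> rcases hb with rfl | hb
      · simp
      · have hb' : b ≠ a := fun h => hcU (h ▸ hb)
        rw [Function.update_self, Function.update_of_ne hb']
        constructor
        · exact hlt2 b hb
        · intro h
          rcases lt_or_gt_of_ne (hne b hb) with h' | h'
          · exact absurd (hlt1 b hb h') (not_lt.mpr h.le)
          · exact h'
      · have ha' : a ≠ b := fun h => hcU (h ▸ ha)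
        rw [Function.update_self, Function.update_of_ne ha']
        constructor
        · exact hlt1 a ha
        · intro h
          rcases lt_or_gt_of_ne (hne a ha) with h' | h'
          · exact h'
          · exact absurd (hlt2 a ha h') (not_lt.mpr h.le)
      · have ha' : a ≠ c := fun h => hcU (h ▸ ha)
        have hb' : b ≠ c := fun h => hcU (h ▸ hb)
        rw [Function.update_of_ne ha', Function.update_of_ne hb']
        exact h2 a ha b hb
    · intro b hb
      rcases Finset.mem_insert.mp hb with rfl | hb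
      · rw [Function.update_self]; exact hmZ
      · have : b ≠ c := fun h => hc (h ▸ hb)
        rw [Function.update_of_ne this]
        exact h3 b hb

/-- A sorted enumeration. -/
theorem sorted_list [DecidableEq V] (q : V → ℚ) (B : Finset V) (hq : Set.InjOn q B) :
    ∃ l : List V, l.Nodup ∧ (∀ x, x ∈ l ↔ x ∈ B) ∧
      ∀ x ∈ B, ∀ y ∈ B, l.idxOf x < l.idxOf y ↔ q x < q y := by
  classical
  induction B using Finset.induction_on_max_value q with
  | empty => exact ⟨[], List.nodup_nil, by simp, by simp⟩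
  | @insert a B ha hmax ih =>
    obtain ⟨l, h1, h2, h3⟩ := ih (hq.mono (by simp))
    have hal : a ∉ l := fun h => ha ((h2 a).mp h)
    refine ⟨l ++ [a], ?_, ?_, ?_⟩
    · rw [List.nodup_append]
      refine ⟨h1, List.nodup_singleton a, ?_⟩
      intro x hx y hy
      rw [List.mem_singleton] at hy
      rintro rfl
      exact hal (hy ▸ hx)
    · intro x
      rw [List.mem_append, List.mem_singleton, Finset.mem_insert, h2]
      tauto
    · have hi : ∀ x ∈ B, (l ++ [a]).idxOf x = l.idxOf x := fun x hx =>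
        List.idxOf_append_of_mem ((h2 x).mpr hx)
      have hia : (l ++ [a]).idxOf a = l.length := by
        rw [List.idxOf_append_of_notMem hal]
        simp
      have hlt : ∀ x ∈ B, l.idxOf x < l.length := fun x hx =>
        List.idxOf_lt_length_iff.mpr ((h2 x).mpr hx)
      have hqlt : ∀ x ∈ B, q x < q a := by
        intro x hx
        refine lt_of_le_of_ne (hmax x hx) fun h => ?_
        have := hq (by simp [hx]) (by simp) h
        exact ha (this ▸ hx)
      intro x hx0 y hy0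
      have hx1 := Finset.mem_insert.mp hx0
      have hy1 := Finset.mem_insert.mp hy0
      clear hx0 hy0
      rcases hx1 with hx | hx <;> rcases hy1 with hy | hy
      · rw [hx, hy]; simp
      · rw [hx, hi y hy, hia]
        have h4 := hlt y hy
        have h5 := hqlt y hy
        constructor
        · intro h; omega
        · intro h; exact absurd h (not_lt.mpr h5.le)
      · rw [hy, hi x hx, hia]
        exact ⟨fun _ => hqlt x hx, fun _ => hlt x hx⟩
      · rw [hi x hx, hi y hy]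
        exact h3 x hx y hy

/-- A requirement is met. -/
def Met (G : Subgroup (Equiv.Perm V)) [DecidableEq V] (A : Finset V) (l : List V) (Z : Finset V)
    (S : Finset V) (lam : V → ℚ) : Prop :=
  ∃ g ∈ G, (∀ a ∈ A, g a = a) ∧ (∀ x ∈ l, x ∉ A → g x ∉ Z) ∧ (∀ x ∈ l, g x ∈ S) ∧
    ∀ x ∈ l, ∀ y ∈ l, l.idxOf x < l.idxOf y ↔ lam (g x) < lam (g y)

/-- One step of the construction. -/
theorem step_exists (G : Subgroup (Equiv.Perm V)) [DecidableEq V] (A : Finset V) (l : List V)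
    (Z : Finset V) (v : V) (S : Finset V) (lam : V → ℚ) (hlam : Set.InjOn lam S) :
    ∃ (S' : Finset V) (lam' : V → ℚ), S ⊆ S' ∧ (∀ x ∈ S, lam' x = lam x) ∧
      Set.InjOn lam' S' ∧ v ∈ S' ∧
      (A ⊆ S → IsCl G A → l.Nodup → (∀ a ∈ A, a ∈ l) →
        (∀ a ∈ A, ∀ b ∈ A, l.idxOf a < l.idxOf b ↔ lam a < lam b) → Met G A l Z S' lam') := by
  classical
  -- adding one point
  have hadd : ∀ (S : Finset V) (lam : V → ℚ), Set.InjOn lam S → ∃ (S' : Finset V) (lam' : V → ℚ),
      S ⊆ S' ∧ (∀ x ∈ S, lam' x = lam x) ∧ Set.InjOn lam' S' ∧ v ∈ S' := by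
    intro S lam hlam
    by_cases hv : v ∈ S
    · exact ⟨S, lam, subset_refl _, fun _ _ => rfl, hlam, hv⟩
    · obtain ⟨m, hm⟩ := Infinite.exists_notMem_finset (S.image lam)
      refine ⟨insert v S, Function.update lam v m, Finset.subset_insert _ _, ?_, ?_,
        Finset.mem_insert_self _ _⟩
      · intro x hx
        have : x ≠ v := fun h => hv (h ▸ hx)
        rw [Function.update_of_ne this]
      · intro x hx y hy hxy
        rw [Finset.mem_coe, Finset.mem_insert] at hx hy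
        rcases hx with rfl | hx <;> rcases hy with rfl | hy
        · rfl
        · have : y ≠ x := fun h => hv (h ▸ hy)
          rw [Function.update_self, Function.update_of_ne this] at hxy
          exact absurd (Finset.mem_image.mpr ⟨y, hy, hxy.symm⟩) hm
        · have : x ≠ y := fun h => hv (h ▸ hx)
          rw [Function.update_self, Function.update_of_ne this] at hxy
          exact absurd (Finset.mem_image.mpr ⟨x, hx, hxy⟩) hm
        · have h1 : x ≠ v := fun h => hv (h ▸ hx)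
          have h2 : y ≠ v := fun h => hv (h ▸ hy)
          rw [Function.update_of_ne h1, Function.update_of_ne h2] at hxy
          exact hlam hx hy hxy
  by_cases hc : A ⊆ S ∧ IsCl G A ∧ l.Nodup ∧ (∀ a ∈ A, a ∈ l) ∧
      (∀ a ∈ A, ∀ b ∈ A, l.idxOf a < l.idxOf b ↔ lam a < lam b)
  swap
  · obtain ⟨S', lam', h1, h2, h3, h4⟩ := hadd S lam hlam
    exact ⟨S', lam', h1, h2, h3, h4, fun a b c d e => absurd ⟨a, b, c, d, e⟩ hc⟩
  obtain ⟨hAS, hcl, hnd, hAl, hord⟩ := hc
  obtain ⟨g, hg, hgA, hgZ⟩ := move hcl l.toFinset (Z ∪ S)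
  set B := l.toFinset.image g with hB
  have hAB : A ⊆ B := by
    intro a ha
    exact Finset.mem_image.mpr ⟨a, by simpa using hAl a ha, hgA a ha⟩
  set q : V → ℚ := fun y => (l.idxOf (g⁻¹ y) : ℚ) with hq
  have hqinj : Set.InjOn q B := by
    intro x hx y hy hxy
    rw [Finset.mem_coe] at hx hy
    obtain ⟨x', hx', rfl⟩ := Finset.mem_image.mp hx
    obtain ⟨y', hy', rfl⟩ := Finset.mem_image.mp hy
    have e1 : g⁻¹ (g x') = x' := by simp
    have e2 : g⁻¹ (g y') = y' := by simp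
    simp only [hq, e1, e2, Nat.cast_inj] at hxy
    rw [List.idxOf_inj (by simpa using hx')] at hxy
    rw [hxy]
  have hABu : A ∪ (B \ A) = B := Finset.union_sdiff_of_subset hAB
  obtain ⟨r, hr1, hr2, hr3⟩ := ext_labels A (B \ A) Finset.disjoint_sdiff q
    (by rw [hABu]; exact hqinj) lam (by
      intro a ha b hb
      have h1 : g⁻¹ a = a := by rw [Equiv.Perm.inv_eq_iff_eq]; exact (hgA a ha).symm
      have h2 : g⁻¹ b = b := by rw [Equiv.Perm.inv_eq_iff_eq]; exact (hgA b hb).symm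
      simp only [hq, h1, h2, Nat.cast_lt]
      exact hord a ha b hb) (S.image lam)
  rw [hABu] at hr2
  have hBS : ∀ y ∈ B, y ∈ S → y ∈ A := by
    intro y hy hyS
    obtain ⟨x, hx, rfl⟩ := Finset.mem_image.mp hy
    by_contra hxA
    by_cases h : x ∈ A
    · rw [hgA x h] at hxA
      exact hxA h
    · exact hgZ x hx h (Finset.mem_union_right _ hyS)
  set lam1 : V → ℚ := fun y => if y ∈ S then lam y else r y with hlam1
  have hlamB : ∀ y ∈ B, lam1 y = r y := by
    intro y hy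
    by_cases hyS : y ∈ S
    · simp only [hlam1, if_pos hyS]
      exact (hr1 y (hBS y hy hyS)).symm
    · simp only [hlam1, if_neg hyS]
  have hlamS : ∀ y ∈ S, lam1 y = lam y := fun y hy => by simp only [hlam1, if_pos hy]
  have hrB : ∀ y ∈ B, y ∉ S → r y ∉ S.image lam := by
    intro y hy hyS
    exact hr3 y (Finset.mem_sdiff.mpr ⟨hy, fun h => hyS (hAS h)⟩)
  have hinj1 : Set.InjOn lam1 (S ∪ B : Finset V) := by
    intro x hx y hy hxy
    rw [Finset.mem_coe, Finset.mem_union] at hx hy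
    by_cases hxS : x ∈ S <;> by_cases hyS : y ∈ S
    · rw [hlamS x hxS, hlamS y hyS] at hxy
      exact hlam hxS hyS hxy
    · have hyB := hy.resolve_left hyS
      rw [hlamS x hxS, hlamB y hyB] at hxy
      exact absurd (Finset.mem_image.mpr ⟨x, hxS, hxy⟩) (hrB y hyB hyS)
    · have hxB := hx.resolve_left hxS
      rw [hlamS y hyS, hlamB x hxB] at hxy
      exact absurd (Finset.mem_image.mpr ⟨y, hyS, hxy.symm⟩) (hrB x hxB hxS)
    · have hxB := hx.resolve_left hxS
      have hyB := hy.resolve_left hyS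
      rw [hlamB x hxB, hlamB y hyB] at hxy
      refine hqinj hxB hyB (le_antisymm ?_ ?_)
      · rw [← not_lt, hr2 y hyB x hxB, hxy]; exact lt_irrefl _
      · rw [← not_lt, hr2 x hxB y hyB, hxy]; exact lt_irrefl _
  obtain ⟨S', lam', h1, h2, h3, h4⟩ := hadd _ _ hinj1
  refine ⟨S', lam', Finset.subset_union_left.trans h1, ?_, h3, h4, fun _ _ _ _ _ => ?_⟩
  · intro x hx
    rw [h2 x (Finset.mem_union_left _ hx), hlamS x hx]
  · have hgB : ∀ x ∈ l, g x ∈ B := fun x hx => Finset.mem_image_of_mem _ (by simpa using hx)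
    refine ⟨g, hg, hgA, ?_, fun x hx => h1 (Finset.mem_union_right _ (hgB x hx)), ?_⟩
    · intro x hx hxA h
      exact hgZ x (by simpa using hx) hxA (Finset.mem_union_left _ h)
    · intro x hx y hy
      rw [h2 _ (Finset.mem_union_right _ (hgB x hx)), h2 _ (Finset.mem_union_right _ (hgB y hy)),
        hlamB _ (hgB x hx), hlamB _ (hgB y hy), ← hr2 _ (hgB x hx) _ (hgB y hy)]
      simp [hq]

/-- A generic labelling. -/
theorem exists_generic [Countable V] [DecidableEq V] (G : Subgroup (Equiv.Perm V)) :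
    ∃ lam : V → ℚ, Injective lam ∧ ∀ (A : Finset V) (l : List V) (Z : Finset V), IsCl G A →
      l.Nodup → (∀ a ∈ A, a ∈ l) →
      (∀ a ∈ A, ∀ b ∈ A, l.idxOf a < l.idxOf b ↔ lam a < lam b) →
      ∃ g ∈ G, (∀ a ∈ A, g a = a) ∧ (∀ x ∈ l, x ∉ A → g x ∉ Z) ∧
        ∀ x ∈ l, ∀ y ∈ l, l.idxOf x < l.idxOf y ↔ lam (g x) < lam (g y) := by
  classical
  rcases isEmpty_or_nonempty V with hV | hV
  · refine ⟨fun _ => 0, fun x => (hV.false x).elim, fun A l Z _ _ _ _ => ⟨1, G.one_mem,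
      fun a => (hV.false a).elim, fun x => (hV.false x).elim, fun x => (hV.false x).elim⟩⟩
  obtain ⟨v0⟩ := hV
  have hne : Nonempty ((Finset V × List V × Finset V) × V) := ⟨((∅, [], ∅), v0)⟩
  obtain ⟨s, hs⟩ := exists_surjective_nat ((Finset V × List V × Finset V) × V)
  set e : ℕ → (Finset V × List V × Finset V) × V := fun n => s (Nat.unpair n).1 with he
  have heinf : ∀ r, ∀ N, ∃ n, N ≤ n ∧ e n = r := by
    intro r N
    obtain ⟨k, hk⟩ := hs r
    refine ⟨Nat.pair k N, Nat.right_le_pair k N, ?_⟩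
    simp only [he, Nat.unpair_pair, hk]
  -- the sequence
  have hstep : ∀ (n : ℕ) (p : {p : Finset V × (V → ℚ) // Set.InjOn p.2 p.1}),
      ∃ p' : {p : Finset V × (V → ℚ) // Set.InjOn p.2 p.1}, p.1.1 ⊆ p'.1.1 ∧
        (∀ x ∈ p.1.1, p'.1.2 x = p.1.2 x) ∧ (e n).2 ∈ p'.1.1 ∧
        ((e n).1.1 ⊆ p.1.1 → IsCl G (e n).1.1 → (e n).1.2.1.Nodup →
          (∀ a ∈ (e n).1.1, a ∈ (e n).1.2.1) →
          (∀ a ∈ (e n).1.1, ∀ b ∈ (e n).1.1,
            (e n).1.2.1.idxOf a < (e n).1.2.1.idxOf b ↔ p.1.2 a < p.1.2 b) →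
          Met G (e n).1.1 (e n).1.2.1 (e n).1.2.2 p'.1.1 p'.1.2) := by
    rintro n ⟨⟨S, lam⟩, hlam⟩
    obtain ⟨S', lam', h1, h2, h3, h4, h5⟩ := step_exists G (e n).1.1 (e n).1.2.1 (e n).1.2.2
      (e n).2 S lam hlam
    exact ⟨⟨⟨S', lam'⟩, h3⟩, h1, h2, h4, h5⟩
  choose F hF1 hF2 hF3 hF4 using hstep
  set sq : ℕ → {p : Finset V × (V → ℚ) // Set.InjOn p.2 p.1} := fun n =>
    Nat.rec ⟨⟨∅, fun _ => 0⟩, by simp⟩ (fun n p => F n p) n with hsq
  have hsucc : ∀ n, sq (n + 1) = F n (sq n) := fun n => rfl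
  have hmono : ∀ n k, n ≤ k → (sq n).1.1 ⊆ (sq k).1.1 ∧
      ∀ x ∈ (sq n).1.1, (sq k).1.2 x = (sq n).1.2 x := by
    intro n k hnk
    induction k, hnk using Nat.le_induction with
    | base => exact ⟨subset_refl _, fun _ _ => rfl⟩
    | succ k _ ih =>
      rw [hsucc]
      refine ⟨ih.1.trans (hF1 k _), fun x hx => ?_⟩
      rw [hF2 k _ x (ih.1 hx)]
      exact ih.2 x hx
  have hcov : ∀ v, ∃ n, v ∈ (sq n).1.1 := by
    intro v
    obtain ⟨n, -, hn⟩ := heinf ((∅, [], ∅), v) 0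
    refine ⟨n + 1, ?_⟩
    rw [hsucc]
    have := hF3 n (sq n)
    rw [hn] at this
    exact this
  choose N hN using hcov
  set lam : V → ℚ := fun v => (sq (N v)).1.2 v with hlam
  have hval : ∀ n v, v ∈ (sq n).1.1 → (sq n).1.2 v = lam v := by
    intro n v hv
    have h1 := (hmono n (max n (N v)) (le_max_left _ _)).2 v hv
    have h2 := (hmono (N v) (max n (N v)) (le_max_right _ _)).2 v (hN v)
    rw [← h1, h2]
  refine ⟨lam, ?_, ?_⟩
  · intro x y hxy
    have h1 := (hmono (N x) (max (N x) (N y)) (le_max_left _ _)).1 (hN x)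
    have h2 := (hmono (N y) (max (N x) (N y)) (le_max_right _ _)).1 (hN y)
    rw [← hval _ x h1, ← hval _ y h2] at hxy
    exact (sq (max (N x) (N y))).2 h1 h2 hxy
  · intro A l Z hA hl hAl hord
    obtain ⟨n, hn, hen⟩ := heinf ((A, l, Z), v0) (A.sup N)
    have hAn : A ⊆ (sq n).1.1 := fun a ha =>
      (hmono (N a) n ((Finset.le_sup ha).trans hn)).1 (hN a)
    have h4 := hF4 n (sq n)
    rw [hen] at h4
    obtain ⟨g, hg, h5, h6, h7, h8⟩ := h4 hAn hA hl hAl (by
      intro a ha b hb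
      rw [hval n a (hAn ha), hval n b (hAn hb)]
      exact hord a ha b hb)
    refine ⟨g, hg, h5, h6, fun x hx y hy => ?_⟩
    rw [← hval (n + 1) (g x) (by rw [hsucc]; exact h7 x hx),
      ← hval (n + 1) (g y) (by rw [hsucc]; exact h7 y hy), hsucc]
    exact h8 x hx y hy

/-- The generic property for an arbitrary order given by labels. -/
theorem generic_label [DecidableEq V] {G : Subgroup (Equiv.Perm V)} {lam : V → ℚ}
    (hgen : ∀ (A : Finset V) (l : List V) (Z : Finset V), IsCl G A →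
      l.Nodup → (∀ a ∈ A, a ∈ l) →
      (∀ a ∈ A, ∀ b ∈ A, l.idxOf a < l.idxOf b ↔ lam a < lam b) →
      ∃ g ∈ G, (∀ a ∈ A, g a = a) ∧ (∀ x ∈ l, x ∉ A → g x ∉ Z) ∧
        ∀ x ∈ l, ∀ y ∈ l, l.idxOf x < l.idxOf y ↔ lam (g x) < lam (g y))
    {A B : Finset V} (hA : IsCl G A) (hAB : A ⊆ B) (q : V → ℚ) (hq : Set.InjOn q B)
    (hord : ∀ a ∈ A, ∀ b ∈ A, q a < q b ↔ lam a < lam b) (Z : Finset V) :
    ∃ g ∈ G, (∀ a ∈ A, g a = a) ∧ (∀ x ∈ B, x ∉ A → g x ∉ Z) ∧
      ∀ x ∈ B, ∀ y ∈ B, q x < q y ↔ lam (g x) < lam (g y) := by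
  obtain ⟨l, h1, h2, h3⟩ := sorted_list q B hq
  obtain ⟨g, hg, h4, h5, h6⟩ := hgen A l Z hA h1 (fun a ha => (h2 a).mpr (hAB ha)) (by
    intro a ha b hb
    rw [h3 a (hAB ha) b (hAB hb)]
    exact hord a ha b hb)
  refine ⟨g, hg, h4, fun x hx => h5 x ((h2 x).mpr hx), fun x hx y hy => ?_⟩
  rw [← h3 x hx y hy]
  exact h6 x ((h2 x).mpr hx) y ((h2 y).mpr hy)

/-- Genericity of a labelling. -/
def Gen (G : Subgroup (Equiv.Perm V)) [DecidableEq V] (lam : V → ℚ) : Prop :=
  ∀ (A : Finset V) (l : List V) (Z : Finset V), IsCl G A → l.Nodup → (∀ a ∈ A, a ∈ l) →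
    (∀ a ∈ A, ∀ b ∈ A, l.idxOf a < l.idxOf b ↔ lam a < lam b) →
    ∃ g ∈ G, (∀ a ∈ A, g a = a) ∧ (∀ x ∈ l, x ∉ A → g x ∉ Z) ∧
      ∀ x ∈ l, ∀ y ∈ l, l.idxOf x < l.idxOf y ↔ lam (g x) < lam (g y)

/-- Partial order automorphisms with closed domain. -/
structure Good (G : Subgroup (Equiv.Perm V)) (lam : V → ℚ) (A : Finset V) (g : Equiv.Perm V) :
    Prop where
  cl : IsCl G A
  mem : g ∈ G
  ord : ∀ a ∈ A, ∀ b ∈ A, lam a < lam b ↔ lam (g a) < lam (g b)

theorem Good.forth [DecidableEq V] {G : Subgroup (Equiv.Perm V)} {lam : V → ℚ}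
    (hinj : Injective lam) (hcl : ∀ A : Finset V, {x | (FixOrb G A x).Finite}.Finite)
    (hgen : Gen G lam) {A : Finset V} {g : Equiv.Perm V} (h : Good G lam A g) (C Z : Finset V) :
    ∃ (A' : Finset V) (g' : Equiv.Perm V), Good G lam A' g' ∧ A ⊆ A' ∧ C ⊆ A' ∧
      (∀ a ∈ A, g' a = g a) ∧ ∀ x ∈ A', x ∉ A → g' x ∉ Z := by
  obtain ⟨A', hA'1, hA'2⟩ := exists_cl hcl (A ∪ C)
  have hAA' : A ⊆ A' := Finset.subset_union_left.trans hA'1
  have e1 : ∀ x, g⁻¹ (g x) = x := fun x => by simp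
  obtain ⟨k, hk, h1, h2, h3⟩ := generic_label hgen (A := A.image g) (B := A'.image g)
    (h.cl.image h.mem) (Finset.image_subset_image hAA') (fun y => lam (g⁻¹ y)) (by
      intro x _ y _ hxy
      exact g⁻¹.injective (hinj hxy)) (by
      intro a ha b hb
      obtain ⟨a', ha', rfl⟩ := Finset.mem_image.mp ha
      obtain ⟨b', hb', rfl⟩ := Finset.mem_image.mp hb
      simp only [e1]
      exact h.ord a' ha' b' hb') Z
  refine ⟨A', k * g, ⟨hA'2, G.mul_mem hk h.mem, ?_⟩, hAA',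
    Finset.subset_union_right.trans hA'1, ?_, ?_⟩
  · intro a ha b hb
    have := h3 (g a) (Finset.mem_image_of_mem _ ha) (g b) (Finset.mem_image_of_mem _ hb)
    simp only [e1] at this
    exact this
  · intro a ha
    exact h1 (g a) (Finset.mem_image_of_mem _ ha)
  · intro x hx hxA
    refine h2 (g x) (Finset.mem_image_of_mem _ hx) fun hgx => hxA ?_
    obtain ⟨y, hy, hyx⟩ := Finset.mem_image.mp hgx
    rw [← g.injective hyx]
    exact hy

theorem Good.symm [DecidableEq V] {G : Subgroup (Equiv.Perm V)} {lam : V → ℚ}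
    {A : Finset V} {g : Equiv.Perm V} (h : Good G lam A g) : Good G lam (A.image g) g⁻¹ := by
  have e1 : ∀ x, g⁻¹ (g x) = x := fun x => by simp
  refine ⟨h.cl.image h.mem, G.inv_mem h.mem, ?_⟩
  intro a ha b hb
  obtain ⟨a', ha', rfl⟩ := Finset.mem_image.mp ha
  obtain ⟨b', hb', rfl⟩ := Finset.mem_image.mp hb
  rw [e1, e1]
  exact (h.ord a' ha' b' hb').symm

theorem Good.back [DecidableEq V] {G : Subgroup (Equiv.Perm V)} {lam : V → ℚ}
    (hinj : Injective lam) (hcl : ∀ A : Finset V, {x | (FixOrb G A x).Finite}.Finite)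
    (hgen : Gen G lam) {A : Finset V} {g : Equiv.Perm V} (h : Good G lam A g) (v : V) :
    ∃ (A' : Finset V) (g' : Equiv.Perm V), Good G lam A' g' ∧ A ⊆ A' ∧
      (∀ a ∈ A, g' a = g a) ∧ ∃ x ∈ A', g' x = v := by
  obtain ⟨B, k, h1, h2, h3, h4, -⟩ := h.symm.forth hinj hcl hgen {v} ∅
  have hkA : ∀ a ∈ A, k (g a) = a := by
    intro a ha
    rw [h4 (g a) (Finset.mem_image_of_mem _ ha)]
    simp
  refine ⟨B.image k, k⁻¹, h1.symm, ?_, ?_, k v, ?_, by simp⟩
  · intro a ha
    exact Finset.mem_image.mpr ⟨g a, h2 (Finset.mem_image_of_mem _ ha), hkA a ha⟩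
  · intro a ha
    rw [Equiv.Perm.inv_eq_iff_eq]
    exact (hkA a ha).symm
  · exact Finset.mem_image_of_mem _ (h3 (Finset.mem_singleton_self v))

/-- Back and forth. -/
theorem Good.extend [Countable V] [DecidableEq V] {G : Subgroup (Equiv.Perm V)} {lam : V → ℚ}
    (hG : ∀ f : Equiv.Perm V, (∀ S : Finset V, ∃ g ∈ G, ∀ x ∈ S, g x = f x) → f ∈ G)
    (hinj : Injective lam) (hcl : ∀ A : Finset V, {x | (FixOrb G A x).Finite}.Finite)
    (hgen : Gen G lam) {A : Finset V} {g : Equiv.Perm V} (h : Good G lam A g) :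
    ∃ k ∈ G, (∀ a b, lam (k a) < lam (k b) ↔ lam a < lam b) ∧ ∀ a ∈ A, k a = g a := by
  rcases isEmpty_or_nonempty V with hV | hV
  · exact ⟨1, G.one_mem, fun a => (hV.false a).elim, fun a => (hV.false a).elim⟩
  obtain ⟨e, he⟩ := exists_surjective_nat V
  have hstep : ∀ (n : ℕ) (p : {p : Finset V × Equiv.Perm V // Good G lam p.1 p.2}),
      ∃ p' : {p : Finset V × Equiv.Perm V // Good G lam p.1 p.2}, p.1.1 ⊆ p'.1.1 ∧
        (∀ x ∈ p.1.1, p'.1.2 x = p.1.2 x) ∧ e n ∈ p'.1.1 ∧ ∃ x ∈ p'.1.1, p'.1.2 x = e n := by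
    rintro n ⟨⟨A, g⟩, hp⟩
    obtain ⟨A1, g1, h1, h2, h3, h4, -⟩ := hp.forth hinj hcl hgen {e n} ∅
    obtain ⟨A2, g2, h5, h6, h7, h8⟩ := h1.back hinj hcl hgen (e n)
    refine ⟨⟨⟨A2, g2⟩, h5⟩, h2.trans h6, fun x hx => ?_, h6 (h3 (Finset.mem_singleton_self _)), h8⟩
    rw [h7 x (h2 hx)]
    exact h4 x hx
  choose F hF1 hF2 hF3 hF4 using hstep
  set sq : ℕ → {p : Finset V × Equiv.Perm V // Good G lam p.1 p.2} := fun n =>
    Nat.rec ⟨⟨A, g⟩, h⟩ (fun n p => F n p) n with hsq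
  have hsucc : ∀ n, sq (n + 1) = F n (sq n) := fun n => rfl
  have hmono : ∀ n k, n ≤ k → (sq n).1.1 ⊆ (sq k).1.1 ∧
      ∀ x ∈ (sq n).1.1, (sq k).1.2 x = (sq n).1.2 x := by
    intro n k hnk
    induction k, hnk using Nat.le_induction with
    | base => exact ⟨subset_refl _, fun _ _ => rfl⟩
    | succ k _ ih =>
      rw [hsucc]
      refine ⟨ih.1.trans (hF1 k _), fun x hx => ?_⟩
      rw [hF2 k _ x (ih.1 hx)]
      exact ih.2 x hx
  have hcov : ∀ v, ∃ n, v ∈ (sq n).1.1 := by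
    intro v
    obtain ⟨n, rfl⟩ := he v
    exact ⟨n + 1, hF3 n (sq n)⟩
  choose N hN using hcov
  set k : V → V := fun v => (sq (N v)).1.2 v with hk
  have hval : ∀ n v, v ∈ (sq n).1.1 → (sq n).1.2 v = k v := by
    intro n v hv
    have h1 := (hmono n (max n (N v)) (le_max_left _ _)).2 v hv
    have h2 := (hmono (N v) (max n (N v)) (le_max_right _ _)).2 v (hN v)
    rw [← h1, h2]
  have hboth : ∀ x y, x ∈ (sq (max (N x) (N y))).1.1 ∧ y ∈ (sq (max (N x) (N y))).1.1 :=
    fun x y => ⟨(hmono (N x) (max (N x) (N y)) (le_max_left _ _)).1 (hN x),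
      (hmono (N y) (max (N x) (N y)) (le_max_right _ _)).1 (hN y)⟩
  have hkinj : Injective k := by
    intro x y hxy
    rw [← hval _ x (hboth x y).1, ← hval _ y (hboth x y).2] at hxy
    exact (sq (max (N x) (N y))).1.2.injective hxy
  have hksurj : Surjective k := by
    intro v
    obtain ⟨n, rfl⟩ := he v
    obtain ⟨x, hx1, hx2⟩ := hF4 n (sq n)
    exact ⟨x, by rw [← hval (n + 1) x hx1]; exact hx2⟩
  refine ⟨Equiv.ofBijective k ⟨hkinj, hksurj⟩, hG _ fun S => ?_, fun a b => ?_, fun a ha => ?_⟩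
  · refine ⟨(sq (S.sup N)).1.2, (sq (S.sup N)).2.mem, fun x hx => ?_⟩
    exact hval _ x ((hmono (N x) _ (Finset.le_sup hx)).1 (hN x))
  · have h1 := (sq (max (N a) (N b))).2.ord a (hboth a b).1 b (hboth a b).2
    rw [hval _ a (hboth a b).1, hval _ b (hboth a b).2] at h1
    exact h1.symm
  · exact (hval 0 a ha).symm

/-- Generic linear orders on closed permutation groups with finite algebraic closures and no
algebraic points over the empty set: order automorphisms extend, orbits stay infinite, and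
every finite list can be moved to an increasing one. -/
theorem exists_generic_order [Countable V] (G : Subgroup (Equiv.Perm V))
    (hG : ∀ f : Equiv.Perm V, (∀ S : Finset V, ∃ g ∈ G, ∀ x ∈ S, g x = f x) → f ∈ G)
    (hcl : ∀ A : Finset V, {x | (FixOrb G A x).Finite}.Finite)
    (h0 : ∀ x, ¬ (FixOrb G ∅ x).Finite) :
    ∃ lt : V → V → Prop, IsStrictTotalOrder V lt ∧
      (∀ A, IsCl G A → ∀ g ∈ G, (∀ a ∈ A, ∀ b ∈ A, lt a b ↔ lt (g a) (g b)) →
        ∃ k ∈ G, (∀ a b, lt (k a) (k b) ↔ lt a b) ∧ ∀ a ∈ A, k a = g a) ∧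
      (∀ A, IsCl G A → ∀ x ∉ A, {y | ∃ k ∈ G, (∀ a b, lt (k a) (k b) ↔ lt a b) ∧
        (∀ a ∈ A, k a = a) ∧ k x = y}.Infinite) ∧
      (∀ l : List V, l.Nodup → ∃ g ∈ G, (l.map g).Pairwise lt) := by
  classical
  obtain ⟨lam, hinj, hgen⟩ := exists_generic G
  have hgen' : Gen G lam := hgen
  refine ⟨fun a b => lam a < lam b, ?_, ?_, ?_, ?_⟩
  · exact {
      trichotomous := fun a b h1 h2 => by
        by_contra hab
        rcases lt_trichotomy (lam a) (lam b) with h | h | h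
        · exact h1 h
        · exact hab (hinj h)
        · exact h2 h
      irrefl := fun a => lt_irrefl _
      trans := fun a b c h1 h2 => lt_trans h1 h2 }
  · intro A hA g hg hord
    exact Good.extend hG hinj hcl hgen' ⟨hA, hg, hord⟩
  · intro A hA x hx hfin
    have hgood : Good G lam A 1 := ⟨hA, G.one_mem, fun a _ b _ => Iff.rfl⟩
    obtain ⟨A', g', h1, h2, h3, h4, h5⟩ := hgood.forth hinj hcl hgen' {x} hfin.toFinset
    obtain ⟨k, hk1, hk2, hk3⟩ := h1.extend hG hinj hcl hgen'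
    have hxA' : x ∈ A' := h3 (Finset.mem_singleton_self x)
    refine h5 x hxA' hx ?_
    rw [Set.Finite.mem_toFinset]
    refine ⟨k, hk1, hk2, fun a ha => ?_, hk3 x hxA'⟩
    rw [hk3 a (h2 ha), h4 a ha]
    rfl
  · intro l hl
    obtain ⟨g, hg, -, -, h3⟩ := hgen ∅ l ∅ (fun x hx => absurd hx (h0 x)) hl
      (fun a ha => absurd ha (Finset.notMem_empty _))
      (fun a ha => absurd ha (Finset.notMem_empty _))
    refine ⟨g, hg, ?_⟩
    rw [List.pairwise_map, List.pairwise_iff_getElem]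
    intro i j hi hj hij
    rw [← h3 _ (List.getElem_mem hi) _ (List.getElem_mem hj), hl.idxOf_getElem, hl.idxOf_getElem]
    exact hij

end MPec220fB
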