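import Mathlib

/-!
Test graphs, hom-free graphs, patterns, attaching patterns, and the cut lemma.
-/

namespace MPec220f

open Finset Function

open scoped Classical in
section

/-- A connected finite test graph on the vertex set `{0, …, n-1}`, with at least
two vertices. -/
structure TG where
  /-- number of vertices -/
  n : ℕ
  /-- the graph, on the natural numbers below `n` -/
  G : SimpleGraph ℕ
  lt : ∀ i j, G.Adj i j → i < n
  conn : ∀ i < n, ∀ j < n, G.Reachable i j
  two : 2 ≤ n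

/-- `H` admits no homomorphism from a test graph of the family. -/
def HF (𝓕 : Set TG) {W : Type} (H : SimpleGraph W) : Prop :=
  ∀ F ∈ 𝓕, ∀ f : ℕ → W, ¬ ∀ i j, F.G.Adj i j → H.Adj (f i) (f j)

/-- Closure under homomorphic images. -/
def HC (𝓕 : Set TG) : Prop :=
  ∀ (W : Type) (H : SimpleGraph W), ¬ HF 𝓕 H →
    ∃ F ∈ 𝓕, ∃ f : ℕ → W, (∀ i j, F.G.Adj i j → H.Adj (f i) (f j)) ∧
      Set.InjOn f {i | i < F.n}

/-- Existential completeness among the hom-free graphs. -/
def EC (𝓕 : Set TG) {V : Type} (Γ : SimpleGraph V) : Prop :=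
  ∀ (W : Type) (H : SimpleGraph W), HF 𝓕 H → ∀ j : V → W, Injective j →
    (∀ a b, H.Adj (j a) (j b) ↔ Γ.Adj a b) → ∀ T : Finset W,
    ∃ k : W → V, Set.InjOn k T ∧ (∀ x ∈ T, ∀ y ∈ T, Γ.Adj (k x) (k y) ↔ H.Adj x y) ∧
      ∀ v, j v ∈ T → k (j v) = v

theorem HF.of_hom {𝓕 : Set TG} {W W' : Type} {H : SimpleGraph W} {H' : SimpleGraph W'}
    (h : HF 𝓕 H') (k : W → W') (hk : ∀ x y, H.Adj x y → H'.Adj (k x) (k y)) : HF 𝓕 H := by
  intro F hF f hf
  exact h F hF (fun i => k (f i)) fun i j hij => hk _ _ (hf i j hij)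

/-- A pattern over `U`: a finite interior graph with root edges into `U`. -/
structure Pat (U : Type) where
  /-- interior -/
  I : Finset ℕ
  /-- interior edges -/
  E : Finset (ℕ × ℕ)
  /-- root edges -/
  A : Finset (ℕ × U)
  hE : ∀ p ∈ E, p.1 ∈ I ∧ p.2 ∈ I
  hA : ∀ p ∈ A, p.1 ∈ I

namespace Pat

variable {U U' : Type}

@[ext] theorem ext' {P Q : Pat U} (h1 : P.I = Q.I) (h2 : P.E = Q.E) (h3 : P.A = Q.A) : P = Q := by
  cases P; cases Q; simp_all

/-- The interior graph. -/
def g (P : Pat U) : SimpleGraph ℕ := SimpleGraph.fromRel fun i j => (i, j) ∈ P.E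

theorem g_adj {P : Pat U} {i j : ℕ} : P.g.Adj i j ↔ i ≠ j ∧ ((i, j) ∈ P.E ∨ (j, i) ∈ P.E) := Iff.rfl

theorem g_mem {P : Pat U} {i j : ℕ} (h : P.g.Adj i j) : i ∈ P.I ∧ j ∈ P.I := by
  rcases h.2 with h | h
  · exact P.hE _ h
  · exact (P.hE _ h).symm

/-- The root set. -/
noncomputable def roots (P : Pat U) : Finset U := P.A.image Prod.snd

theorem mem_roots {P : Pat U} {u : U} : u ∈ P.roots ↔ ∃ i, (i, u) ∈ P.A := by
  simp [roots]

/-- Good patterns: interior below `m`, nonempty and connected, at most `m`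
vertices together with the roots. -/
def Good (m : ℕ) (P : Pat U) : Prop :=
  P.I ⊆ range m ∧ P.I.Nonempty ∧ (∀ i ∈ P.I, ∀ j ∈ P.I, P.g.Reachable i j) ∧
    P.I.card + P.roots.card ≤ m

/-- Renaming the roots. -/
noncomputable def map (e : U → U') (P : Pat U) : Pat U' where
  I := P.I
  E := P.E
  A := P.A.image fun p => (p.1, e p.2)
  hE := P.hE
  hA := by
    intro p hp
    obtain ⟨q, hq, rfl⟩ := Finset.mem_image.mp hp
    exact P.hA q hq

@[simp] theorem map_I (e : U → U') (P : Pat U) : (P.map e).I = P.I := rfl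
@[simp] theorem map_E (e : U → U') (P : Pat U) : (P.map e).E = P.E := rfl
@[simp] theorem map_g (e : U → U') (P : Pat U) : (P.map e).g = P.g := rfl
theorem mem_map_A {e : U → U'} {P : Pat U} {i : ℕ} {u' : U'} :
    (i, u') ∈ (P.map e).A ↔ ∃ u, (i, u) ∈ P.A ∧ e u = u' := by
  simp [map]

theorem roots_map (e : U → U') (P : Pat U) : (P.map e).roots = P.roots.image e := by
  ext u'
  simp only [mem_roots, mem_map_A, mem_image]
  constructor
  · rintro ⟨i, u, h, rfl⟩; exact ⟨u, ⟨i, h⟩, rfl⟩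
  · rintro ⟨u, ⟨i, h⟩, rfl⟩; exact ⟨i, u, h, rfl⟩

theorem Good.map {m : ℕ} {P : Pat U} (h : P.Good m) (e : U → U') : (P.map e).Good m := by
  refine ⟨h.1, h.2.1, h.2.2.1, ?_⟩
  rw [roots_map]
  have := Finset.card_image_le (s := P.roots) (f := e)
  have := h.2.2.2
  simp only [map_I]
  omega

theorem map_map {U'' : Type} (e : U → U') (e' : U' → U'') (P : Pat U) :
    (P.map e).map e' = P.map (fun u => e' (e u)) := by
  refine Pat.ext' rfl rfl ?_
  simp only [map, Finset.image_image]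
  rfl

theorem map_congr {e e' : U → U'} {P : Pat U} (h : ∀ u ∈ P.roots, e u = e' u) :
    P.map e = P.map e' := by
  refine Pat.ext' rfl rfl ?_
  refine Finset.image_congr fun p hp => ?_
  have : e p.2 = e' p.2 := h _ (mem_roots.mpr ⟨p.1, hp⟩)
  simp [this]

theorem map_id (P : Pat U) : P.map (fun u => u) = P := by
  refine Pat.ext' rfl rfl ?_
  simp [map]

end Pat

variable {U U' W W' : Type}

/-- The pattern `P` holds in `H`, where the roots are interpreted by `e`. -/
def Holds (H : SimpleGraph W) (e : U → W) (P : Pat U) : Prop :=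
  ∃ φ : ℕ → W, (∀ i j, P.g.Adj i j → H.Adj (φ i) (φ j)) ∧ ∀ i u, (i, u) ∈ P.A → H.Adj (e u) (φ i)

theorem Holds.hom {H : SimpleGraph W} {H' : SimpleGraph W'} {e : U → W} {P : Pat U}
    (h : Holds H e P) (k : W → W') (hk : ∀ x y, H.Adj x y → H'.Adj (k x) (k y)) :
    Holds H' (fun u => k (e u)) P := by
  obtain ⟨φ, h1, h2⟩ := h
  exact ⟨fun i => k (φ i), fun i j hij => hk _ _ (h1 i j hij), fun i u hu => hk _ _ (h2 i u hu)⟩

theorem Holds.congr {H : SimpleGraph W} {e e' : U → W} {P : Pat U}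
    (h : Holds H e P) (hh : ∀ u ∈ P.roots, e u = e' u) : Holds H e' P := by
  obtain ⟨φ, h1, h2⟩ := h
  refine ⟨φ, h1, fun i u hu => ?_⟩
  rw [← hh u (Pat.mem_roots.mpr ⟨i, hu⟩)]
  exact h2 i u hu

theorem holds_map {H : SimpleGraph W} {e : U' → W} {k : U → U'} {P : Pat U} :
    Holds H e (P.map k) ↔ Holds H (fun u => e (k u)) P := by
  constructor
  · rintro ⟨φ, h1, h2⟩
    exact ⟨φ, h1, fun i u hu => h2 i (k u) (Pat.mem_map_A.mpr ⟨u, hu, rfl⟩)⟩
  · rintro ⟨φ, h1, h2⟩
    refine ⟨φ, h1, fun i u' hu' => ?_⟩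
    obtain ⟨u, hu, rfl⟩ := Pat.mem_map_A.mp hu'
    exact h2 i u hu

/-- The base graph `B` with a fresh copy of the interior of every pattern in `S`. -/
def attach (B : SimpleGraph U) (S : Set (Pat U)) : SimpleGraph (U ⊕ (Pat U × ℕ)) where
  Adj x y := match x, y with
    | Sum.inl u, Sum.inl v => B.Adj u v
    | Sum.inl u, Sum.inr p => p.1 ∈ S ∧ (p.2, u) ∈ p.1.A
    | Sum.inr p, Sum.inl u => p.1 ∈ S ∧ (p.2, u) ∈ p.1.A
    | Sum.inr p, Sum.inr q => p.1 = q.1 ∧ p.1 ∈ S ∧ p.1.g.Adj p.2 q.2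
  symm := ⟨by
    rintro (u | p) (v | q) h
    · exact B.adj_symm h
    · exact h
    · exact h
    · refine ⟨h.1.symm, h.1 ▸ h.2.1, ?_⟩
      have := h.2.2.symm
      rw [h.1] at this
      exact this⟩
  loopless := ⟨by
    rintro (u | p) h
    · exact B.irrefl h
    · exact p.1.g.irrefl h.2.2⟩

@[simp] theorem attach_ll {B : SimpleGraph U} {S : Set (Pat U)} {u v : U} :
    (attach B S).Adj (Sum.inl u) (Sum.inl v) ↔ B.Adj u v := Iff.rfl
@[simp] theorem attach_lr {B : SimpleGraph U} {S : Set (Pat U)} {u : U} {p : Pat U × ℕ} :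
    (attach B S).Adj (Sum.inl u) (Sum.inr p) ↔ p.1 ∈ S ∧ (p.2, u) ∈ p.1.A := Iff.rfl
@[simp] theorem attach_rl {B : SimpleGraph U} {S : Set (Pat U)} {u : U} {p : Pat U × ℕ} :
    (attach B S).Adj (Sum.inr p) (Sum.inl u) ↔ p.1 ∈ S ∧ (p.2, u) ∈ p.1.A := Iff.rfl
@[simp] theorem attach_rr {B : SimpleGraph U} {S : Set (Pat U)} {p q : Pat U × ℕ} :
    (attach B S).Adj (Sum.inr p) (Sum.inr q) ↔ p.1 = q.1 ∧ p.1 ∈ S ∧ p.1.g.Adj p.2 q.2 := Iff.rfl

theorem attach_mono {B : SimpleGraph U} {S T : Set (Pat U)} (h : S ⊆ T) :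
    ∀ x y, (attach B S).Adj x y → (attach B T).Adj x y := by
  rintro (u | p) (v | q) hh
  · exact hh
  · exact ⟨h hh.1, hh.2⟩
  · exact ⟨h hh.1, hh.2⟩
  · exact ⟨hh.1, h hh.2.1, hh.2.2⟩

theorem holds_attach {B : SimpleGraph U} {S : Set (Pat U)} {P : Pat U} (h : P ∈ S) :
    Holds (attach B S) Sum.inl P :=
  ⟨fun i => Sum.inr (P, i), fun _ _ hij => ⟨rfl, h, hij⟩, fun _ _ hu => ⟨h, hu⟩⟩

theorem holds_attach_base {B : SimpleGraph U} {S : Set (Pat U)} {P : Pat U}
    (h : Holds B (fun u => u) P) : Holds (attach B S) Sum.inl P :=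
  h.hom Sum.inl fun _ _ h => h

/-- A homomorphism out of an attached graph. -/
theorem attach_hom {B : SimpleGraph U} {S : Set (Pat U)} {H : SimpleGraph W} {e : U → W} (w0 : W)
    (hB : ∀ u v, B.Adj u v → H.Adj (e u) (e v)) (hS : ∀ P ∈ S, Holds H e P) :
    ∃ k : U ⊕ (Pat U × ℕ) → W, (∀ x y, (attach B S).Adj x y → H.Adj (k x) (k y)) ∧
      ∀ u, k (Sum.inl u) = e u := by
  refine ⟨fun x => match x with
    | Sum.inl u => e u
    | Sum.inr p => if h : p.1 ∈ S then (hS p.1 h).choose p.2 else w0, ?_, fun u => rfl⟩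
  rintro (u | p) (v | q) hh
  · exact hB u v hh
  · obtain ⟨h1, h2⟩ := hh
    simp only [dif_pos h1]
    exact (hS q.1 h1).choose_spec.2 _ _ h2
  · obtain ⟨h1, h2⟩ := hh
    simp only [dif_pos h1]
    exact ((hS p.1 h1).choose_spec.2 _ _ h2).symm
  · obtain ⟨h1, h2, h3⟩ := hh
    have h4 : q.1 ∈ S := h1 ▸ h2
    simp only [dif_pos h2, dif_pos h4]
    obtain ⟨p1, p2⟩ := p
    obtain ⟨q1, q2⟩ := q
    simp only at h1 h2 h3 h4 ⊢
    subst h1
    exact (hS p1 h2).choose_spec.1 _ _ h3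

/-- The graph `G` with the edges at `X` removed. -/
def delX (G : SimpleGraph ℕ) (X : Set ℕ) : SimpleGraph ℕ where
  Adj a b := G.Adj a b ∧ a ∉ X ∧ b ∉ X
  symm := ⟨fun _ _ h => ⟨h.1.symm, h.2.2, h.2.1⟩⟩
  loopless := ⟨fun _ h => G.irrefl h.1⟩

/-- The component of `y` in `F` minus `X`. -/
noncomputable def comp (F : TG) (X : Set ℕ) (y : ℕ) : Finset ℕ :=
  (range F.n).filter fun z => (delX F.G X).Reachable y z

/-- The pattern of the component of `y` in `F` minus `X`; the vertex `x` of `X` is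
named `r x`. -/
noncomputable def compPat (F : TG) (X : Set ℕ) (r : ℕ → U) (y : ℕ) : Pat U where
  I := comp F X y
  E := (comp F X y ×ˢ comp F X y).filter fun p => F.G.Adj p.1 p.2
  A := ((comp F X y ×ˢ ((range F.n).filter fun x => x ∈ X)).filter fun p => F.G.Adj p.1 p.2).image
    fun p => (p.1, r p.2)
  hE := by
    intro p hp
    exact Finset.mem_product.mp (Finset.mem_filter.mp hp).1
  hA := by
    intro p hp
    obtain ⟨q, hq, rfl⟩ := Finset.mem_image.mp hp
    exact (Finset.mem_product.mp (Finset.mem_filter.mp hq).1).1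

theorem mem_compPat_A {F : TG} {X : Set ℕ} {r : ℕ → U} {y i : ℕ} {u : U} :
    (i, u) ∈ (compPat F X r y).A ↔ i ∈ comp F X y ∧ ∃ x ∈ X, F.G.Adj i x ∧ r x = u := by
  simp only [compPat, mem_image, mem_filter, mem_product, mem_range, Prod.mk.injEq, Prod.exists]
  constructor
  · rintro ⟨a, b, ⟨⟨h1, h2, h3⟩, h4⟩, rfl, h5⟩
    exact ⟨h1, b, h3, h4, h5⟩
  · rintro ⟨h1, x, h2, h3, h4⟩
    exact ⟨i, x, ⟨⟨h1, F.lt _ _ h3.symm, h2⟩, h3⟩, rfl, h4⟩

theorem compPat_g {F : TG} {X : Set ℕ} {r : ℕ → U} {y i j : ℕ} :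
    (compPat F X r y).g.Adj i j ↔ F.G.Adj i j ∧ i ∈ comp F X y ∧ j ∈ comp F X y := by
  simp only [Pat.g_adj, compPat, mem_filter, mem_product]
  constructor
  · rintro ⟨-, h | h⟩
    · exact ⟨h.2, h.1.1, h.1.2⟩
    · exact ⟨h.2.symm, h.1.2, h.1.1⟩
  · rintro ⟨h1, h2, h3⟩
    exact ⟨h1.ne, Or.inl ⟨⟨h2, h3⟩, h1⟩⟩

theorem comp_notMem {F : TG} {X : Set ℕ} {y z : ℕ} (hy : y ∉ X) (hz : z ∈ comp F X y) : z ∉ X := by
  have h := (Finset.mem_filter.mp hz).2
  obtain ⟨w⟩ := h
  induction w with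
  | nil => exact hy
  | cons hadj _ ih => 
    refine ih hadj.2.2 ?_
    simp only [comp, mem_filter, mem_range] at hz ⊢
    exact ⟨hz.1, (SimpleGraph.Adj.reachable hadj).symm.trans hz.2⟩

theorem comp_self {F : TG} {X : Set ℕ} {y : ℕ} (hy : y < F.n) : y ∈ comp F X y := by
  simp [comp, hy]

theorem comp_eq {F : TG} {X : Set ℕ} {y z : ℕ} (h : (delX F.G X).Adj y z) :
    comp F X y = comp F X z := by
  ext w
  simp only [comp, mem_filter, mem_range]
  constructor
  · rintro ⟨h1, h2⟩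
    exact ⟨h1, (SimpleGraph.Adj.reachable h).symm.trans h2⟩
  · rintro ⟨h1, h2⟩
    exact ⟨h1, (SimpleGraph.Adj.reachable h).trans h2⟩

theorem compPat_eq {F : TG} {X : Set ℕ} {r : ℕ → U} {y z : ℕ} (h : (delX F.G X).Adj y z) :
    compPat F X r y = compPat F X r z := by
  have := comp_eq h
  refine Pat.ext' this ?_ ?_
  · simp only [compPat, this]
  · simp only [compPat, this]

theorem compPat_good {F : TG} {X : Set ℕ} {r : ℕ → U} {y m : ℕ} (hm : F.n ≤ m) (hy : y < F.n)
    (hyX : y ∉ X) : (compPat F X r y).Good m := by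
  refine ⟨?_, ⟨y, comp_self hy⟩, ?_, ?_⟩
  · intro z hz
    have := (Finset.mem_filter.mp hz).1
    simp only [mem_range] at this ⊢
    omega
  · have key : ∀ z, (delX F.G X).Reachable y z → (compPat F X r y).g.Reachable y z := by
      intro z hz
      obtain ⟨w⟩ := hz
      have : ∀ a b (w : (delX F.G X).Walk a b), (delX F.G X).Reachable y a →
          (compPat F X r y).g.Reachable a b := by
        intro a b w
        induction w with
        | nil => intro _; exact SimpleGraph.Reachable.refl _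
        | @cons a b c hadj _ ih =>
          intro ha
          have hb := ha.trans (SimpleGraph.Adj.reachable hadj)
          refine SimpleGraph.Reachable.trans (SimpleGraph.Adj.reachable ?_) (ih hb)
          rw [compPat_g]
          refine ⟨hadj.1, ?_, ?_⟩
          · simp only [comp, mem_filter, mem_range]
            exact ⟨F.lt _ _ hadj.1, ha⟩
          · simp only [comp, mem_filter, mem_range]
            exact ⟨F.lt _ _ hadj.1.symm, hb⟩
      exact this y z w (SimpleGraph.Reachable.refl _)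
    intro i hi j hj
    exact (key i (Finset.mem_filter.mp hi).2).symm.trans (key j (Finset.mem_filter.mp hj).2)
  · have h1 : (compPat F X r y).roots ⊆ ((range F.n).filter fun x => x ∈ X).image r := by
      intro u hu
      obtain ⟨i, hi⟩ := Pat.mem_roots.mp hu
      obtain ⟨_, x, hx, hadj, rfl⟩ := mem_compPat_A.mp hi
      exact Finset.mem_image_of_mem _ (by
        simp only [mem_filter, mem_range]
        exact ⟨F.lt _ _ hadj.symm, hx⟩)
    have h2 := Finset.card_le_card h1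
    have h3 := Finset.card_image_le (s := (range F.n).filter fun x => x ∈ X) (f := r)
    have h4 : (compPat F X r y).I.card + ((range F.n).filter fun x => x ∈ X).card ≤ F.n := by
      rw [← Finset.card_union_of_disjoint]
      · calc _ ≤ (range F.n).card := by
              refine Finset.card_le_card (Finset.union_subset ?_ ?_)
              · exact Finset.filter_subset _ _
              · exact Finset.filter_subset _ _
          _ = F.n := by simp
      · rw [Finset.disjoint_left]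
        intro z hz hz'
        exact comp_notMem hyX hz (Finset.mem_filter.mp hz').2
    omega

/-- Reassembly: a homomorphism may be assembled from the cut set and the patterns of
the components. -/
theorem reassemble (F : TG) (X : Set ℕ) (r : ℕ → U) {H : SimpleGraph W} (e : U → W) (p : ℕ → W)
    (h0 : ∀ x ∈ X, ∀ y, y ∉ X → F.G.Adj x y → e (r x) = p x)
    (h1 : ∀ x ∈ X, ∀ y ∈ X, F.G.Adj x y → H.Adj (p x) (p y))
    (h2 : ∀ y < F.n, y ∉ X → Holds H e (compPat F X r y)) :
    ∃ f : ℕ → W, ∀ i j, F.G.Adj i j → H.Adj (f i) (f j) := by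
  set f : ℕ → W := fun y => if y ∈ X then p y else
    if h : Holds H e (compPat F X r y) then h.choose y else p y with hf
  refine ⟨f, ?_⟩
  have hfX : ∀ y ∈ X, f y = p y := fun y hy => by simp only [hf, if_pos hy]
  have hfN : ∀ y, y ∉ X → ∀ h : Holds H e (compPat F X r y), f y = h.choose y := by
    intro y hy h
    simp only [hf, if_neg hy, dif_pos h]
  have key : ∀ x ∈ X, ∀ y, y ∉ X → F.G.Adj x y → H.Adj (f x) (f y) := by
    intro x hx y hy hxy
    have hlt := F.lt _ _ hxy.symm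
    have h := h2 y hlt hy
    rw [hfX x hx, hfN y hy h, ← h0 x hx y hy hxy]
    exact h.choose_spec.2 y (r x) (mem_compPat_A.mpr ⟨comp_self hlt, x, hx, hxy.symm, rfl⟩)
  intro i j hij
  by_cases hi : i ∈ X
  · by_cases hj : j ∈ X
    · rw [hfX i hi, hfX j hj]; exact h1 i hi j hj hij
    · exact key i hi j hj hij
  · by_cases hj : j ∈ X
    · exact (key j hj i hi hij.symm).symm
    · have hd : (delX F.G X).Adj i j := ⟨hij, hi, hj⟩
      have hlt := F.lt _ _ hij
      have h := h2 i hlt hi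
      have e1 := compPat_eq (r := r) hd
      have h' : Holds H e (compPat F X r j) := e1 ▸ h
      rw [hfN i hi h, hfN j hj h']
      have : h'.choose = h.choose := by
        congr 1
        rw [e1]
      rw [this]
      refine h.choose_spec.1 i j ?_
      rw [compPat_g]
      refine ⟨hij, comp_self hlt, ?_⟩
      rw [comp_eq hd]
      exact comp_self (F.lt _ _ hij.symm)

/-- `Q` holds injectively, avoiding the vertices of `ρ`. -/
def InjHolds (H : SimpleGraph (U ⊕ (Pat U × ℕ))) (ρ : Finset U) (Q : Pat U) (φ : ℕ → U ⊕ (Pat U × ℕ)) :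
    Prop :=
  (∀ i j, Q.g.Adj i j → H.Adj (φ i) (φ j)) ∧ (∀ i u, (i, u) ∈ Q.A → H.Adj (Sum.inl u) (φ i)) ∧
    Set.InjOn φ Q.I ∧ ∀ i ∈ Q.I, ∀ u ∈ ρ, φ i ≠ Sum.inl u

/-- The cut lemma. -/
theorem cut_lemma {F : TG} {m : ℕ} (hn : F.n ≤ m) {B : SimpleGraph U} {S : Set (Pat U)}
    {P : Pat U} (hP : P ∉ S) {f : ℕ → U ⊕ (Pat U × ℕ)}
    (hf : ∀ i j, F.G.Adj i j → (attach B (insert P S)).Adj (f i) (f j))
    (hinj : Set.InjOn f {i | i < F.n}) (u0 : U) {H : SimpleGraph W} (e : U → W)
    (hB : ∀ u ∈ P.roots, ∀ v ∈ P.roots, B.Adj u v → H.Adj (e u) (e v))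
    (hH : Holds H e P)
    (hQ : ∀ Q : Pat U, Q.Good m → Q.roots ⊆ P.roots → 
      (∃ φ, InjHolds (attach B S) P.roots Q φ) → Holds H e Q) :
    ∃ f : ℕ → W, ∀ i j, F.G.Adj i j → H.Adj (f i) (f j) := by
  obtain ⟨ψ, hψ1, hψ2⟩ := hH
  set X : Set ℕ := {x | (∃ u ∈ P.roots, f x = Sum.inl u) ∨ ∃ i, f x = Sum.inr (P, i)} with hX
  set r : ℕ → U := fun x => match f x with
    | Sum.inl u => u
    | Sum.inr _ => u0 with hr
  set p : ℕ → W := fun x => match f x with
    | Sum.inl u => e u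
    | Sum.inr q => ψ q.2 with hp
  -- neighbours across the cut
  have hcross : ∀ x ∈ X, ∀ y, y ∉ X → F.G.Adj x y → ∃ u ∈ P.roots, f x = Sum.inl u := by
    intro x hx y hy hxy
    rcases hx with h | ⟨i, hi⟩
    · exact h
    · exfalso
      apply hy
      have h := hf x y hxy
      rw [hi] at h
      rcases hfy : f y with u | q
      · rw [hfy] at h
        exact Or.inl ⟨u, Pat.mem_roots.mpr ⟨i, h.2⟩, hfy⟩
      · rw [hfy] at h
        obtain ⟨q1, q2⟩ := q
        have h1 : P = q1 := h.1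
        subst h1
        exact Or.inr ⟨q2, hfy⟩
  refine reassemble F X r e p ?_ ?_ ?_
  · intro x hx y hy hxy
    obtain ⟨u, -, hu⟩ := hcross x hx y hy hxy
    simp only [hr, hp, hu]
  · intro x hx y hy hxy
    have h := hf x y hxy
    rcases hx with ⟨u, hu, hfx⟩ | ⟨i, hfx⟩ <;> rcases hy with ⟨v, hv, hfy⟩ | ⟨j, hfy⟩ <;>
      simp only [hp, hfx, hfy] at h ⊢
    · exact hB u hu v hv h
    · exact hψ2 _ _ h.2
    · exact (hψ2 _ _ h.2).symm
    · exact hψ1 _ _ h.2.2
  · intro y hy hyX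
    have hroots : (compPat F X r y).roots ⊆ P.roots := by
      intro u hu
      obtain ⟨i, hi⟩ := Pat.mem_roots.mp hu
      obtain ⟨hi1, x, hx, hadj, rfl⟩ := mem_compPat_A.mp hi
      obtain ⟨u, hu, hfx⟩ := hcross x hx i (comp_notMem hyX hi1) hadj.symm
      simp only [hr, hfx]
      exact hu
    refine hQ _ (compPat_good hn hy hyX) hroots ⟨f, ?_, ?_, ?_, ?_⟩
    · intro i j hij
      obtain ⟨h1, h2, h3⟩ := compPat_g.mp hij
      have h4 := comp_notMem hyX h2
      have h5 := comp_notMem hyX h3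
      have h := hf i j h1
      rcases hfi : f i with u | q <;> rcases hfj : f j with v | q' <;> rw [hfi, hfj] at h
      · exact h
      · refine ⟨?_, h.2⟩
        rcases h.1 with h6 | h6
        · exfalso
          obtain ⟨q1, q2⟩ := q'
          simp only at h6
          subst h6
          exact h5 (Or.inr ⟨q2, hfj⟩)
        · exact h6
      · refine ⟨?_, h.2⟩
        rcases h.1 with h6 | h6
        · exfalso
          obtain ⟨q1, q2⟩ := q
          simp only at h6
          subst h6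
          exact h4 (Or.inr ⟨q2, hfi⟩)
        · exact h6
      · refine ⟨h.1, ?_, h.2.2⟩
        rcases h.2.1 with h6 | h6
        · exfalso
          obtain ⟨q1, q2⟩ := q
          simp only at h6
          subst h6
          exact h4 (Or.inr ⟨q2, hfi⟩)
        · exact h6
    · intro i u hiu
      obtain ⟨hi1, x, hx, hadj, hrx⟩ := mem_compPat_A.mp hiu
      have h4 := comp_notMem hyX hi1
      obtain ⟨v, hv, hfx⟩ := hcross x hx i h4 hadj.symm
      simp only [hr, hfx] at hrx
      subst hrx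
      have h := hf x i hadj.symm
      rw [hfx] at h
      rcases hfi : f i with w | q
      · rw [hfi] at h; exact h
      · rw [hfi] at h
        refine ⟨?_, h.2⟩
        rcases h.1 with h6 | h6
        · exfalso
          obtain ⟨q1, q2⟩ := q
          simp only at h6
          subst h6
          exact h4 (Or.inr ⟨q2, hfi⟩)
        · exact h6
    · intro a ha b hb hab
      refine hinj ?_ ?_ hab
      · exact Finset.mem_range.mp (Finset.mem_filter.mp ha).1
      · exact Finset.mem_range.mp (Finset.mem_filter.mp hb).1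
    · intro i hi u hu hfi
      exact comp_notMem hyX hi (Or.inl ⟨u, hu, hfi⟩)

end

end MPec220f
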