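import Pool.Agent.Lib_MP_ec220f_lc.Accept

/-!
Types with respect to good patterns: extension of maps, and homogeneity.
-/

namespace MPec220f

open Finset Function

open scoped Classical in
section

variable {V : Type} {𝓕 : Set TG} {Γ : SimpleGraph V} {m : ℕ}
variable {Z Z' W1 W2 : Type}

/-- Two maps realise the same type on `D`. -/
structure SameType (m : ℕ) (G1 : SimpleGraph W1) (G2 : SimpleGraph W2) (D : Finset Z)
    (e1 : Z → W1) (e2 : Z → W2) : Prop where
  adj : ∀ x ∈ D, ∀ y ∈ D, G1.Adj (e1 x) (e1 y) ↔ G2.Adj (e2 x) (e2 y)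
  eq : ∀ x ∈ D, ∀ y ∈ D, e1 x = e1 y ↔ e2 x = e2 y
  holds : ∀ P : Pat Z, P.Good m → P.roots ⊆ D → (Holds G1 e1 P ↔ Holds G2 e2 P)

theorem SameType.symm {G1 : SimpleGraph W1} {G2 : SimpleGraph W2} {D : Finset Z}
    {e1 : Z → W1} {e2 : Z → W2} (h : SameType m G1 G2 D e1 e2) : SameType m G2 G1 D e2 e1 :=
  ⟨fun x hx y hy => (h.adj x hx y hy).symm, fun x hx y hy => (h.eq x hx y hy).symm,
    fun P hP hr => (h.holds P hP hr).symm⟩

theorem SameType.transfer {G1 : SimpleGraph W1} {G2 : SimpleGraph W2} {D : Finset Z}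
    {e1 : Z → W1} {e2 : Z → W2} (h : SameType m G1 G2 D e1 e2) {D' : Finset Z'}
    {e1' : Z' → W1} {e2' : Z' → W2} (s : Z' → Z) (hs : ∀ z ∈ D', s z ∈ D ∧ e1 (s z) = e1' z ∧
      e2 (s z) = e2' z) : SameType m G1 G2 D' e1' e2' := by
  refine ⟨fun x hx y hy => ?_, fun x hx y hy => ?_, fun P hP hr => ?_⟩
  · obtain ⟨h1, h2, h3⟩ := hs x hx
    obtain ⟨h4, h5, h6⟩ := hs y hy
    rw [← h2, ← h3, ← h5, ← h6]
    exact h.adj _ h1 _ h4
  · obtain ⟨h1, h2, h3⟩ := hs x hx
    obtain ⟨h4, h5, h6⟩ := hs y hy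
    rw [← h2, ← h3, ← h5, ← h6]
    exact h.eq _ h1 _ h4
  · have h1 := h.holds (P.map s) (hP.map s) (by
      intro u hu
      obtain ⟨v, hv, rfl⟩ := mem_roots_map.mp hu
      exact (hs v (hr hv)).1)
    rw [holds_map, holds_map] at h1
    have h2 : Holds G1 (fun u => e1 (s u)) P ↔ Holds G1 e1' P :=
      ⟨fun h => h.congr fun u hu => (hs u (hr hu)).2.1,
        fun h => h.congr fun u hu => (hs u (hr hu)).2.1.symm⟩
    have h3 : Holds G2 (fun u => e2 (s u)) P ↔ Holds G2 e2' P :=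
      ⟨fun h => h.congr fun u hu => (hs u (hr hu)).2.2,
        fun h => h.congr fun u hu => (hs u (hr hu)).2.2.symm⟩
    rw [← h2, ← h3]
    exact h1

/-- The pattern `P` is blocked: some finite part of the graph excludes it. -/
def Blk (𝓕 : Set TG) (G1 : SimpleGraph W1) (e : Z → W1) (P : Pat Z) : Prop :=
  ∃ T : Finset W1, ∀ (W : Type) (G : SimpleGraph W) (k : W1 → W), HF 𝓕 G →
    (∀ x ∈ T, ∀ y ∈ T, G1.Adj x y → G.Adj (k x) (k y)) → ¬ Holds G (fun z => k (e z)) P

/-- Every good pattern rooted in `D` holds or is blocked. -/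
def Full (𝓕 : Set TG) (m : ℕ) (G1 : SimpleGraph W1) (D : Finset Z) (e : Z → W1) : Prop :=
  ∀ P : Pat Z, P.Good m → P.roots ⊆ D → Holds G1 e P ∨ Blk 𝓕 G1 e P

theorem finite_pats (m : ℕ) (D : Finset Z) :
    {P : Pat Z | P.Good m ∧ P.roots ⊆ D}.Finite := by
  have h1 : Set.Finite (((range m).powerset ×ˢ ((range m ×ˢ range m).powerset ×ˢ
    (range m ×ˢ D).powerset) : Finset _) : Set (Finset ℕ × Finset (ℕ × ℕ) × Finset (ℕ × Z))) :=
    Finset.finite_toSet _
  refine Set.Finite.of_injOn (f := fun P : Pat Z => (P.I, P.E, P.A)) ?_ ?_ h1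
  · rintro P ⟨hP, hr⟩
    simp only [Finset.coe_product, Set.mem_prod, Finset.mem_coe, mem_powerset]
    refine ⟨hP.1, ?_, ?_⟩
    · intro p hp
      exact Finset.mem_product.mpr ⟨hP.1 (P.hE p hp).1, hP.1 (P.hE p hp).2⟩
    · intro p hp
      exact Finset.mem_product.mpr ⟨hP.1 (P.hA p hp), hr (Pat.mem_roots.mpr ⟨p.1, hp⟩)⟩
  · intro P _ Q _ h
    simp only [Prod.mk.injEq] at h
    exact Pat.ext' h.1 h.2.1 h.2.2

/-- The extension lemma. -/
theorem extend (hbd : ∀ F ∈ 𝓕, F.n ≤ m) (hΓ : HF 𝓕 Γ) (hEC : EC 𝓕 Γ) {G1 : SimpleGraph W1}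
    (hG1 : HF 𝓕 G1) {C D : Finset Z} (hCD : C ⊆ D) {e1 : Z → W1} {e2 : Z → V}
    (hst : SameType m G1 Γ C e1 e2) (hfull : Full 𝓕 m G1 D e1) :
    ∃ e2' : Z → V, (∀ c ∈ C, e2' c = e2 c) ∧ SameType m G1 Γ D e1 e2' := by
  by_cases hZ : Nonempty Z
  swap
  · refine ⟨e2, fun _ _ => rfl, ?_⟩
    have : D = C := by
      ext z
      exact absurd ⟨z⟩ hZ
    rw [this]
    exact hst
  obtain ⟨z0⟩ := hZ
  -- the free amalgam over `C`
  let Am : SimpleGraph (V ⊕ W1) :=
    { Adj := fun x y => match x, y with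
        | Sum.inl v, Sum.inl v' => Γ.Adj v v'
        | Sum.inr w, Sum.inr w' => G1.Adj w w' ∧ (¬ ∃ c ∈ C, e1 c = w) ∧ ¬ ∃ c ∈ C, e1 c = w'
        | Sum.inl v, Sum.inr w => (¬ ∃ c ∈ C, e1 c = w) ∧ ∃ c ∈ C, e2 c = v ∧ G1.Adj (e1 c) w
        | Sum.inr w, Sum.inl v => (¬ ∃ c ∈ C, e1 c = w) ∧ ∃ c ∈ C, e2 c = v ∧ G1.Adj (e1 c) w
      symm := ⟨by
        rintro (v | w) (v' | w') h
        · exact Γ.adj_symm h
        · exact h
        · exact h
        · exact ⟨h.1.symm, h.2.2, h.2.1⟩⟩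
      loopless := ⟨by
        rintro (v | w) h
        · exact Γ.irrefl h
        · exact G1.irrefl h.1⟩ }
  have hAm : HF 𝓕 Am := by
    intro F hF f hf
    set X : Set ℕ := {x | ∃ c ∈ C, f x = Sum.inl (e2 c)} with hX
    set r : ℕ → Z := fun x => if h : ∃ c ∈ C, f x = Sum.inl (e2 c) then h.choose else z0 with hr
    have hrX : ∀ x ∈ X, r x ∈ C ∧ f x = Sum.inl (e2 (r x)) := by
      intro x hx
      have hx' : ∃ c ∈ C, f x = Sum.inl (e2 c) := hx
      simp only [hr, dif_pos hx']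
      exact hx'.choose_spec
    obtain ⟨f', hf'⟩ := reassemble F X r (H := G1) e1 (fun x => e1 (r x))
      (fun _ _ _ _ _ => rfl) (by
        intro x hx y hy hxy
        have h := hf x y hxy
        obtain ⟨h1, h2⟩ := hrX x hx
        obtain ⟨h3, h4⟩ := hrX y hy
        rw [h2, h4] at h
        exact (hst.adj _ h1 _ h3).mpr h) (by
        intro y hy hyX
        have hgood := compPat_good (r := r) (hbd F hF) hy hyX
        have hroots : (compPat F X r y).roots ⊆ C := by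
          intro u hu
          obtain ⟨i, hi⟩ := Pat.mem_roots.mp hu
          obtain ⟨_, x, hx, _, rfl⟩ := mem_compPat_A.mp hi
          exact (hrX x hx).1
        -- the side is constant along the component
        have hside : ∀ a b (w : (delX F.G X).Walk a b),
            ((∃ v, f a = Sum.inl v) ↔ (∃ v, f b = Sum.inl v)) := by
          intro a b w
          induction w with
          | nil => exact Iff.rfl
          | @cons a b c hadj _ ih =>
            rw [← ih]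
            have h := hf _ _ hadj.1
            constructor
            · rintro ⟨v, hv⟩
              rcases hb : f b with v' | w'
              · exact ⟨v', rfl⟩
              · exfalso
                rw [hv, hb] at h
                obtain ⟨-, c, hc, hcv, -⟩ := h
                exact hadj.2.1 ⟨c, hc, by rw [hv, hcv]⟩
            · rintro ⟨v, hv⟩
              rcases ha : f a with v' | w'
              · exact ⟨v', rfl⟩
              · exfalso
                rw [ha, hv] at h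
                obtain ⟨-, c, hc, hcv, -⟩ := h
                exact hadj.2.2 ⟨c, hc, by rw [hv, hcv]⟩
        have hcs : ∀ i ∈ comp F X y, ((∃ v, f y = Sum.inl v) ↔ (∃ v, f i = Sum.inl v)) := by
          intro i hi
          obtain ⟨w⟩ := (Finset.mem_filter.mp hi).2
          exact hside y i w
        by_cases hyl : ∃ v, f y = Sum.inl v
        · rw [hst.holds _ hgood hroots]
          obtain ⟨v0, hv0⟩ := id hyl
          refine ⟨fun i => Sum.elim id (fun _ => v0) (f i), fun i j hij => ?_, fun i u hu => ?_⟩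
          · obtain ⟨h1, h2, h3⟩ := compPat_g.mp hij
            obtain ⟨v, hv⟩ := (hcs i h2).mp hyl
            obtain ⟨v', hv'⟩ := (hcs j h3).mp hyl
            have h := hf i j h1
            rw [hv, hv'] at h
            simp only [hv, hv', Sum.elim_inl, id]
            exact h
          · obtain ⟨h1, x, hx, hadj, hrx⟩ := mem_compPat_A.mp hu
            obtain ⟨v, hv⟩ := (hcs i h1).mp hyl
            obtain ⟨h2, h3⟩ := hrX x hx
            have h := hf x i hadj.symm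
            rw [h3, hv] at h
            simp only [hv, ← hrx, Sum.elim_inl, id]
            exact h
        · have hyr : ∀ i ∈ comp F X y, ∃ w, f i = Sum.inr w := by
            intro i hi
            rcases h : f i with v | w
            · exact absurd ((hcs i hi).mpr ⟨v, h⟩) hyl
            · exact ⟨w, rfl⟩
          obtain ⟨w0, hw0⟩ := hyr y (comp_self hy)
          refine ⟨fun i => Sum.elim (fun _ => w0) id (f i), fun i j hij => ?_, fun i u hu => ?_⟩
          · obtain ⟨h1, h2, h3⟩ := compPat_g.mp hij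
            obtain ⟨v, hv⟩ := hyr i h2
            obtain ⟨v', hv'⟩ := hyr j h3
            have h := hf i j h1
            rw [hv, hv'] at h
            simp only [hv, hv', Sum.elim_inr, id]
            exact h.1
          · obtain ⟨h1, x, hx, hadj, hrx⟩ := mem_compPat_A.mp hu
            obtain ⟨v, hv⟩ := hyr i h1
            obtain ⟨h2, h3⟩ := hrX x hx
            have h := hf x i hadj.symm
            rw [h3, hv] at h
            obtain ⟨-, c, hc, hcv, hcw⟩ := h
            simp only [hv, ← hrx, Sum.elim_inr, id]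
            rw [← (hst.eq c hc _ h2).mpr hcv]
            exact hcw)
    exact hG1 F hF f' hf'
  -- the embedding of `G1`
  set ι : W1 → V ⊕ W1 := fun w => if h : ∃ c ∈ C, e1 c = w then Sum.inl (e2 h.choose) else
    Sum.inr w with hι
  have hιC : ∀ c ∈ C, ι (e1 c) = Sum.inl (e2 c) := by
    intro c hc
    have h : ∃ c' ∈ C, e1 c' = e1 c := ⟨c, hc, rfl⟩
    simp only [hι, dif_pos h]
    rw [(hst.eq _ h.choose_spec.1 _ hc).mp h.choose_spec.2]
  have hιN : ∀ w, (¬ ∃ c ∈ C, e1 c = w) → ι w = Sum.inr w := by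
    intro w h
    simp only [hι, dif_neg h]
  have hιinj : Injective ι := by
    intro w w' h
    by_cases h1 : ∃ c ∈ C, e1 c = w
    · obtain ⟨c, hc, rfl⟩ := h1
      by_cases h2 : ∃ c ∈ C, e1 c = w'
      · obtain ⟨c', hc', rfl⟩ := h2
        rw [hιC c hc, hιC c' hc'] at h
        exact (hst.eq c hc c' hc').mpr (Sum.inl.inj h)
      · rw [hιC c hc, hιN w' h2] at h
        exact absurd h (by simp)
    · by_cases h2 : ∃ c ∈ C, e1 c = w'
      · obtain ⟨c', hc', rfl⟩ := h2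
        rw [hιN w h1, hιC c' hc'] at h
        exact absurd h (by simp)
      · rw [hιN w h1, hιN w' h2] at h
        exact Sum.inr.inj h
  have hιadj : ∀ w w', Am.Adj (ι w) (ι w') ↔ G1.Adj w w' := by
    intro w w'
    by_cases h1 : ∃ c ∈ C, e1 c = w
    · obtain ⟨c, hc, rfl⟩ := h1
      by_cases h2 : ∃ c ∈ C, e1 c = w'
      · obtain ⟨c', hc', rfl⟩ := h2
        rw [hιC c hc, hιC c' hc']
        exact (hst.adj c hc c' hc').symm
      · rw [hιC c hc, hιN w' h2]
        constructor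
        · rintro ⟨-, c', hc', h3, h4⟩
          rw [← (hst.eq c' hc' c hc).mpr h3]
          exact h4
        · intro h3
          exact ⟨h2, c, hc, rfl, h3⟩
    · by_cases h2 : ∃ c ∈ C, e1 c = w'
      · obtain ⟨c', hc', rfl⟩ := h2
        rw [hιN w h1, hιC c' hc']
        constructor
        · rintro ⟨-, c, hc, h3, h4⟩
          rw [← (hst.eq c hc c' hc').mpr h3]
          exact h4.symm
        · intro h3
          exact ⟨h1, c', hc', rfl, h3.symm⟩
      · rw [hιN w h1, hιN w' h2]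
        constructor
        · exact fun h => h.1
        · exact fun h => ⟨h, h1, h2⟩
  -- a finite set of vertices deciding all the patterns
  have hdec : ∀ P : Pat Z, P.Good m ∧ P.roots ⊆ D → ∃ T : Finset W1,
      (∃ φ : ℕ → W1, (∀ i ∈ P.I, φ i ∈ T) ∧ (∀ i j, P.g.Adj i j → G1.Adj (φ i) (φ j)) ∧
        ∀ i u, (i, u) ∈ P.A → G1.Adj (e1 u) (φ i)) ∨
      (¬ Holds G1 e1 P ∧ ∀ (W : Type) (G : SimpleGraph W) (k : W1 → W), HF 𝓕 G →
        (∀ x ∈ T, ∀ y ∈ T, G1.Adj x y → G.Adj (k x) (k y)) → ¬ Holds G (fun z => k (e1 z)) P) := by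
    rintro P ⟨hP, hr⟩
    by_cases hh : Holds G1 e1 P
    · obtain ⟨φ, h1, h2⟩ := hh
      exact ⟨P.I.image φ, Or.inl ⟨φ, fun i hi => Finset.mem_image_of_mem _ hi, h1, h2⟩⟩
    · rcases hfull P hP hr with h | ⟨T, hT⟩
      · exact absurd h hh
      · exact ⟨T, Or.inr ⟨hh, hT⟩⟩
  choose! Tf hTf using hdec
  set Ps := (finite_pats (Z := Z) m D).toFinset with hPs
  set T1 : Finset W1 := D.image e1 ∪ Ps.biUnion Tf with hT1
  have hTfsub : ∀ P : Pat Z, P.Good m ∧ P.roots ⊆ D → Tf P ⊆ T1 := by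
    intro P hP w hw
    exact Finset.mem_union_right _ (Finset.mem_biUnion.mpr ⟨P, by
      rw [hPs, Set.Finite.mem_toFinset]; exact hP, hw⟩)
  obtain ⟨k, hk1, hk2, hk3⟩ := hEC _ Am hAm Sum.inl Sum.inl_injective (fun _ _ => Iff.rfl)
    (T1.image ι)
  have hmem : ∀ w ∈ T1, ι w ∈ T1.image ι := fun w hw => Finset.mem_image_of_mem _ hw
  have hmemD : ∀ z ∈ D, e1 z ∈ T1 := fun z hz =>
    Finset.mem_union_left _ (Finset.mem_image_of_mem _ hz)
  have hadj : ∀ w ∈ T1, ∀ w' ∈ T1, Γ.Adj (k (ι w)) (k (ι w')) ↔ G1.Adj w w' := by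
    intro w hw w' hw'
    rw [hk2 _ (hmem w hw) _ (hmem w' hw'), hιadj]
  refine ⟨fun z => k (ι (e1 z)), ?_, ?_, ?_, ?_⟩
  · intro c hc
    have h1 := hmem _ (hmemD c (hCD hc))
    rw [hιC c hc] at h1
    simp only [hιC c hc]
    exact hk3 _ h1
  · intro x hx y hy
    exact (hadj _ (hmemD x hx) _ (hmemD y hy)).symm
  · intro x hx y hy
    constructor
    · intro h; simp only [h]
    · intro h
      exact hιinj (hk1 (hmem _ (hmemD x hx)) (hmem _ (hmemD y hy)) h)
  · intro P hP hr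
    rcases hTf P ⟨hP, hr⟩ with ⟨φ, h1, h2, h3⟩ | ⟨h1, h2⟩
    · constructor
      · intro _
        have hφT : ∀ i ∈ P.I, φ i ∈ T1 := fun i hi => hTfsub P ⟨hP, hr⟩ (h1 i hi)
        refine ⟨fun i => k (ι (φ i)), fun i j hij => ?_, fun i u hu => ?_⟩
        · have hi := Pat.g_mem hij
          exact (hadj _ (hφT i hi.1) _ (hφT j hi.2)).mpr (h2 i j hij)
        · exact (hadj _ (hmemD u (hr (Pat.mem_roots.mpr ⟨i, hu⟩))) _ (hφT i (P.hA _ hu))).mpr
            (h3 i u hu)
      · intro _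
        exact ⟨φ, h2, h3⟩
    · constructor
      · intro h
        exact absurd h h1
      · intro h
        refine absurd h (h2 V Γ (fun w => k (ι w)) hΓ ?_)
        intro x hx y hy hxy
        exact (hadj _ (hTfsub P ⟨hP, hr⟩ hx) _ (hTfsub P ⟨hP, hr⟩ hy)).mpr hxy

/-- Existentially complete graphs decide every pattern. -/
theorem full_ec (hEC : EC 𝓕 Γ) (D : Finset Z) (e : Z → V) : Full 𝓕 m Γ D e := by
  intro P _ _
  by_cases hhf : HF 𝓕 (attach Γ {P.map e})
  · left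
    obtain ⟨k, hk1, hk2, hk3⟩ := hEC _ _ hhf Sum.inl Sum.inl_injective (fun _ _ => Iff.rfl)
      (P.I.image (fun i => Sum.inr (P.map e, i)) ∪ P.roots.image (fun u => Sum.inl (e u)))
    have hI : ∀ i ∈ P.I, (Sum.inr (P.map e, i) : V ⊕ (Pat V × ℕ)) ∈
        P.I.image (fun i => Sum.inr (P.map e, i)) ∪ P.roots.image (fun u => Sum.inl (e u)) :=
      fun i hi => Finset.mem_union_left _ (Finset.mem_image.mpr ⟨i, hi, rfl⟩)
    have hR : ∀ u ∈ P.roots, (Sum.inl (e u) : V ⊕ (Pat V × ℕ)) ∈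
        P.I.image (fun i => Sum.inr (P.map e, i)) ∪ P.roots.image (fun u => Sum.inl (e u)) :=
      fun u hu => Finset.mem_union_right _ (Finset.mem_image.mpr ⟨u, hu, rfl⟩)
    refine ⟨fun i => k (Sum.inr (P.map e, i)), fun i j hij => ?_, fun i u hu => ?_⟩
    · exact (hk2 _ (hI i (Pat.g_mem hij).1) _ (hI j (Pat.g_mem hij).2)).mpr ⟨rfl, rfl, hij⟩
    · have hur := Pat.mem_roots.mpr ⟨i, hu⟩
      have h := (hk2 _ (hR u hur) _ (hI i (P.hA _ hu))).mpr
        ⟨rfl, Pat.mem_map_A.mpr ⟨u, hu, rfl⟩⟩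
      rw [hk3 _ (hR u hur)] at h
      exact h
  · right
    have hhf' : ∃ F ∈ 𝓕, ∃ f : ℕ → V ⊕ (Pat V × ℕ),
        ∀ i j, F.G.Adj i j → (attach Γ {P.map e}).Adj (f i) (f j) := by
      by_contra hcon
      exact hhf fun F hF f hf => hcon ⟨F, hF, f, hf⟩
    obtain ⟨F, hF, f, hf⟩ := hhf'
    refine ⟨(range F.n).biUnion fun i => match f i with
      | Sum.inl v => {v}
      | Sum.inr _ => ∅, ?_⟩
    rintro W G k hG hT ⟨φ, h1, h2⟩
    have hmem : ∀ i < F.n, ∀ v, f i = Sum.inl v → v ∈ ((range F.n).biUnion fun i =>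
        match f i with
        | Sum.inl v => {v}
        | Sum.inr _ => ∅ : Finset V) := by
      intro i hi v hv
      rw [Finset.mem_biUnion]
      refine ⟨i, Finset.mem_range.mpr hi, ?_⟩
      rw [hv]
      simp
    refine hG F hF (fun i => match f i with
      | Sum.inl v => k v
      | Sum.inr p => φ p.2) fun i j hij => ?_
    have h := hf i j hij
    have hi := F.lt _ _ hij
    have hj := F.lt _ _ hij.symm
    rcases h3 : f i with v | p <;> rcases h4 : f j with v' | p' <;> rw [h3, h4] at h <;>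
      simp only
    · exact hT _ (hmem i hi v h3) _ (hmem j hj v' h4) h
    · obtain ⟨h5, h6⟩ := h
      have h5' : p'.1 = P.map e := h5
      rw [h5'] at h6
      obtain ⟨u, hu, rfl⟩ := Pat.mem_map_A.mp h6
      exact h2 _ _ hu
    · obtain ⟨h5, h6⟩ := h
      have h5' : p.1 = P.map e := h5
      rw [h5'] at h6
      obtain ⟨u, hu, rfl⟩ := Pat.mem_map_A.mp h6
      exact (h2 _ _ hu).symm
    · obtain ⟨h5, h6, h7⟩ := h
      have h6' : p.1 = P.map e := h6
      rw [h6'] at h7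
      exact h1 _ _ h7

/-- The forth step. -/
theorem forth (hbd : ∀ F ∈ 𝓕, F.n ≤ m) (hΓ : HF 𝓕 Γ) (hEC : EC 𝓕 Γ) {p : Finset (V × V)}
    (hp : SameType m Γ Γ p Prod.fst Prod.snd) (v : V) :
    ∃ v', SameType m Γ Γ (insert (v, v') p) Prod.fst Prod.snd := by
  set e2 : V → V := fun a => if h : ∃ b, (a, b) ∈ p then h.choose else a with he2
  have he2p : ∀ a b, (a, b) ∈ p → e2 a = b := by
    intro a b hab
    have h : ∃ b, (a, b) ∈ p := ⟨b, hab⟩
    simp only [he2, dif_pos h]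
    exact (hp.eq (a, h.choose) h.choose_spec (a, b) hab).mp rfl
  have h1 : SameType m Γ Γ (p.image Prod.fst) (fun a => a) e2 := by
    refine hp.transfer (fun a => (a, e2 a)) ?_
    intro a ha
    obtain ⟨⟨a', b⟩, hab, rfl⟩ := Finset.mem_image.mp ha
    have h2 := he2p a' b hab
    have h3 : ((a', b).1, e2 (a', b).1) = (a', b) := by rw [Prod.mk.injEq]; exact ⟨rfl, h2⟩
    rw [h3]
    exact ⟨hab, rfl, h2.symm⟩
  obtain ⟨e2', h2, h3⟩ := extend hbd hΓ hEC hΓ (Finset.subset_insert v _) h1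
    (full_ec hEC _ _)
  refine ⟨e2' v, h3.transfer Prod.fst ?_⟩
  rintro ⟨a, b⟩ hab
  rcases Finset.mem_insert.mp hab with h | h
  · rw [Prod.mk.injEq] at h
    obtain ⟨rfl, rfl⟩ := h
    exact ⟨Finset.mem_insert_self _ _, rfl, rfl⟩
  · have h4 : a ∈ p.image Prod.fst := Finset.mem_image_of_mem Prod.fst h
    exact ⟨Finset.mem_insert_of_mem h4, rfl, (h2 a h4).trans (he2p a b h)⟩

/-- The back step. -/
theorem back (hbd : ∀ F ∈ 𝓕, F.n ≤ m) (hΓ : HF 𝓕 Γ) (hEC : EC 𝓕 Γ) {p : Finset (V × V)}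
    (hp : SameType m Γ Γ p Prod.fst Prod.snd) (v : V) :
    ∃ v', SameType m Γ Γ (insert (v', v) p) Prod.fst Prod.snd := by
  have h1 : SameType m Γ Γ (p.image Prod.swap) Prod.fst Prod.snd := by
    refine hp.symm.transfer Prod.swap ?_
    intro z hz
    obtain ⟨⟨a, b⟩, hab, rfl⟩ := Finset.mem_image.mp hz
    exact ⟨hab, rfl, rfl⟩
  obtain ⟨v', h2⟩ := forth hbd hΓ hEC h1 v
  refine ⟨v', h2.symm.transfer Prod.swap ?_⟩
  rintro ⟨a, b⟩ hab
  refine ⟨?_, rfl, rfl⟩
  rcases Finset.mem_insert.mp hab with h | h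
  · rw [h]
    exact Finset.mem_insert_self _ _
  · exact Finset.mem_insert_of_mem (Finset.mem_image.mpr ⟨(a, b), h, rfl⟩)

/-- Homogeneity: maps with the same type differ by an automorphism. -/
theorem homog [Countable V] (hbd : ∀ F ∈ 𝓕, F.n ≤ m) (hΓ : HF 𝓕 Γ) (hEC : EC 𝓕 Γ)
    {D : Finset Z} {e1 e2 : Z → V} (h : SameType m Γ Γ D e1 e2) :
    ∃ σ : Equiv.Perm V, (∀ a b, Γ.Adj (σ a) (σ b) ↔ Γ.Adj a b) ∧ ∀ z ∈ D, σ (e1 z) = e2 z := by
  have : Encodable V := Encodable.ofCountable V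
  let PI := {p : Finset (V × V) // SameType m Γ Γ p Prod.fst Prod.snd}
  have h0 : SameType m Γ Γ (D.image fun z => (e1 z, e2 z)) Prod.fst Prod.snd := by
    by_cases hZ : Nonempty Z
    · obtain ⟨z0⟩ := hZ
      refine h.transfer (fun q : V × V => if hq : ∃ z ∈ D, (e1 z, e2 z) = q then hq.choose else z0) ?_
      intro q hq
      have hq' : ∃ z ∈ D, (e1 z, e2 z) = q := by
        obtain ⟨z, hz, rfl⟩ := Finset.mem_image.mp hq
        exact ⟨z, hz, rfl⟩
      simp only [dif_pos hq']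
      have h1 := hq'.choose_spec
      exact ⟨h1.1, congrArg Prod.fst h1.2, congrArg Prod.snd h1.2⟩
    · have hD : D = ∅ := by
        ext z
        exact absurd ⟨z⟩ hZ
      subst hD
      simp only [Finset.image_empty]
      refine ⟨fun x hx => absurd hx (by simp), fun x hx => absurd hx (by simp), ?_⟩
      intro P _ hr
      have hA : ∀ i u, (i, u) ∉ P.A := fun i u hu => by
        have := hr (Pat.mem_roots.mpr ⟨i, hu⟩)
        simp at this
      constructor
      · rintro ⟨φ, h1, -⟩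
        exact ⟨φ, h1, fun i u hu => absurd hu (hA i u)⟩
      · rintro ⟨φ, h1, -⟩
        exact ⟨φ, h1, fun i u hu => absurd hu (hA i u)⟩
  let 𝒟 : V ⊕ V → Order.Cofinal PI := fun x => match x with
    | Sum.inl v => ⟨{p | ∃ b, (v, b) ∈ p.1}, fun p => by
        obtain ⟨v', hv'⟩ := forth hbd hΓ hEC p.2 v
        exact ⟨⟨_, hv'⟩, ⟨v', Finset.mem_insert_self _ _⟩, Finset.subset_insert _ _⟩⟩
    | Sum.inr v => ⟨{p | ∃ a, (a, v) ∈ p.1}, fun p => by
        obtain ⟨v', hv'⟩ := back hbd hΓ hEC p.2 v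
        exact ⟨⟨_, hv'⟩, ⟨v', Finset.mem_insert_self _ _⟩, Finset.subset_insert _ _⟩⟩
  set sq := Order.sequenceOfCofinals (⟨_, h0⟩ : PI) 𝒟 with hsq
  have hmono : Monotone sq := Order.sequenceOfCofinals.monotone _ _
  have hl : ∀ v, ∃ n b, (v, b) ∈ (sq n).1 := fun v =>
    ⟨_, Order.sequenceOfCofinals.encode_mem (⟨_, h0⟩ : PI) 𝒟 (Sum.inl v)⟩
  have hr : ∀ v, ∃ n a, (a, v) ∈ (sq n).1 := fun v =>
    ⟨_, Order.sequenceOfCofinals.encode_mem (⟨_, h0⟩ : PI) 𝒟 (Sum.inr v)⟩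
  have hjoin : ∀ n k (x y : V × V), x ∈ (sq n).1 → y ∈ (sq k).1 →
      (Γ.Adj x.1 y.1 ↔ Γ.Adj x.2 y.2) ∧ (x.1 = y.1 ↔ x.2 = y.2) := by
    intro n k x y hx hy
    have hx' : x ∈ (sq (max n k)).1 := hmono (le_max_left n k) hx
    have hy' : y ∈ (sq (max n k)).1 := hmono (le_max_right n k) hy
    exact ⟨(sq (max n k)).2.adj x hx' y hy', (sq (max n k)).2.eq x hx' y hy'⟩
  choose nl fl hfl using hl
  choose nr fr hfr using hr
  refine ⟨⟨fl, fr, fun v => ?_, fun v => ?_⟩, fun a b => ?_, fun z hz => ?_⟩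
  · exact ((hjoin _ _ _ _ (hfr (fl v)) (hfl v)).2.mpr rfl)
  · exact ((hjoin _ _ _ _ (hfl (fr v)) (hfr v)).2.mp rfl)
  · exact (hjoin _ _ _ _ (hfl a) (hfl b)).1.symm
  · have h2 : (e1 z, e2 z) ∈ (sq 0).1 := Finset.mem_image.mpr ⟨z, hz, rfl⟩
    exact (hjoin _ _ _ _ (hfl (e1 z)) h2).2.mp rfl

end

end MPec220f
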