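import Pool.Agent.Lib_MP_ec220f_lc.Graph

/-!
The key of a two-sided pattern and the key lemma.
-/

namespace MPec220f

open Finset Function

open scoped Classical in
section

variable {V : Type}

/-- Two disjoint copies of a graph. -/
def dbl (Γ : SimpleGraph V) : SimpleGraph (V ⊕ V) where
  Adj x y := match x, y with
    | Sum.inl u, Sum.inl v => Γ.Adj u v
    | Sum.inr u, Sum.inr v => Γ.Adj u v
    | _, _ => False
  symm := ⟨by
    rintro (u | u) (v | v) h
    · exact Γ.adj_symm h
    · exact h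
    · exact h
    · exact Γ.adj_symm h⟩
  loopless := ⟨by
    rintro (u | u) h
    · exact Γ.irrefl h
    · exact Γ.irrefl h⟩

@[simp] theorem dbl_ll {Γ : SimpleGraph V} {u v : V} :
    (dbl Γ).Adj (Sum.inl u) (Sum.inl v) ↔ Γ.Adj u v := Iff.rfl
@[simp] theorem dbl_rr {Γ : SimpleGraph V} {u v : V} :
    (dbl Γ).Adj (Sum.inr u) (Sum.inr v) ↔ Γ.Adj u v := Iff.rfl
@[simp] theorem dbl_lr {Γ : SimpleGraph V} {u v : V} :
    ¬ (dbl Γ).Adj (Sum.inl u) (Sum.inr v) := fun h => h
@[simp] theorem dbl_rl {Γ : SimpleGraph V} {u v : V} :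
    ¬ (dbl Γ).Adj (Sum.inr u) (Sum.inl v) := fun h => h

namespace Pat

/-- `i` has a root on the left. -/
def MV (P : Pat (V ⊕ V)) (i : ℕ) : Prop := ∃ v, (i, Sum.inl v) ∈ P.A
/-- `i` has a root on the right. -/
def NV (P : Pat (V ⊕ V)) (i : ℕ) : Prop := ∃ v, (i, Sum.inr v) ∈ P.A
/-- The pattern has roots on both sides. -/
def Two (P : Pat (V ⊕ V)) : Prop := (∃ i, P.MV i) ∧ ∃ i, P.NV i

/-- Least distance between vertices with roots on the two sides. -/
noncomputable def ell (P : Pat (V ⊕ V)) : ℕ :=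
  sInf {d | ∃ i j, P.MV i ∧ P.NV j ∧ P.g.dist i j = d}

/-- Centres. -/
def Centre (P : Pat (V ⊕ V)) (i : ℕ) : Prop := P.MV i ∧ ∃ j, P.NV j ∧ P.g.dist i j = P.ell

/-- The potential of a pattern at a vertex. -/
noncomputable def pot (m : ℕ) (P : Pat (V ⊕ V)) (x : ℕ) : ℕ :=
  ∑ u ∈ P.I, (m * m + m + 1) ^ (m - P.g.dist u x) +
    ∑ p ∈ P.A, (m * m + m + 1) ^ (m - P.g.dist p.1 x)

/-- The largest potential at a centre. -/
noncomputable def Phi (m : ℕ) (P : Pat (V ⊕ V)) : ℕ :=
  (P.I.filter P.Centre).sup (P.pot m)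

/-- The key. -/
noncomputable def kap (m : ℕ) (P : Pat (V ⊕ V)) : ℕ :=
  (m - P.ell) * (m * m + m + 1) ^ (m + 1) + P.Phi m

theorem MV.mem {P : Pat (V ⊕ V)} {i : ℕ} (h : P.MV i) : i ∈ P.I := by
  obtain ⟨v, hv⟩ := h
  exact P.hA _ hv

theorem NV.mem {P : Pat (V ⊕ V)} {i : ℕ} (h : P.NV i) : i ∈ P.I := by
  obtain ⟨v, hv⟩ := h
  exact P.hA _ hv

theorem ell_le {P : Pat (V ⊕ V)} {i j : ℕ} (hi : P.MV i) (hj : P.NV j) (p : P.g.Walk i j) :
    P.ell ≤ p.length := by
  have h : P.ell ≤ P.g.dist i j := Nat.sInf_le ⟨i, j, hi, hj, rfl⟩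
  exact h.trans (SimpleGraph.dist_le p)

theorem exists_centre {P : Pat (V ⊕ V)} (h : P.Two) : ∃ i, P.Centre i := by
  obtain ⟨⟨i, hi⟩, ⟨j, hj⟩⟩ := h
  have hne : {d | ∃ i j, P.MV i ∧ P.NV j ∧ P.g.dist i j = d}.Nonempty := ⟨_, i, j, hi, hj, rfl⟩
  obtain ⟨a, b, ha, hb, hab⟩ := Nat.sInf_mem hne
  exact ⟨a, ha, b, hb, hab⟩

/-- Distances in a connected pattern are less than the number of interior vertices. -/
theorem dist_lt {P : Pat (V ⊕ V)} (hc : ∀ i ∈ P.I, ∀ j ∈ P.I, P.g.Reachable i j) {i j : ℕ}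
    (hi : i ∈ P.I) (hj : j ∈ P.I) : P.g.dist i j < P.I.card := by
  obtain ⟨p, hp, hlen⟩ := (hc i hi j hj).exists_path_of_dist
  have h1 : ∀ a b (w : P.g.Walk a b), a ∈ P.I → ∀ x ∈ w.support, x ∈ P.I := by
    intro a b w
    induction w with
    | nil => intro ha x hx; simp at hx; rw [hx]; exact ha
    | cons hadj _ ih =>
      intro ha x hx
      rw [SimpleGraph.Walk.support_cons, List.mem_cons] at hx
      rcases hx with rfl | hx
      · exact ha
      · exact ih (g_mem hadj).2 x hx
  have h2 : p.support.toFinset ⊆ P.I := fun x hx => h1 _ _ p hi x (List.mem_toFinset.mp hx)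
  have h3 := Finset.card_le_card h2
  rw [List.toFinset_card_of_nodup hp.support_nodup, SimpleGraph.Walk.length_support] at h3
  omega

theorem Good.card_A {m : ℕ} {P : Pat (V ⊕ V)} (h : P.Good m) :
    P.I.card + P.A.card ≤ m * m + m := by
  have h1 : P.A ⊆ P.I ×ˢ P.roots := by
    intro p hp
    exact Finset.mem_product.mpr ⟨P.hA p hp, mem_roots.mpr ⟨p.1, hp⟩⟩
  have h2 := Finset.card_le_card h1
  rw [Finset.card_product] at h2
  have h3 := h.2.2.2
  have h4 : P.I.card ≤ m := by omega
  have h5 : P.roots.card ≤ m := by omega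
  have h6 : P.I.card * P.roots.card ≤ m * m := Nat.mul_le_mul h4 h5
  omega

theorem Good.pot_lt {m : ℕ} {P : Pat (V ⊕ V)} (h : P.Good m) (x : ℕ) :
    P.pot m x < (m * m + m + 1) ^ (m + 1) := by
  have hB : 0 < (m * m + m + 1) := by omega
  have h1 : P.pot m x ≤ (P.I.card + P.A.card) * (m * m + m + 1) ^ m := by
    rw [add_mul, pot]
    refine add_le_add ?_ ?_
    · exact Finset.sum_le_card_nsmul _ _ _ fun u _ => Nat.pow_le_pow_right hB (Nat.sub_le _ _)
    · exact Finset.sum_le_card_nsmul _ _ _ fun u _ => Nat.pow_le_pow_right hB (Nat.sub_le _ _)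
  have h2 := h.card_A
  calc _ ≤ _ := h1
    _ < (m * m + m + 1) * (m * m + m + 1) ^ m :=
        Nat.mul_lt_mul_of_pos_right (by omega) (Nat.pow_pos hB)
    _ = _ := by rw [pow_succ, mul_comm]

theorem Good.Phi_lt {m : ℕ} {P : Pat (V ⊕ V)} (h : P.Good m) :
    P.Phi m < (m * m + m + 1) ^ (m + 1) := by
  rw [Phi, Finset.sup_lt_iff (Nat.pow_pos (by omega))]
  intro b _
  exact h.pot_lt b

theorem kap_lt_of_ell {m : ℕ} {P Q : Pat (V ⊕ V)} (h : P.Good m) (h2 : P.Two)
    (hl : Q.ell < P.ell) : P.kap m < Q.kap m := by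
  have h1 := h.Phi_lt
  have h3 : P.ell ≤ m := by
    obtain ⟨i, hi, j, hj, hij⟩ := exists_centre h2
    rw [← hij]
    have := dist_lt h.2.2.1 hi.mem hj.mem
    have := h.2.2.2
    omega
  have h4 : (m - P.ell) + 1 ≤ m - Q.ell := by omega
  have h5 := Nat.mul_le_mul_right ((m * m + m + 1) ^ (m + 1)) h4
  rw [add_mul, one_mul] at h5
  simp only [kap]
  omega

end Pat

section keylemma

variable {Γ : SimpleGraph V} {S : Set (Pat (V ⊕ V))} {Q : Pat (V ⊕ V)}
  {φ : ℕ → (V ⊕ V) ⊕ (Pat (V ⊕ V) × ℕ)}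

/-- Walks of `Q` towards a vertex with a root on the right, seen in the attached graph. -/
theorem walk_lemma (h1 : ∀ i j, Q.g.Adj i j → (attach (dbl Γ) S).Adj (φ i) (φ j))
    (h2 : ∀ i u, (i, u) ∈ Q.A → (attach (dbl Γ) S).Adj (Sum.inl u) (φ i))
    {v v' : ℕ} (w : Q.g.Walk v v') (hv' : Q.NV v') :
    (∀ a, φ v = Sum.inl (Sum.inl a) → ∃ s ∈ S, ∃ i j, s.MV i ∧ s.NV j ∧
      ∃ p : s.g.Walk i j, p.length + 1 ≤ w.length) ∧
    (∀ s i, φ v = Sum.inr (s, i) → (s ∈ S ∧ ∃ j, s.NV j ∧ ∃ p : s.g.Walk i j, p.length ≤ w.length) ∨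
      ∃ s ∈ S, ∃ i j, s.MV i ∧ s.NV j ∧ ∃ p : s.g.Walk i j, p.length + 2 ≤ w.length) := by
  induction w with
  | nil =>
    obtain ⟨b, hb⟩ := hv'
    have h := h2 _ _ hb
    refine ⟨?_, ?_⟩
    · intro a ha
      rw [ha] at h
      exact (show False from h).elim
    · intro s i hs
      rw [hs] at h
      exact Or.inl ⟨h.1, i, ⟨b, h.2⟩, SimpleGraph.Walk.nil, le_refl _⟩
  | @cons v v1 v' hadj w ih =>
    obtain ⟨iha, ihb⟩ := ih hv'
    have h := h1 _ _ hadj
    refine ⟨?_, ?_⟩
    · intro a ha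
      rw [ha] at h
      rcases h3 : φ v1 with (b | b) | ⟨s, i⟩
      · obtain ⟨s, hs, i, j, hi, hj, p, hp⟩ := iha b h3
        exact ⟨s, hs, i, j, hi, hj, p, by simp; omega⟩
      · rw [h3] at h
        exact (show False from h).elim
      · rw [h3] at h
        rcases ihb s i h3 with ⟨hs, j, hj, p, hp⟩ | ⟨s, hs, i, j, hi, hj, p, hp⟩
        · exact ⟨s, hs, i, j, ⟨a, h.2⟩, hj, p, by simp; omega⟩
        · exact ⟨s, hs, i, j, hi, hj, p, by simp; omega⟩
    · intro s i hs
      rw [hs] at h
      rcases h3 : φ v1 with (b | b) | ⟨s1, i1⟩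
      · obtain ⟨s, hs, i, j, hi, hj, p, hp⟩ := iha b h3
        exact Or.inr ⟨s, hs, i, j, hi, hj, p, by simp; omega⟩
      · rw [h3] at h
        exact Or.inl ⟨h.1, i, ⟨b, h.2⟩, SimpleGraph.Walk.nil, by simp⟩
      · rw [h3] at h
        obtain ⟨h4, h5, h6⟩ := h
        simp only at h4 h5 h6
        subst h4
        rcases ihb s i1 h3 with ⟨_, j, hj, p, hp⟩ | ⟨s', hs', i', j, hi, hj, p, hp⟩
        · exact Or.inl ⟨h5, j, hj, SimpleGraph.Walk.cons h6 p, by simp; omega⟩
        · exact Or.inr ⟨s', hs', i', j, hi, hj, p, by simp; omega⟩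

/-- The key lemma. -/
theorem key_lemma {m : ℕ} (hQ : Q.Good m) (hT : Q.Two)
    (hφ : InjHolds (attach (dbl Γ) S) Q.roots Q φ) :
    ∃ s ∈ S, Q.kap m < s.kap m ∨ (Q.kap m = s.kap m ∧ s.roots = Q.roots ∧
      ∀ (W' : Type) (H : SimpleGraph W') (e : V ⊕ V → W'), Holds H e s → Holds H e Q) := by
  obtain ⟨h1, h2, h3, h4⟩ := hφ
  -- the best centre
  obtain ⟨x, hx⟩ := Pat.exists_centre hT
  obtain ⟨v0, hv0, hphi⟩ := Finset.exists_mem_eq_sup (Q.I.filter Q.Centre)
    ⟨x, Finset.mem_filter.mpr ⟨hx.1.mem, hx⟩⟩ (Q.pot m)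
  have hphi' : Q.Phi m = Q.pot m v0 := hphi
  obtain ⟨hv0I, hcen⟩ := Finset.mem_filter.mp hv0
  obtain ⟨hM, v', hN, hd⟩ := hcen
  obtain ⟨w, hw⟩ := (hQ.2.2.1 v0 hv0I v' hN.mem).exists_walk_length_eq_dist
  rw [hd] at hw
  obtain ⟨wa, wb⟩ := walk_lemma h1 h2 w hN
  obtain ⟨a0, ha0⟩ := hM
  have hadj0 := h2 _ _ ha0
  rcases h5 : φ v0 with (a | b) | ⟨s, i0⟩
  · obtain ⟨s, hs, i, j, hi, hj, p, hp⟩ := wa a h5
    have := Pat.ell_le hi hj p
    exact ⟨s, hs, Or.inl (Pat.kap_lt_of_ell hQ hT (by omega))⟩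
  · rw [h5] at hadj0
    exact (show False from hadj0).elim
  · rw [h5] at hadj0
    have hMi0 : s.MV i0 := ⟨a0, hadj0.2⟩
    rcases wb s i0 h5 with ⟨hs, j, hj, p, hp⟩ | ⟨s, hs, i, j, hi, hj, p, hp⟩
    swap
    · have := Pat.ell_le hi hj p
      exact ⟨s, hs, Or.inl (Pat.kap_lt_of_ell hQ hT (by omega))⟩
    have hell := Pat.ell_le hMi0 hj p
    rcases Nat.lt_or_ge s.ell Q.ell with hlt | hge
    · exact ⟨s, hs, Or.inl (Pat.kap_lt_of_ell hQ hT hlt)⟩
    have helleq : s.ell = Q.ell := by omega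
    have hcs : s.Centre i0 := by
      refine ⟨hMi0, j, hj, ?_⟩
      have h6 : s.ell ≤ s.g.dist i0 j := Nat.sInf_le ⟨i0, j, hMi0, hj, rfl⟩
      have h7 := SimpleGraph.dist_le p
      omega
    have hphis : s.pot m i0 ≤ s.Phi m :=
      Finset.le_sup (f := s.pot m) (Finset.mem_filter.mpr ⟨hMi0.mem, hcs⟩)
    -- the partial map into the interior of `s`
    set c : ℕ → ℕ := fun u => match φ u with
      | Sum.inl _ => 0
      | Sum.inr q => q.2 with hc
    have hcφ : ∀ u i, φ u = Sum.inr (s, i) → c u = i := by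
      intro u i hu
      simp only [hc, hu]
    have hcinj : ∀ u ∈ Q.I, ∀ u' ∈ Q.I, (∃ i, φ u = Sum.inr (s, i)) →
        (∃ i, φ u' = Sum.inr (s, i)) → c u = c u' → u = u' := by
      rintro u hu u' hu' ⟨i, hi⟩ ⟨i', hi'⟩ h
      rw [hcφ u i hi, hcφ u' i' hi'] at h
      refine h3 hu hu' ?_
      rw [hi, hi', h]
    have hcA : ∀ u v, (u, v) ∈ Q.A → (∃ i, φ u = Sum.inr (s, i)) → (c u, v) ∈ s.A := by
      rintro u v huv ⟨i, hi⟩
      have h := h2 _ _ huv
      rw [hi] at h
      rw [hcφ u i hi]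
      exact h.2
    have hcI : ∀ u ∈ Q.I, (∃ i, φ u = Sum.inr (s, i)) → c u ∈ s.I := by
      rintro u hu ⟨i, hi⟩
      rw [hcφ u i hi]
      -- `u` has a neighbour or a root
      by_cases huv : u = v0
      · subst huv
        rw [h5] at hi
        have : i0 = i := by
          have := Sum.inr.inj hi
          exact (Prod.mk.inj this).2
        rw [← this]; exact hMi0.mem
      · obtain ⟨wk⟩ := hQ.2.2.1 u hu v0 hv0I
        cases wk with
        | nil => exact absurd rfl huv
        | @cons _ b _ hadj _ =>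
          have h := h1 _ _ hadj
          rw [hi] at h
          rcases h6 : φ b with v | ⟨q1, q2⟩
          · rw [h6] at h
            exact s.hA _ h.2
          · rw [h6] at h
            exact (Pat.g_mem h.2.2).1
    have hcg : ∀ u u', Q.g.Adj u u' → (∃ i, φ u = Sum.inr (s, i)) →
        (∃ i, φ u' = Sum.inr (s, i)) → s.g.Adj (c u) (c u') := by
      rintro u u' huu ⟨i, hi⟩ ⟨i', hi'⟩
      have h := h1 _ _ huu
      rw [hi, hi'] at h
      rw [hcφ u i hi, hcφ u' i' hi']
      exact h.2.2
    have hc0 : c v0 = i0 := hcφ v0 i0 h5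
    -- inside the ball avoiding the outside vertices
    have hball : ∀ t, ∀ u ∈ Q.I, Q.g.dist u v0 = t →
        (∀ w ∈ Q.I, (¬ ∃ i, φ w = Sum.inr (s, i)) → t < Q.g.dist w v0) →
        (∃ i, φ u = Sum.inr (s, i)) ∧ ∃ p : s.g.Walk (c u) i0, p.length = t := by
      intro t
      induction t with
      | zero =>
        intro u hu hut _
        have : u = v0 := ((hQ.2.2.1 u hu v0 hv0I).dist_eq_zero_iff).mp hut
        subst this
        refine ⟨⟨i0, h5⟩, ?_⟩
        rw [hc0]
        exact ⟨SimpleGraph.Walk.nil, rfl⟩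
      | succ t ih =>
        intro u hu hut hout
        have hIn : ∃ i, φ u = Sum.inr (s, i) := by
          by_contra hno
          have := hout u hu hno
          omega
        refine ⟨hIn, ?_⟩
        obtain ⟨wk, hwk⟩ := (hQ.2.2.1 u hu v0 hv0I).exists_walk_length_eq_dist
        rw [hut] at hwk
        cases wk with
        | nil => simp at hwk
        | @cons _ b _ hadj wk' =>
          rw [SimpleGraph.Walk.length_cons] at hwk
          have hb := (Pat.g_mem hadj).2
          have hdb : Q.g.dist b v0 = t := by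
            have h6 := SimpleGraph.dist_le wk'
            obtain ⟨wk2, hwk2⟩ := (hQ.2.2.1 b hb v0 hv0I).exists_walk_length_eq_dist
            have h7 := SimpleGraph.dist_le (SimpleGraph.Walk.cons hadj wk2)
            rw [SimpleGraph.Walk.length_cons] at h7
            omega
          obtain ⟨hbIn, p', hp'⟩ := ih b hb hdb fun w hw hnw => by
            have := hout w hw hnw
            omega
          refine ⟨SimpleGraph.Walk.cons (hcg u b hadj hIn hbIn) p', ?_⟩
          rw [SimpleGraph.Walk.length_cons, hp']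
    have hB1 : 0 < m * m + m + 1 := by omega
    by_cases hall : ∀ u ∈ Q.I, ∃ i, φ u = Sum.inr (s, i)
    · -- everything is inside `s`
      have hdist : ∀ u ∈ Q.I, s.g.dist (c u) i0 ≤ Q.g.dist u v0 := by
        intro u hu
        obtain ⟨-, p', hp'⟩ := hball _ u hu rfl fun w hw hnw => absurd (hall w hw) hnw
        rw [← hp']
        exact SimpleGraph.dist_le p'
      have hsumI : ∑ u ∈ Q.I, (m * m + m + 1) ^ (m - Q.g.dist u v0) ≤
          ∑ i ∈ s.I, (m * m + m + 1) ^ (m - s.g.dist i i0) := by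
        calc _ ≤ ∑ u ∈ Q.I, (m * m + m + 1) ^ (m - s.g.dist (c u) i0) := by
              refine Finset.sum_le_sum fun u hu => Nat.pow_le_pow_right hB1 ?_
              have := hdist u hu
              omega
          _ = ∑ i ∈ Q.I.image c, (m * m + m + 1) ^ (m - s.g.dist i i0) := by
              rw [Finset.sum_image]
              intro u hu u' hu' h
              exact hcinj u hu u' hu' (hall u hu) (hall u' hu') h
          _ ≤ _ := by
              refine Finset.sum_le_sum_of_subset ?_
              intro i hi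
              obtain ⟨u, hu, rfl⟩ := Finset.mem_image.mp hi
              exact hcI u hu (hall u hu)
      have himA : Q.A.image (fun p => (c p.1, p.2)) ⊆ s.A := by
        intro p hp
        obtain ⟨⟨u, v⟩, hq, rfl⟩ := Finset.mem_image.mp hp
        exact hcA u v hq (hall u (Q.hA _ hq))
      have hsumA : ∑ p ∈ Q.A, (m * m + m + 1) ^ (m - Q.g.dist p.1 v0) ≤
          ∑ p ∈ Q.A.image (fun p => (c p.1, p.2)), (m * m + m + 1) ^ (m - s.g.dist p.1 i0) := by
        rw [Finset.sum_image]
        · refine Finset.sum_le_sum fun p hp => Nat.pow_le_pow_right hB1 ?_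
          have := hdist p.1 (Q.hA _ hp)
          simp only
          omega
        · rintro ⟨u, v⟩ hu ⟨u', v'⟩ hu' h
          simp only [Prod.mk.injEq] at h
          have := hcinj u (Q.hA _ hu) u' (Q.hA _ hu') (hall u (Q.hA _ hu)) (hall u' (Q.hA _ hu')) h.1
          rw [this, h.2]
      have hsumA' := Finset.sum_le_sum_of_subset (f := fun p : ℕ × (V ⊕ V) =>
        (m * m + m + 1) ^ (m - s.g.dist p.1 i0)) himA
      have hpot : Q.pot m v0 ≤ s.pot m i0 := by
        simp only [Pat.pot]
        exact add_le_add hsumI (hsumA.trans hsumA')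
      have hle : Q.kap m ≤ s.kap m := by
        simp only [Pat.kap, helleq]
        omega
      rcases Nat.lt_or_ge (Q.kap m) (s.kap m) with hlt | hge'
      · exact ⟨s, hs, Or.inl hlt⟩
      · have heq : Q.kap m = s.kap m := le_antisymm hle hge'
        refine ⟨s, hs, Or.inr ⟨heq, ?_, ?_⟩⟩
        · -- the root sets agree
          have hsub : s.A ⊆ Q.A.image (fun p => (c p.1, p.2)) := by
            by_contra hns
            obtain ⟨q, hq, hq'⟩ := Finset.not_subset.mp hns
            have hlt : ∑ p ∈ Q.A.image (fun p => (c p.1, p.2)),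
                (m * m + m + 1) ^ (m - s.g.dist p.1 i0) <
                ∑ p ∈ s.A, (m * m + m + 1) ^ (m - s.g.dist p.1 i0) :=
              Finset.sum_lt_sum_of_subset himA hq hq' (Nat.pow_pos hB1) fun _ _ _ => Nat.zero_le _
            have : Q.pot m v0 < s.pot m i0 := by
              simp only [Pat.pot]
              exact add_lt_add_of_le_of_lt hsumI (lt_of_le_of_lt hsumA hlt)
            simp only [Pat.kap, helleq] at heq
            omega
          ext u
          constructor
          · intro hu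
            obtain ⟨i, hi⟩ := Pat.mem_roots.mp hu
            obtain ⟨⟨a, b⟩, hab, h6⟩ := Finset.mem_image.mp (hsub hi)
            simp only [Prod.mk.injEq] at h6
            rw [← h6.2]
            exact Pat.mem_roots.mpr ⟨a, hab⟩
          · intro hu
            obtain ⟨i, hi⟩ := Pat.mem_roots.mp hu
            exact Pat.mem_roots.mpr ⟨c i, hcA i u hi (hall i (Q.hA _ hi))⟩
        · rintro W' H e ⟨ψ, hψ1, hψ2⟩
          refine ⟨fun u => ψ (c u), fun u u' huu => ?_, fun u v huv => ?_⟩
          · exact hψ1 _ _ (hcg u u' huu (hall u (Pat.g_mem huu).1) (hall u' (Pat.g_mem huu).2))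
          · exact hψ2 _ _ (hcA u v huv (hall u (Q.hA _ huv)))
    · -- some vertex is outside `s`
      push Not at hall
      set Out := Q.I.filter fun u => ¬ ∃ i, φ u = Sum.inr (s, i) with hOut
      have hOutne : Out.Nonempty := by
        obtain ⟨u, hu, hu'⟩ := hall
        exact ⟨u, Finset.mem_filter.mpr ⟨hu, fun ⟨i, hi⟩ => hu' i hi⟩⟩
      obtain ⟨w0, hw0, hmin⟩ := Finset.exists_min_image Out (fun u => Q.g.dist u v0) hOutne
      obtain ⟨hw0I, hw0out⟩ := Finset.mem_filter.mp hw0
      have hw0ne : w0 ≠ v0 := by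
        rintro rfl
        exact hw0out ⟨i0, h5⟩
      obtain ⟨wk, hwk⟩ := (hQ.2.2.1 w0 hw0I v0 hv0I).exists_walk_length_eq_dist
      cases wk with
      | nil => exact absurd rfl hw0ne
      | @cons _ u0 _ hadj wk' =>
        rw [SimpleGraph.Walk.length_cons] at hwk
        have hu0 := (Pat.g_mem hadj).2
        set r := wk'.length with hr
        have hdu0 : Q.g.dist u0 v0 = r := by
          have h6 := SimpleGraph.dist_le wk'
          obtain ⟨wk2, hwk2⟩ := (hQ.2.2.1 u0 hu0 v0 hv0I).exists_walk_length_eq_dist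
          have h7 := SimpleGraph.dist_le (SimpleGraph.Walk.cons hadj wk2)
          rw [SimpleGraph.Walk.length_cons] at h7
          omega
        have hballr : ∀ u ∈ Q.I, Q.g.dist u v0 ≤ r →
            (∃ i, φ u = Sum.inr (s, i)) ∧ s.g.dist (c u) i0 ≤ Q.g.dist u v0 := by
          intro u hu hur
          obtain ⟨h6, p', hp'⟩ := hball _ u hu rfl fun w hw hnw => by
            have := hmin w (Finset.mem_filter.mpr ⟨hw, hnw⟩)
            omega
          refine ⟨h6, ?_⟩
          have := SimpleGraph.dist_le p'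
          omega
        obtain ⟨hu0In, hu0d⟩ := hballr u0 hu0 (le_of_eq hdu0)
        -- the new root at `c u0`
        obtain ⟨b, hb⟩ : ∃ b, φ w0 = Sum.inl b := by
          rcases h6 : φ w0 with b | ⟨q1, q2⟩
          · exact ⟨b, rfl⟩
          · exfalso
            obtain ⟨i, hi⟩ := hu0In
            have h := h1 _ _ hadj
            rw [h6, hi] at h
            have h7 : q1 = s := h.1
            subst h7
            exact hw0out ⟨q2, h6⟩
        have hbA : (c u0, b) ∈ s.A := by
          obtain ⟨i, hi⟩ := hu0In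
          have h := h1 _ _ hadj
          rw [hb, hi] at h
          rw [hcφ u0 i hi]
          exact h.2
        have hbn : b ∉ Q.roots := fun hbr => h4 w0 hw0I b hbr hb
        have hm1 : r + 1 ≤ m := by
          have h6 := Pat.dist_lt hQ.2.2.1 hw0I hv0I
          have h7 := hQ.2.2.2
          omega
        -- sums over the ball
        set N := Q.I.filter fun u => Q.g.dist u v0 ≤ r with hN'
        set NA := Q.A.filter fun p => Q.g.dist p.1 v0 ≤ r with hNA
        have hsI : ∑ u ∈ N, (m * m + m + 1) ^ (m - Q.g.dist u v0) ≤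
            ∑ i ∈ s.I, (m * m + m + 1) ^ (m - s.g.dist i i0) := by
          calc _ ≤ ∑ u ∈ N, (m * m + m + 1) ^ (m - s.g.dist (c u) i0) := by
                refine Finset.sum_le_sum fun u hu => Nat.pow_le_pow_right hB1 ?_
                obtain ⟨h6, h7⟩ := Finset.mem_filter.mp hu
                have := (hballr u h6 h7).2
                omega
            _ = ∑ i ∈ N.image c, (m * m + m + 1) ^ (m - s.g.dist i i0) := by
                rw [Finset.sum_image]
                intro u hu u' hu' h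
                obtain ⟨h6, h7⟩ := Finset.mem_filter.mp hu
                obtain ⟨h6', h7'⟩ := Finset.mem_filter.mp hu'
                exact hcinj u h6 u' h6' (hballr u h6 h7).1 (hballr u' h6' h7').1 h
            _ ≤ _ := by
                refine Finset.sum_le_sum_of_subset ?_
                intro i hi
                obtain ⟨u, hu, rfl⟩ := Finset.mem_image.mp hi
                obtain ⟨h6, h7⟩ := Finset.mem_filter.mp hu
                exact hcI u h6 (hballr u h6 h7).1
        have hsA : ∑ p ∈ NA, (m * m + m + 1) ^ (m - Q.g.dist p.1 v0) +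
            (m * m + m + 1) ^ (m - r) ≤ ∑ p ∈ s.A, (m * m + m + 1) ^ (m - s.g.dist p.1 i0) := by
          have hnot : (c u0, b) ∉ NA.image (fun p => (c p.1, p.2)) := by
            intro h6
            obtain ⟨⟨u, v⟩, hq, h7⟩ := Finset.mem_image.mp h6
            simp only [Prod.mk.injEq] at h7
            apply hbn
            rw [← h7.2]
            exact Pat.mem_roots.mpr ⟨u, (Finset.mem_filter.mp hq).1⟩
          have hsub : insert (c u0, b) (NA.image (fun p => (c p.1, p.2))) ⊆ s.A := by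
            intro p hp
            rcases Finset.mem_insert.mp hp with rfl | hp
            · exact hbA
            · obtain ⟨⟨u, v⟩, hq, rfl⟩ := Finset.mem_image.mp hp
              obtain ⟨h6, h7⟩ := Finset.mem_filter.mp hq
              exact hcA u v h6 (hballr u (Q.hA _ h6) h7).1
          refine le_trans ?_ (Finset.sum_le_sum_of_subset hsub)
          rw [Finset.sum_insert hnot, add_comm]
          refine add_le_add ?_ ?_
          · refine Nat.pow_le_pow_right hB1 ?_
            simp only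
            omega
          · rw [Finset.sum_image]
            · refine Finset.sum_le_sum fun p hp => Nat.pow_le_pow_right hB1 ?_
              obtain ⟨h6, h7⟩ := Finset.mem_filter.mp hp
              have := (hballr p.1 (Q.hA _ h6) h7).2
              simp only
              omega
            · rintro ⟨u, v⟩ hu ⟨u', v'⟩ hu' h
              simp only [Prod.mk.injEq] at h
              obtain ⟨h6, h7⟩ := Finset.mem_filter.mp hu
              obtain ⟨h6', h7'⟩ := Finset.mem_filter.mp hu'
              have := hcinj u (Q.hA _ h6) u' (Q.hA _ h6') (hballr u (Q.hA _ h6) h7).1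
                (hballr u' (Q.hA _ h6') h7').1 h.1
              rw [this, h.2]
        have hQI : ∑ u ∈ N, (m * m + m + 1) ^ (m - Q.g.dist u v0) +
            ∑ u ∈ Q.I.filter (fun u => ¬ Q.g.dist u v0 ≤ r),
              (m * m + m + 1) ^ (m - Q.g.dist u v0) =
            ∑ u ∈ Q.I, (m * m + m + 1) ^ (m - Q.g.dist u v0) := by
          rw [hN']
          exact Finset.sum_filter_add_sum_filter_not Q.I (fun u => Q.g.dist u v0 ≤ r)
            (fun u => (m * m + m + 1) ^ (m - Q.g.dist u v0))
        have hQA : ∑ p ∈ NA, (m * m + m + 1) ^ (m - Q.g.dist p.1 v0) +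
            ∑ p ∈ Q.A.filter (fun p => ¬ Q.g.dist p.1 v0 ≤ r),
              (m * m + m + 1) ^ (m - Q.g.dist p.1 v0) =
            ∑ p ∈ Q.A, (m * m + m + 1) ^ (m - Q.g.dist p.1 v0) := by
          rw [hNA]
          exact Finset.sum_filter_add_sum_filter_not Q.A (fun p => Q.g.dist p.1 v0 ≤ r)
            (fun p => (m * m + m + 1) ^ (m - Q.g.dist p.1 v0))
        have hR1 : ∑ u ∈ Q.I.filter (fun u => ¬ Q.g.dist u v0 ≤ r),
            (m * m + m + 1) ^ (m - Q.g.dist u v0) ≤ Q.I.card * (m * m + m + 1) ^ (m - (r + 1)) := by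
          calc _ ≤ ∑ _u ∈ Q.I.filter (fun u => ¬ Q.g.dist u v0 ≤ r),
                (m * m + m + 1) ^ (m - (r + 1)) := by
                refine Finset.sum_le_sum fun u hu => Nat.pow_le_pow_right hB1 ?_
                have := (Finset.mem_filter.mp hu).2
                omega
            _ = (Q.I.filter (fun u => ¬ Q.g.dist u v0 ≤ r)).card * (m * m + m + 1) ^ (m - (r + 1)) := by
                rw [Finset.sum_const, smul_eq_mul]
            _ ≤ _ := Nat.mul_le_mul_right _ (Finset.card_filter_le _ _)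
        have hR2 : ∑ p ∈ Q.A.filter (fun p => ¬ Q.g.dist p.1 v0 ≤ r),
            (m * m + m + 1) ^ (m - Q.g.dist p.1 v0) ≤ Q.A.card * (m * m + m + 1) ^ (m - (r + 1)) := by
          calc _ ≤ ∑ _p ∈ Q.A.filter (fun p => ¬ Q.g.dist p.1 v0 ≤ r),
                (m * m + m + 1) ^ (m - (r + 1)) := by
                refine Finset.sum_le_sum fun u hu => Nat.pow_le_pow_right hB1 ?_
                have := (Finset.mem_filter.mp hu).2
                omega
            _ = (Q.A.filter (fun p => ¬ Q.g.dist p.1 v0 ≤ r)).card * (m * m + m + 1) ^ (m - (r + 1)) := by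
                rw [Finset.sum_const, smul_eq_mul]
            _ ≤ _ := Nat.mul_le_mul_right _ (Finset.card_filter_le _ _)
        have hcard := hQ.card_A
        have hbig : (Q.I.card + Q.A.card) * (m * m + m + 1) ^ (m - (r + 1)) <
            (m * m + m + 1) ^ (m - r) := by
          have h6 : m - r = (m - (r + 1)) + 1 := by omega
          rw [h6, pow_succ, mul_comm ((m * m + m + 1) ^ (m - (r + 1)))]
          exact Nat.mul_lt_mul_of_pos_right (by omega) (Nat.pow_pos hB1)
        rw [add_mul] at hbig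
        have hpot : Q.pot m v0 < s.pot m i0 := by
          simp only [Pat.pot]
          omega
        refine ⟨s, hs, Or.inl ?_⟩
        simp only [Pat.kap, helleq]
        omega

end keylemma

end

end MPec220f
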