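import Pool.Agent.Lib_MP_ec220f_lc.Final

/-!
# MP_ec220f_lc: orbit algebras of canonical universal graphs, homomorphism closed families

For every finite set of finite connected graphs closed under homomorphic images, the orbit
algebra of the automorphism group of the existentially complete countable graph without
subgraphs from the family is a polynomial algebra.
-/

namespace MPec220fOldHomClosed

open _root_.MPec220f

theorem result (𝓕 : Set FinGraph) (hfin : 𝓕.Finite) (hconn : ∀ F ∈ 𝓕, F.2.Connected)
    (hhom : HomClosed 𝓕) {V : Type} [Countable V] [DecidableEq V] (Γ : SimpleGraph V)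
    (hΓ : IsEC 𝓕 Γ) :
    ∃ σ : Type, Nonempty (MvPolynomial σ ℚ ≃ₐ[ℚ] orbitAlgebra (autSub Γ)) :=
  polynomial_of_homClosed hfin hconn hhom Γ hΓ

end MPec220fOldHomClosed
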