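import Pool.Agent.Lib_MP_ec220f_lc.Defs

/-!
MP_ec220f_lc, plug-in part 1: closures in a permutation group, isolation.
-/

namespace MPec220f

open Finset Function

variable {V : Type}

theorem pinv_apply (g : Equiv.Perm V) (x : V) : g⁻¹ (g x) = x := by simp

theorem papply_inv (g : Equiv.Perm V) (x : V) : g (g⁻¹ x) = x := by simp

/-- the orbit of `x` under the pointwise stabiliser of `A` -/
def FixOrb (G : Subgroup (Equiv.Perm V)) (A : Finset V) (x : V) : Set V :=
  {y | ∃ g ∈ G, (∀ a ∈ A, g a = a) ∧ g x = y}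

/-- algebraic closures of finite sets are finite -/
def LocFin (G : Subgroup (Equiv.Perm V)) : Prop :=
  ∀ A : Finset V, {x | (FixOrb G A x).Finite}.Finite

/-- the algebraic closure of a finite set -/
noncomputable def clo (G : Subgroup (Equiv.Perm V)) (h : LocFin G) (A : Finset V) : Finset V :=
  (h A).toFinset

/-- algebraically closed finite sets -/
def ClosedSet (G : Subgroup (Equiv.Perm V)) (A : Finset V) : Prop :=
  ∀ x, (FixOrb G A x).Finite → x ∈ A

/-- the type preorder -/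
def Le (Γ : SimpleGraph V) (A : Finset V) (f : V → V) : Prop :=
  ∀ C : Finset V, A ⊆ C → ∃ k : V → V, Set.InjOn k C ∧
    (∀ x ∈ C, ∀ y ∈ C, Γ.Adj (k x) (k y) ↔ Γ.Adj x y) ∧ ∀ a ∈ A, k a = f a

/-- finitely many orbits on `n`-tuples -/
def Oligo (G : Subgroup (Equiv.Perm V)) : Prop :=
  ∀ n : ℕ, ∃ R : Finset (Fin n → V), ∀ t : Fin n → V, ∃ r ∈ R, ∃ g ∈ G, ∀ i, g (r i) = t i

section closure

variable {G : Subgroup (Equiv.Perm V)}

theorem self_mem_fixOrb (A : Finset V) (x : V) : x ∈ FixOrb G A x :=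
  ⟨1, one_mem G, fun _ _ => rfl, rfl⟩

theorem fixOrb_mono {A B : Finset V} (h : A ⊆ B) (x : V) : FixOrb G B x ⊆ FixOrb G A x := by
  rintro y ⟨g, hg, h1, h2⟩
  exact ⟨g, hg, fun a ha => h1 a (h ha), h2⟩

theorem fixOrb_eq {A : Finset V} {x y : V} (h : y ∈ FixOrb G A x) :
    FixOrb G A y = FixOrb G A x := by
  obtain ⟨g, hg, h1, rfl⟩ := h
  ext z
  constructor
  · rintro ⟨k, hk, h2, rfl⟩
    refine ⟨k * g, G.mul_mem hk hg, fun a ha => ?_, rfl⟩
    rw [Equiv.Perm.mul_apply, h1 a ha, h2 a ha]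
  · rintro ⟨k, hk, h2, rfl⟩
    refine ⟨k * g⁻¹, G.mul_mem hk (G.inv_mem hg), fun a ha => ?_, ?_⟩
    · rw [Equiv.Perm.mul_apply]
      have : g⁻¹ a = a := by
        rw [Equiv.Perm.inv_eq_iff_eq, h1 a ha]
      rw [this, h2 a ha]
    · rw [Equiv.Perm.mul_apply, pinv_apply]

theorem mem_clo (h : LocFin G) {A : Finset V} {x : V} :
    x ∈ clo G h A ↔ (FixOrb G A x).Finite := by
  rw [clo, Set.Finite.mem_toFinset, Set.mem_ofPred_eq]

theorem subset_clo (h : LocFin G) (A : Finset V) : A ⊆ clo G h A := by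
  intro a ha
  rw [mem_clo]
  apply (Set.finite_singleton a).subset
  rintro y ⟨g, _, h1, rfl⟩
  exact h1 a ha

theorem clo_mono (h : LocFin G) {A B : Finset V} (hAB : A ⊆ B) : clo G h A ⊆ clo G h B := by
  intro x hx
  rw [mem_clo] at *
  exact hx.subset (fixOrb_mono hAB x)

theorem clo_of_closed (h : LocFin G) {A : Finset V} (hA : ClosedSet G A) : clo G h A = A := by
  apply Finset.Subset.antisymm _ (subset_clo h A)
  intro x hx
  exact hA x ((mem_clo h).mp hx)

theorem closed_clo (h : LocFin G) (A : Finset V) : ClosedSet G (clo G h A) := by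
  classical
  intro x hx
  rw [mem_clo]
  set S := clo G h A with hS
  -- `G_A` preserves `S`
  have hpres : ∀ g ∈ G, (∀ a ∈ A, g a = a) → ∀ s ∈ S, g s ∈ S := by
    intro g hg hga s hs
    rw [hS, mem_clo] at *
    rw [fixOrb_eq ⟨g, hg, hga, rfl⟩]
    exact hs
  let T : (S → S) → Set V := fun ρ =>
    if hρ : ∃ g ∈ G, (∀ a ∈ A, g a = a) ∧ ∀ s : S, g s = ρ s then
      (fun z => (Classical.choose hρ : Equiv.Perm V) z) '' (FixOrb G S x) else ∅
  have hT : ∀ ρ, (T ρ).Finite := by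
    intro ρ
    simp only [T]
    split_ifs
    · exact hx.image _
    · exact Set.finite_empty
  apply (Set.finite_iUnion hT).subset
  rintro y ⟨g, hg, hga, rfl⟩
  let ρ : S → S := fun s => ⟨g s, hpres g hg hga s s.2⟩
  have hρ : ∃ g ∈ G, (∀ a ∈ A, g a = a) ∧ ∀ s : S, g s = ρ s := ⟨g, hg, hga, fun s => rfl⟩
  rw [Set.mem_iUnion]
  refine ⟨ρ, ?_⟩
  simp only [T]
  rw [dif_pos hρ]
  obtain ⟨h1, h2, h3⟩ := Classical.choose_spec hρ
  set k := Classical.choose hρ with hk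
  refine ⟨k⁻¹ (g x), ⟨k⁻¹ * g, G.mul_mem (G.inv_mem h1) hg, ?_, rfl⟩, ?_⟩
  · intro s hs
    rw [Equiv.Perm.mul_apply, Equiv.Perm.inv_eq_iff_eq]
    exact (h3 ⟨s, hs⟩).symm
  · exact papply_inv _ _

theorem clo_clo (h : LocFin G) (A : Finset V) : clo G h (clo G h A) = clo G h A :=
  clo_of_closed h (closed_clo h A)

theorem clo_image [DecidableEq V] (h : LocFin G) {g : Equiv.Perm V} (hg : g ∈ G) (A : Finset V) :
    clo G h (A.image g) = (clo G h A).image g := by
  have key : ∀ g ∈ G, ∀ A : Finset V, ∀ x, x ∈ clo G h A → g x ∈ clo G h (A.image g) := by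
    intro g hg A x hx
    rw [mem_clo] at *
    apply (hx.image g).subset
    rintro y ⟨k, hk, h1, rfl⟩
    refine ⟨g⁻¹ (k (g x)), ⟨g⁻¹ * k * g, G.mul_mem (G.mul_mem (G.inv_mem hg) hk) hg, ?_, rfl⟩,
      papply_inv _ _⟩
    intro a ha
    rw [Equiv.Perm.mul_apply, Equiv.Perm.mul_apply, h1 (g a) (Finset.mem_image_of_mem _ ha),
      pinv_apply]
  ext x
  constructor
  · intro hx
    rw [Finset.mem_image]
    refine ⟨g⁻¹ x, ?_, papply_inv _ _⟩
    have := key g⁻¹ (G.inv_mem hg) _ x hx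
    rw [Finset.image_image] at this
    have e : (A.image (⇑g⁻¹ ∘ ⇑g)) = A := by
      have : (⇑g⁻¹ ∘ ⇑g) = id := by
        ext y; simp
      rw [this, Finset.image_id]
    rwa [e] at this
  · intro hx
    rw [Finset.mem_image] at hx
    obtain ⟨y, hy, rfl⟩ := hx
    exact key g hg A y hy

theorem locFin_of_oligo (hol : Oligo G) : LocFin G := by
  classical
  intro A
  obtain ⟨R, hR⟩ := hol (A.card + 1)
  let e := A.equivFin
  let t : V → Fin (A.card + 1) → V := fun x => Fin.snoc (fun i => ((e.symm i : A) : V)) x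
  let p : (Fin (A.card + 1) → V) → V → V := fun r x0 =>
    if hr : ∃ x, ∃ g ∈ G, ∀ i, g (r i) = t x i then Classical.choose hr else x0
  rcases isEmpty_or_nonempty V with hV | ⟨⟨x0⟩⟩
  · exact Set.toFinite _
  have hfin : (⋃ r ∈ (R : Set (Fin (A.card + 1) → V)),
      {y | y ∈ FixOrb G A (p r x0) ∧ (FixOrb G A (p r x0)).Finite}).Finite := by
    apply Set.Finite.biUnion R.finite_toSet
    intro r _
    by_cases h : (FixOrb G A (p r x0)).Finite
    · exact h.subset (fun y hy => hy.1)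
    · have : {y | y ∈ FixOrb G A (p r x0) ∧ (FixOrb G A (p r x0)).Finite} = ∅ := by
        ext y
        simp [h]
      rw [this]
      exact Set.finite_empty
  apply hfin.subset
  intro x hx
  rw [Set.mem_ofPred_eq] at hx
  obtain ⟨r, hr, g, hg, hgr⟩ := hR (t x)
  rw [Set.mem_iUnion₂]
  refine ⟨r, hr, ?_⟩
  have hex : ∃ x, ∃ g ∈ G, ∀ i, g (r i) = t x i := ⟨x, g, hg, hgr⟩
  have hp : p r x0 = Classical.choose hex := by
    simp only [p]
    rw [dif_pos hex]
  obtain ⟨g', hg', hgr'⟩ := Classical.choose_spec hex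
  rw [← hp] at hgr'
  have hmem : x ∈ FixOrb G A (p r x0) := by
    refine ⟨g * g'⁻¹, G.mul_mem hg (G.inv_mem hg'), ?_, ?_⟩
    · intro a ha
      have h1 := hgr' (Fin.castSucc (e ⟨a, ha⟩))
      have h2 := hgr (Fin.castSucc (e ⟨a, ha⟩))
      simp only [t, Fin.snoc_castSucc, Equiv.symm_apply_apply] at h1 h2
      rw [Equiv.Perm.mul_apply]
      conv_lhs => rw [← h1]
      rw [pinv_apply, h2]
    · have h1 := hgr' (Fin.last _)
      have h2 := hgr (Fin.last _)
      simp only [t, Fin.snoc_last] at h1 h2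
      rw [Equiv.Perm.mul_apply]
      conv_lhs => rw [← h1]
      rw [pinv_apply, h2]
  refine ⟨hmem, ?_⟩
  rw [← fixOrb_eq hmem]
  exact hx

end closure

/-- isolation: finite pieces that determine the orbit of a finite set -/
theorem isolation {Γ : SimpleGraph V}
    (hA2 : ∀ (A : Finset V) (f : V → V), Le Γ A f → ∃ h ∈ autSub Γ, ∀ a ∈ A, h a = f a)
    (hol : Oligo (autSub Γ)) (D : Finset V) :
    ∃ C : Finset V, D ⊆ C ∧ ∀ f : V → V, Set.InjOn f C →
      (∀ x ∈ C, ∀ y ∈ C, Γ.Adj (f x) (f y) ↔ Γ.Adj x y) → ∃ h ∈ autSub Γ, ∀ d ∈ D, h d = f d := by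
  classical
  obtain ⟨R, hR⟩ := hol D.card
  let e := D.equivFin
  let fr : (Fin D.card → V) → V → V := fun r x => if hx : x ∈ D then r (e ⟨x, hx⟩) else x
  have hC : ∀ r : Fin D.card → V, ∃ C : Finset V, D ⊆ C ∧ (¬ Le Γ D (fr r) →
      ¬ ∃ k : V → V, Set.InjOn k C ∧
    (∀ x ∈ C, ∀ y ∈ C, Γ.Adj (k x) (k y) ↔ Γ.Adj x y) ∧ ∀ a ∈ D, k a = fr r a) := by
    intro r
    by_cases h : Le Γ D (fr r)
    · exact ⟨D, Finset.Subset.refl _, fun h' => absurd h h'⟩
    · have h' := h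
      unfold Le at h'
      push Not at h'
      obtain ⟨C, hDC, hC⟩ := h'
      refine ⟨C, hDC, fun _ => ?_⟩
      rintro ⟨k, h1, h2, h3⟩
      obtain ⟨a, ha, hne⟩ := hC k h1 h2
      exact hne (h3 a ha)
  choose Cr hCr1 hCr2 using hC
  refine ⟨D ∪ R.biUnion Cr, Finset.subset_union_left, ?_⟩
  intro f hf hadj
  obtain ⟨r, hr, g, hg, hgr⟩ := hR (fun i => f ((e.symm i : D) : V))
  have hsub : Cr r ⊆ D ∪ R.biUnion Cr := by
    intro x hx
    rw [Finset.mem_union, Finset.mem_biUnion]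
    exact Or.inr ⟨r, hr, hx⟩
  by_cases hle : Le Γ D (fr r)
  · obtain ⟨h, hh, hh2⟩ := hA2 D (fr r) hle
    refine ⟨g * h, (autSub Γ).mul_mem hg hh, ?_⟩
    intro d hd
    rw [Equiv.Perm.mul_apply, hh2 d hd]
    simp only [fr]
    rw [dif_pos hd, hgr]
    simp
  · exfalso
    apply hCr2 r hle
    refine ⟨fun x => g⁻¹ (f x), ?_, ?_, ?_⟩
    · intro x hx y hy hxy
      exact hf (hsub hx) (hsub hy) (g⁻¹.injective hxy)
    · intro x hx y hy
      have h1 := hadj x (hsub hx) y (hsub hy)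
      exact ((mem_autSub.mp ((autSub Γ).inv_mem hg)) _ _).trans h1
    · intro a ha
      simp only [fr]
      rw [dif_pos ha, Equiv.Perm.inv_eq_iff_eq, hgr]
      simp

end MPec220f
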