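import Pool.Agent.Lib_MP_ec220f_lc.Plug1

/-!
MP_ec220f_lc, plug-in part 2: the two-sided extension `X`, homogeneity, closures, no overlap.
-/

namespace MPec220f

open Finset Function

variable {V : Type}

/-- a generic linear order for the permutation group `G` -/
structure OrdData (G : Subgroup (Equiv.Perm V)) where
  lt : V → V → Prop
  tot : IsStrictTotalOrder V lt
  hom : ∀ A : Finset V, ClosedSet G A → ∀ g ∈ G, (∀ a ∈ A, ∀ b ∈ A, lt a b ↔ lt (g a) (g b)) →
    ∃ k ∈ G, (∀ a b, lt (k a) (k b) ↔ lt a b) ∧ ∀ a ∈ A, k a = g a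
  inf : ∀ A : Finset V, ClosedSet G A → ∀ x ∉ A,
    {y | ∃ k ∈ G, (∀ a b, lt (k a) (k b) ↔ lt a b) ∧ (∀ a ∈ A, k a = a) ∧ k x = y}.Infinite
  real : ∀ A : Finset V, ClosedSet G A → ∀ l : List V, l.Nodup → (∀ x, x ∈ l ↔ x ∈ A) →
    ∃ g ∈ G, (l.map g).Pairwise lt

/-- the order preserving elements of `G` -/
def ordSub (G : Subgroup (Equiv.Perm V)) (lt : V → V → Prop) : Subgroup (Equiv.Perm V) where
  carrier := {h | h ∈ G ∧ ∀ a b, lt (h a) (h b) ↔ lt a b}
  mul_mem' := by
    rintro g h ⟨hg, hg'⟩ ⟨hh, hh'⟩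
    refine ⟨G.mul_mem hg hh, fun a b => ?_⟩
    rw [Equiv.Perm.mul_apply, Equiv.Perm.mul_apply, hg', hh']
  one_mem' := ⟨G.one_mem, fun _ _ => Iff.rfl⟩
  inv_mem' := by
    rintro g ⟨hg, hg'⟩
    refine ⟨G.inv_mem hg, fun a b => ?_⟩
    rw [← hg' (g⁻¹ a) (g⁻¹ b), papply_inv, papply_inv]

/-- the action of pairs on two copies -/
@[reducible] def actW (G : Subgroup (Equiv.Perm V)) (lt : V → V → Prop) :
    MulAction (ordSub G lt × ordSub G lt) (V ⊕ V) where
  smul p w := Sum.map (p.1 : Equiv.Perm V) (p.2 : Equiv.Perm V) w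
  one_smul := by
    rintro (a | a) <;> rfl
  mul_smul := by
    rintro p q (a | a) <;> rfl

/-- two disjoint copies of a graph -/
def dsum (Γ : SimpleGraph V) : SimpleGraph (V ⊕ V) where
  Adj x y := (∃ a b, x = Sum.inl a ∧ y = Sum.inl b ∧ Γ.Adj a b) ∨
    (∃ a b, x = Sum.inr a ∧ y = Sum.inr b ∧ Γ.Adj a b)
  symm := ⟨by
    rintro x y (⟨a, b, rfl, rfl, h⟩ | ⟨a, b, rfl, rfl, h⟩)
    · exact Or.inl ⟨b, a, rfl, rfl, h.symm⟩
    · exact Or.inr ⟨b, a, rfl, rfl, h.symm⟩⟩
  loopless := ⟨by
    rintro x (⟨a, b, rfl, h, h'⟩ | ⟨a, b, rfl, h, h'⟩)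
    · have := Sum.inl.inj h
      subst this
      exact Γ.irrefl h'
    · have := Sum.inr.inj h
      subst this
      exact Γ.irrefl h'⟩

theorem dsum_ll (Γ : SimpleGraph V) (a b : V) :
    (dsum Γ).Adj (Sum.inl a) (Sum.inl b) ↔ Γ.Adj a b := by
  simp [dsum]

theorem dsum_rr (Γ : SimpleGraph V) (a b : V) :
    (dsum Γ).Adj (Sum.inr a) (Sum.inr b) ↔ Γ.Adj a b := by
  simp [dsum]

theorem dsum_lr (Γ : SimpleGraph V) (a b : V) :
    ¬ (dsum Γ).Adj (Sum.inl a) (Sum.inr b) := by
  simp [dsum]

theorem dsum_rl (Γ : SimpleGraph V) (a b : V) :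
    ¬ (dsum Γ).Adj (Sum.inr a) (Sum.inl b) := by
  simp [dsum]

theorem isFree_dsum {𝓕 : Set FinGraph} (hconn : ∀ F ∈ 𝓕, F.2.Connected) {Γ : SimpleGraph V}
    (h : IsFree 𝓕 Γ) : IsFree 𝓕 (dsum Γ) := by
  intro F hF f hf hadj
  have hc := hconn F hF
  obtain ⟨a0⟩ := hc.nonempty
  -- all vertices on the same side
  have hside : ∀ a, (f a).isLeft = (f a0).isLeft := by
    intro a
    have hr : F.2.Reachable a0 a := hc.preconnected a0 a
    obtain ⟨p⟩ := hr
    induction p with
    | nil => rfl
    | @cons u v w huv p ih =>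
      rw [ih]
      have := hadj _ _ huv
      cases hu : f u <;> cases hv : f v <;> rw [hu, hv] at this <;>
        simp_all [dsum_lr, dsum_rl]
  cases h0 : f a0 with
  | inl x0 =>
    rw [h0] at hside
    have hg : ∀ a, ∃ x, f a = Sum.inl x := by
      intro a
      have := hside a
      cases hfa : f a with
      | inl x => exact ⟨x, rfl⟩
      | inr x => rw [hfa] at this; simp at this
    choose g hg using hg
    apply h F hF g
    · intro a b hab
      apply hf
      rw [hg, hg, hab]
    · intro a b hab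
      have := hadj a b hab
      rwa [hg, hg, dsum_ll] at this
  | inr x0 =>
    rw [h0] at hside
    have hg : ∀ a, ∃ x, f a = Sum.inr x := by
      intro a
      have := hside a
      cases hfa : f a with
      | inr x => exact ⟨x, rfl⟩
      | inl x => rw [hfa] at this; simp at this
    choose g hg using hg
    apply h F hF g
    · intro a b hab
      apply hf
      rw [hg, hg, hab]
    · intro a b hab
      have := hadj a b hab
      rwa [hg, hg, dsum_rr] at this

/-- an order preserving permutation of a finite set is trivial on it -/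
theorem ord_rigid {lt : V → V → Prop} (tot : IsStrictTotalOrder V lt) (A : Finset V)
    (h : Equiv.Perm V) (hlt : ∀ a b, lt (h a) (h b) ↔ lt a b) (hA : ∀ a ∈ A, h a ∈ A) :
    ∀ a ∈ A, h a = a := by
  classical
  intro a ha
  by_contra hne
  -- iterates are strictly monotone
  have hmem : ∀ n : ℕ, (h ^ n) a ∈ A := by
    intro n
    induction n with
    | zero => simpa using ha
    | succ n ih =>
      rw [pow_succ', Equiv.Perm.mul_apply]
      exact hA _ ih
  have htri := tot.toTrichotomous.trichotomous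
  have htrans := tot.toIsStrictOrder.toIsTrans.trans
  have hirr := tot.toIsStrictOrder.toIrrefl.irrefl
  have key : ∀ (r : V → V → Prop), (∀ a b c, r a b → r b c → r a c) → (∀ a, ¬ r a a) →
      (∀ a b, r (h a) (h b) ↔ r a b) → ¬ r a (h a) := by
    intro r rtrans rirr hr har
    have h1 : ∀ n : ℕ, r ((h ^ n) a) ((h ^ (n + 1)) a) := by
      intro n
      induction n with
      | zero => simpa using har
      | succ n ih =>
        rw [pow_succ' h n, pow_succ' h (n + 1), Equiv.Perm.mul_apply, Equiv.Perm.mul_apply, hr]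
        exact ih
    have h2 : ∀ n m : ℕ, n < m → r ((h ^ n) a) ((h ^ m) a) := by
      intro n m hnm
      induction m with
      | zero => omega
      | succ m ih =>
        rcases Nat.lt_succ_iff_lt_or_eq.mp hnm with h3 | h3
        · exact rtrans _ _ _ (ih h3) (h1 m)
        · subst h3; exact h1 n
    have hinj : Function.Injective (fun n : ℕ => (⟨(h ^ n) a, hmem n⟩ : A)) := by
      intro n m hnm
      have e : (h ^ n) a = (h ^ m) a := congrArg Subtype.val hnm
      rcases lt_trichotomy n m with h3 | h3 | h3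
      · have := h2 n m h3
        rw [e] at this
        exact absurd this (rirr _)
      · exact h3
      · have := h2 m n h3
        rw [e] at this
        exact absurd this (rirr _)
    exact not_injective_infinite_finite _ hinj
  by_cases h1 : lt a (h a)
  · exact key lt htrans hirr hlt h1
  · by_cases h2 : lt (h a) a
    · exact key (fun x y => lt y x) (fun a b c h1 h2 => htrans _ _ _ h2 h1) hirr
        (fun a b => hlt b a) h2
    · exact hne (htri _ _ h2 h1)

end MPec220f
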