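import Pool.Agent.Lib_MP_ec220f_lc.Plug2

/-!
MP_ec220f_lc, plug-in part 3: the two-sided extension `X`: homogeneity, closures, no overlap.
-/

namespace MPec220f

open Finset Function

variable {V : Type}

/-- the group of pairs of order preserving automorphisms -/
abbrev KG (Γ : SimpleGraph V) (lt : V → V → Prop) : Type :=
  ordSub (autSub Γ) lt × ordSub (autSub Γ) lt

/-- the action on two copies, as a function -/
def smW (Γ : SimpleGraph V) (lt : V → V → Prop) (p : KG Γ lt) (w : V ⊕ V) : V ⊕ V :=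
  Sum.map (p.1 : Equiv.Perm V) (p.2 : Equiv.Perm V) w

/-- an equivariant existentially complete extension of two copies of `Γ`, embedded in `Γ` -/
structure XData (𝓕 : Set FinGraph) (Γ : SimpleGraph V) (lt : V → V → Prop) where
  U : Type
  X : SimpleGraph U
  sm : KG Γ lt → U → U
  sm_one : ∀ x, sm 1 x = x
  sm_mul : ∀ p q x, sm (p * q) x = sm p (sm q x)
  ι : V ⊕ V → U
  ec : IsEC 𝓕 X
  aut : ∀ p x y, X.Adj (sm p x) (sm p y) ↔ X.Adj x y
  inj : Injective ι
  equi : ∀ p w, ι (smW Γ lt p w) = sm p (ι w)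
  ind : ∀ a b, X.Adj (ι a) (ι b) ↔ (dsum Γ).Adj a b
  sup : ∀ x : U, ∃ B : Finset (V ⊕ V), B.Nonempty ∧ ∀ p, sm p x = x ↔ ∀ b ∈ B, smW Γ lt p b = b
  j : X ↪g Γ

section

variable {𝓕 : Set FinGraph} {Γ : SimpleGraph V}

/-- self-embeddings of `Γ` are locally automorphisms -/
theorem hom2 (hA2 : ∀ (A : Finset V) (f : V → V), Le Γ A f → ∃ h ∈ autSub Γ, ∀ a ∈ A, h a = f a)
    (e : Γ ↪g Γ) (A : Finset V) : ∃ h ∈ autSub Γ, ∀ a ∈ A, h a = e a := by
  apply hA2 A e
  intro C _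
  exact ⟨e, fun x _ y _ h => e.injective h, fun x _ y _ => e.map_rel_iff, fun _ _ => rfl⟩

variable {lt : V → V → Prop} (D : XData 𝓕 Γ lt)

/-- the embedding of the left copy -/
def XData.eM : Γ ↪g Γ where
  toFun v := D.j (D.ι (Sum.inl v))
  inj' := fun a b h => Sum.inl.inj (D.inj (D.j.injective h))
  map_rel_iff' := by
    intro a b
    show Γ.Adj (D.j (D.ι (Sum.inl a))) (D.j (D.ι (Sum.inl b))) ↔ Γ.Adj a b
    rw [show Γ.Adj (D.j (D.ι (Sum.inl a))) (D.j (D.ι (Sum.inl b))) ↔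
      D.X.Adj (D.ι (Sum.inl a)) (D.ι (Sum.inl b)) from D.j.map_rel_iff, D.ind, dsum_ll]

/-- the embedding of the right copy -/
def XData.eN : Γ ↪g Γ where
  toFun v := D.j (D.ι (Sum.inr v))
  inj' := fun a b h => Sum.inr.inj (D.inj (D.j.injective h))
  map_rel_iff' := by
    intro a b
    show Γ.Adj (D.j (D.ι (Sum.inr a))) (D.j (D.ι (Sum.inr b))) ↔ Γ.Adj a b
    rw [show Γ.Adj (D.j (D.ι (Sum.inr a))) (D.j (D.ι (Sum.inr b))) ↔
      D.X.Adj (D.ι (Sum.inr a)) (D.ι (Sum.inr b)) from D.j.map_rel_iff, D.ind, dsum_rr]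

theorem XData.eM_app (v : V) : D.eM v = D.j (D.ι (Sum.inl v)) := rfl
theorem XData.eN_app (v : V) : D.eN v = D.j (D.ι (Sum.inr v)) := rfl

theorem XData.eM_ne_eN (v w : V) : D.eM v ≠ D.eN w := by
  intro h
  have := D.inj (D.j.injective h)
  simp at this

/-- the group acts on `X` through partial automorphisms of `Γ` -/
theorem XData.hom1 (hfree : IsFree 𝓕 Γ)
    (hA2 : ∀ (A : Finset V) (f : V → V), Le Γ A f → ∃ h ∈ autSub Γ, ∀ a ∈ A, h a = f a)
    (p : KG Γ lt) (A : Finset D.U) :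
    ∃ g ∈ autSub Γ, ∀ a ∈ A, g (D.j a) = D.j (D.sm p a) := by
  classical
  let f : V → V := fun y => if h : ∃ u, D.j u = y then D.j (D.sm p (Classical.choose h)) else y
  have hf : ∀ u, f (D.j u) = D.j (D.sm p u) := by
    intro u
    have h : ∃ u', D.j u' = D.j u := ⟨u, rfl⟩
    simp only [f]
    rw [dif_pos h, D.j.injective (Classical.choose_spec h)]
  have hle : Le Γ (A.image D.j) f := by
    intro C hAC
    obtain ⟨k, h1, h2, h3⟩ := D.ec.2 V Γ hfree D.j C
    refine ⟨fun y => D.j (D.sm p (k y)), ?_, ?_, ?_⟩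
    · intro x hx y hy hxy
      have e := D.j.injective hxy
      have e2 : k x = k y := by
        have := congrArg (D.sm p⁻¹) e
        rwa [← D.sm_mul, ← D.sm_mul, inv_mul_cancel, D.sm_one, D.sm_one] at this
      exact h1 hx hy e2
    · intro x hx y hy
      have := h2 x hx y hy
      exact D.j.map_rel_iff.trans ((D.aut p _ _).trans this)
    · intro a ha
      obtain ⟨u, _, rfl⟩ := Finset.mem_image.mp ha
      rw [hf]
      show D.j (D.sm p (k (D.j u))) = _
      rw [h3 u (hAC ha)]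
  obtain ⟨g, hg, hg2⟩ := hA2 _ f hle
  exact ⟨g, hg, fun a ha => by rw [hg2 _ (Finset.mem_image_of_mem _ ha), hf]⟩

theorem XData.clo_in_range [DecidableEq V] (hfree : IsFree 𝓕 Γ)
    (hA2 : ∀ (A : Finset V) (f : V → V), Le Γ A f → ∃ h ∈ autSub Γ, ∀ a ∈ A, h a = f a)
    (hol : Oligo (autSub Γ)) (T : Finset D.U) (z : V)
    (hz : (FixOrb (autSub Γ) (T.image D.j) z).Finite) : ∃ x, D.j x = z := by
  classical
  set O := hz.toFinset with hO
  have hmO : ∀ y, y ∈ O ↔ y ∈ FixOrb (autSub Γ) (T.image D.j) z := by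
    intro y; rw [hO, Set.Finite.mem_toFinset]
  obtain ⟨C, hDC, hC⟩ := isolation hA2 hol (T.image D.j ∪ O)
  obtain ⟨k, h1, h2, h3⟩ := D.ec.2 V Γ hfree D.j C
  obtain ⟨h, hh, hh2⟩ := hC (fun y => D.j (k y))
    (fun x hx y hy hxy => h1 hx hy (D.j.injective hxy))
    (fun x hx y hy => D.j.map_rel_iff.trans (h2 x hx y hy))
  have hfix : ∀ a ∈ T.image D.j, h a = a := by
    intro a ha
    rw [hh2 a (Finset.mem_union_left _ ha)]
    obtain ⟨u, _, rfl⟩ := Finset.mem_image.mp ha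
    rw [h3 u (hDC (Finset.mem_union_left _ ha))]
  have hmap : ∀ o ∈ O, h o ∈ O := by
    intro o ho
    rw [hmO] at *
    obtain ⟨g, hg, hg1, rfl⟩ := ho
    refine ⟨h * g, (autSub Γ).mul_mem hh hg, fun a ha => ?_, rfl⟩
    rw [Equiv.Perm.mul_apply, hg1 a ha, hfix a ha]
  have himg : O.image h = O := by
    apply Finset.eq_of_subset_of_card_le
    · intro y hy
      obtain ⟨o, ho, rfl⟩ := Finset.mem_image.mp hy
      exact hmap o ho
    · rw [Finset.card_image_of_injective _ h.injective]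
  have hzO : z ∈ O := by
    rw [hmO]; exact self_mem_fixOrb _ _
  rw [← himg, Finset.mem_image] at hzO
  obtain ⟨o, ho, hoz⟩ := hzO
  refine ⟨k o, ?_⟩
  rw [← hoz, hh2 o (Finset.mem_union_right _ ho)]

theorem XData.support_finite [DecidableEq V] (hfree : IsFree 𝓕 Γ)
    (hA2 : ∀ (A : Finset V) (f : V → V), Le Γ A f → ∃ h ∈ autSub Γ, ∀ a ∈ A, h a = f a)
    (T : Finset D.U) (x : D.U) (hx : (FixOrb (autSub Γ) (T.image D.j) (D.j x)).Finite)
    (B : Finset (V ⊕ V)) (hB : ∀ p, D.sm p x = x ↔ ∀ b ∈ B, smW Γ lt p b = b)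
    (b : V ⊕ V) (hb : b ∈ B) :
    {w | ∃ p : KG Γ lt, (∀ a ∈ T, D.sm p a = a) ∧ smW Γ lt p b = w}.Finite := by
  classical
  by_contra hinf
  rw [← Set.not_infinite, not_not] at hinf
  let S : Set (V ⊕ V) := {w | ∃ p : KG Γ lt, (∀ a ∈ T, D.sm p a = a) ∧ smW Γ lt p b = w}
  have hS : S.Infinite := hinf
  let pw : V ⊕ V → KG Γ lt := fun w => if h : w ∈ S then Classical.choose h else 1
  have hpw : ∀ w ∈ S, (∀ a ∈ T, D.sm (pw w) a = a) ∧ smW Γ lt (pw w) b = w := by
    intro w hw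
    simp only [pw]
    rw [dif_pos hw]
    exact Classical.choose_spec hw
  have hinjOn : Set.InjOn (fun w => D.j (D.sm (pw w) x)) S := by
    intro w hw w' hw' h
    have e := D.j.injective h
    have e2 : D.sm ((pw w')⁻¹ * pw w) x = x := by
      rw [D.sm_mul, show D.sm (pw w) x = D.sm (pw w') x from e, ← D.sm_mul, inv_mul_cancel,
        D.sm_one]
    have e3 := (hB _).mp e2 b hb
    have smW_mul : ∀ (p q : KG Γ lt) w, smW Γ lt (p * q) w = smW Γ lt p (smW Γ lt q w) := by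
      rintro p q (a | a) <;> rfl
    have smW_one : ∀ w, smW Γ lt 1 w = w := by
      rintro (a | a) <;> rfl
    have e4 := congrArg (smW Γ lt (pw w')) e3
    rw [← smW_mul, mul_inv_cancel_left, (hpw w hw).2, (hpw w' hw').2] at e4
    exact e4
  have hsub : (fun w => D.j (D.sm (pw w) x)) '' S ⊆ FixOrb (autSub Γ) (T.image D.j) (D.j x) := by
    rintro y ⟨w, hw, rfl⟩
    obtain ⟨g, hg, hg2⟩ := D.hom1 hfree hA2 (pw w) (insert x T)
    refine ⟨g, hg, ?_, hg2 x (Finset.mem_insert_self _ _)⟩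
    intro a ha
    obtain ⟨u, hu, rfl⟩ := Finset.mem_image.mp ha
    rw [hg2 u (Finset.mem_insert_of_mem hu), (hpw w hw).1 u hu]
  exact (hS.image hinjOn) (hx.subset hsub)

/-- elements of the closure of a mixed set are supported on the closures of the two sides -/
theorem XData.support_sub [DecidableEq V] (hfree : IsFree 𝓕 Γ)
    (hA2 : ∀ (A : Finset V) (f : V → V), Le Γ A f → ∃ h ∈ autSub Γ, ∀ a ∈ A, h a = f a)
    (hG : LocFin (autSub Γ)) (O : OrdData (autSub Γ)) (D : XData 𝓕 Γ O.lt)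
    (P Q : Finset V) (x : D.U)
    (hx : D.j x ∈ clo (autSub Γ) hG (P.image D.eM ∪ Q.image D.eN))
    (B : Finset (V ⊕ V)) (hB : ∀ p, D.sm p x = x ↔ ∀ b ∈ B, smW Γ O.lt p b = b) :
    (∀ v, Sum.inl v ∈ B → v ∈ clo (autSub Γ) hG P) ∧
      (∀ v, Sum.inr v ∈ B → v ∈ clo (autSub Γ) hG Q) := by
  classical
  let T : Finset D.U := P.image (fun v => D.ι (Sum.inl v)) ∪ Q.image (fun v => D.ι (Sum.inr v))
  have hT : T.image D.j = P.image D.eM ∪ Q.image D.eN := by
    rw [Finset.image_union, Finset.image_image, Finset.image_image]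
    rfl
  rw [mem_clo, ← hT] at hx
  have hTfix : ∀ p : KG Γ O.lt, (∀ v ∈ P, (p.1 : Equiv.Perm V) v = v) →
      (∀ v ∈ Q, (p.2 : Equiv.Perm V) v = v) → ∀ a ∈ T, D.sm p a = a := by
    intro p h1 h2 a ha
    rcases Finset.mem_union.mp ha with h | h
    · obtain ⟨v, hv, rfl⟩ := Finset.mem_image.mp h
      show D.sm p (D.ι (Sum.inl v)) = D.ι (Sum.inl v)
      rw [← D.equi]
      show D.ι (Sum.inl ((p.1 : Equiv.Perm V) v)) = _
      rw [h1 v hv]
    · obtain ⟨v, hv, rfl⟩ := Finset.mem_image.mp h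
      show D.sm p (D.ι (Sum.inr v)) = D.ι (Sum.inr v)
      rw [← D.equi]
      show D.ι (Sum.inr ((p.2 : Equiv.Perm V) v)) = _
      rw [h2 v hv]
  constructor
  · intro v hv
    by_contra hvn
    have hfin := D.support_finite hfree hA2 T x hx B hB _ hv
    have hinf := O.inf (clo (autSub Γ) hG P) (closed_clo hG P) v hvn
    apply (hinf.image (Sum.inl_injective.injOn (s := _))) (hfin.subset ?_)
    rintro w ⟨y, ⟨k, hk, hk2, hk3, rfl⟩, rfl⟩
    refine ⟨(⟨k, hk, hk2⟩, 1), hTfix _ ?_ ?_, rfl⟩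
    · intro a ha
      exact hk3 a (subset_clo hG P ha)
    · intro a _
      rfl
  · intro v hv
    by_contra hvn
    have hfin := D.support_finite hfree hA2 T x hx B hB _ hv
    have hinf := O.inf (clo (autSub Γ) hG Q) (closed_clo hG Q) v hvn
    apply (hinf.image (Sum.inr_injective.injOn (s := _))) (hfin.subset ?_)
    rintro w ⟨y, ⟨k, hk, hk2, hk3, rfl⟩, rfl⟩
    refine ⟨(1, ⟨k, hk, hk2⟩), hTfix _ ?_ ?_, rfl⟩
    · intro a _
      rfl
    · intro a ha
      exact hk3 a (subset_clo hG Q ha)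

/-- closures of mixed sets do not overlap if the closures of the sides do not -/
theorem XData.no_overlap [DecidableEq V] (hfree : IsFree 𝓕 Γ)
    (hA2 : ∀ (A : Finset V) (f : V → V), Le Γ A f → ∃ h ∈ autSub Γ, ∀ a ∈ A, h a = f a)
    (hol : Oligo (autSub Γ)) (hG : LocFin (autSub Γ)) (O : OrdData (autSub Γ))
    (D : XData 𝓕 Γ O.lt) (P Q P' Q' : Finset V)
    (hP : Disjoint (clo (autSub Γ) hG P) (clo (autSub Γ) hG P'))
    (hQ : Disjoint (clo (autSub Γ) hG Q) (clo (autSub Γ) hG Q')) :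
    Disjoint (clo (autSub Γ) hG (P.image D.eM ∪ Q.image D.eN))
      (clo (autSub Γ) hG (P'.image D.eM ∪ Q'.image D.eN)) := by
  classical
  rw [Finset.disjoint_left]
  intro z hz hz'
  obtain ⟨x, rfl⟩ : ∃ x, D.j x = z := by
    apply D.clo_in_range hfree hA2 hol
      (P.image (fun v => D.ι (Sum.inl v)) ∪ Q.image (fun v => D.ι (Sum.inr v)))
    rw [← mem_clo hG]
    rw [Finset.image_union, Finset.image_image, Finset.image_image]
    exact hz
  obtain ⟨B, ⟨b, hb⟩, hB⟩ := D.sup x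
  have h1 := D.support_sub hfree hA2 hG O P Q x hz B hB
  have h2 := D.support_sub hfree hA2 hG O P' Q' x hz' B hB
  rcases b with v | v
  · exact (Finset.disjoint_left.mp hP) (h1.1 v hb) (h2.1 v hb)
  · exact (Finset.disjoint_left.mp hQ) (h1.2 v hb) (h2.2 v hb)

/-- the closure of the empty set is empty -/
theorem XData.clo_empty [DecidableEq V] (D : XData 𝓕 Γ lt)
    (hA2 : ∀ (A : Finset V) (f : V → V), Le Γ A f → ∃ h ∈ autSub Γ, ∀ a ∈ A, h a = f a)
    (hG : LocFin (autSub Γ)) : clo (autSub Γ) hG ∅ = ∅ := by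
  classical
  set O := clo (autSub Γ) hG ∅ with hO
  have himg : ∀ e : Γ ↪g Γ, O.image e = O := by
    intro e
    obtain ⟨h, hh, hh2⟩ := hom2 hA2 e O
    have h1 : O.image e = O.image h := by
      apply Finset.image_congr
      intro a ha
      exact (hh2 a ha).symm
    rw [h1, hO, ← clo_image hG hh, Finset.image_empty]
  have h1 := himg D.eM
  have h2 := himg D.eN
  rw [Finset.eq_empty_iff_forall_notMem]
  intro a ha
  have ha1 : D.eM a ∈ O := by
    rw [← h1]; exact Finset.mem_image_of_mem _ ha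
  rw [← h2, Finset.mem_image] at ha1
  obtain ⟨b, _, hb⟩ := ha1
  exact D.eM_ne_eN a b hb.symm

end

/-- the separation condition for the group of pairs -/
theorem sn_pairs {Γ : SimpleGraph V} (hG : LocFin (autSub Γ)) (O : OrdData (autSub Γ))
    (B : Finset (V ⊕ V)) (g : KG Γ O.lt)
    (hg : ∀ h : KG Γ O.lt, (∀ b ∈ B, smW Γ O.lt h b = b) ↔
      (∀ b ∈ B, smW Γ O.lt (g * h * g⁻¹) b = b)) : ∀ b ∈ B, smW Γ O.lt g b = b := by
  classical
  let B1 : Finset V := B.toLeft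
  let B2 : Finset V := B.toRight
  have hB1 : ∀ v, v ∈ B1 ↔ Sum.inl v ∈ B := fun v => Finset.mem_toLeft
  have hB2 : ∀ v, v ∈ B2 ↔ Sum.inr v ∈ B := fun v => Finset.mem_toRight
  have hfixclo : ∀ (k : Equiv.Perm V) (_ : k ∈ ordSub (autSub Γ) O.lt) (A : Finset V),
      (∀ a ∈ A, k a = a) → ∀ a ∈ clo (autSub Γ) hG A, k a = a := by
    intro k hk A hA
    apply ord_rigid O.tot _ k hk.2
    intro a ha
    rw [mem_clo] at *
    rw [fixOrb_eq ⟨k, hk.1, hA, rfl⟩]
    exact ha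
  have hL : ∀ v ∈ clo (autSub Γ) hG B1, (g.1 : Equiv.Perm V) v ∈ clo (autSub Γ) hG B1 := by
    intro v hv
    by_contra hvn
    have hinf := O.inf _ (closed_clo hG B1) _ hvn
    obtain ⟨y, ⟨k, hk, hk2, hk3, hy⟩, hyn⟩ := hinf.exists_notMem_finset {(g.1 : Equiv.Perm V) v}
    rw [Finset.mem_singleton] at hyn
    let h' : KG Γ O.lt := (⟨k, hk, hk2⟩, 1)
    let h : KG Γ O.lt := g⁻¹ * h' * g
    have e : g * h * g⁻¹ = h' := by
      simp only [h]
      group
    have hfix : ∀ b ∈ B, smW Γ O.lt h b = b := by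
      rw [hg h, e]
      rintro (b | b) hb
      · show Sum.inl (k b) = _
        rw [hk3 b (subset_clo hG B1 ((hB1 b).mpr hb))]
      · rfl
    have h1 : ∀ a ∈ B1, (h.1 : Equiv.Perm V) a = a := by
      intro a ha
      have := hfix _ ((hB1 a).mp ha)
      exact Sum.inl.inj this
    have h2 := hfixclo _ h.1.2 B1 h1 v hv
    have h3 : (h.1 : Equiv.Perm V) v = (g.1 : Equiv.Perm V)⁻¹ (k ((g.1 : Equiv.Perm V) v)) := rfl
    rw [h3, Equiv.Perm.inv_eq_iff_eq] at h2
    apply hyn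
    rw [← hy, h2]
  have hR : ∀ v ∈ clo (autSub Γ) hG B2, (g.2 : Equiv.Perm V) v ∈ clo (autSub Γ) hG B2 := by
    intro v hv
    by_contra hvn
    have hinf := O.inf _ (closed_clo hG B2) _ hvn
    obtain ⟨y, ⟨k, hk, hk2, hk3, hy⟩, hyn⟩ := hinf.exists_notMem_finset {(g.2 : Equiv.Perm V) v}
    rw [Finset.mem_singleton] at hyn
    let h' : KG Γ O.lt := (1, ⟨k, hk, hk2⟩)
    let h : KG Γ O.lt := g⁻¹ * h' * g
    have e : g * h * g⁻¹ = h' := by
      simp only [h]
      group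
    have hfix : ∀ b ∈ B, smW Γ O.lt h b = b := by
      rw [hg h, e]
      rintro (b | b) hb
      · rfl
      · show Sum.inr (k b) = _
        rw [hk3 b (subset_clo hG B2 ((hB2 b).mpr hb))]
    have h1 : ∀ a ∈ B2, (h.2 : Equiv.Perm V) a = a := by
      intro a ha
      have := hfix _ ((hB2 a).mp ha)
      exact Sum.inr.inj this
    have h2 := hfixclo _ h.2.2 B2 h1 v hv
    have h3 : (h.2 : Equiv.Perm V) v = (g.2 : Equiv.Perm V)⁻¹ (k ((g.2 : Equiv.Perm V) v)) := rfl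
    rw [h3, Equiv.Perm.inv_eq_iff_eq] at h2
    apply hyn
    rw [← hy, h2]
  rintro (b | b) hb
  · show Sum.inl ((g.1 : Equiv.Perm V) b) = _
    rw [ord_rigid O.tot _ _ g.1.2.2 hL b (subset_clo hG B1 ((hB1 b).mpr hb))]
  · show Sum.inr ((g.2 : Equiv.Perm V) b) = _
    rw [ord_rigid O.tot _ _ g.2.2.2 hR b (subset_clo hG B2 ((hB2 b).mpr hb))]

end MPec220f
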