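import Pool.Agent.Lib_MP_ec220f_lc.Plug3
import Pool.Agent.Lib_MP_ec220f_lc.Bridge
import Pool.Agent.Lib_MP_ec220f_lc.Filt

/-!
MP_ec220f_lc, plug-in part 4: minimal bad pairs, the coupling, the final reduction.
-/

namespace MPec220f

open Finset Function Pool.Agent.MPec220f

variable {V : Type}

section minbad

variable [DecidableEq V] (c : Finset V → Finset V)

/-- disjoint sets whose closures meet -/
def Bad (p : Finset V × Finset V) : Prop := Disjoint p.1 p.2 ∧ ¬ Disjoint (c p.1) (c p.2)

/-- minimal bad pairs -/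
def MinBad (p : Finset V × Finset V) : Prop :=
  Bad c p ∧ ∀ q : Finset V × Finset V, q.1 ⊆ p.1 → q.2 ⊆ p.2 → q ≠ p → ¬ Bad c q

open scoped Classical in
/-- the minimal bad pairs inside `S` -/
noncomputable def mbp (S : Finset V) : Finset (Finset V × Finset V) :=
  (S.powerset ×ˢ S.powerset).filter (fun p => MinBad c p)

theorem mem_mbp (S : Finset V) (p : Finset V × Finset V) :
    p ∈ mbp c S ↔ (p.1 ⊆ S ∧ p.2 ⊆ S) ∧ MinBad c p := by
  simp only [mbp, Finset.mem_filter, Finset.mem_product, Finset.mem_powerset]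

theorem exists_minBad (p : Finset V × Finset V) (hp : Bad c p) :
    ∃ q, q.1 ⊆ p.1 ∧ q.2 ⊆ p.2 ∧ MinBad c q := by
  induction hn : p.1.card + p.2.card using Nat.strong_induction_on generalizing p with
  | _ n ih =>
    by_cases h : MinBad c p
    · exact ⟨p, Finset.Subset.refl _, Finset.Subset.refl _, h⟩
    · rw [MinBad, not_and] at h
      have h' := h hp
      push Not at h'
      obtain ⟨q, h1, h2, hne, hq⟩ := h'
      have hlt : q.1.card + q.2.card < n := by
        have c1 := Finset.card_le_card h1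
        have c2 := Finset.card_le_card h2
        rcases Nat.lt_or_ge (q.1.card + q.2.card) n with h3 | h3
        · exact h3
        · exfalso
          apply hne
          apply Prod.ext
          · exact Finset.eq_of_subset_of_card_le h1 (by omega)
          · exact Finset.eq_of_subset_of_card_le h2 (by omega)
      obtain ⟨r, hr1, hr2, hr⟩ := ih _ hlt q hq rfl
      exact ⟨r, hr1.trans h1, hr2.trans h2, hr⟩

theorem mbp_mono {S S' : Finset V} (h : S ⊆ S') : mbp c S ⊆ mbp c S' := by
  intro p hp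
  rw [mem_mbp] at *
  exact ⟨⟨hp.1.1.trans h, hp.1.2.trans h⟩, hp.2⟩

variable {c}

theorem minBad_nonempty (hc : c ∅ = ∅) {p : Finset V × Finset V} (hp : MinBad c p) :
    p.1.Nonempty ∧ p.2.Nonempty := by
  constructor
  · rw [Finset.nonempty_iff_ne_empty]
    intro h
    apply hp.1.2
    rw [h, hc]
    exact Finset.disjoint_empty_left _
  · rw [Finset.nonempty_iff_ne_empty]
    intro h
    apply hp.1.2
    rw [h, hc]
    exact Finset.disjoint_empty_right _

theorem mbp_disjoint (hc : c ∅ = ∅) {X Y : Finset V} (h : Disjoint X Y) :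
    Disjoint (mbp c X) (mbp c Y) := by
  rw [Finset.disjoint_left]
  intro p h1 h2
  rw [mem_mbp] at h1 h2
  obtain ⟨a, ha⟩ := (minBad_nonempty hc h1.2).1
  exact (Finset.disjoint_left.mp h) (h1.1.1 ha) (h2.1.1 ha)

/-- the defect -/
noncomputable def defect (hc : c ∅ = ∅) : SupAdd V where
  v := fun S => (mbp c S).card
  super := by
    intro X Y h
    rw [← Finset.card_union_of_disjoint (mbp_disjoint hc h)]
    apply Finset.card_le_card
    exact Finset.union_subset (mbp_mono c Finset.subset_union_left)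
      (mbp_mono c Finset.subset_union_right)

theorem defect_disj (hc : c ∅ = ∅) {X Y : Finset V} (h : Disjoint X Y)
    (hv : (defect hc).v X + (defect hc).v Y = (defect hc).v (X ∪ Y)) :
    Disjoint (c X) (c Y) := by
  by_contra hnot
  obtain ⟨q, h1, h2, hq⟩ := exists_minBad c (X, Y) ⟨h, hnot⟩
  obtain ⟨⟨a, ha⟩, ⟨b, hb⟩⟩ := minBad_nonempty hc hq
  have hlt : (mbp c X ∪ mbp c Y).card < (mbp c (X ∪ Y)).card := by
    apply Finset.card_lt_card
    rw [Finset.ssubset_iff_of_subset]
    · refine ⟨q, ?_, ?_⟩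
      · rw [mem_mbp]
        exact ⟨⟨h1.trans Finset.subset_union_left, h2.trans Finset.subset_union_right⟩, hq⟩
      · rw [Finset.mem_union, mem_mbp, mem_mbp]
        rintro (h3 | h3)
        · exact (Finset.disjoint_left.mp h) (h3.1.2 hb) (h2 hb)
        · exact (Finset.disjoint_left.mp h) (h1 ha) (h3.1.1 ha)
    · exact Finset.union_subset (mbp_mono c Finset.subset_union_left)
        (mbp_mono c Finset.subset_union_right)
  rw [Finset.card_union_of_disjoint (mbp_disjoint hc h)] at hlt
  have : (mbp c X).card + (mbp c Y).card = (mbp c (X ∪ Y)).card := hv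
  omega

theorem defect_image (hc : c ∅ = ∅) {g : Equiv.Perm V}
    (hg : ∀ A : Finset V, c (A.image g) = (c A).image g) (S : Finset V) :
    (defect hc).v (S.image g) = (defect hc).v S := by
  have hbad : ∀ p : Finset V × Finset V, Bad c (p.1.image g, p.2.image g) ↔ Bad c p := by
    intro p
    simp only [Bad, hg]
    rw [Finset.disjoint_image g.injective, Finset.disjoint_image g.injective]
  have hmin : ∀ p : Finset V × Finset V, MinBad c (p.1.image g, p.2.image g) ↔ MinBad c p := by
    intro p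
    constructor
    · rintro ⟨h1, h2⟩
      refine ⟨(hbad p).mp h1, ?_⟩
      intro q hq1 hq2 hne hq
      apply h2 (q.1.image g, q.2.image g) (Finset.image_subset_image hq1)
        (Finset.image_subset_image hq2)
      · intro he
        apply hne
        rw [Prod.mk.injEq] at he
        exact Prod.ext (Finset.image_injective g.injective he.1)
          (Finset.image_injective g.injective he.2)
      · exact (hbad q).mpr hq
    · rintro ⟨h1, h2⟩
      refine ⟨(hbad p).mpr h1, ?_⟩
      intro q hq1 hq2 hne hq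
      obtain ⟨q1, hq1', rfl'⟩ : ∃ q1, q1 ⊆ p.1 ∧ q1.image g = q.1 :=
        (Finset.subset_image_iff.mp hq1)
      obtain ⟨q2, hq2', rfl''⟩ : ∃ q2, q2 ⊆ p.2 ∧ q2.image g = q.2 :=
        (Finset.subset_image_iff.mp hq2)
      apply h2 (q1, q2) hq1' hq2'
      · intro he
        apply hne
        rw [← he]
        exact Prod.ext rfl'.symm rfl''.symm
      · rw [← hbad]
        rw [show ((q1, q2).1.image g, (q1, q2).2.image g) = q from Prod.ext rfl' rfl'']
        exact hq
  show (mbp c (S.image g)).card = (mbp c S).card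
  apply (Finset.card_nbij (fun p => (p.1.image g, p.2.image g)) ?_ ?_ ?_).symm
  · intro p hp
    rw [Finset.mem_coe, mem_mbp] at *
    exact ⟨⟨Finset.image_subset_image hp.1.1, Finset.image_subset_image hp.1.2⟩, (hmin p).mpr hp.2⟩
  · intro p _ q _ h
    rw [Prod.mk.injEq] at h
    exact Prod.ext (Finset.image_injective g.injective h.1)
      (Finset.image_injective g.injective h.2)
  · intro q hq
    rw [Finset.mem_coe, mem_mbp] at hq
    obtain ⟨q1, hq1', e1⟩ : ∃ q1, q1 ⊆ S ∧ q1.image g = q.1 :=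
      (Finset.subset_image_iff.mp hq.1.1)
    obtain ⟨q2, hq2', e2⟩ : ∃ q2, q2 ⊆ S ∧ q2.image g = q.2 :=
      (Finset.subset_image_iff.mp hq.1.2)
    refine ⟨(q1, q2), ?_, Prod.ext e1 e2⟩
    rw [Finset.mem_coe, mem_mbp]
    refine ⟨⟨hq1', hq2'⟩, ?_⟩
    rw [← hmin]
    rw [show ((q1, q2).1.image g, (q1, q2).2.image g) = q from Prod.ext e1 e2]
    exact hq.2

theorem defect_additive (hc : c ∅ = ∅) {S T : Finset V} (hd : Disjoint S T)
    (hno : ∀ P P' Q Q' : Finset V, P ⊆ S → P' ⊆ S → Q ⊆ T → Q' ⊆ T →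
      Disjoint (c P) (c P') → Disjoint (c Q) (c Q') → Disjoint (c (P ∪ Q)) (c (P' ∪ Q'))) :
    (defect hc).v (S ∪ T) = (defect hc).v S + (defect hc).v T := by
  show (mbp c (S ∪ T)).card = (mbp c S).card + (mbp c T).card
  rw [← Finset.card_union_of_disjoint (mbp_disjoint hc hd)]
  congr 1
  apply Finset.Subset.antisymm
  · intro p hp
    rw [mem_mbp] at hp
    obtain ⟨⟨h1, h2⟩, h3, h4⟩ := hp
    have e1 : p.1 = (p.1 ∩ S) ∪ (p.1 ∩ T) := by
      rw [← Finset.inter_union_distrib_left, Finset.inter_eq_left.mpr h1]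
    have e2 : p.2 = (p.2 ∩ S) ∪ (p.2 ∩ T) := by
      rw [← Finset.inter_union_distrib_left, Finset.inter_eq_left.mpr h2]
    rw [Finset.mem_union, mem_mbp, mem_mbp]
    by_cases hS : Disjoint (c (p.1 ∩ S)) (c (p.2 ∩ S))
    · by_cases hT : Disjoint (c (p.1 ∩ T)) (c (p.2 ∩ T))
      · exfalso
        apply h3.2
        rw [e1, e2]
        exact hno _ _ _ _ Finset.inter_subset_right Finset.inter_subset_right
          Finset.inter_subset_right Finset.inter_subset_right hS hT
      · right
        have hb : Bad c (p.1 ∩ T, p.2 ∩ T) := ⟨h3.1.mono Finset.inter_subset_left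
          Finset.inter_subset_left, hT⟩
        have he : (p.1 ∩ T, p.2 ∩ T) = p := by
          by_contra hne
          exact h4 _ Finset.inter_subset_left Finset.inter_subset_left hne hb
        have e3 : p.1 ∩ T = p.1 := congrArg Prod.fst he
        have e4 : p.2 ∩ T = p.2 := congrArg Prod.snd he
        exact ⟨⟨Finset.inter_eq_left.mp e3, Finset.inter_eq_left.mp e4⟩, h3, h4⟩
    · left
      have hb : Bad c (p.1 ∩ S, p.2 ∩ S) := ⟨h3.1.mono Finset.inter_subset_left
        Finset.inter_subset_left, hS⟩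
      have he : (p.1 ∩ S, p.2 ∩ S) = p := by
        by_contra hne
        exact h4 _ Finset.inter_subset_left Finset.inter_subset_left hne hb
      have e3 : p.1 ∩ S = p.1 := congrArg Prod.fst he
      have e4 : p.2 ∩ S = p.2 := congrArg Prod.snd he
      exact ⟨⟨Finset.inter_eq_left.mp e3, Finset.inter_eq_left.mp e4⟩, h3, h4⟩
  · exact Finset.union_subset (mbp_mono c Finset.subset_union_left)
      (mbp_mono c Finset.subset_union_right)

theorem defect_bdd (hc : c ∅ = ∅) (S : Finset V) : (defect hc).v S ≤ 2 ^ S.card * 2 ^ S.card := by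
  classical
  show (mbp c S).card ≤ _
  refine (Finset.card_filter_le _ _).trans ?_
  rw [Finset.card_product, Finset.card_powerset]

end minbad

section couple

variable {𝓕 : Set FinGraph} {Γ : SimpleGraph V}

theorem pairwise_lt_iff [DecidableEq V] {lt : V → V → Prop} (tot : IsStrictTotalOrder V lt)
    (l : List V) (g : V → V) (hl : (l.map g).Pairwise lt) (y z : V) (hy : y ∈ l) (hz : z ∈ l) :
    lt (g y) (g z) ↔ l.idxOf y < l.idxOf z := by
  have htrans := tot.toIsStrictOrder.toIsTrans.trans
  have hirr := tot.toIsStrictOrder.toIrrefl.irrefl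
  have h1 : ∀ y ∈ l, ∀ z ∈ l, l.idxOf y < l.idxOf z → lt (g y) (g z) := by
    intro y hy z hz hlt
    rw [List.pairwise_iff_getElem] at hl
    have hy' := List.idxOf_lt_length_iff.mpr hy
    have hz' := List.idxOf_lt_length_iff.mpr hz
    have := hl (l.idxOf y) (l.idxOf z) (by simpa using hy') (by simpa using hz') hlt
    simpa using this
  constructor
  · intro h
    rcases lt_trichotomy (l.idxOf y) (l.idxOf z) with h2 | h2 | h2
    · exact h2
    · have := (List.idxOf_inj hy).mp h2
      subst this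
      exact absurd h (hirr _)
    · exact absurd (htrans _ _ _ h (h1 z hz y hy h2)) (hirr _)
  · exact h1 y hy z hz

variable [DecidableEq V]
  (hfree : IsFree 𝓕 Γ)
  (hA2 : ∀ (A : Finset V) (f : V → V), Le Γ A f → ∃ h ∈ autSub Γ, ∀ a ∈ A, h a = f a)
  (hol : Oligo (autSub Γ)) (hG : LocFin (autSub Γ)) (O : OrdData (autSub Γ))
  (D : XData 𝓕 Γ O.lt)

include hfree hA2 in
theorem key_orbit (X Y : Finset V) (g g' : Equiv.Perm V) (hg : g ∈ autSub Γ)
    (hg' : g' ∈ autSub Γ)
    (hord : ∀ y ∈ clo (autSub Γ) hG Y, ∀ z ∈ clo (autSub Γ) hG Y,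
      O.lt (g y) (g z) ↔ O.lt (g' y) (g' z)) :
    SameOrbit (autSub Γ) (X.image D.eM ∪ (Y.image g).image D.eN)
      (X.image D.eM ∪ (Y.image g').image D.eN) := by
  classical
  have hclosed : ClosedSet (autSub Γ) ((clo (autSub Γ) hG Y).image g) := by
    rw [← clo_image hG hg]
    exact closed_clo hG _
  obtain ⟨k, hk, hk2, hk3⟩ := O.hom _ hclosed (g' * g⁻¹)
    ((autSub Γ).mul_mem hg' ((autSub Γ).inv_mem hg)) (by
      intro a ha b hb
      obtain ⟨y, hy, rfl⟩ := Finset.mem_image.mp ha
      obtain ⟨z, hz, rfl⟩ := Finset.mem_image.mp hb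
      rw [Equiv.Perm.mul_apply, Equiv.Perm.mul_apply, pinv_apply, pinv_apply]
      exact hord y hy z hz)
  have hkg : ∀ y ∈ Y, k (g y) = g' y := by
    intro y hy
    rw [hk3 (g y) (Finset.mem_image_of_mem _ (subset_clo hG Y hy)), Equiv.Perm.mul_apply,
      pinv_apply]
  let p : KG Γ O.lt := (1, ⟨k, hk, hk2⟩)
  obtain ⟨h, hh, hh2⟩ := D.hom1 hfree hA2 p
    (X.image (fun v => D.ι (Sum.inl v)) ∪ (Y.image g).image (fun v => D.ι (Sum.inr v)))
  have e1 : ∀ x ∈ X, h (D.eM x) = D.eM x := by
    intro x hx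
    rw [D.eM_app, hh2 _ (Finset.mem_union_left _ (Finset.mem_image_of_mem _ hx)), ← D.equi]
    rfl
  have e2 : ∀ y ∈ Y, h (D.eN (g y)) = D.eN (g' y) := by
    intro y hy
    rw [D.eN_app, hh2 _ (Finset.mem_union_right _ (Finset.mem_image_of_mem _
      (Finset.mem_image_of_mem _ hy))), ← D.equi]
    show D.j (D.ι (Sum.inr (k (g y)))) = _
    rw [hkg y hy]
    rfl
  refine ⟨⟨h, hh⟩, ?_⟩
  show (X.image D.eM ∪ (Y.image g).image D.eN).image h = _
  rw [Finset.image_union]
  congr 1
  · rw [Finset.image_image]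
    apply Finset.image_congr
    intro x hx
    exact e1 x hx
  · rw [Finset.image_image, Finset.image_image, Finset.image_image]
    apply Finset.image_congr
    intro y hy
    exact e2 y hy

/-- the chosen group element sorting `clo Y` -/
noncomputable def srt (Y : Finset V) (l : List V) : Equiv.Perm V :=
  if h : l ∈ ords (clo (autSub Γ) hG Y) then
    Classical.choose (O.real (clo (autSub Γ) hG Y) (closed_clo hG Y) l
      ((mem_ords_iff _ _).mp h).1 ((mem_ords_iff _ _).mp h).2) else 1

theorem srt_spec (Y : Finset V) (l : List V) (h : l ∈ ords (clo (autSub Γ) hG Y)) :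
    srt hG O Y l ∈ autSub Γ ∧ (l.map (srt hG O Y l)).Pairwise O.lt := by
  rw [srt, dif_pos h]
  exact Classical.choose_spec (O.real (clo (autSub Γ) hG Y) (closed_clo hG Y) l
      ((mem_ords_iff _ _).mp h).1 ((mem_ords_iff _ _).mp h).2)

include hfree hA2 hol in
theorem no_overlap' (P Q P' Q' : Finset V)
    (hP : Disjoint (clo (autSub Γ) hG (P.image D.eM)) (clo (autSub Γ) hG (P'.image D.eM)))
    (hQ : Disjoint (clo (autSub Γ) hG (Q.image D.eN)) (clo (autSub Γ) hG (Q'.image D.eN))) :
    Disjoint (clo (autSub Γ) hG (P.image D.eM ∪ Q.image D.eN))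
      (clo (autSub Γ) hG (P'.image D.eM ∪ Q'.image D.eN)) := by
  apply D.no_overlap hfree hA2 hol hG O
  · obtain ⟨h, hh, hh2⟩ := hom2 hA2 D.eM (P ∪ P')
    have e1 : P.image D.eM = P.image h := Finset.image_congr
      (fun a ha => (hh2 a (Finset.mem_union_left _ ha)).symm)
    have e2 : P'.image D.eM = P'.image h := Finset.image_congr
      (fun a ha => (hh2 a (Finset.mem_union_right _ ha)).symm)
    rw [e1, e2, clo_image hG hh, clo_image hG hh, Finset.disjoint_image h.injective] at hP
    exact hP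
  · obtain ⟨h, hh, hh2⟩ := hom2 hA2 D.eN (Q ∪ Q')
    have e1 : Q.image D.eN = Q.image h := Finset.image_congr
      (fun a ha => (hh2 a (Finset.mem_union_left _ ha)).symm)
    have e2 : Q'.image D.eN = Q'.image h := Finset.image_congr
      (fun a ha => (hh2 a (Finset.mem_union_right _ ha)).symm)
    rw [e1, e2, clo_image hG hh, clo_image hG hh, Finset.disjoint_image h.injective] at hQ
    exact hQ

/-- the coupling -/
noncomputable def theCoupling : Pool.Agent.MPec220f.Coupling (autSub Γ)
    (defect (c := clo (autSub Γ) hG) (D.clo_empty hA2 hG)) (clo (autSub Γ) hG) where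
  κ := fun X Y l => X.image D.eM ∪ (Y.image (srt hG O Y l)).image D.eN
  V_inv := fun g X => defect_image (D.clo_empty hA2 hG)
    (fun A => clo_image hG g.2 A) X
  cl_mono := fun h => clo_mono hG h
  cl_inv := fun g X => clo_image hG g.2 X
  cl_disj := fun X Y h hv => defect_disj (D.clo_empty hA2 hG) h hv
  K1 := by
    intro X Y l hl
    obtain ⟨hs, hs2⟩ := srt_spec hG O Y l hl
    refine ⟨D.eM, fun y => D.eN (srt hG O Y l y), D.eM.injective.injOn,
      (D.eN.injective.comp (srt hG O Y l).injective).injOn, ?_, ?_⟩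
    · rw [Finset.disjoint_left]
      intro z h1 h2
      obtain ⟨x, _, rfl⟩ := Finset.mem_image.mp h1
      obtain ⟨y, _, hy⟩ := Finset.mem_image.mp h2
      exact D.eM_ne_eN _ _ hy.symm
    · intro X1 _ Y1 hY1
      have hl1 := filter_mem_ords (clo_mono hG hY1) hl
      obtain ⟨ht, ht2⟩ := srt_spec hG O Y1 _ hl1
      have e : Y1.image (fun y => D.eN (srt hG O Y l y)) =
          (Y1.image (srt hG O Y l)).image D.eN := by
        rw [Finset.image_image]; rfl
      rw [e]
      apply key_orbit hfree hA2 hG O D X1 Y1 _ _ hs ht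
      intro y hy z hz
      have hyl : y ∈ l := (((mem_ords_iff _ _).mp hl).2 y).mpr (clo_mono hG hY1 hy)
      have hzl : z ∈ l := (((mem_ords_iff _ _).mp hl).2 z).mpr (clo_mono hG hY1 hz)
      have hyl1 := (((mem_ords_iff _ _).mp hl1).2 y).mpr hy
      have hzl1 := (((mem_ords_iff _ _).mp hl1).2 z).mpr hz
      rw [pairwise_lt_iff O.tot l _ hs2 y z hyl hzl, pairwise_lt_iff O.tot _ _ ht2 y z hyl1 hzl1]
      exact (idxOf_lt_idxOf_filter _ l y z hyl1 hzl1).symm
  K2 := by
    intro X Y l s hl
    obtain ⟨hs, hs2⟩ := srt_spec hG O Y l hl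
    have hl1 : l.map (fun x => s • x) ∈ ords (clo (autSub Γ) hG (gim s Y)) := by
      have h1 := map_mem_ords (g := fun x => s • x) (MulAction.injective s) hl
      have h2 : (clo (autSub Γ) hG Y).image (fun x => s • x) = clo (autSub Γ) hG (gim s Y) :=
        (clo_image hG s.2 Y).symm
      rwa [h2] at h1
    obtain ⟨ht, ht2⟩ := srt_spec hG O _ _ hl1
    set t := srt hG O (gim s Y) (l.map (fun x => s • x)) with htdef
    have e : ((gim s Y).image t).image D.eN =
        (Y.image (t * (s : Equiv.Perm V))).image D.eN := by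
      rw [gim, Finset.image_image, Finset.image_image, Finset.image_image]
      rfl
    show SameOrbit (autSub Γ) (X.image D.eM ∪ (Y.image (srt hG O Y l)).image D.eN)
      (X.image D.eM ∪ ((gim s Y).image t).image D.eN)
    rw [e]
    apply key_orbit hfree hA2 hG O D X Y _ _ hs ((autSub Γ).mul_mem ht s.2)
    intro y hy z hz
    have hyl : y ∈ l := (((mem_ords_iff _ _).mp hl).2 y).mpr hy
    have hzl : z ∈ l := (((mem_ords_iff _ _).mp hl).2 z).mpr hz
    rw [pairwise_lt_iff O.tot l _ hs2 y z hyl hzl]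
    have h3 := pairwise_lt_iff O.tot _ _ ht2 ((s : Equiv.Perm V) y) ((s : Equiv.Perm V) z)
      (List.mem_map_of_mem hyl) (List.mem_map_of_mem hzl)
    rw [Equiv.Perm.mul_apply, Equiv.Perm.mul_apply, h3]
    have h4 : ∀ y, (l.map (fun x => s • x)).idxOf ((s : Equiv.Perm V) y) = l.idxOf y :=
      fun y => idxOf_map_inj (s : Equiv.Perm V).injective l y
    rw [h4, h4]
  K3 := by
    intro X
    obtain ⟨h, hh, hh2⟩ := hom2 hA2 D.eM X
    apply SameOrbit.symm
    refine ⟨⟨h, hh⟩, ?_⟩
    show X.image h = X.image D.eM ∪ ((∅ : Finset V).image _).image D.eN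
    rw [Finset.image_empty, Finset.image_empty, Finset.union_empty]
    exact Finset.image_congr hh2
  K3' := by
    intro Y l hl
    obtain ⟨hs, hs2⟩ := srt_spec hG O Y l hl
    obtain ⟨h, hh, hh2⟩ := hom2 hA2 D.eN (Y.image (srt hG O Y l))
    apply SameOrbit.symm
    refine ⟨⟨h * srt hG O Y l, (autSub Γ).mul_mem hh hs⟩, ?_⟩
    show Y.image (h * srt hG O Y l) = (∅ : Finset V).image D.eM ∪
      (Y.image (srt hG O Y l)).image D.eN
    rw [Finset.image_empty, Finset.empty_union, Finset.image_image]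
    apply Finset.image_congr
    intro y hy
    exact hh2 _ (Finset.mem_image_of_mem _ hy)
  K4 := by
    intro X Y l hl
    obtain ⟨hs, hs2⟩ := srt_spec hG O Y l hl
    have hd : Disjoint (X.image D.eM) ((Y.image (srt hG O Y l)).image D.eN) := by
      rw [Finset.disjoint_left]
      intro z h1 h2
      obtain ⟨x, _, rfl⟩ := Finset.mem_image.mp h1
      obtain ⟨y, _, hy⟩ := Finset.mem_image.mp h2
      exact D.eM_ne_eN _ _ hy.symm
    show (defect (c := clo (autSub Γ) hG) (D.clo_empty hA2 hG)).v
      (X.image D.eM ∪ (Y.image (srt hG O Y l)).image D.eN) = _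
    rw [defect_additive (D.clo_empty hA2 hG) hd]
    · congr 1
      · obtain ⟨h, hh, hh2⟩ := hom2 hA2 D.eM X
        rw [Finset.image_congr (fun a ha => (hh2 a ha).symm)]
        exact defect_image (D.clo_empty hA2 hG) (fun A => clo_image hG hh A) X
      · obtain ⟨h, hh, hh2⟩ := hom2 hA2 D.eN (Y.image (srt hG O Y l))
        rw [Finset.image_congr (fun a ha => (hh2 a ha).symm)]
        rw [defect_image (D.clo_empty hA2 hG) (fun A => clo_image hG hh A),
          defect_image (D.clo_empty hA2 hG) (fun A => clo_image hG hs A)]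
    · intro P P' Q Q' hP hP' hQ hQ' h1 h2
      obtain ⟨P0, _, rfl⟩ := Finset.subset_image_iff.mp hP
      obtain ⟨P0', _, rfl⟩ := Finset.subset_image_iff.mp hP'
      obtain ⟨Q0, _, rfl⟩ := Finset.subset_image_iff.mp hQ
      obtain ⟨Q0', _, rfl⟩ := Finset.subset_image_iff.mp hQ'
      exact no_overlap' hfree hA2 hol hG O D P0 Q0 P0' Q0' h1 h2

end couple

end MPec220f
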