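import Pool.Agent.Lib_MP_ec220f_lc.Plug4

/-!
MP_ec220f_lc, plug-in part 5: the main theorem from (A), (B), (C).
-/

namespace MPec220f

open Finset Function

/-- (C): the equivariant existentially complete extension theorem -/
def EquivExt (𝓕 : Set FinGraph) : Prop :=
  ∀ (W : Type) [Countable W] [Nonempty W] (H : SimpleGraph W), IsFree 𝓕 H →
    ∀ (K : Type) [Group K] [MulAction K W],
    (∀ (g : K) a b, H.Adj (g • a) (g • b) ↔ H.Adj a b) →
    (∀ (B : Finset W) (g : K), (∀ h : K, (∀ b ∈ B, h • b = b) ↔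
      (∀ b ∈ B, (g * h * g⁻¹) • b = b)) → ∀ b ∈ B, g • b = b) →
    ∃ (U : Type) (_ : Countable U) (X : SimpleGraph U) (_ : MulAction K U) (ι : W → U),
      IsEC 𝓕 X ∧ (∀ (g : K) x y, X.Adj (g • x) (g • y) ↔ X.Adj x y) ∧ Injective ι ∧
      (∀ (g : K) w, ι (g • w) = g • ι w) ∧ (∀ a b, X.Adj (ι a) (ι b) ↔ H.Adj a b) ∧
      ∀ x : U, ∃ B : Finset W, B.Nonempty ∧ ∀ g : K, g • x = x ↔ ∀ b ∈ B, g • b = b

variable {V : Type}

theorem autSub_closed (Γ : SimpleGraph V) (f : Equiv.Perm V)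
    (hf : ∀ S : Finset V, ∃ g ∈ autSub Γ, ∀ x ∈ S, g x = f x) : f ∈ autSub Γ := by
  classical
  rw [mem_autSub]
  intro a b
  obtain ⟨g, hg, h⟩ := hf {a, b}
  rw [← h a (by simp), ← h b (by simp)]
  exact mem_autSub.mp hg a b

/-- the main theorem from the three parts -/
theorem polynomial_of_parts [Countable V] [Nonempty V] [DecidableEq V] {𝓕 : Set FinGraph}
    (hconn : ∀ F ∈ 𝓕, F.2.Connected) (Γ : SimpleGraph V) (hfree : IsFree 𝓕 Γ)
    (hA2 : ∀ (A : Finset V) (f : V → V), Le Γ A f → ∃ h ∈ autSub Γ, ∀ a ∈ A, h a = f a)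
    (hol : Oligo (autSub Γ))
    (huniv : ∀ (W : Type) [Countable W] (H : SimpleGraph W), IsFree 𝓕 H → Nonempty (H ↪g Γ))
    (hB : Nonempty (OrdData (autSub Γ))) (hC : EquivExt 𝓕) :
    ∃ σ : Type, Nonempty (MvPolynomial σ ℚ ≃ₐ[ℚ] orbitAlgebra (autSub Γ)) := by
  have hG : LocFin (autSub Γ) := locFin_of_oligo hol
  obtain ⟨O⟩ := hB
  let _ : MulAction (KG Γ O.lt) (V ⊕ V) := actW (autSub Γ) O.lt
  obtain ⟨U, hU, X, act, ι, hec, haut, hinj, hequi, hind, hsup⟩ :=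
    hC (V ⊕ V) (dsum Γ) (isFree_dsum hconn hfree) (KG Γ O.lt) (by
      rintro g (a | a) (b | b)
      · show (dsum Γ).Adj (Sum.inl ((g.1 : Equiv.Perm V) a)) (Sum.inl ((g.1 : Equiv.Perm V) b)) ↔ _
        rw [dsum_ll, dsum_ll]
        exact mem_autSub.mp g.1.2.1 a b
      · exact iff_of_false (dsum_lr Γ _ _) (dsum_lr Γ _ _)
      · exact iff_of_false (dsum_rl Γ _ _) (dsum_rl Γ _ _)
      · show (dsum Γ).Adj (Sum.inr ((g.2 : Equiv.Perm V) a)) (Sum.inr ((g.2 : Equiv.Perm V) b)) ↔ _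
        rw [dsum_rr, dsum_rr]
        exact mem_autSub.mp g.2.2.1 a b)
      (fun B g hg => sn_pairs hG O B g hg)
  obtain ⟨j⟩ := huniv U X hec.1
  let D : XData 𝓕 Γ O.lt :=
    { U := U
      X := X
      sm := fun p x => p • x
      sm_one := fun x => one_smul _ x
      sm_mul := fun p q x => mul_smul p q x
      ι := ι
      ec := hec
      aut := haut
      inj := hinj
      equi := hequi
      ind := hind
      sup := hsup
      j := j }
  obtain ⟨I, ⟨e⟩⟩ := Pool.Agent.MPec220f.polynomial_of_coupling_zero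
    (theCoupling hfree hA2 hol hG O D) (fun n => ⟨2 ^ n * 2 ^ n, fun X hX => by
      rw [← hX]
      exact defect_bdd (D.clo_empty hA2 hG) X⟩)
  exact ⟨I, ⟨e.trans (algEquiv (autSub Γ))⟩⟩

end MPec220f
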