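import Pool.Agent.Lib_MP_ec220f_lc.Plug3
import Pool.Agent.Lib_MP_ec220f_lc.GenOrd

/-!
MP_ec220f_lc, plug-in part 6: the closure of the empty set is empty; generic orders.
-/

namespace MPec220f

open Finset Function

variable {V : Type}

/-- The closure of the empty set is empty in a universal homogeneous graph. -/
theorem clo_empty_of_univ {𝓕 : Set FinGraph} (hconn : ∀ F ∈ 𝓕, F.2.Connected) [Countable V]
    {Γ : SimpleGraph V} (hfree : IsFree 𝓕 Γ)
    (hA2 : ∀ (A : Finset V) (f : V → V), Le Γ A f → ∃ h ∈ autSub Γ, ∀ a ∈ A, h a = f a)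
    (huniv : ∀ (W : Type) [Countable W] (H : SimpleGraph W), IsFree 𝓕 H → Nonempty (H ↪g Γ))
    (hG : LocFin (autSub Γ)) : clo (autSub Γ) hG ∅ = ∅ := by
  classical
  obtain ⟨e⟩ := huniv (V ⊕ V) (dsum Γ) (isFree_dsum hconn hfree)
  let e1 : Γ ↪g Γ :=
    { toFun := fun v => e (Sum.inl v)
      inj' := fun a b h => Sum.inl.inj (e.injective h)
      map_rel_iff' := by
        intro a b
        show Γ.Adj (e (Sum.inl a)) (e (Sum.inl b)) ↔ Γ.Adj a b
        rw [e.map_adj_iff, dsum_ll] }
  let e2 : Γ ↪g Γ :=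
    { toFun := fun v => e (Sum.inr v)
      inj' := fun a b h => Sum.inr.inj (e.injective h)
      map_rel_iff' := by
        intro a b
        show Γ.Adj (e (Sum.inr a)) (e (Sum.inr b)) ↔ Γ.Adj a b
        rw [e.map_adj_iff, dsum_rr] }
  have hne : ∀ a b, e1 a ≠ e2 b := by
    intro a b h
    have h' : e (Sum.inl a) = e (Sum.inr b) := h
    have := e.injective h'
    simp at this
  set O := clo (autSub Γ) hG ∅ with hO
  have himg : ∀ e : Γ ↪g Γ, O.image e = O := by
    intro e
    obtain ⟨h, hh, hh2⟩ := hom2 hA2 e O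
    have h1 : O.image e = O.image h := by
      apply Finset.image_congr
      intro a ha
      exact (hh2 a ha).symm
    rw [h1, hO, ← clo_image hG hh, Finset.image_empty]
  have h1 := himg e1
  have h2 := himg e2
  rw [Finset.eq_empty_iff_forall_notMem]
  intro a ha
  have ha1 : e1 a ∈ O := by
    rw [← h1]; exact Finset.mem_image_of_mem _ ha
  rw [← h2, Finset.mem_image] at ha1
  obtain ⟨b, _, hb⟩ := ha1
  exact hne a b hb.symm

/-- Generic orders exist for closed permutation groups with finite closures and no algebraic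
points over the empty set. -/
theorem ordData_exists [Countable V] (G : Subgroup (Equiv.Perm V))
    (hcl : ∀ f : Equiv.Perm V, (∀ S : Finset V, ∃ g ∈ G, ∀ x ∈ S, g x = f x) → f ∈ G)
    (hG : LocFin G) (h0 : clo G hG ∅ = ∅) : Nonempty (OrdData G) := by
  obtain ⟨lt, h1, h2, h3, h4⟩ := MPec220fB.exists_generic_order G hcl hG (fun x hx => by
    have : x ∈ clo G hG ∅ := (mem_clo hG).mpr hx
    rw [h0] at this
    exact absurd this (Finset.notMem_empty x))
  exact ⟨{ lt := lt, tot := h1, hom := h2, inf := h3, real := fun _ _ l hl _ => h4 l hl }⟩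

/-- The generic order of a universal homogeneous graph. -/
theorem ordData_exists_of_univ {𝓕 : Set FinGraph} (hconn : ∀ F ∈ 𝓕, F.2.Connected)
    [Countable V] {Γ : SimpleGraph V} (hfree : IsFree 𝓕 Γ)
    (hA2 : ∀ (A : Finset V) (f : V → V), Le Γ A f → ∃ h ∈ autSub Γ, ∀ a ∈ A, h a = f a)
    (huniv : ∀ (W : Type) [Countable W] (H : SimpleGraph W), IsFree 𝓕 H → Nonempty (H ↪g Γ))
    (hG : LocFin (autSub Γ)) : Nonempty (OrdData (autSub Γ)) := by
  refine ordData_exists (autSub Γ) ?_ hG (clo_empty_of_univ hconn hfree hA2 huniv hG)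
  intro f hf
  classical
  rw [mem_autSub]
  intro a b
  obtain ⟨g, hg, h⟩ := hf {a, b}
  rw [← h a (by simp), ← h b (by simp)]
  exact mem_autSub.mp hg a b

end MPec220f
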