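import Pool.Agent.Lib_MP_ec220f_lc.Plug5
import Pool.Agent.Lib_MP_ec220f_lc.Plug6
import Pool.Agent.Lib_MP_ec220f_lc.CatUse
import Pool.Agent.Lib_MP_ec220f_lc.EquiUse
import Pool.Agent.Lib_MP_ec220f_lc.ExDef
import Pool.Agent.Lib_MP_ec220f_lc.Final

/-!
MP_ec220f_lc: the final assembly for arbitrary finite families of finite connected graphs.
-/

namespace MPec220f

open Finset Function

theorem isEmpty_of_small {𝓕 : Set FinGraph} {V : Type} {Γ : SimpleGraph V}
    (hfree : IsFree 𝓕 Γ) (h2 : ¬ ∀ F ∈ 𝓕, 2 ≤ F.1) : IsEmpty V := by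
  push Not at h2
  obtain ⟨F, hF, hlt⟩ := h2
  refine ⟨fun v => hfree F hF (fun _ => v) ?_ ?_⟩
  · intro a b _
    apply Fin.ext
    have := a.2
    have := b.2
    omega
  · intro a b hab
    have h3 : a = b := by
      apply Fin.ext
      have := a.2
      have := b.2
      omega
    subst h3
    exact (F.2.irrefl hab).elim

/-- The main theorem: the orbit algebra of the countable existentially complete graph is
a polynomial algebra. -/
theorem polynomial_general {𝓕 : Set FinGraph} (hfin : 𝓕.Finite)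
    (hconn : ∀ F ∈ 𝓕, F.2.Connected) {U : Type} [Countable U] {Δ : SimpleGraph U}
    (huni : MPec220fA.IsUniversal 𝓕 Δ) (hcat : MPec220fA.AlephNullCat Δ)
    {V : Type} [Countable V] [DecidableEq V] {Γ : SimpleGraph V} (hEC : IsEC 𝓕 Γ) :
    ∃ σ : Type, Nonempty (MvPolynomial σ ℚ ≃ₐ[ℚ] orbitAlgebra (autSub Γ)) := by
  rcases isEmpty_or_nonempty V with hV | hV
  · exact polynomial_of_isEmpty _
  · by_cases h2 : ∀ F ∈ 𝓕, 2 ≤ F.1
    · have hA : MPec220fA.Amb 𝓕 := MPec220fA.amb_of hconn h2 huni hcat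
      have hA2 : ∀ (A : Finset V) (f : V → V), Le Γ A f → ∃ h ∈ autSub Γ, ∀ a ∈ A, h a = f a :=
        fun A f hf => MPec220fA.homog_finset hA hEC A f hf
      have hol : Oligo (autSub Γ) := fun n => MPec220fA.oligo hA hEC n
      have huniv : ∀ (W : Type) [Countable W] (H : SimpleGraph W), IsFree 𝓕 H →
          Nonempty (H ↪g Γ) := fun W _ H hH => MPec220fA.exists_embedding hA hEC H hH
      have hC : EquivExt 𝓕 := by
        intro W _ _ H hH K _ _ hact hSN
        exact MPec220fX.pieceC hfin hconn h2 W H hH K hact hSN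
      exact polynomial_of_parts hconn Γ hEC.1 hA2 hol huniv
        (ordData_exists_of_univ hconn hEC.1 hA2 huniv (locFin_of_oligo hol)) hC
    · exact absurd (isEmpty_of_small hEC.1 h2) (not_isEmpty_iff.mpr hV)

/-- Existence of the countable existentially complete graph. -/
theorem exists_ec {𝓕 : Set FinGraph} (hfin : 𝓕.Finite) (hconn : ∀ F ∈ 𝓕, F.2.Connected) :
    ∃ (V : Type) (_ : Countable V) (Γ : SimpleGraph V), IsEC 𝓕 Γ := by
  by_cases h2 : ∀ F ∈ 𝓕, 2 ≤ F.1
  · have hfree : IsFree 𝓕 (⊥ : SimpleGraph Unit) := by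
      intro F hF f hf _
      have := Fintype.card_le_of_injective f hf
      rw [Fintype.card_fin, Fintype.card_unit] at this
      have := h2 F hF
      omega
    let _ : MulAction Unit Unit :=
      { smul := fun _ _ => (), one_smul := fun _ => rfl, mul_smul := fun _ _ _ => rfl }
    obtain ⟨U, hU, X, _, ι, hec, _⟩ := MPec220fX.pieceC hfin hconn h2 Unit (⊥ : SimpleGraph Unit)
      hfree Unit (fun _ _ _ => Iff.rfl) (fun _ _ _ _ _ => rfl)
    exact ⟨U, hU, X, hec⟩
  · refine ⟨Empty, inferInstance, ⊥, ?_, ?_⟩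
    · intro F hF f _ _
      have h0 : Nonempty (Fin F.1) := (hconn F hF).nonempty
      obtain ⟨a⟩ := h0
      exact (f a).elim
    · intro W H hH j S
      have hW : IsEmpty W := isEmpty_of_small hH h2
      exact ⟨fun w => (hW.false w).elim, fun x => (hW.false x).elim,
        fun x => (hW.false x).elim, fun v => v.elim⟩

end MPec220f
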