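import Mathlib

/-!
MP_ec220f_lc, algebra part 2: the ring of functions on finite subsets with the product
`(f g)(X) = ∑ f(X₁) g(X₂)` over ordered partitions `X = X₁ ⊔ X₂` (restricted to `v`-additive
partitions for a superadditive `v`; `v = 0` is the usual algebra), and its invariants.
-/

namespace Pool.Agent.MPec220f

/-- a superadditive function on finite sets -/
structure SupAdd (Ω : Type*) [DecidableEq Ω] where
  v : Finset Ω → ℕ
  super : ∀ X Y, Disjoint X Y → v X + v Y ≤ v (X ∪ Y)

/-- the zero weight -/
def SupAdd.zero (Ω : Type*) [DecidableEq Ω] : SupAdd Ω where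
  v := fun _ => 0
  super := fun _ _ _ => le_rfl

variable {Ω : Type*} [DecidableEq Ω]

/-- all rational functions on finite subsets of `Ω` (with product depending on `V`) -/
def SF (_V : SupAdd Ω) : Type _ := Finset Ω → ℚ

namespace SF

variable {V : SupAdd Ω}

instance : AddCommGroup (SF V) := inferInstanceAs (AddCommGroup (Finset Ω → ℚ))
instance : Module ℚ (SF V) := inferInstanceAs (Module ℚ (Finset Ω → ℚ))

theorem add_app (f g : SF V) (X : Finset Ω) : (f + g) X = f X + g X := rfl
theorem smul_app (c : ℚ) (f : SF V) (X : Finset Ω) : (c • f) X = c * f X := rfl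
theorem zero_app (X : Finset Ω) : (0 : SF V) X = 0 := rfl

@[ext] theorem ext {f g : SF V} (h : ∀ X, f X = g X) : f = g := funext h

/-- the product -/
def mul (f g : SF V) : SF V := fun X =>
  ∑ A ∈ X.powerset, if V.v A + V.v (X \ A) = V.v X then f A * g (X \ A) else 0

/-- the unit -/
def one : SF V := fun X => if X = ∅ then 1 else 0

instance : Mul (SF V) := ⟨mul⟩
instance : One (SF V) := ⟨one⟩

theorem mul_app (f g : SF V) (X : Finset Ω) : (f * g) X =
    ∑ A ∈ X.powerset, if V.v A + V.v (X \ A) = V.v X then f A * g (X \ A) else 0 := rfl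

theorem one_app (X : Finset Ω) : (1 : SF V) X = if X = ∅ then 1 else 0 := rfl

theorem v_empty (V : SupAdd Ω) : V.v ∅ = 0 := by
  have := V.super ∅ ∅ (Finset.disjoint_empty_left _)
  simp at this
  exact this

theorem mul_comm' (f g : SF V) : f * g = g * f := by
  ext X
  rw [mul_app, mul_app]
  apply Finset.sum_nbij' (fun A => X \ A) (fun A => X \ A)
  · intro A _; simp
  · intro A _; simp
  · intro A hA
    rw [Finset.mem_powerset] at hA
    exact Finset.sdiff_sdiff_eq_self hA
  · intro A hA
    rw [Finset.mem_powerset] at hA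
    exact Finset.sdiff_sdiff_eq_self hA
  · intro A hA
    rw [Finset.mem_powerset] at hA
    rw [Finset.sdiff_sdiff_eq_self hA, add_comm, mul_comm]

theorem one_mul' (f : SF V) : 1 * f = f := by
  ext X
  rw [mul_app, Finset.sum_eq_single ∅]
  · simp [one_app, v_empty]
  · intro A _ hA
    simp [one_app, hA]
  · intro h; simp at h

theorem mul_assoc' (f g h : SF V) : f * g * h = f * (g * h) := by
  ext X
  rw [mul_app, mul_app]
  have e1 : ∀ A ∈ X.powerset, (if V.v A + V.v (X \ A) = V.v X then (f * g) A * h (X \ A) else 0)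
      = ∑ B ∈ A.powerset, if V.v B + V.v (A \ B) + V.v (X \ A) = V.v X then
        f B * g (A \ B) * h (X \ A) else 0 := by
    intro A hA
    rw [Finset.mem_powerset] at hA
    rw [mul_app, Finset.sum_mul]
    by_cases hv : V.v A + V.v (X \ A) = V.v X
    · rw [if_pos hv]
      apply Finset.sum_congr rfl
      intro B hB
      by_cases hB' : V.v B + V.v (A \ B) = V.v A
      · rw [if_pos hB', if_pos (by omega)]
      · rw [if_neg hB', if_neg (by omega), zero_mul]
    · rw [if_neg hv, eq_comm]
      apply Finset.sum_eq_zero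
      intro B hB
      rw [Finset.mem_powerset] at hB
      rw [if_neg]
      intro hh
      have s1 := V.super B (A \ B) Finset.disjoint_sdiff
      rw [Finset.union_sdiff_of_subset hB] at s1
      have s2 := V.super A (X \ A) Finset.disjoint_sdiff
      rw [Finset.union_sdiff_of_subset hA] at s2
      omega
  have e2 : ∀ B ∈ X.powerset, (if V.v B + V.v (X \ B) = V.v X then f B * (g * h) (X \ B) else 0)
      = ∑ C ∈ (X \ B).powerset, if V.v B + V.v C + V.v ((X \ B) \ C) = V.v X then
        f B * g C * h ((X \ B) \ C) else 0 := by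
    intro B hB
    rw [Finset.mem_powerset] at hB
    rw [mul_app, Finset.mul_sum]
    by_cases hv : V.v B + V.v (X \ B) = V.v X
    · rw [if_pos hv]
      apply Finset.sum_congr rfl
      intro C hC
      by_cases hC' : V.v C + V.v ((X \ B) \ C) = V.v (X \ B)
      · rw [if_pos hC', if_pos (by omega), mul_assoc]
      · rw [if_neg hC', if_neg (by omega), mul_zero]
    · rw [if_neg hv, eq_comm]
      apply Finset.sum_eq_zero
      intro C hC
      rw [Finset.mem_powerset] at hC
      rw [if_neg]
      intro hh
      have s1 := V.super C ((X \ B) \ C) Finset.disjoint_sdiff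
      rw [Finset.union_sdiff_of_subset hC] at s1
      have s2 := V.super B (X \ B) Finset.disjoint_sdiff
      rw [Finset.union_sdiff_of_subset hB] at s2
      omega
  rw [Finset.sum_congr rfl e1, Finset.sum_congr rfl e2, Finset.sum_sigma', Finset.sum_sigma']
  apply Finset.sum_nbij' (fun p => ⟨p.2, p.1 \ p.2⟩) (fun p => ⟨p.1 ∪ p.2, p.1⟩)
  · rintro ⟨A, B⟩ hp
    simp only [Finset.mem_sigma, Finset.mem_powerset] at hp ⊢
    exact ⟨hp.2.trans hp.1, Finset.sdiff_subset_sdiff hp.1 le_rfl⟩
  · rintro ⟨B, C⟩ hp
    simp only [Finset.mem_sigma, Finset.mem_powerset] at hp ⊢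
    exact ⟨Finset.union_subset hp.1 (hp.2.trans Finset.sdiff_subset), Finset.subset_union_left⟩
  · rintro ⟨A, B⟩ hp
    simp only [Finset.mem_sigma, Finset.mem_powerset] at hp ⊢
    rw [Finset.union_sdiff_of_subset hp.2]
  · rintro ⟨B, C⟩ hp
    simp only [Finset.mem_sigma, Finset.mem_powerset] at hp ⊢
    have : Disjoint B C := by
      rw [Finset.disjoint_left]
      intro a ha hc
      have := hp.2 hc
      rw [Finset.mem_sdiff] at this
      exact this.2 ha
    rw [Finset.union_sdiff_cancel_left this]
  · rintro ⟨A, B⟩ hp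
    simp only [Finset.mem_sigma, Finset.mem_powerset] at hp ⊢
    have : (X \ B) \ (A \ B) = X \ A := by
      ext a
      simp only [Finset.mem_sdiff]
      constructor
      · rintro ⟨⟨h1, h2⟩, h3⟩
        exact ⟨h1, fun h4 => h3 ⟨h4, h2⟩⟩
      · rintro ⟨h1, h2⟩
        exact ⟨⟨h1, fun h4 => h2 (hp.2 h4)⟩, fun h4 => h2 h4.1⟩
    rw [this]

theorem left_distrib' (f g h : SF V) : f * (g + h) = f * g + f * h := by
  ext X
  simp only [mul_app, add_app, ← Finset.sum_add_distrib]
  apply Finset.sum_congr rfl
  intro A _
  split_ifs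
  · ring
  · ring

theorem smul_mul' (c : ℚ) (f g : SF V) : (c • f) * g = c • (f * g) := by
  ext X
  simp only [mul_app, smul_app, Finset.mul_sum]
  apply Finset.sum_congr rfl
  intro A _
  split_ifs
  · ring
  · ring

instance : CommRing (SF V) :=
  { (inferInstance : AddCommGroup (SF V)) with
    mul := (· * ·)
    one := 1
    mul_assoc := mul_assoc'
    one_mul := one_mul'
    mul_one := fun f => by rw [mul_comm', one_mul']
    mul_comm := mul_comm'
    left_distrib := left_distrib'
    right_distrib := fun f g h => by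
      rw [mul_comm', left_distrib', mul_comm' h f, mul_comm' h g]
    zero_mul := fun f => by
      ext X
      rw [mul_app]
      apply Finset.sum_eq_zero
      intro A _
      split_ifs
      · rw [zero_app, zero_mul]
      · rfl
    mul_zero := fun f => by
      ext X
      rw [mul_app]
      apply Finset.sum_eq_zero
      intro A _
      split_ifs
      · rw [zero_app, mul_zero]
      · rfl }

instance : Algebra ℚ (SF V) := Algebra.ofModule smul_mul' (fun c f g => by
  rw [mul_comm, smul_mul', mul_comm])

theorem algebraMap_app (c : ℚ) (X : Finset Ω) :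
    (algebraMap ℚ (SF V) c) X = if X = ∅ then c else 0 := by
  rw [Algebra.algebraMap_eq_smul_one, smul_app, one_app]
  split_ifs <;> simp

instance : Nontrivial (SF V) := ⟨⟨0, 1, fun h => by
  have := congrFun h ∅
  rw [zero_app, one_app, if_pos rfl] at this
  exact zero_ne_one this⟩⟩

end SF

end Pool.Agent.MPec220f
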