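import Mathlib

/-!
The set algebra of a set `V`: functions on the finite subsets of `V` with the
convolution product over ordered partitions into two disjoint parts, and the
orbit algebra of a permutation group.
-/

namespace MPec220f

open Finset

/-- Functions from the finite subsets of `V` to the rationals. -/
def SetFun (V : Type) : Type := Finset V → ℚ

namespace SetFun

variable {V : Type}

instance : AddCommGroup (SetFun V) := inferInstanceAs (AddCommGroup (Finset V → ℚ))
instance : Module ℚ (SetFun V) := inferInstanceAs (Module ℚ (Finset V → ℚ))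

@[ext] theorem ext {f g : SetFun V} (h : ∀ S, f S = g S) : f = g := funext h

@[simp] theorem add_apply (f g : SetFun V) (S : Finset V) : (f + g) S = f S + g S := rfl
@[simp] theorem zero_apply (S : Finset V) : (0 : SetFun V) S = 0 := rfl
@[simp] theorem neg_apply (f : SetFun V) (S : Finset V) : (-f) S = - f S := rfl
@[simp] theorem smul_apply (c : ℚ) (f : SetFun V) (S : Finset V) : (c • f) S = c * f S := rfl

variable [DecidableEq V]

/-- The convolution product: `(f * g) S` is the sum of `f T * g (S \ T)` over
the subsets `T` of `S`. -/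
instance : Mul (SetFun V) := ⟨fun f g S => ∑ T ∈ S.powerset, f T * g (S \ T)⟩

instance : One (SetFun V) := ⟨fun S => if S = ∅ then 1 else 0⟩

theorem mul_apply (f g : SetFun V) (S : Finset V) :
    (f * g) S = ∑ T ∈ S.powerset, f T * g (S \ T) := rfl

theorem one_apply (S : Finset V) : (1 : SetFun V) S = if S = ∅ then 1 else 0 := rfl

theorem mul_comm' (f g : SetFun V) : f * g = g * f := by
  ext S
  rw [mul_apply, mul_apply]
  refine Finset.sum_nbij' (fun T => S \ T) (fun T => S \ T) ?_ ?_ ?_ ?_ ?_
  · intro T _; simp
  · intro T _; simp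
  · intro T hT; simp only [mem_powerset] at hT; simp [Finset.inter_eq_right.mpr hT]
  · intro T hT; simp only [mem_powerset] at hT; simp [Finset.inter_eq_right.mpr hT]
  · intro T hT
    simp only [mem_powerset] at hT
    rw [Finset.sdiff_sdiff_eq_self hT, mul_comm]

theorem one_mul' (f : SetFun V) : 1 * f = f := by
  ext S
  rw [mul_apply]
  rw [Finset.sum_eq_single ∅]
  · simp [one_apply]
  · intro T _ hT; simp [one_apply, hT]
  · intro h; simp at h

theorem mul_assoc' (f g h : SetFun V) : f * g * h = f * (g * h) := by
  ext S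
  simp only [mul_apply, Finset.sum_mul, Finset.mul_sum]
  rw [Finset.sum_sigma', Finset.sum_sigma']
  refine Finset.sum_nbij' (fun p => ⟨p.2, p.1 \ p.2⟩) (fun p => ⟨p.1 ∪ p.2, p.1⟩) ?_ ?_ ?_ ?_ ?_
  · rintro ⟨T, U⟩ hp
    simp only [mem_sigma, mem_powerset] at hp ⊢
    exact ⟨hp.2.trans hp.1, Finset.sdiff_subset_sdiff hp.1 (subset_refl _)⟩
  · rintro ⟨U, W⟩ hp
    simp only [mem_sigma, mem_powerset] at hp ⊢
    exact ⟨Finset.union_subset hp.1 (hp.2.trans Finset.sdiff_subset), Finset.subset_union_left⟩
  · rintro ⟨T, U⟩ hp
    simp only [mem_sigma, mem_powerset] at hp ⊢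
    rw [Finset.union_sdiff_of_subset hp.2]
  · rintro ⟨U, W⟩ hp
    simp only [mem_sigma, mem_powerset] at hp ⊢
    have hd : Disjoint U W := by
      rw [Finset.disjoint_left]
      intro a ha hb
      exact (Finset.mem_sdiff.mp (hp.2 hb)).2 ha
    have : (U ∪ W) \ U = W := by
      rw [Finset.union_sdiff_left, Finset.sdiff_eq_self_iff_disjoint.mpr hd.symm]
    rw [this]
  · rintro ⟨T, U⟩ hp
    simp only [mem_sigma, mem_powerset] at hp ⊢
    have : (S \ U) \ (T \ U) = S \ T := by
      ext a
      simp only [Finset.mem_sdiff]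
      constructor
      · rintro ⟨⟨h1, h2⟩, h3⟩
        exact ⟨h1, fun h4 => h3 ⟨h4, h2⟩⟩
      · rintro ⟨h1, h2⟩
        exact ⟨⟨h1, fun h3 => h2 (hp.2 h3)⟩, fun h3 => h2 h3.1⟩
    rw [this, mul_assoc]

instance : CommRing (SetFun V) :=
  { (inferInstance : AddCommGroup (SetFun V)) with
    mul := (· * ·)
    one := 1
    mul_assoc := mul_assoc'
    one_mul := one_mul'
    mul_one := fun f => by rw [mul_comm', one_mul']
    mul_comm := mul_comm'
    left_distrib := fun f g h => by
      ext S
      simp only [mul_apply, add_apply, mul_add, Finset.sum_add_distrib]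
    right_distrib := fun f g h => by
      ext S
      simp only [mul_apply, add_apply, add_mul, Finset.sum_add_distrib]
    zero_mul := fun f => by ext S; simp [mul_apply]
    mul_zero := fun f => by ext S; simp [mul_apply] }

instance : Algebra ℚ (SetFun V) :=
  Algebra.ofModule
    (fun c f g => by
      ext S
      simp only [mul_apply, smul_apply, Finset.mul_sum, mul_assoc])
    (fun c f g => by
      ext S
      simp only [mul_apply, smul_apply, Finset.mul_sum]
      refine Finset.sum_congr rfl fun T _ => by ring)

theorem algebraMap_apply (c : ℚ) (S : Finset V) :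
    (algebraMap ℚ (SetFun V) c) S = if S = ∅ then c else 0 := by
  rw [Algebra.algebraMap_eq_smul_one, smul_apply, one_apply]
  split_ifs <;> simp

end SetFun

variable {V : Type} [DecidableEq V]

/-- The orbit algebra of a permutation group `G` on `V`: the invariant
functions of bounded degree. -/
def orbitAlgebra (G : Subgroup (Equiv.Perm V)) : Subalgebra ℚ (SetFun V) where
  carrier := {f | (∀ g ∈ G, ∀ S : Finset V, f (S.image g) = f S) ∧
    ∃ N : ℕ, ∀ S : Finset V, N < S.card → f S = 0}
  mul_mem' := by
    rintro f h ⟨hf, N, hN⟩ ⟨hh, M, hM⟩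
    refine ⟨?_, N + M, ?_⟩
    · intro g hg S
      rw [SetFun.mul_apply, SetFun.mul_apply]
      refine (Finset.sum_nbij' (fun T => T.image g) (fun T => T.image g.symm) ?_ ?_ ?_ ?_ ?_).symm
      · intro T hT
        simp only [mem_powerset] at hT ⊢
        exact Finset.image_subset_image hT
      · intro T hT
        simp only [mem_powerset] at hT ⊢
        intro x hx
        obtain ⟨y, hy, rfl⟩ := Finset.mem_image.mp hx
        obtain ⟨z, hz, rfl⟩ := Finset.mem_image.mp (hT hy)
        simpa using hz
      · intro T _
        rw [Finset.image_image]; simp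
      · intro T _
        rw [Finset.image_image]; simp
      · intro T _
        rw [hf g hg T, ← Finset.image_sdiff _ _ g.injective, hh g hg]
    · intro S hS
      rw [SetFun.mul_apply]
      refine Finset.sum_eq_zero fun T hT => ?_
      by_cases h1 : N < T.card
      · rw [hN T h1, zero_mul]
      · have h2 : M < (S \ T).card := by
          rw [Finset.card_sdiff_of_subset (mem_powerset.mp hT)]
          have := Finset.card_le_card (mem_powerset.mp hT)
          omega
        rw [hM _ h2, mul_zero]
  add_mem' := by
    rintro f h ⟨hf, N, hN⟩ ⟨hh, M, hM⟩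
    refine ⟨fun g hg S => ?_, max N M, fun S hS => ?_⟩
    · simp [hf g hg S, hh g hg S]
    · simp [hN S (lt_of_le_of_lt (le_max_left _ _) hS), hM S (lt_of_le_of_lt (le_max_right _ _) hS)]
  algebraMap_mem' := by
    intro c
    refine ⟨fun g hg S => ?_, 0, fun S hS => ?_⟩
    · simp [SetFun.algebraMap_apply]
    · rw [SetFun.algebraMap_apply, if_neg]
      rintro rfl
      simp at hS

theorem mem_orbitAlgebra {G : Subgroup (Equiv.Perm V)} {f : SetFun V} :
    f ∈ orbitAlgebra G ↔ (∀ g ∈ G, ∀ S : Finset V, f (S.image g) = f S) ∧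
      ∃ N : ℕ, ∀ S : Finset V, N < S.card → f S = 0 := Iff.rfl

end MPec220f
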