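import Pool.Agent.Lib_MP_ec220f_lc.Key

/-!
Codes, the acceptance process, its consistency and its locality.
-/

namespace MPec220f

open Finset Function

open scoped Classical in
section

variable {V : Type}

/-- The order on the doubled vertex set: the left side first, each side ordered by
its labelling. -/
def LT2 (lam0 lam : V → ℕ) : V ⊕ V → V ⊕ V → Prop
  | Sum.inl a, Sum.inl b => lam0 a < lam0 b
  | Sum.inl _, Sum.inr _ => True
  | Sum.inr _, Sum.inl _ => False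
  | Sum.inr a, Sum.inr b => lam a < lam b

theorem LT2.irrefl {lam0 lam : V → ℕ} (u : V ⊕ V) : ¬ LT2 lam0 lam u u := by
  rcases u with a | a <;> simp [LT2]

theorem LT2.trans {lam0 lam : V → ℕ} {u v w : V ⊕ V} (h1 : LT2 lam0 lam u v)
    (h2 : LT2 lam0 lam v w) : LT2 lam0 lam u w := by
  rcases u with a | a <;> rcases v with b | b <;> rcases w with c | c <;>
    simp only [LT2] at h1 h2 ⊢ <;> omega

theorem LT2.total {lam0 lam : V → ℕ} (h0 : Injective lam0) (h1 : Injective lam) {u v : V ⊕ V}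
    (h : u ≠ v) : LT2 lam0 lam u v ∨ LT2 lam0 lam v u := by
  rcases u with a | a <;> rcases v with b | b <;> simp only [LT2, or_true, true_or]
  · exact lt_or_gt_of_ne fun hh => h (by rw [h0 hh])
  · exact lt_or_gt_of_ne fun hh => h (by rw [h1 hh])

/-- The rank of `u` in the set `R`. -/
noncomputable def rk (lam0 lam : V → ℕ) (R : Finset (V ⊕ V)) (u : V ⊕ V) : ℕ :=
  (R.filter fun v => LT2 lam0 lam v u).card

theorem rk_lt {lam0 lam : V → ℕ} {R : Finset (V ⊕ V)} {u v : V ⊕ V} (hu : u ∈ R)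
    (h : LT2 lam0 lam u v) : rk lam0 lam R u < rk lam0 lam R v := by
  refine Finset.card_lt_card ?_
  rw [Finset.ssubset_iff_of_subset]
  · exact ⟨u, Finset.mem_filter.mpr ⟨hu, h⟩, fun hh => LT2.irrefl u (Finset.mem_filter.mp hh).2⟩
  · intro w hw
    obtain ⟨h1, h2⟩ := Finset.mem_filter.mp hw
    exact Finset.mem_filter.mpr ⟨h1, h2.trans h⟩

theorem rk_inj {lam0 lam : V → ℕ} (h0 : Injective lam0) (h1 : Injective lam)
    {R : Finset (V ⊕ V)} {u v : V ⊕ V} (hu : u ∈ R) (hv : v ∈ R)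
    (h : rk lam0 lam R u = rk lam0 lam R v) : u = v := by
  by_contra hne
  rcases LT2.total h0 h1 hne with h2 | h2
  · exact absurd h (rk_lt hu h2).ne
  · exact absurd h (rk_lt hv h2).ne'

theorem rk_image {lam0 lam lam' : V → ℕ} {R R' : Finset (V ⊕ V)} {e : V ⊕ V → V ⊕ V}
    (he : Injective e) (hR' : ∀ w, w ∈ R' ↔ ∃ u ∈ R, e u = w)
    (ho : ∀ u ∈ R, ∀ v ∈ R, LT2 lam0 lam u v ↔ LT2 lam0 lam' (e u) (e v))
    {u : V ⊕ V} (hu : u ∈ R) : rk lam0 lam' R' (e u) = rk lam0 lam R u := by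
  have hc := Finset.card_image_of_injective (R.filter fun v => LT2 lam0 lam v u) he
  rw [rk, rk, ← hc]
  congr 1
  ext w
  rw [mem_filter, mem_image, hR']
  constructor
  · rintro ⟨⟨v, hv, hvw⟩, h⟩
    subst hvw
    exact ⟨v, Finset.mem_filter.mpr ⟨hv, (ho v hv u hu).mpr h⟩, rfl⟩
  · rintro ⟨v, hv, hvw⟩
    subst hvw
    obtain ⟨hv1, hv2⟩ := Finset.mem_filter.mp hv
    exact ⟨⟨v, hv1, rfl⟩, (ho v hv1 u hu).mp hv2⟩

theorem mem_roots_map {U U' : Type} {e : U → U'} {P : Pat U} {u' : U'} :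
    u' ∈ (P.map e).roots ↔ ∃ u ∈ P.roots, e u = u' := by
  rw [Pat.roots_map, Finset.mem_image]

theorem image_map_A {U U' X : Type} [DecidableEq X] (e : U → U') (P : Pat U)
    (f : ℕ × U' → X) : (P.map e).A.image f = P.A.image fun p => f (p.1, e p.2) := by
  simp only [Pat.map, Finset.image_image]
  rfl

/-- The code of a pattern. -/
noncomputable def code (lam0 lam : V → ℕ) (P : Pat (V ⊕ V)) : ℕ :=
  Encodable.encode ((P.I, P.E, P.A.image fun p => (p.1, rk lam0 lam P.roots p.2)) :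
    Finset ℕ × Finset (ℕ × ℕ) × Finset (ℕ × ℕ))

theorem code_inj {lam0 lam : V → ℕ} (h0 : Injective lam0) (h1 : Injective lam)
    {P Q : Pat (V ⊕ V)} (hr : P.roots = Q.roots) (h : code lam0 lam P = code lam0 lam Q) :
    P = Q := by
  have h2 := Encodable.encode_injective h
  simp only [Prod.mk.injEq] at h2
  obtain ⟨hI, hE, hA⟩ := h2
  refine Pat.ext' hI hE ?_
  have key : ∀ P Q : Pat (V ⊕ V), P.roots = Q.roots →
      P.A.image (fun p => (p.1, rk lam0 lam P.roots p.2)) =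
        Q.A.image (fun p => (p.1, rk lam0 lam Q.roots p.2)) → P.A ⊆ Q.A := by
    rintro P Q hr hA ⟨i, u⟩ hp
    have h3 : (i, rk lam0 lam P.roots u) ∈ P.A.image (fun p => (p.1, rk lam0 lam P.roots p.2)) :=
      Finset.mem_image.mpr ⟨(i, u), hp, rfl⟩
    rw [hA] at h3
    obtain ⟨⟨j, v⟩, hq, h4⟩ := Finset.mem_image.mp h3
    simp only [Prod.mk.injEq] at h4
    obtain ⟨h4, h5⟩ := h4
    rw [hr] at h5
    have hv : v ∈ Q.roots := Pat.mem_roots.mpr ⟨j, hq⟩
    have hu : u ∈ Q.roots := hr ▸ Pat.mem_roots.mpr ⟨i, hp⟩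
    have := rk_inj h0 h1 hv hu h5
    rw [← h4, ← this]
    exact hq
  exact subset_antisymm (key P Q hr hA) (key Q P hr.symm hA.symm)

theorem code_map {lam0 lam lam' : V → ℕ} {P : Pat (V ⊕ V)} {e : V ⊕ V → V ⊕ V}
    (he : Injective e)
    (ho : ∀ u ∈ P.roots, ∀ v ∈ P.roots, LT2 lam0 lam u v ↔ LT2 lam0 lam' (e u) (e v)) :
    code lam0 lam' (P.map e) = code lam0 lam P := by
  rw [code, code]
  congr 1
  simp only [Pat.map_I, Pat.map_E, Prod.mk.injEq, true_and]
  rw [image_map_A]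
  refine Finset.image_congr ?_
  rintro ⟨i, u⟩ hp
  simp only [Prod.mk.injEq, true_and]
  exact rk_image he (fun w => mem_roots_map) ho (Pat.mem_roots.mpr ⟨i, hp⟩)

/-- The doubled map: the identity on the left, `g` on the right. -/
def dm (g : V → V) : V ⊕ V → V ⊕ V := Sum.map id g

theorem dm_inj {g : V → V} (hg : Injective g) : Injective (dm g) := by
  rintro (a | a) (b | b) h <;> simp only [dm, Sum.map_inl, Sum.map_inr, id] at h
  · exact h
  · exact absurd h (by simp)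
  · exact absurd h (by simp)
  · rw [hg (Sum.inr.inj h)]

theorem MV_map {g : V → V} {P : Pat (V ⊕ V)} {i : ℕ} : (P.map (dm g)).MV i ↔ P.MV i := by
  constructor
  · rintro ⟨v, hv⟩
    obtain ⟨u, hu, h⟩ := Pat.mem_map_A.mp hv
    rcases u with a | a
    · exact ⟨a, hu⟩
    · simp [dm] at h
  · rintro ⟨v, hv⟩
    exact ⟨v, Pat.mem_map_A.mpr ⟨_, hv, rfl⟩⟩

theorem NV_map {g : V → V} {P : Pat (V ⊕ V)} {i : ℕ} : (P.map (dm g)).NV i ↔ P.NV i := by
  constructor
  · rintro ⟨v, hv⟩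
    obtain ⟨u, hu, h⟩ := Pat.mem_map_A.mp hv
    rcases u with a | a
    · simp [dm] at h
    · exact ⟨a, hu⟩
  · rintro ⟨v, hv⟩
    exact ⟨g v, Pat.mem_map_A.mpr ⟨_, hv, rfl⟩⟩

theorem Two_map {g : V → V} {P : Pat (V ⊕ V)} : (P.map (dm g)).Two ↔ P.Two := by
  simp only [Pat.Two, MV_map, NV_map]

theorem ell_map {g : V → V} {P : Pat (V ⊕ V)} : (P.map (dm g)).ell = P.ell := by
  simp only [Pat.ell, MV_map, NV_map, Pat.map_g]

theorem sum_map_A {U U' : Type} {e : U → U'} (he : Injective e) (P : Pat U) (f : ℕ × U' → ℕ) :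
    ∑ p ∈ (P.map e).A, f p = ∑ p ∈ P.A, f (p.1, e p.2) := by
  simp only [Pat.map]
  rw [Finset.sum_image]
  rintro ⟨i, u⟩ _ ⟨j, v⟩ _ h
  simp only [Prod.mk.injEq] at h ⊢
  exact ⟨h.1, he h.2⟩

theorem kap_map {g : V → V} (hg : Injective g) {m : ℕ} {P : Pat (V ⊕ V)} :
    (P.map (dm g)).kap m = P.kap m := by
  have h1 : (P.map (dm g)).Centre = P.Centre := by
    ext i
    simp only [Pat.Centre, MV_map, NV_map, Pat.map_g, ell_map]
  have h2 : ∀ x, (P.map (dm g)).pot m x = P.pot m x := by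
    intro x
    simp only [Pat.pot, Pat.map_I, Pat.map_g]
    congr 1
    rw [sum_map_A (dm_inj hg)]
  have h3 : (P.map (dm g)).pot m = P.pot m := funext h2
  simp only [Pat.kap, ell_map, Pat.Phi, h1, h3, Pat.map_I]

/-- The full key of a pattern. -/
noncomputable def key (m : ℕ) (lam0 lam : V → ℕ) (P : Pat (V ⊕ V)) : ℕ ×ₗ ℕ :=
  toLex (P.kap m, code lam0 lam P)

theorem key_map {m : ℕ} {lam0 lam lam' : V → ℕ} {P : Pat (V ⊕ V)} {g : V → V}
    (hg : Injective g)
    (ho : ∀ u ∈ P.roots, ∀ v ∈ P.roots, LT2 lam0 lam u v ↔ LT2 lam0 lam' (dm g u) (dm g v)) :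
    key m lam0 lam' (P.map (dm g)) = key m lam0 lam P := by
  rw [key, key, kap_map hg, code_map (dm_inj hg) ho]

theorem key_lt_of_kap {m : ℕ} {lam0 lam : V → ℕ} {P Q : Pat (V ⊕ V)} (h : P.kap m < Q.kap m) :
    key m lam0 lam P < key m lam0 lam Q := by
  rw [key, key, Prod.Lex.toLex_lt_toLex]
  exact Or.inl h

theorem key_eq {m : ℕ} {lam0 lam : V → ℕ} (h0 : Injective lam0) (h1 : Injective lam)
    {P Q : Pat (V ⊕ V)} (hr : P.roots = Q.roots) (h : key m lam0 lam P = key m lam0 lam Q) :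
    P = Q := by
  have := toLex.injective h
  exact code_inj h0 h1 hr (Prod.mk.inj this).2

/-- Candidates: good two-sided patterns. -/
def Cand (m : ℕ) (P : Pat (V ⊕ V)) : Prop := P.Good m ∧ P.Two

/-- The accepted patterns, by recursion on the key. -/
noncomputable def Accp (𝓕 : Set TG) (Γ : SimpleGraph V) (m : ℕ) (lam0 lam : V → ℕ) :
    Pat (V ⊕ V) → Prop :=
  WellFounded.fix (InvImage.wf (key m lam0 lam) wellFounded_lt) fun P ih =>
    Cand m P ∧ HF 𝓕 (attach (dbl Γ) (insert P {P' | ∃ h : key m lam0 lam P' < key m lam0 lam P,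
      ih P' h}))

/-- Accepted patterns with key below `κ`. -/
def below (𝓕 : Set TG) (Γ : SimpleGraph V) (m : ℕ) (lam0 lam : V → ℕ) (κ : ℕ ×ₗ ℕ) :
    Set (Pat (V ⊕ V)) := {P | key m lam0 lam P < κ ∧ Accp 𝓕 Γ m lam0 lam P}

theorem accp_iff {𝓕 : Set TG} {Γ : SimpleGraph V} {m : ℕ} {lam0 lam : V → ℕ}
    {P : Pat (V ⊕ V)} : Accp 𝓕 Γ m lam0 lam P ↔
      Cand m P ∧ HF 𝓕 (attach (dbl Γ) (insert P (below 𝓕 Γ m lam0 lam (key m lam0 lam P)))) := by
  rw [Accp, WellFounded.fix_eq]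
  simp only [below, Accp, exists_prop]

variable {𝓕 : Set TG} {Γ : SimpleGraph V} {m : ℕ} {lam0 lam : V → ℕ}

/-- A candidate which holds together with the smaller accepted ones is accepted. -/
theorem accp_of_holds {W : Type} {H : SimpleGraph W} (hH : HF 𝓕 H) {e : V ⊕ V → W}
    (he : ∀ u v, (dbl Γ).Adj u v → H.Adj (e u) (e v)) {Q : Pat (V ⊕ V)} (hQ : Cand m Q)
    (hb : ∀ P ∈ below 𝓕 Γ m lam0 lam (key m lam0 lam Q), Holds H e P) (hh : Holds H e Q) :
    Accp 𝓕 Γ m lam0 lam Q := by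
  rw [accp_iff]
  refine ⟨hQ, ?_⟩
  obtain ⟨k, hk, -⟩ := attach_hom (B := dbl Γ)
    (S := insert Q (below 𝓕 Γ m lam0 lam (key m lam0 lam Q))) (hh.choose 0) he (by
      rintro P (rfl | hP)
      · exact hh
      · exact hb P hP)
  exact hH.of_hom k hk

theorem TG.exists_adj (F : TG) : ∃ i j, F.G.Adj i j := by
  have h0 : 0 < F.n := lt_of_lt_of_le (by norm_num) F.two
  have h1 : 1 < F.n := lt_of_lt_of_le (by norm_num) F.two
  obtain ⟨w⟩ := F.conn 0 h0 1 h1
  cases w with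
  | cons hadj _ => exact ⟨_, _, hadj⟩

theorem hf_dbl (h : HF 𝓕 Γ) : HF 𝓕 (dbl Γ) := by
  intro F hF f hf
  have key : ∀ a b (w : F.G.Walk a b),
      ((∃ x, f a = Sum.inl x) ↔ (∃ x, f b = Sum.inl x)) := by
    intro a b w
    induction w with
    | nil => exact Iff.rfl
    | cons hadj _ ih =>
      rw [← ih]
      have h1 := hf _ _ hadj
      constructor
      · rintro ⟨x, hx⟩
        rw [hx] at h1
        rcases h2 : f _ with y | y
        · exact ⟨y, rfl⟩
        · rw [h2] at h1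
          exact (show False from h1).elim
      · rintro ⟨x, hx⟩
        rw [hx] at h1
        rcases h2 : f _ with y | y
        · exact ⟨y, rfl⟩
        · rw [h2] at h1
          exact (show False from h1).elim
  have h0 : 0 < F.n := lt_of_lt_of_le (by norm_num) F.two
  refine h F hF (fun i => Sum.elim id id (f i)) fun i j hij => ?_
  have h1 := hf i j hij
  rcases h2 : f i with x | x <;> rcases h3 : f j with y | y <;> rw [h2, h3] at h1
  · simpa [h2, h3] using h1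
  · exact (show False from h1).elim
  · exact (show False from h1).elim
  · simpa [h2, h3] using h1

theorem hf_attach_empty (h : HF 𝓕 Γ) : HF 𝓕 (attach (dbl Γ) (∅ : Set (Pat (V ⊕ V)))) := by
  intro F hF f hf
  obtain ⟨i, j, hij⟩ := F.exists_adj
  have h1 := hf i j hij
  have hw : Nonempty (V ⊕ V) := by
    rcases h2 : f i with x | p
    · exact ⟨x⟩
    · rw [h2] at h1
      rcases h3 : f j with y | q
      · exact ⟨y⟩
      · rw [h3] at h1
        exact (show p.1 ∈ (∅ : Set (Pat (V ⊕ V))) from h1.2.1).elim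
  obtain ⟨w0⟩ := hw
  obtain ⟨k, hk, -⟩ := attach_hom (B := dbl Γ) (S := (∅ : Set (Pat (V ⊕ V)))) (H := dbl Γ)
    (e := fun u => u) w0 (fun _ _ h => h) (fun P hP => (show False from hP).elim)
  exact (hf_dbl h).of_hom k hk F hF f hf

theorem hf_finite {U : Type} {B : SimpleGraph U} {S : Set (Pat U)}
    (h : ∀ T : Finset (Pat U), (T : Set (Pat U)) ⊆ S → HF 𝓕 (attach B (T : Set (Pat U)))) :
    HF 𝓕 (attach B S) := by
  intro F hF f hf
  set T : Finset (Pat U) := (range F.n).biUnion fun i => match f i with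
    | Sum.inl _ => ∅
    | Sum.inr p => if p.1 ∈ S then {p.1} else ∅ with hT
  have hmem : ∀ i < F.n, ∀ p : Pat U × ℕ, f i = Sum.inr p → p.1 ∈ S → p.1 ∈ T := by
    intro i hi p hp hS
    rw [hT, Finset.mem_biUnion]
    refine ⟨i, Finset.mem_range.mpr hi, ?_⟩
    rw [hp]
    simp [hS]
  have hTS : (T : Set (Pat U)) ⊆ S := by
    intro P hP
    rw [Finset.mem_coe, hT, Finset.mem_biUnion] at hP
    obtain ⟨i, -, hi⟩ := hP
    rcases h2 : f i with x | p
    · rw [h2] at hi; simp at hi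
    · rw [h2] at hi
      by_cases h3 : p.1 ∈ S
      · simp only [if_pos h3, Finset.mem_singleton] at hi
        rw [hi]; exact h3
      · simp only [if_neg h3, Finset.notMem_empty] at hi
  refine h T hTS F hF f fun i j hij => ?_
  have h1 := hf i j hij
  have hi := F.lt _ _ hij
  have hj := F.lt _ _ hij.symm
  rcases h2 : f i with x | p <;> rcases h3 : f j with y | q <;> rw [h2, h3] at h1
  · exact h1
  · exact ⟨hmem j hj q h3 h1.1, h1.2⟩
  · exact ⟨hmem i hi p h2 h1.1, h1.2⟩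
  · exact ⟨h1.1, hmem i hi p h2 h1.2.1, h1.2.2⟩

/-- One-sided patterns which hold in a hom-free attached graph hold in the base. -/
theorem one_sided (hEC : EC 𝓕 Γ) {S : Set (Pat (V ⊕ V))} (hS : HF 𝓕 (attach (dbl Γ) S))
    {Q : Pat (V ⊕ V)} (hQ : ¬ Q.Two) (hh : Holds (attach (dbl Γ) S) Sum.inl Q) :
    Holds (dbl Γ) (fun u => u) Q := by
  obtain ⟨φ, h1, h2⟩ := hh
  by_cases hN : ∃ i, Q.NV i
  · have hM : ∀ i, ¬ Q.MV i := fun i hi => hQ ⟨⟨i, hi⟩, hN⟩
    obtain ⟨k, hk1, hk2, hk3⟩ := hEC _ _ hS (fun v => Sum.inl (Sum.inr v))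
      (fun a b h => by simpa using h) (fun a b => Iff.rfl)
      (Q.I.image φ ∪ Q.roots.image Sum.inl)
    refine ⟨fun i => Sum.inr (k (φ i)), fun i j hij => ?_, fun i u hu => ?_⟩
    · have hi := (Pat.g_mem hij).1
      have hj := (Pat.g_mem hij).2
      exact (hk2 _ (Finset.mem_union_left _ (Finset.mem_image_of_mem _ hi)) _
        (Finset.mem_union_left _ (Finset.mem_image_of_mem _ hj))).mpr (h1 i j hij)
    · have hi := Q.hA _ hu
      rcases u with v | v
      · exact absurd ⟨v, hu⟩ (hM i)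
      · have hr : Sum.inl (Sum.inr v) ∈ Q.I.image φ ∪ Q.roots.image Sum.inl :=
          Finset.mem_union_right _ (Finset.mem_image_of_mem _ (Pat.mem_roots.mpr ⟨i, hu⟩))
        have h3 := (hk2 _ hr _
          (Finset.mem_union_left _ (Finset.mem_image_of_mem _ hi))).mpr (h2 i _ hu)
        rw [hk3 v hr] at h3
        exact h3
  · have hN' : ∀ i, ¬ Q.NV i := fun i hi => hN ⟨i, hi⟩
    obtain ⟨k, hk1, hk2, hk3⟩ := hEC _ _ hS (fun v => Sum.inl (Sum.inl v))
      (fun a b h => by simpa using h) (fun a b => Iff.rfl)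
      (Q.I.image φ ∪ Q.roots.image Sum.inl)
    refine ⟨fun i => Sum.inl (k (φ i)), fun i j hij => ?_, fun i u hu => ?_⟩
    · have hi := (Pat.g_mem hij).1
      have hj := (Pat.g_mem hij).2
      exact (hk2 _ (Finset.mem_union_left _ (Finset.mem_image_of_mem _ hi)) _
        (Finset.mem_union_left _ (Finset.mem_image_of_mem _ hj))).mpr (h1 i j hij)
    · have hi := Q.hA _ hu
      rcases u with v | v
      · have hr : Sum.inl (Sum.inl v) ∈ Q.I.image φ ∪ Q.roots.image Sum.inl :=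
          Finset.mem_union_right _ (Finset.mem_image_of_mem _ (Pat.mem_roots.mpr ⟨i, hu⟩))
        have h3 := (hk2 _ hr _
          (Finset.mem_union_left _ (Finset.mem_image_of_mem _ hi))).mpr (h2 i _ hu)
        rw [hk3 v hr] at h3
        exact h3
      · exact absurd ⟨v, hu⟩ (hN' i)

/-- Two-sided patterns which hold injectively in an attached graph of accepted
patterns are accepted with smaller key, or are copies of one of them. -/
theorem key_cases {S : Set (Pat (V ⊕ V))} (hS : HF 𝓕 (attach (dbl Γ) S)) {κ : ℕ ×ₗ ℕ}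
    (hbS : below 𝓕 Γ m lam0 lam κ ⊆ S) (hSκ : ∀ s ∈ S, key m lam0 lam s ≤ κ)
    {Q : Pat (V ⊕ V)} (hQ : Q.Good m) (hT : Q.Two) {φ : ℕ → (V ⊕ V) ⊕ (Pat (V ⊕ V) × ℕ)}
    (hφ : InjHolds (attach (dbl Γ) S) Q.roots Q φ) :
    Q ∈ below 𝓕 Γ m lam0 lam κ ∨ ∃ s ∈ S, s.roots = Q.roots ∧
      ∀ (W' : Type) (H : SimpleGraph W') (e : V ⊕ V → W'), Holds H e s → Holds H e Q := by
  obtain ⟨s, hs, h | h⟩ := key_lemma hQ hT hφ
  · left
    have h1 : key m lam0 lam Q < κ := lt_of_lt_of_le (key_lt_of_kap h) (hSκ s hs)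
    refine ⟨h1, accp_of_holds hS (e := Sum.inl) (fun _ _ h => h) ⟨hQ, hT⟩ ?_ ⟨φ, hφ.1, hφ.2.1⟩⟩
    intro P hP
    exact holds_attach (hbS ⟨hP.1.trans h1, hP.2⟩)
  · exact Or.inr ⟨s, hs, h.2⟩

end

end MPec220f
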